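import Pool.Agent.P.MP_33ab4b_ag.B.IfaceA

section

/-! Step CBA1. -/

set_option autoImplicit false
set_option linter.unusedSectionVars false
set_option linter.unusedVariables false

namespace Pool.Agent.P.MP_33ab4b_ag.B

open Pool.Agent.P.MP_33ab4b_ag.T hiding tri

namespace CBA1x

variable {K : Type} [Field K] [LinearOrder K] [IsStrictOrderedRing K] {n : ℕ}

/-- three standard vectors with independent images -/
theorem three (hf : HF K) {Om : Submodule K (Vec K n)} (hO : SSub Om)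
    (φ : Vec K n →ₗ[K] Vec K 3) {a b c : Vec K n} (ha : a ∈ Om) (hb : b ∈ Om) (hc : c ∈ Om)
    (h : det3 (φ a) (φ b) (φ c) ≠ 0) :
    ∃ a' ∈ Om, ∃ b' ∈ Om, ∃ c' ∈ Om, VS a' ∧ VS b' ∧ VS c' ∧ det3 (φ a') (φ b') (φ c') ≠ 0 := by
  obtain ⟨c', hc', sc, h1⟩ := hO.exists_std hf (detL (φ a) (φ b) ∘ₗ φ) hc h
  replace h1 : det3 (φ c') (φ a) (φ b) ≠ 0 := by rw [← det3_rot]; exact h1
  obtain ⟨b', hb', sb, h2⟩ := hO.exists_std hf (detL (φ c') (φ a) ∘ₗ φ) hb h1
  replace h2 : det3 (φ b') (φ c') (φ a) ≠ 0 := by rw [← det3_rot]; exact h2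
  obtain ⟨a', ha', sa, h3⟩ := hO.exists_std hf (detL (φ b') (φ c') ∘ₗ φ) ha h2
  exact ⟨a', ha', b', hb', c', hc', sa, sb, sc, by rw [← det3_rot]; exact h3⟩

/-- the map with columns `a, b, c` -/
def cols (a b c : Vec K n) : Vec K 3 →ₗ[K] Vec K n :=
  (LinearMap.proj 0).smulRight a + (LinearMap.proj 1).smulRight b + (LinearMap.proj 2).smulRight c

theorem cols_apply (a b c : Vec K n) (x : Vec K 3) :
    cols a b c x = x 0 • a + x 1 • b + x 2 • c := rfl

/-- the inverse of the matrix with columns `a, b, c` -/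
def coo (a b c : Vec K 3) : Vec K 3 →ₗ[K] Vec K 3 :=
  (det3 a b c)⁻¹ • LinearMap.pi ![detL b c, detL c a, detL a b]

theorem cols_coo {a b c : Vec K 3} (h : det3 a b c ≠ 0) (x : Vec K 3) :
    cols a b c (coo a b c x) = x := by
  have e0 : coo a b c x 0 = (det3 a b c)⁻¹ * det3 b c x := rfl
  have e1 : coo a b c x 1 = (det3 a b c)⁻¹ * det3 c a x := rfl
  have e2 : coo a b c x 2 = (det3 a b c)⁻¹ * det3 a b x := rfl
  have e := cramer a b c x
  rw [← det3_rot x b c, ← det3_rot a x c, ← det3_rot x c a] at e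
  rw [cols_apply, e0, e1, e2, mul_smul, mul_smul, mul_smul, ← smul_add, ← smul_add, ← e, smul_smul,
    inv_mul_cancel₀ h, one_smul]

theorem coo_cols {a b c : Vec K 3} (h : det3 a b c ≠ 0) (x : Vec K 3) :
    coo a b c (cols a b c x) = x := by
  have e0 : ∀ x, coo a b c x 0 = (det3 a b c)⁻¹ * detL b c x := fun _ => rfl
  have e1 : ∀ x, coo a b c x 1 = (det3 a b c)⁻¹ * detL c a x := fun _ => rfl
  have e2 : ∀ x, coo a b c x 2 = (det3 a b c)⁻¹ * detL a b x := fun _ => rfl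
  funext i
  fin_cases i
  · refine (e0 _).trans ?_
    simp [cols_apply]
    field_simp
    simp [det3]
    ring
  · refine (e1 _).trans ?_
    simp [cols_apply]
    field_simp
    simp [det3]
    ring
  · refine (e2 _).trans ?_
    simp [cols_apply]
    field_simp
    simp [det3]
    ring

/-- standard coordinates on a complement of the kernel -/
theorem split (hf : HF K) {Om R : Submodule K (Vec K n)} (hO : SSub Om) (hR : SSub R)
    (φ : Vec K n →ₗ[K] Vec K 3) (hφ : ∀ x, x ∈ R ↔ φ x = 0) {a b c : Vec K n} (ha : a ∈ Om)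
    (hb : b ∈ Om) (hc : c ∈ Om) (h : det3 (φ a) (φ b) (φ c) ≠ 0) :
    ∃ (j : Vec K 3 →ₗ[K] Vec K n) (r : Vec K n →ₗ[K] Vec K 3),
      (∀ x, VS x → VS (j x)) ∧ (∀ x, VA hf x → VA hf (j x)) ∧ (∀ x, VA hf x → VA hf (r x)) ∧
      (∀ x, j x ∈ Om) ∧ (∀ x, x - j (r x) ∈ R) ∧ ∀ x, r (j x) = x := by
  obtain ⟨a, ha, b, hb, c, hc, sa, sb, sc, h⟩ := three hf hO φ ha hb hc h
  have hφj : ∀ x, φ (cols a b c x) = cols (φ a) (φ b) (φ c) x := fun x => by
    simp only [cols_apply, map_add, map_smul]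
  set r : Vec K n →ₗ[K] Vec K 3 := coo (φ a) (φ b) (φ c) ∘ₗ φ with hr
  have h1 : ∀ x, x - cols a b c (r x) ∈ R := fun x => by
    rw [hφ, map_sub, hφj, hr, LinearMap.comp_apply, cols_coo h, sub_self]
  have h2 : ∀ x, r (cols a b c x) = x := fun x => by
    rw [hr, LinearMap.comp_apply, hφj, coo_cols h]
  have h3 : ∀ x ∈ R, r x = 0 := fun x hx => by
    rw [hr, LinearMap.comp_apply, (hφ x).1 hx, map_zero]
  have h4 : ∀ (d : Derivation ℚ K K) (x : Vec K 3), dv d (cols a b c x) = cols a b c (dv d x) :=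
    fun d x => by
      simp only [cols_apply, dv_add, dv_smul, sa.dv, sb.dv, sc.dv, smul_zero, zero_add]
      rfl
  have h5 : ∀ i, FS (LinearMap.proj i ∘ₗ r : Frm K n) := fun i => FS.of_df hf fun d =>
    LinearMap.ext fun x => by
      have e := h3 _ (hR d _ (h1 x))
      rw [dv_sub, h4, map_sub, h2, sub_eq_zero] at e
      rw [df_apply, LinearMap.zero_apply, sub_eq_zero]
      exact (congrFun e i).symm
  refine ⟨cols a b c, r, fun x hx => ?_, fun x hx => ?_, fun x hx i => (h5 i).fa x hx,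
    fun x => ?_, h1, h2⟩
  · exact ((sa.smul (hx 0)).add (sb.smul (hx 1))).add (sc.smul (hx 2))
  · exact ((sa.va.smul (hx 0)).add (sb.va.smul (hx 1))).add (sc.va.smul (hx 2))
  · exact Om.add_mem (Om.add_mem (Om.smul_mem _ ha) (Om.smul_mem _ hb)) (Om.smul_mem _ hc)

theorem frm3 (l : Frm K 3) (x : Vec K 3) : l x =
    x 0 * l (Pi.single 0 1) + x 1 * l (Pi.single 1 1) + x 2 * l (Pi.single 2 1) := by
  rw [frm_eq, Fin.sum_univ_three]

/-- the cross product -/
def cr (u v : Vec K 3) : Vec K 3 :=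
  ![u 1 * v 2 - u 2 * v 1, u 2 * v 0 - u 0 * v 2, u 0 * v 1 - u 1 * v 0]

theorem cr_va {hf : HF K} {u v : Vec K 3} (hu : VA hf u) (hv : VA hf v) : VA hf (cr u v) := by
  intro i
  fin_cases i <;>
    exact (AR hf).sub_mem ((AR hf).mul_mem (hu _) (hv _)) ((AR hf).mul_mem (hu _) (hv _))

/-- an adapted frame -/
theorem frame (h2 : HF2 K) {l g : Frm K 3} (hl : FA h2.toHF l) (hg : FA h2.toHF g)
    {E y : Vec K 3} (lE : l E = 1) (gE : g E = 0) (ly : l y = 0) (gy : g y ≠ 0) :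
    ∃ Y Z, VA h2.toHF Y ∧ VA h2.toHF Z ∧ Z ≠ 0 ∧ g Z = 0 ∧ ∀ x, l x = det3 x Y Z := by
  obtain ⟨u, hu⟩ : ∃ u : Vec K 3, ∀ i, l (Pi.single i 1) = u i := ⟨_, fun _ => rfl⟩
  obtain ⟨v, hv⟩ : ∃ v : Vec K 3, ∀ i, g (Pi.single i 1) = v i := ⟨_, fun _ => rfl⟩
  have uA : VA h2.toHF u := fun i => hu i ▸ hl _ (VA.single i)
  have vA : VA h2.toHF v := fun i => hv i ▸ hg _ (VA.single i)
  have el : ∀ x, l x = x 0 * u 0 + x 1 * u 1 + x 2 * u 2 := fun x => by rw [frm3, hu, hu, hu]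
  have eg : ∀ x, g x = x 0 * v 0 + x 1 * v 1 + x 2 * v 2 := fun x => by rw [frm3, hv, hv, hv]
  have hc : cr u v ≠ 0 := fun e => gy (by
    have : det3 (cr u v) E y = l E * g y - l y * g E := by
      rw [el, el, eg, eg]; simp [det3, cr]; ring
    rw [e, lE, gE, ly] at this
    simpa [det3] using this.symm)
  obtain ⟨s, Z, lam, ZA, lA, e, hZ⟩ := h2.bez _ (cr_va uA vA) hc
  have s0 : s ≠ 0 := by rintro rfl; exact hc (by rw [e, zero_smul])
  have lZ : l Z = 0 := by
    have : l (cr u v) = 0 := by rw [el]; simp [cr]; ring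
    rw [e, map_smul, smul_eq_mul] at this
    exact (mul_eq_zero.1 this).resolve_left s0
  have gZ : g Z = 0 := by
    have : g (cr u v) = 0 := by rw [eg]; simp [cr]; ring
    rw [e, map_smul, smul_eq_mul] at this
    exact (mul_eq_zero.1 this).resolve_left s0
  refine ⟨cr lam u, Z, cr_va lA uA, ZA, ?_, gZ, fun x => ?_⟩
  · rintro rfl
    simp at hZ
  · rw [el] at lZ ⊢
    rw [dotProduct, Fin.sum_univ_three] at hZ
    simp only [det3, cr, Matrix.cons_val_zero, Matrix.cons_val_one, Matrix.cons_val_two,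
      Matrix.head_cons, Matrix.tail_cons]
    linear_combination (-(x 0 * u 0 + x 1 * u 1 + x 2 * u 2)) * hZ +
      (x 0 * lam 0 + x 1 * lam 1 + x 2 * lam 2) * lZ

end CBA1x

theorem p_CBA1 (hSCOMP : S_SCOMP) :
    S_CBA1 := by
  intro K _ _ _ h2 n D E l p0 X hp pE y w nu C hz
  have hO : SSub (ann D.mu (RB D E l nu)) := SSub.ann X.ts C.sR
  set φ : Vec K n →ₗ[K] Vec K 3 := LinearMap.pi ![l, gam D.mu E l, nu] with hφ
  have f0 : ∀ x, φ x 0 = l x := fun _ => rfl
  have f1 : ∀ x, φ x 1 = gam D.mu E l x := fun _ => rfl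
  have f2 : ∀ x, φ x 2 = nu x := fun _ => rfl
  have hker : ∀ x, x ∈ RB D E l nu ↔ φ x = 0 := fun x => by
    rw [mem_RB]
    refine ⟨fun h => funext fun i => ?_, fun h => ⟨congrFun h 0, congrFun h 1, congrFun h 2⟩⟩
    fin_cases i
    exacts [h.1, h.2.1, h.2.2]
  obtain ⟨k1, k2, wq⟩ := C.wq
  have hdet : det3 (φ E) (φ y) (φ w) ≠ 0 := fun e => by
    simp only [det3, f0, f1, f2, X.lE, X.toCw.gE, C.nuE, C.ly, C.lw] at e
    obtain ⟨x, x1, x2, x3⟩ := C.ind
    have h0 := hz (gam D.mu E l y • w - gam D.mu E l w • y)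
      (Submodule.sub_mem _ (Submodule.smul_mem _ _ C.wm) (Submodule.smul_mem _ _ C.ym))
      (mem_RB.2 ⟨by simp [C.ly, C.lw], by simp [mul_comm], by
        simp only [map_sub, map_smul, smul_eq_mul]; linear_combination e⟩)
    have h1 := congrArg (fun v => D.mu v x x) h0
    simp only [map_sub, map_smul, LinearMap.sub_apply, LinearMap.smul_apply, smul_eq_mul, map_zero,
      LinearMap.zero_apply, wq x x x1 x1, C.yq x x x1 x1, x2] at h1
    have h3 : gam D.mu E l y * D.mu E E E * nu x * nu x ≠ 0 :=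
      mul_ne_zero (mul_ne_zero (mul_ne_zero C.gy C.a0) x3) x3
    exact h3 (by linear_combination (-1 / 2) * h1)
  obtain ⟨j, r, jS, jA, rA, jO, hr, rj⟩ := CBA1x.split h2.toHF hO C.sR φ hker C.Em C.ym C.wm hdet
  have jr : ∀ x ∈ ann D.mu (RB D E l nu), j (r x) = x := fun x hx =>
    (sub_eq_zero.1 (hz _ (Submodule.sub_mem _ hx (jO _)) (hr x))).symm
  have jE := jr E C.Em
  obtain ⟨Y, Z, YA, ZA, Z0, gZ, hl⟩ := CBA1x.frame h2 (l := l ∘ₗ j) (g := gam D.mu E l ∘ₗ j)
    (fun x hx => X.lA _ (jA x hx)) (fun x hx => X.toCw.gA _ (jA x hx)) (E := r E) (y := r y)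
    (by rw [LinearMap.comp_apply, jE, X.lE]) (by rw [LinearMap.comp_apply, jE, X.toCw.gE])
    (by rw [LinearMap.comp_apply, jr y C.ym, C.ly])
    (by rw [LinearMap.comp_apply, jr y C.ym]; exact C.gy)
  replace gZ : gam D.mu E l (j Z) = 0 := gZ
  replace hl : ∀ x, l (j x) = det3 x Y Z := hl
  have hd : det3 (r E) Y Z = 1 := by rw [← hl, jE, X.lE]
  have lY : l (j Y) = 0 := by rw [hl, det3_self12]
  have lZ : l (j Z) = 0 := by rw [hl, det3_self13]
  have dec : ∀ x ∈ ann D.mu (RB D E l nu), l x = 0 → ∃ s t : K, x = s • j Y + t • j Z :=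
    fun x hx h0 => by
      have e := congrArg j (cramer (r E) Y Z (r x))
      rw [hd, one_smul, ← hl, jr x hx, h0, zero_smul, zero_add, map_add, map_smul, map_smul] at e
      exact ⟨_, _, e⟩
  obtain ⟨s1, s2, ey⟩ := dec y C.ym C.ly
  obtain ⟨t1, t2, ew⟩ := dec w C.wm C.lw
  have nZ : nu (j Z) ≠ 0 := fun e => Z0 (by
    rw [← rj Z, hz _ (jO Z) (mem_RB.2 ⟨lZ, gZ, e⟩), map_zero])
  have g1 : s1 * gam D.mu E l (j Y) ≠ 0 := by
    have := C.gy
    rw [ey, map_add, map_smul, map_smul, gZ, smul_zero, add_zero] at this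
    exact this
  have q1 : s1 * D.mu (j Y) (j Z) (j Z) + s2 * D.mu (j Z) (j Z) (j Z) = 0 := by
    have := C.yq _ _ lZ lZ
    rw [gZ] at this
    conv_lhs at this => rw [ey]
    simpa using this
  have q2 : t1 * D.mu (j Y) (j Z) (j Z) + t2 * D.mu (j Z) (j Z) (j Z) ≠ 0 := by
    have := wq _ _ lZ lZ
    rw [gZ] at this
    conv_lhs at this => rw [ew]
    simp only [map_add, map_smul, LinearMap.add_apply, LinearMap.smul_apply, smul_eq_mul] at this
    rw [this]
    have h3 : D.mu E E E * nu (j Z) * nu (j Z) ≠ 0 := mul_ne_zero (mul_ne_zero C.a0 nZ) nZ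
    exact fun e => h3 (by linear_combination (-1 / 2) * e)
  have q3 : s1 * D.mu (j Y) (j Y) (j Z) + s2 * D.mu (j Y) (j Z) (j Z) ≠ 0 := by
    have := C.yq _ _ lY lZ
    rw [gZ] at this
    conv_lhs at this => rw [ey]
    simp only [map_add, map_smul, LinearMap.add_apply, LinearMap.smul_apply, smul_eq_mul] at this
    rw [X.ho.sym.1 (j Z) (j Y)] at this
    rw [this, mul_zero, add_zero]
    exact mul_ne_zero (right_ne_zero_of_mul g1) nZ
  have C0 : D.mu (j Z) (j Z) (j Z) ≠ 0 := fun e => by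
    rw [e, mul_zero, add_zero] at q1 q2
    exact q2 (by rw [(mul_eq_zero.1 q1).resolve_left (left_ne_zero_of_mul g1), mul_zero])
  refine ⟨{
    mu := tpull D.mu j
    p := p0 ∘ₗ j
    E := r E
    Y := Y
    Z := Z
    sym := ⟨fun x y z => X.ho.sym.1 _ _ _, fun x y z => X.ho.sym.2 _ _ _⟩
    ts := fun x y z hx hy hz => X.ts _ _ _ (jS x hx) (jS y hy) (jS z hz)
    ps := fun x hx => hp _ (jS x hx)
    EA := rA E X.EA
    YA := YA
    ZA := ZA
    det := hd
    EYY := by rw [tpull_apply, jE]; exact X.exc _ _ lY lY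
    EYZ := by rw [tpull_apply, jE]; exact X.exc _ _ lY lZ
    EZZ := by rw [tpull_apply, jE]; exact X.exc _ _ lZ lZ
    EEZ := by rw [tpull_apply, jE, ← neg_eq_zero, ← gam_ker lZ, gZ]
    pE := by rw [tpull_apply, LinearMap.comp_apply, jE, pE]
    a0 := by rw [tpull_apply, jE]; exact C.a0
    b0 := by rw [tpull_apply, jE, ← neg_ne_zero, ← gam_ker lY]; exact right_ne_zero_of_mul g1
    C0 := C0
    h0 := fun e => by
      simp only [tpull_apply] at e
      exact mul_ne_zero C0 q3 (by linear_combination s1 * e + D.mu (j Y) (j Z) (j Z) * q1)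
    ns := fun e => C.ns (jE ▸ jS _ e) }, j, r, jS, jA, rA, jO, hr, fun _ _ _ => rfl,
    fun _ => rfl, jE, hl⟩

end Pool.Agent.P.MP_33ab4b_ag.B

end

section

/-! Step A0. -/

set_option autoImplicit false

namespace Pool.Agent.P.MP_33ab4b_ag.B

open Pool.Agent.P.MP_33ab4b_ag.T hiding tri

namespace A0x

variable {K : Type} [Field K] [LinearOrder K] [IsStrictOrderedRing K] {hf : HF K} {n : ℕ}

theorem nfm_fa {mu : Tri K (Vec K n)} (h : TA hf mu) {phi : Frm K n} (hp : FS phi)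
    {z0 x : Vec K n} (hz : VS z0) (hx : VA hf x) : FA hf (nfm mu phi z0 x) :=
  (h.fa hx hz.va).sub (hp.fa.smul (A_div (h _ _ _ hx hz.va hz.va) std_two))

theorem span_image (g : Vec K n ≃ₗ[K] Vec K n) {b : Set (Vec K n)} {x : Vec K n}
    (h : x ∈ Submodule.span (AR hf) b) : g x ∈ Submodule.span (AR hf) (g '' b) := by
  induction h using Submodule.span_induction with
  | mem v hv => exact Submodule.subset_span ⟨v, hv, rfl⟩
  | zero => simp
  | add _ _ _ _ a c => rw [map_add]; exact Submodule.add_mem _ a c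
  | smul s y _ a =>
    have e : s • y = (s : K) • y := rfl
    rw [e, map_smul]; exact mem_spanA_smul s.2 a

end A0x

open A0x in
theorem p_A0 (hA0A : S_A0A) (hA0C : S_A0C) (hEICH : S_EICH) (hA0D : S_A0D) :
    S_A0 := by
  intro K _ _ _ h2 n D E l p0 X hp pE a0
  obtain ⟨phi, s, z0, H⟩ := hA0A K h2.toHF n D E l X a0
  obtain ⟨ss, r, w, v, u, hw, hdet, vA, uA, uW, urad, Eeq⟩ :=
    hA0C K h2.toHF n D E l X a0 phi s z0 H
  obtain ⟨fp, sz, pz, -, s0, hg, hW⟩ := H
  have sy := X.ho.sym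
  have spW : Submodule.span K (Set.range w) ≤ W0 E :=
    Submodule.span_le.2 (by rintro _ ⟨j, rfl⟩; exact (hw j).2)
  have E1A : VA h2.toHF (∑ j, v j • w j) := VA.sum _ fun j _ => (hw j).1.va.smul (vA j)
  have E1W : ∑ j, v j • w j ∈ W0 E :=
    Submodule.sum_mem _ fun j _ => Submodule.smul_mem _ _ (hw j).2
  have hD := hA0D K h2 n D.mu phi z0 r w v sy X.ts fp sz pz
    (fun j => ⟨(hw j).1, hW _ (hw j).2⟩) hdet vA
  generalize ∑ j, v j • w j = E1 at *
  have EW : E ∈ W0 E := fun _ _ h => h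
  have nE : ∀ x, nfm D.mu phi z0 E x = -s * l x := fun x => by
    rw [nfm_apply, X.toCw.q z0 x, X.toCw.q z0 z0, hg, a0]
    simp only [LinearMap.smul_apply, smul_eq_mul, pz]; ring
  have nadd : ∀ x, nfm D.mu phi z0 E x = nfm D.mu phi z0 E1 x + nfm D.mu phi z0 u x :=
    fun x => by
      simp only [nfm_apply]; rw [Eeq]; simp only [map_add, LinearMap.add_apply]; ring
  have n2W : ∀ x ∈ W0 E, nfm D.mu phi z0 u x = 0 := fun x hx => by
    rw [nfm_apply, (hW x hx).1, sy.2, urad x hx]; ring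
  have n1u : nfm D.mu phi z0 E1 u = 0 := by
    rw [nfm_apply, (hW u uW).1, ← symrot sy, urad _ E1W]; ring
  have n1E : nfm D.mu phi z0 E1 E1 = -s := by
    have a := nadd E
    rw [nE, X.lE, n2W _ EW] at a
    have c : nfm D.mu phi z0 E1 E = nfm D.mu phi z0 E1 E1 + nfm D.mu phi z0 E1 u := by
      rw [← map_add, ← Eeq]
    rw [n1u] at c
    linear_combination - a - c
  obtain ⟨g, g1, g2, g3⟩ := hEICH K n D.mu phi (nfm D.mu phi z0 E1) (nfm D.mu phi z0 u) E1 u s
    sy s0 (hW _ E1W).2 (hW _ uW).2 (hW _ E1W).1 (hW _ uW).1 n1E n1u (n2W _ E1W) (n2W _ uW)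
  have m11 : D.mu E1 E1 z0 = -s := by
    rw [← n1E, nfm_apply, (hW _ E1W).1, sy.2 E1 z0 E1]; ring
  obtain ⟨b, hb, bs, bv⟩ := hD (by rw [m11]; exact ss.neg) (by rw [m11]; exact neg_ne_zero.2 s0)
  have f1 := nfm_fa X.ho.muA fp sz E1A
  have f2 := nfm_fa X.ho.muA fp sz uA
  have lg : ∀ x, -s * l (g x) = nfm D.mu phi z0 E1 x := fun x => by
    rw [← nE, nadd, g1]
    simp only [map_add, map_sub, map_smul, smul_eq_mul, n1E, n1u, n2W _ E1W, n2W _ uW]
    field_simp
    ring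
  have vv : ∀ (c : K) x, Std c → VA h2.toHF x → VA h2.toHF
      (x + c • (nfm D.mu phi z0 E1 x • u - nfm D.mu phi z0 u x • E1) +
        (1 / (2 * s) * nfm D.mu phi z0 u x) • u) := fun c x hc hx =>
    (hx.add (((uA.smul (f1 x hx)).sub (E1A.smul (f2 x hx))).smul (A_of_std hc))).add
      (uA.smul ((AR _).mul_mem (A_of_std (Std.one.div (std_two.mul ss))) (f2 x hx)))
  have bf : ∀ lam, FS lam → lam E = 0 → BF (g '' b) lam := by
    rintro lam hl l0 _ ⟨x, hx, rfl⟩
    have e : lam (g x) = lam x := by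
      rw [g1]; simp [uW lam hl l0, E1W lam hl l0]
    rw [e]
    rcases bs x hx with c | c
    · exact hl x c
    · rw [spW c lam hl l0]; exact Std.zero
  refine ⟨g '' b, ⟨?_, fun x lx hx => ?_, ?_⟩, by rw [a0]; exact Std.zero, ?_,
    bf p0 hp (pE.trans a0), bf, fun y hy ly => ?_⟩
  · rintro _ ⟨x, hx, rfl⟩
    have a := lg x
    rw [(hb.mem x hx).1] at a
    exact ⟨by simpa [s0] using a, (vv _ x (Std.one.neg.div ss) (hb.mem x hx).2).of_eq (g1 x)⟩
  · have a := lg (g.symm x)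
    rw [g.apply_symm_apply, lx, mul_zero] at a
    have c := span_image g
      (hb.span _ a.symm ((vv _ x (Std.one.div ss) hx).of_eq (g2 x)))
    rwa [g.apply_symm_apply] at c
  · rintro _ ⟨x, hx, rfl⟩ _ ⟨y, hy, rfl⟩ _ ⟨z, hz, rfl⟩
    rw [g3]; exact hb.std x hx y hy z hz
  · rw [hg]; exact (bf phi fp (hW _ EW).1).smul ss
  · let lam : Frm K n := (D.mu.flip z0).flip y - (phi y / 2) • (D.mu.flip z0).flip z0
    have la : ∀ x, lam x = nfm D.mu phi z0 x y := fun x => by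
      simp only [lam, nfm_apply, LinearMap.sub_apply, LinearMap.smul_apply, LinearMap.flip_apply,
        smul_eq_mul]; ring
    have fl : FS lam := fun x hx => by
      rw [la, nfm_apply]
      exact (X.ts _ _ _ hx sz hy).sub (((X.ts _ _ _ hx sz sz).div std_two).mul (fp y hy))
    have k : ∀ x ∈ W0 E, nfm D.mu phi z0 x y = 0 := fun x hx => by
      rw [← la]; exact hx lam fl (by rw [la, nE, ly, mul_zero])
    refine BV.of_mem ⟨y, bv y hy fun j => k _ (hw j).2, ?_⟩
    rw [g1, k _ E1W, k _ uW]; simp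

end Pool.Agent.P.MP_33ab4b_ag.B

end

section

/-! Step CBI. -/

set_option autoImplicit false

namespace Pool.Agent.P.MP_33ab4b_ag.B

open Pool.Agent.P.MP_33ab4b_ag.T hiding tri

theorem p_CBI (hFO : S_FO) (hSO : S_SO) (hYN : S_YN) (hLEMI : S_LEMI) :
    S_CBI := by
  intro K _ _ _ hf n D E l X a0 d ⟨x0, lx0, gx0, nx0⟩ gy
  have W := X.toCw
  have sy := X.ho.sym
  obtain ⟨f1, f2, -⟩ := hFO K hf n D E l X d
  obtain ⟨s1, -⟩ := hSO K hf n D E l X
  obtain ⟨nT, yN⟩ := hYN K hf n D E l X a0 d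
  obtain ⟨h, -, lh, gh⟩ := W.g_ne
  let M := LinearMap.ker l
  let N : M →+ M :=
    { toFun := fun x => ⟨nab d E l x, l_nab X.lE d x⟩
      map_zero' := Subtype.ext (by simp [nab])
      map_add' := fun x y => Subtype.ext (by
        simp only [nab, Submodule.coe_add, dv_add, map_add, add_smul]; abel) }
  let m : Tri K M := (D.mu.compl₁₂ M.subtype M.subtype).compr₂ (LinearMap.lcomp K K M.subtype)
  have hm : ∀ x y z : M, m x y z = D.mu x y z := fun _ _ _ => rfl
  let y : M := ⟨yy d E l, l_yy X.lE d⟩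
  obtain ⟨ka, h1, h2, h3, h4, h5⟩ := hLEMI K M d N m (gam D.mu E l ∘ₗ M.subtype)
    (nu d E l ∘ₗ M.subtype) (al d E l) (D.mu E E E) y
    ⟨fun x y z => sy.1 _ _ _, fun x y z => sy.2 _ _ _⟩
    (fun s x => Subtype.ext (by
      have hx : l x = 0 := x.2
      show nab d E l (s • (x : Vec K n)) = s • nab d E l x + d s • (x : Vec K n)
      simp only [nab, dv_smul, map_add, map_smul, hx, smul_eq_mul, mul_zero, add_zero, smul_sub,
        mul_smul]
      abel))
    (fun x y z => s1 d x y z x.2 y.2 z.2) (fun x x' => f1 x x' x.2 x'.2)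
    (fun x => by
      have hx : l x = 0 := x.2
      show d (gam D.mu E l x) = gam D.mu E l (nab d E l x) + 2 * al d E l * gam D.mu E l x -
        D.mu E E E * nu d E l x
      rw [d_frm, f2, dv_nab d E l x, map_add, map_smul, W.gE]
      simp only [LinearMap.sub_apply, LinearMap.smul_apply, smul_eq_mul, hx]
      ring) a0 ⟨⟨x0, lx0⟩, gx0, nx0⟩ ⟨⟨h, lh⟩, gh⟩ gy
  let pr : Vec K n →ₗ[K] M :=
    LinearMap.codRestrict M (LinearMap.id - l.smulRight E) fun x => l_proj X.lE x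
  have hpr : ∀ t : M, pr t = t := fun t => Subtype.ext (by
    have ht : l t = 0 := t.2
    show (t : Vec K n) - l t • E = t
    rw [ht, zero_smul, sub_zero])
  have kT : ∀ t (ht : D.T t), ka ⟨t, (W.T_ker ht).1⟩ = 0 := fun t ht => by
    have := X.ho.rank (N (N (N y))) (ka ∘ₗ pr) (-6 * D.mu E E E) (fun t t' ht ht' => by
      have e := h5 ⟨t, (W.T_ker ht).1⟩ ⟨t', (W.T_ker ht').1⟩ (W.T_ker ht).2 (nT t ht)
        (W.T_ker ht').2 (nT t' ht')
      rw [LinearMap.comp_apply, LinearMap.comp_apply, hpr ⟨t, (W.T_ker ht).1⟩,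
        hpr ⟨t', (W.T_ker ht').1⟩]
      exact e) t ht
    rw [LinearMap.comp_apply, hpr ⟨t, (W.T_ker ht).1⟩] at this
    exact (mul_eq_zero.1 this).resolve_left (mul_ne_zero (by norm_num) a0)
  have hH : ∀ u v : M, D.mu D.H u v = m u v (pr D.H) := fun u v => by
    have e : D.H = (pr D.H : Vec K n) + l D.H • E := by
      show D.H = D.H - l D.H • E + l D.H • E
      abel
    rw [hm, ← symrot sy (pr D.H : Vec K n) u v]
    conv_lhs => rw [e]
    simp only [map_add, map_smul, LinearMap.add_apply, LinearMap.smul_apply, X.exc u v u.2 v.2,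
      smul_zero, add_zero]
  have wN : (N y : Vec K n) ∈ D.N := X.ho.nt fun t ht => by
    rw [hH (N y) ⟨t, (W.T_ker ht).1⟩, h4, kT t ht]
    have e1 : (gam D.mu E l ∘ₗ M.subtype) ⟨t, (W.T_ker ht).1⟩ = 0 := (W.T_ker ht).2
    have e2 : (nu d E l ∘ₗ M.subtype) ⟨t, (W.T_ker ht).1⟩ = 0 := nT t ht
    rw [e1, e2]
    ring
  have y0 : yy d E l ≠ 0 := fun e => by
    have := f1 h x0 lh lx0
    rw [e, gx0] at this
    simp only [map_zero, LinearMap.zero_apply, mul_zero, add_zero] at this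
    exact mul_ne_zero gh nx0 this.symm
  rcases X.ho.neg yN y0 ((hH y y).trans (h1 _)) wN ((hH y (N y)).trans (h2 _)) with c | ⟨s, c⟩
  · exact c.ne ((hH (N y) (N y)).trans (h3 _))
  · have e : D.mu (N y : Vec K n) x0 x0 = gam D.mu E l x0 * ka ⟨x0, lx0⟩ +
        ka ⟨x0, lx0⟩ * gam D.mu E l x0 - 2 * D.mu E E E * nu d E l x0 * nu d E l x0 :=
      h4 ⟨x0, lx0⟩ ⟨x0, lx0⟩
    rw [c, map_smul, LinearMap.smul_apply, LinearMap.smul_apply, f1 x0 x0 lx0 lx0, gx0] at e
    have : 2 * D.mu E E E * nu d E l x0 * nu d E l x0 = 0 := by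
      simp only [smul_eq_mul] at e
      linarith
    exact mul_ne_zero (mul_ne_zero (mul_ne_zero two_ne_zero a0) nx0) nx0 this

end Pool.Agent.P.MP_33ab4b_ag.B

end

section

/-! Step FO. -/

set_option autoImplicit false

namespace Pool.Agent.P.MP_33ab4b_ag.B

open Pool.Agent.P.MP_33ab4b_ag.T hiding tri

theorem p_FO :
    S_FO := by
  intro K _ _ _ hf n D E l X d
  have hs := X.ho.sym
  have ly : l (yy d E l) = 0 := l_yy X.lE d
  have g : ∀ x, gam D.mu E l x = D.mu E E E * l x - D.mu E E x := fun x => by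
    simp [gam]
  have h3 : d (D.mu E E E) = 3 * al d E l * D.mu E E E - 3 * gam D.mu E l (yy d E l) := by
    have a := X.ts.der d E E E
    rw [sym13 hs (dv d E) E E, hs.2 E (dv d E) E, dv_E d E l] at a
    simp only [map_add, map_smul, smul_eq_mul] at a
    rw [a, g, ly]; ring
  refine ⟨fun x x' hx hx' => ?_, LinearMap.ext fun x => ?_, h3⟩
  · have a := X.ts.der d E x x'
    rw [X.exc x x' hx hx', map_zero, X.toCw.q (dv d x) x', X.toCw.q x (dv d x'), hx, hx',
      dv_E d E l] at a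
    simp only [map_add, map_smul, LinearMap.add_apply, LinearMap.smul_apply, smul_eq_mul,
      X.exc x x' hx hx'] at a
    rw [nu_ker d hx, nu_ker d hx']
    linear_combination -a
  · have a := X.ts.der d E E x
    rw [hs.1 (dv d E) E x, dv_E d E l] at a
    simp only [map_add, map_smul, LinearMap.add_apply, LinearMap.smul_apply, smul_eq_mul] at a
    rw [X.toCw.q (yy d E l) x, ly] at a
    have b := d_frm d l x
    rw [df_l d E l] at b
    simp only [LinearMap.sub_apply, LinearMap.neg_apply, LinearMap.smul_apply, smul_eq_mul] at b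
    simp only [df_apply, LinearMap.sub_apply, LinearMap.smul_apply, smul_eq_mul]
    rw [g x, g (dv d x), map_sub, Derivation.leibniz, smul_eq_mul, smul_eq_mul, a, b, h3]
    ring

end Pool.Agent.P.MP_33ab4b_ag.B

end
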