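import Pool.Agent.P.MP_33ab4b_ag.B.IfaceA

section

/-! Step TN3. -/

set_option autoImplicit false

namespace Pool.Agent.P.MP_33ab4b_ag.B

open Pool.Agent.P.MP_33ab4b_ag.T hiding tri

namespace TN3x

variable {K : Type} [Field K] [LinearOrder K] [IsStrictOrderedRing K] {hf : HF K} (X : TF hf)

theorem dec (v : Vec K 3) :
    v = det3 v X.Y X.Z • X.E + det3 X.E v X.Z • X.Y + det3 X.E X.Y v • X.Z := by
  have := cramer X.E X.Y X.Z v
  rwa [X.det, one_smul] at this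

theorem tab (hb : X.mu X.E X.E X.Y = 1) (x y z x' y' z' : K) :
    X.mu (x • X.E + y • X.Y + z • X.Z) (x' • X.E + y' • X.Y + z' • X.Z) X.E =
      x * x' * X.a + x * y' + y * x' ∧
    X.mu (x • X.E + y • X.Y + z • X.Z) (x' • X.E + y' • X.Y + z' • X.Z) X.Y =
      x * x' + y * y' * X.c0 + (y * z' + z * y') * X.c1 + z * z' * X.c2 ∧
    X.mu (x • X.E + y • X.Y + z • X.Z) (x' • X.E + y' • X.Y + z' • X.Z) X.Z =
      y * y' * X.c1 + (y * z' + z * y') * X.c2 + z * z' * X.C := by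
  have s1 := X.sym.1
  have s2 := X.sym.2
  have s3 := sym13 X.sym
  have EYE : X.mu X.E X.Y X.E = 1 := by rw [s2]; exact hb
  have YEE : X.mu X.Y X.E X.E = 1 := by rw [s3]; exact hb
  have EZE : X.mu X.E X.Z X.E = 0 := by rw [s2]; exact X.EEZ
  have ZEE : X.mu X.Z X.E X.E = 0 := by rw [s3]; exact X.EEZ
  have YYE : X.mu X.Y X.Y X.E = 0 := by rw [s3]; exact X.EYY
  have YZE : X.mu X.Y X.Z X.E = 0 := by rw [s3, s2]; exact X.EYZ
  have ZYE : X.mu X.Z X.Y X.E = 0 := by rw [s3]; exact X.EYZ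
  have ZZE : X.mu X.Z X.Z X.E = 0 := by rw [s3]; exact X.EZZ
  have EZY : X.mu X.E X.Z X.Y = 0 := by rw [s2]; exact X.EYZ
  have YEY : X.mu X.Y X.E X.Y = 0 := by rw [s1]; exact X.EYY
  have YZY : X.mu X.Y X.Z X.Y = X.c1 := s2 _ _ _
  have ZEY : X.mu X.Z X.E X.Y = 0 := by rw [s1]; exact EZY
  have ZYY : X.mu X.Z X.Y X.Y = X.c1 := s3 _ _ _
  have ZZY : X.mu X.Z X.Z X.Y = X.c2 := s3 _ _ _
  have YEZ : X.mu X.Y X.E X.Z = 0 := by rw [s1]; exact X.EYZ
  have ZEZ : X.mu X.Z X.E X.Z = 0 := by rw [s1]; exact X.EZZ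
  have ZYZ : X.mu X.Z X.Y X.Z = X.c2 := s1 _ _ _
  have EEE : X.mu X.E X.E X.E = X.a := rfl
  have YYY : X.mu X.Y X.Y X.Y = X.c0 := rfl
  have YYZ : X.mu X.Y X.Y X.Z = X.c1 := rfl
  have YZZ : X.mu X.Y X.Z X.Z = X.c2 := rfl
  have ZZZ : X.mu X.Z X.Z X.Z = X.C := rfl
  simp only [map_add, map_smul, LinearMap.add_apply, LinearMap.smul_apply, smul_eq_mul, EYE, YEE,
    EZE, ZEE, YYE, YZE, ZYE, ZZE, EZY, YEY, YZY, ZEY, ZYY, ZZY, YEZ, ZEZ, ZYZ, EEE, YYY, YYZ, YZZ,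
    ZZZ, hb, X.EYY, X.EYZ, X.EZZ, X.EEZ]
  refine ⟨?_, ?_, ?_⟩ <;> ring

/-- The singular point of the cubic, divided by its first coordinate, is standard. -/
theorem point (hb : X.mu X.E X.E X.Y = 1) {h w : K} (sh : Std h) (h0 : h ≠ 0) (w0 : w ≠ 0)
    (hC : X.C = X.a * w) (hH : X.Hh = -h ^ 2) (hG : X.G = -4 * w ^ 2 - 2 * h ^ 3) :
    VS (X.E - (X.a / 2) • X.Yh + (h / (2 * w)) • X.Z) := by
  have a0 : X.a ≠ 0 := X.a0
  have C0 : X.C ≠ 0 := X.C0
  have ta : TA hf X.mu := X.ts.ta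
  have aA : X.a ∈ AR hf := ta _ _ _ X.EA X.EA X.EA
  have c0A : X.c0 ∈ AR hf := ta _ _ _ X.YA X.YA X.YA
  have c1A : X.c1 ∈ AR hf := ta _ _ _ X.YA X.YA X.ZA
  have c2A : X.c2 ∈ AR hf := ta _ _ _ X.YA X.ZA X.ZA
  have hA : h ∈ AR hf := A_of_std sh
  have A2 : (2 : K) ∈ AR hf := ofNat_mem _ 2
  have a2A : X.a / 2 ∈ AR hf := A_div aA std_two
  have hc1 : X.c1 * X.C = X.c2 ^ 2 - h ^ 2 := by
    have := hH; rw [TF.Hh] at this; linear_combination this
  have hc0 : X.c0 * X.C ^ 2 = -4 * w ^ 2 - 2 * h ^ 3 + X.c2 ^ 3 - 3 * X.c2 * h ^ 2 := by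
    have := hG; rw [TF.G] at this; linear_combination this + 3 * X.c2 * hc1
  obtain ⟨P, hP⟩ : ∃ P, P = (-2 * w) • X.E + X.C • X.Y + (-(X.c2 + h)) • X.Z := ⟨_, rfl⟩
  have PP : ∀ v, X.mu P P v = 0 := fun v => by
    obtain ⟨t1, t2, t3⟩ := tab X hb (-2 * w) X.C (-(X.c2 + h)) (-2 * w) X.C (-(X.c2 + h))
    rw [← hP] at t1 t2 t3
    have u1 : X.mu P P X.E = 0 := by rw [t1, hC]; ring
    have u2 : X.mu P P X.Y = 0 := by
      rw [t2]; linear_combination hc0 - 2 * (X.c2 + h) * hc1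
    have u3 : X.mu P P X.Z = 0 := by rw [t3]; linear_combination X.C * hc1
    rw [dec X v]; simp only [map_add, map_smul, u1, u2, u3, smul_zero, add_zero]
  have line : ∀ d : Derivation ℚ K K, ∃ c : K, dv d P = c • P := fun d => by
    have k : ∀ v, X.mu P (dv d P) v = 0 := fun v => by
      have := X.ts.der d P P v
      rw [PP, PP, map_zero, X.sym.1 (dv d P)] at this
      linear_combination (-1 / 2 : K) * this
    obtain ⟨x, y, z, e⟩ : ∃ x y z : K, dv d P = x • X.E + y • X.Y + z • X.Z := ⟨_, _, _, dec X _⟩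
    obtain ⟨t1, -, t3⟩ := tab X hb (-2 * w) X.C (-(X.c2 + h)) x y z
    rw [← hP, ← e, k] at t1 t3
    have ex : x = y / X.C * (-2 * w) := by
      rw [div_mul_eq_mul_div, eq_div_iff C0]; linear_combination t1 + 2 * x * hC
    have ez : z = y / X.C * (-(X.c2 + h)) := by
      rw [div_mul_eq_mul_div, eq_div_iff C0]
      apply mul_left_cancel₀ h0
      linear_combination t3 + y * hc1
    refine ⟨y / X.C, ?_⟩
    rw [e, hP, smul_add, smul_add, smul_smul, smul_smul, smul_smul, ← ex, ← ez,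
      div_mul_cancel₀ _ C0]
  obtain ⟨P0, i, sP, eP⟩ := vline hf line
  obtain ⟨x, hx⟩ : ∃ x, x = det3 P0 X.Y X.Z := ⟨_, rfl⟩
  obtain ⟨y, hy⟩ : ∃ y, y = det3 X.E P0 X.Z := ⟨_, rfl⟩
  obtain ⟨z, hz⟩ : ∃ z, z = det3 X.E X.Y P0 := ⟨_, rfl⟩
  have xA : x ∈ AR hf := hx ▸ det3_mem _ sP.va X.YA X.ZA
  have zA : z ∈ AR hf := hz ▸ det3_mem _ X.EA X.YA sP.va
  have e0 : P0 = x • X.E + y • X.Y + z • X.Z := by rw [hx, hy, hz]; exact dec X P0
  have dE : det3 X.Y X.Z X.E = 1 := by rw [det3_rot]; exact X.det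
  have dY : det3 X.Z X.E X.Y = 1 := by rw [← det3_rot]; exact X.det
  have eq : (-2 * w) • X.E + X.C • X.Y + (-(X.c2 + h)) • X.Z =
      i • (x • X.E + y • X.Y + z • X.Z) := by rw [← hP, ← e0, eP]
  have ix : -2 * w = i * x := by
    have := congrArg (detL X.Y X.Z) eq
    simp only [map_add, map_smul, smul_eq_mul, detL_apply, dE, det3_self13, det3_self23] at this
    linear_combination this
  have iy : X.C = i * y := by
    have := congrArg (detL X.Z X.E) eq
    simp only [map_add, map_smul, smul_eq_mul, detL_apply, dY, det3_self13, det3_self23] at this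
    linear_combination this
  have iz : -(X.c2 + h) = i * z := by
    have := congrArg (detL X.E X.Y) eq
    simp only [map_add, map_smul, smul_eq_mul, detL_apply, X.det, det3_self13, det3_self23] at this
    linear_combination this
  have i0 : i ≠ 0 := by rintro rfl; exact C0 (by simpa using iy)
  have x0 : x ≠ 0 := by rintro rfl; exact w0 (by simpa using ix)
  have r1 : y = -(X.a / 2) * x := by
    apply mul_left_cancel₀ i0; linear_combination -iy + hC - X.a / 2 * ix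
  have r2 : (X.c2 - h) * z = X.c1 * (X.a / 2) * x := by
    apply mul_left_cancel₀ i0
    linear_combination -(X.c2 - h) * iz + hc1 - X.c1 * hC + X.c1 * (X.a / 2) * ix
  have r3 : (X.c2 - 2 * h) * z ^ 2 = x ^ 2 * (1 + X.c0 * (X.a / 2) ^ 2) := by
    apply mul_left_cancel₀ (pow_ne_zero 2 i0)
    have q1 : (i * z) ^ 2 = (X.c2 + h) ^ 2 := by rw [← iz]; ring
    have q2 : (i * x) ^ 2 = 4 * w ^ 2 := by rw [← ix]; ring
    rw [hC] at hc0
    linear_combination (X.c2 - 2 * h) * q1 - (1 + X.c0 * (X.a / 2) ^ 2) * q2 - hc0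
  have P0n : P0 ≠ 0 := by rintro rfl; exact x0 (by rw [hx]; simp [det3])
  obtain ⟨l, sl, l1⟩ := sP.exists_form P0n
  obtain ⟨l1', h1⟩ : ∃ t, t = l X.E - X.a / 2 * l X.Y := ⟨_, rfl⟩
  obtain ⟨l3, h3⟩ : ∃ t, t = l X.Z := ⟨_, rfl⟩
  have l1A : l1' ∈ AR hf := h1 ▸ sub_mem (sl.fa _ X.EA) (mul_mem a2A (sl.fa _ X.YA))
  have l3A : l3 ∈ AR hf := h3 ▸ sl.fa _ X.ZA
  have bez : l1' * x + l3 * z = 1 := by
    rw [e0] at l1
    simp only [map_add, map_smul, smul_eq_mul] at l1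
    rw [h1, h3]; linear_combination l1 - l X.Y * r1
  have fac : x * (((X.c2 - h) * l1' + l3 * (X.c1 * (X.a / 2))) -
      ((X.c2 - 2 * h) * (l1' * l1' * x + 2 * l1' * l3 * z) +
        l3 * l3 * x * (1 + X.c0 * (X.a / 2) ^ 2))) = h := by
    linear_combination -l3 * r2 + l3 ^ 2 * r3 + (X.c2 - h) * bez -
      (X.c2 - 2 * h) * (l1' * x + l3 * z + 1) * bez
  have sx : Std x := A_std_left xA
    (sub_mem (add_mem (mul_mem (sub_mem c2A hA) l1A) (mul_mem l3A (mul_mem c1A a2A)))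
      (add_mem (mul_mem (sub_mem c2A (mul_mem A2 hA))
        (add_mem (mul_mem (mul_mem l1A l1A) xA) (mul_mem (mul_mem (mul_mem A2 l1A) l3A) zA)))
        (mul_mem (mul_mem (mul_mem l3A l3A) xA)
          (add_mem (one_mem _) (mul_mem c0A (pow_mem a2A 2))))))
    (by rw [fac]; exact sh) (by rw [fac]; exact h0)
  refine (sP.smul sx.inv).of_eq ?_
  have r4 : x⁻¹ * z = X.a / 2 * (X.c2 / X.C) + h / (2 * w) := by
    have : z * (-2 * w) = x * (-(X.c2 + h)) := by rw [ix, iz]; ring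
    rw [hC]; field_simp; linear_combination -this
  rw [e0, TF.Yh, smul_add, smul_add, smul_smul, smul_smul, smul_smul, r4, r1, inv_mul_cancel₀ x0]
  have : x⁻¹ * (-(X.a / 2) * x) = -(X.a / 2) := by field_simp
  rw [this]
  module

end TN3x

theorem p_TN3 (hTFL : S_TFL) :
    S_TN3 := by
  intro K _ _ _ hf X hN h64 D0
  obtain ⟨hall, d, al, s, hF, hs⟩ := hTFL K hf X hN
  have a0 : X.a ≠ 0 := X.a0
  have C0 : X.C ≠ 0 := X.C0
  have H0 : X.Hh ≠ 0 := X.h0
  have hid : X.G ^ 2 + 4 * X.Hh ^ 3 = X.C ^ 2 * X.Dd := by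
    simp only [TF.G, TF.Hh, TF.Dd]; ring
  have s4 : Std (4 : K) := ⟨4, by simp⟩
  have s8 : Std (8 : K) := ⟨8, by simp⟩
  have hT : Std X.Tt := hf.der _ fun d' => by
    obtain ⟨al', s', h'⟩ := hall d'
    obtain ⟨-, -, -, ha, -, hG, hD, -⟩ := h'
    rw [TF.Tt, sq, map_add, d'.leibniz, d'.leibniz, d'.leibniz, s4.der, ha, hG, hD]
    simp only [smul_eq_mul]; ring
  have hq : X.a ^ 4 * X.Dd + 8 * X.a ^ 2 * X.G + 16 * X.C ^ 2 = 0 := by
    apply mul_left_cancel₀ D0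
    rw [TF.Tt] at h64; linear_combination h64 - 16 * hid
  obtain ⟨h, hh⟩ : ∃ h, h = -X.Tt / (8 * X.Hh) := ⟨_, rfl⟩
  have sh : Std h := hh ▸ hT.neg.div (s8.mul hN.2)
  have hT1 : X.Tt = -8 * X.Hh * h := by rw [hh]; field_simp
  have hH : X.Hh = -h ^ 2 := by
    apply mul_left_cancel₀ (pow_ne_zero 2 H0)
    rw [hT1] at h64; linear_combination (1 / 64 : K) * h64
  have h0 : h ≠ 0 := by rintro rfl; exact H0 (by simpa using hH)
  obtain ⟨w, hw⟩ : ∃ w, w = X.C / X.a := ⟨_, rfl⟩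
  have hC : X.C = X.a * w := by rw [hw]; field_simp
  have w0 : w ≠ 0 := hw ▸ div_ne_zero C0 a0
  have hG : X.G = -4 * w ^ 2 - 2 * h ^ 3 := by
    apply mul_left_cancel₀ (pow_ne_zero 2 a0)
    rw [TF.Tt, hH] at hT1
    rw [hC] at hq
    linear_combination (1 / 4 : K) * hq - X.a ^ 2 / 4 * hT1
  have sP := TN3x.point X hN.1 sh h0 w0 hC hH hG
  obtain ⟨hE, hY, hZ, ha, hdC, -, -, hp⟩ := hF
  have dE : det3 X.Y X.Z X.E = 1 := by rw [det3_rot]; exact X.det
  have dYh : det3 X.Y X.Z X.Yh = 0 := by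
    rw [← detL_apply, TF.Yh, map_sub, map_smul]; simp
  have e0 := congrArg (detL X.Y X.Z) (sP.dv d)
  rw [dv_add, dv_sub, dv_smul, dv_smul, hE, hY, hZ] at e0
  simp only [map_add, map_sub, map_smul, smul_eq_mul, detL_apply, dE, dYh, det3_self23,
    map_zero] at e0
  rw [hG, hH, hC] at e0
  have hal : al * X.a = s := by
    field_simp at e0
    apply mul_left_cancel₀ (pow_ne_zero 3 w0)
    linear_combination (1 / 4 : K) * e0
  have pi5 : X.p X.Yh = 5 := by
    apply mul_left_cancel₀ hs; linear_combination hp + 2 * hal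
  have pE : X.p X.E = X.a := X.pE
  have s5 : Std (5 : K) := ⟨5, by simp⟩
  have s9 : Std (9 : K) := ⟨9, by simp⟩
  have e1 := X.ps.der d X.Yh
  rw [hY, pi5, s5.der] at e1
  simp only [map_add, map_smul, smul_eq_mul, pE, pi5] at e1
  rw [hG, hH, hC] at e1
  have hal' : al = s / X.a := by rw [← hal]; field_simp
  have k1 : h ^ 4 * X.p X.Z = X.a * w * (-9 * w ^ 2 - 2 * h ^ 3) := by
    rw [hal'] at e1
    field_simp at e1
    apply mul_left_cancel₀ hs
    linear_combination (1 / 4 : K) * e1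
  have sh3 : Std (h ^ 3) := (sh.mul (sh.mul sh)).of_eq (by ring)
  have k2 : Std (X.a * (9 * (w * w) + 5 * h ^ 3)) := by
    refine ((std_two.mul sh3).neg.mul (X.ps _ sP)).of_eq ?_
    simp only [map_add, map_sub, map_smul, smul_eq_mul, pE, pi5]
    field_simp
    linear_combination k1
  have da : d X.a = 6 * s := by rw [ha]; linear_combination 3 * hal
  have dw : X.a * w * d w = 3 * s * (w ^ 2 + h ^ 3) := by
    rw [hG, hC, d.leibniz, da, hal'] at hdC
    simp only [smul_eq_mul] at hdC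
    field_simp at hdC
    linear_combination (1 / 2 : K) * hdC
  have k3 := k2.der d
  rw [d.leibniz, map_add, d.leibniz, d.leibniz, s9.der, (s5.mul sh3).der, da] at k3
  simp only [smul_eq_mul] at k3
  have k4 : w * w = -(7 / 9) * h ^ 3 := by
    apply mul_left_cancel₀ hs
    linear_combination (1 / 108 : K) * k3 - (1 / 6 : K) * dw
  have s79 : Std (-(7 / 9) : K) := ⟨-(7 / 9), by simp⟩
  have k5 : Std (w * w) := (s79.mul sh3).of_eq k4
  have k6 := k5.der d
  rw [d.leibniz] at k6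
  simp only [smul_eq_mul] at k6
  have k7 : s * h ^ 3 = 0 := by
    linear_combination (-3 / 2 : K) * dw + (3 / 4 : K) * X.a * k6 - (9 / 2 : K) * s * k4
  exact mul_ne_zero hs (pow_ne_zero 3 h0) k7

end Pool.Agent.P.MP_33ab4b_ag.B

end

section

/-! Step A0C. -/

set_option autoImplicit false

namespace Pool.Agent.P.MP_33ab4b_ag.B

open Pool.Agent.P.MP_33ab4b_ag.T hiding tri

namespace A0Cx

variable {K : Type} [Field K] [LinearOrder K] [IsStrictOrderedRing K] {n : ℕ}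

/-- The radical of the pairing on `W0 E`. -/
def rad (mu : Tri K (Vec K n)) (E z0 : Vec K n) : Submodule K (Vec K n) where
  carrier := {x | x ∈ W0 E ∧ ∀ x' ∈ W0 E, mu x x' z0 = 0}
  zero_mem' := ⟨Submodule.zero_mem _, fun _ _ => by simp⟩
  add_mem' := by
    rintro a b ⟨ha, ha'⟩ ⟨hb, hb'⟩
    exact ⟨Submodule.add_mem _ ha hb, fun x hx => by simp [ha' x hx, hb' x hx]⟩
  smul_mem' := by
    rintro s a ⟨ha, ha'⟩
    exact ⟨Submodule.smul_mem _ _ ha, fun x hx => by simp [ha' x hx]⟩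

theorem rad_ssub {mu : Tri K (Vec K n)} (h : TS mu) {E z0 : Vec K n} (hz : VS z0) :
    SSub (rad mu E z0) := by
  rintro d x ⟨hx, hx'⟩
  refine ⟨SSub.w0 E d x hx, fun y hy => ?_⟩
  have := h.der d x y z0
  rw [hx' y hy, hx' _ (SSub.w0 E d y hy), hz.dv, map_zero, map_zero] at this
  simpa using this.symm

theorem std_det_adj {r : ℕ} (M : Matrix (Fin r) (Fin r) K) (h : ∀ j k, Std (M j k)) :
    Std M.det ∧ ∀ j k, Std (M.adjugate j k) := by
  choose M0 hM0 using h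
  have e : M = (Rat.castHom K).mapMatrix (Matrix.of M0) := by
    ext j k; simp [hM0]
  refine ⟨⟨(Matrix.of M0).det, ?_⟩, fun j k => ⟨(Matrix.of M0).adjugate j k, ?_⟩⟩
  · rw [e, ← RingHom.map_det]; rfl
  · rw [e, ← RingHom.map_adjugate]; rfl

end A0Cx

open A0Cx in
theorem p_A0C (hSCOMP : S_SCOMP) :
    S_A0C := by
  intro K _ _ _ hf n D E l X a0 phi s z0 ⟨sphi, sz, pz, sA, s0, hg, hW⟩
  have sym := X.ho.sym
  obtain ⟨r, w, β, h1, h2, h3⟩ := hSCOMP K hf n (rad D.mu E z0) (W0 E) (rad_ssub X.ts sz)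
    (SSub.w0 E) (fun x hx => hx.1)
  have EW : E ∈ W0 E := fun _ _ h => h
  have key : ∀ x ∈ W0 E, D.mu E x z0 = -s * l x := fun x hx => by
    rw [X.toCw.q, a0, hg]
    simp [(hW x hx).1, pz]; ring
  set M : Matrix (Fin r) (Fin r) K := Matrix.of fun j k => D.mu (w j) (w k) z0 with hM
  have Mv : ∀ t : Fin r → K, ∀ j, M.mulVec t j = D.mu (w j) (∑ k, t k • w k) z0 := fun t j => by
    simp [hM, Matrix.mulVec, dotProduct, map_sum, LinearMap.sum_apply, mul_comm]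
  have det0 : M.det ≠ 0 := by
    intro hd
    obtain ⟨t, t0, ht⟩ := Matrix.exists_mulVec_eq_zero_iff.2 hd
    have xW : (∑ k, t k • w k) ∈ W0 E :=
      Submodule.sum_mem _ fun k _ => Submodule.smul_mem _ _ (h1 k).2.1
    have xr : (∑ k, t k • w k) ∈ rad D.mu E z0 := by
      refine ⟨xW, fun y hy => ?_⟩
      have e := (h3 y hy).2 _ xW
      rw [sym.1]
      rw [map_sub, LinearMap.sub_apply, LinearMap.sub_apply, sub_eq_zero] at e
      rw [e, map_sum D.mu, LinearMap.sum_apply, LinearMap.sum_apply]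
      refine Finset.sum_eq_zero fun j _ => ?_
      have := Mv t j
      rw [ht] at this
      rw [map_smul, LinearMap.smul_apply, LinearMap.smul_apply, ← this]
      simp
    apply t0
    funext j
    have := (h1 j).2.2.2 _ xr
    rw [map_sum] at this
    simpa [h2] using this
  have uR := h3 E EW
  set v : Fin r → K := fun j => β j E with hv
  set u := E - ∑ j, v j • w j with hu
  have vA : VA hf v := fun j => (h1 j).2.2.1.fa E X.EA
  have uA : VA hf u := X.EA.sub (VA.sum _ fun j _ => VA.smul (vA j) (h1 j).1.va)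
  refine ⟨?_, r, w, v, u, fun j => ⟨(h1 j).1, (h1 j).2.1⟩, det0, vA, uA, uR.1, uR.2, by
    rw [hu]; abel⟩
  have lu : l u = 0 := by
    have a := key u uR.1
    rw [sym.1, uR.2 E EW] at a
    rcases mul_eq_zero.1 a.symm with h | h
    · exact absurd (neg_eq_zero.1 h) s0
    · exact h
  set lam : Fin r → K := fun j => l (w j) with hl
  have lamA : ∀ j, lam j ∈ AR hf := fun j => X.lA _ (h1 j).1.va
  have one : lam ⬝ᵥ v = 1 := by
    have a := lu
    rw [hu, map_sub, X.lE, map_sum, sub_eq_zero] at a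
    rw [a]; simp [dotProduct, hl, mul_comm]
  have Mv' : M.mulVec v = (-s) • lam := by
    funext j
    rw [Mv]
    have e : (∑ k, v k • w k) = E - u := by rw [hu]; abel
    rw [e, map_sub, LinearMap.sub_apply, sym.1 _ E, key _ (h1 j).2.1, sym.1 _ u,
      uR.2 _ (h1 j).2.1]
    simp [hl]
  obtain ⟨sd, sa⟩ := std_det_adj M fun j k => X.ts _ _ _ (h1 j).1 (h1 k).1 sz
  have adj : M.det • v = (-s) • M.adjugate.mulVec lam := by
    rw [← Matrix.mulVec_smul, ← Mv', Matrix.mulVec_mulVec, Matrix.adjugate_mul, Matrix.smul_mulVec,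
      Matrix.one_mulVec]
  have fin : s * (-(lam ⬝ᵥ M.adjugate.mulVec lam)) = M.det := by
    have := congrArg (fun x => lam ⬝ᵥ x) adj
    simp only [dotProduct_smul, one, smul_eq_mul] at this
    linear_combination -this
  have yA : -(lam ⬝ᵥ M.adjugate.mulVec lam) ∈ AR hf := by
    have b : ∀ j, M.adjugate.mulVec lam j ∈ AR hf := fun j => by
      unfold Matrix.mulVec dotProduct
      exact (AR hf).sum_mem fun k _ => (AR hf).mul_mem (A_of_std (sa j k)) (lamA k)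
    unfold dotProduct
    exact (AR hf).neg_mem ((AR hf).sum_mem fun j _ => (AR hf).mul_mem (lamA j) (b j))
  exact A_std_left sA yA (fin ▸ sd) (fin ▸ det0)

end Pool.Agent.P.MP_33ab4b_ag.B

end

section

/-! Step TN2. -/

set_option autoImplicit false

namespace Pool.Agent.P.MP_33ab4b_ag.B

open Pool.Agent.P.MP_33ab4b_ag.T hiding tri

theorem p_TN2 (hTFL : S_TFL) :
    S_TN2 := by
  intro K _ _ _ hf X hN hne
  obtain ⟨hall, d, al, s, hF, hs⟩ := hTFL K hf X hN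
  have ta : TA hf X.mu := X.ts.ta
  have aA : X.a ∈ AR hf := ta _ _ _ X.EA X.EA X.EA
  have c0A : X.c0 ∈ AR hf := ta _ _ _ X.YA X.YA X.YA
  have c1A : X.c1 ∈ AR hf := ta _ _ _ X.YA X.YA X.ZA
  have c2A : X.c2 ∈ AR hf := ta _ _ _ X.YA X.ZA X.ZA
  have CA : X.C ∈ AR hf := ta _ _ _ X.ZA X.ZA X.ZA
  have A2 : (2 : K) ∈ AR hf := ofNat_mem _ 2
  have A3 : (3 : K) ∈ AR hf := ofNat_mem _ 3
  have A4 : (4 : K) ∈ AR hf := ofNat_mem _ 4
  have A6 : (6 : K) ∈ AR hf := ofNat_mem _ 6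
  have A8 : (8 : K) ∈ AR hf := ofNat_mem _ 8
  have A16 : (16 : K) ∈ AR hf := ofNat_mem _ 16
  have GA : X.G ∈ AR hf :=
    add_mem (sub_mem (mul_mem c0A (pow_mem CA 2)) (mul_mem (mul_mem (mul_mem A3 c1A) c2A) CA))
      (mul_mem A2 (pow_mem c2A 3))
  have DA : X.Dd ∈ AR hf :=
    sub_mem (add_mem (add_mem (sub_mem (mul_mem (pow_mem c0A 2) (pow_mem CA 2))
      (mul_mem (mul_mem (mul_mem (mul_mem A6 c0A) c1A) c2A) CA))
      (mul_mem (mul_mem A4 c0A) (pow_mem c2A 3))) (mul_mem (mul_mem A4 (pow_mem c1A 3)) CA))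
      (mul_mem (mul_mem A3 (pow_mem c1A 2)) (pow_mem c2A 2))
  have hid : X.G ^ 2 + 4 * X.Hh ^ 3 = X.C ^ 2 * X.Dd := by
    simp only [TF.G, TF.Hh, TF.Dd]; ring
  have s4 : Std (4 : K) := ⟨4, by simp⟩
  have s64 : Std (64 : K) := ⟨64, by simp⟩
  have hT : Std X.Tt := hf.der _ fun d' => by
    obtain ⟨al', s', h'⟩ := hall d'
    obtain ⟨-, -, -, ha, -, hG, hD, -⟩ := h'
    rw [TF.Tt, sq, map_add, d'.leibniz, d'.leibniz, d'.leibniz, s4.der, ha, hG, hD]
    simp only [smul_eq_mul]; ring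
  have hfac : X.Tt ^ 2 + 64 * X.Hh ^ 3 =
      X.Dd * (X.a ^ 4 * X.Dd + 8 * X.a ^ 2 * X.G + 16 * X.C ^ 2) := by
    rw [TF.Tt]; linear_combination 16 * hid
  have hstd : Std (X.Tt ^ 2 + 64 * X.Hh ^ 3) :=
    ((hT.mul hT).add (s64.mul (hN.2.mul (hN.2.mul hN.2)))).of_eq (by ring)
  rw [hfac] at hstd hne
  have sD : Std X.Dd := A_std_left DA
    (add_mem (add_mem (mul_mem (pow_mem aA 4) DA) (mul_mem (mul_mem A8 (pow_mem aA 2)) GA))
      (mul_mem A16 (pow_mem CA 2))) hstd hne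
  have D0 : X.Dd ≠ 0 := left_ne_zero_of_mul hne
  have a0 : X.a ≠ 0 := X.a0
  have C0 : X.C ≠ 0 := X.C0
  obtain ⟨-, hY, hZ, -, hC, hG, hD, hp⟩ := hF
  have al0 : al = 0 := by
    rw [sD.der] at hD
    have : al * X.Dd = 0 := by linear_combination (1 / 6 : K) * hD
    exact (mul_eq_zero.1 this).resolve_right D0
  subst al0
  have pi3 : X.p X.Yh = 3 := by
    have : s * (X.p X.Yh - 3) = 0 := by rw [hp]; ring
    exact sub_eq_zero.1 ((mul_eq_zero.1 this).resolve_left hs)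
  have pE : X.p X.E = X.a := X.pE
  have e1 := X.ps.der d X.Yh
  rw [hY, pi3, std_three.der] at e1
  simp only [map_add, map_smul, smul_eq_mul, pE, pi3] at e1
  have e2 := X.ps.der d X.Z
  rw [hZ] at e2
  simp only [map_add, map_smul, smul_eq_mul, pE, pi3] at e2
  have k1 : X.G * X.C = 2 * X.Hh * X.Hh * X.p X.Z := by
    apply mul_left_cancel₀ (mul_ne_zero hs a0)
    field_simp at e1
    linear_combination (-1 / 2 : K) * e1
  have k2 := congrArg d k1
  have sH : Std (2 * X.Hh * X.Hh) := (std_two.mul hN.2).mul hN.2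
  rw [d.leibniz, d.leibniz, sH.der, hC, hG, e2] at k2
  simp only [smul_eq_mul] at k2
  have k3 : s * X.a * (X.C ^ 3 * X.Dd) = 0 := by
    field_simp at k2
    linear_combination (-1 / 5 : K) * (k2 + s * X.a * X.G * k1 + 2 * s * X.a * X.C * hid)
  exact mul_ne_zero (mul_ne_zero hs a0) (mul_ne_zero (pow_ne_zero 3 C0) D0) k3

end Pool.Agent.P.MP_33ab4b_ag.B

end

section

/-! Step SO. -/

set_option autoImplicit false

namespace Pool.Agent.P.MP_33ab4b_ag.B

open Pool.Agent.P.MP_33ab4b_ag.T hiding tri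

theorem p_SO (hFO : S_FO) :
    S_SO := by
  intro K _ _ _ hf n D E l X
  have hs := X.ho.sym
  have p1 : ∀ (d : Derivation ℚ K K) (x y z : Vec K n), l x = 0 → l y = 0 → l z = 0 →
      d (D.mu x y z) =
        D.mu (nab d E l x) y z + D.mu x (nab d E l y) z + D.mu x y (nab d E l z) := by
    intro d x y z hx hy hz
    have e1 : D.mu E y z = 0 := X.exc y z hy hz
    have e2 : D.mu x E z = 0 := by rw [hs.1]; exact X.exc x z hx hz
    have e3 : D.mu x y E = 0 := by rw [sym13 hs]; exact X.exc y x hy hx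
    rw [X.ts.der, dv_nab d E l x, dv_nab d E l y, dv_nab d E l z]
    simp only [map_add, map_smul, LinearMap.add_apply, LinearMap.smul_apply, e1, e2, e3,
      smul_zero, add_zero]
  refine ⟨p1, fun d1 d2 x x' hx hx' => ?_⟩
  have f1 := (hFO K hf n D E l X d1).1
  have f2 := (hFO K hf n D E l X d2).2.1
  have g : ∀ z, l z = 0 → d2 (gam D.mu E l z) = 2 * al d2 E l * gam D.mu E l z -
      D.mu E E E * nu d2 E l z + gam D.mu E l (nab d2 E l z) := by
    intro z hz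
    rw [d_frm, f2, dv_nab d2 E l z, map_add, map_smul, gam_E X.lE]
    simp only [LinearMap.sub_apply, LinearMap.smul_apply, smul_eq_mul, hz, mul_zero, sub_zero,
      add_zero]
  have k : ∀ z, d2 (nu d1 E l z) = df d2 (nu d1 E l) z + nu d1 E l (nab d2 E l z) := by
    intro z
    rw [d_frm, dv_nab d2 E l z, map_add, map_smul, nu_E X.lE, smul_zero, add_zero]
  have h := p1 d2 _ x x' (l_yy X.lE d1) hx hx'
  rw [f1 x x' hx hx', f1 _ x' (l_nab X.lE d2 x) hx', f1 x _ hx (l_nab X.lE d2 x'), map_add,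
    Derivation.leibniz, Derivation.leibniz, g x hx, g x' hx', k x, k x'] at h
  simp only [kap, LinearMap.add_apply, LinearMap.smul_apply, smul_eq_mul] at h ⊢
  linear_combination -h

end Pool.Agent.P.MP_33ab4b_ag.B

end
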