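import Pool.Agent.P.MP_33ab4b_ag.B.IfaceA

section

/-! Step BIN1. -/

set_option autoImplicit false

namespace Pool.Agent.P.MP_33ab4b_ag.B

open Pool.Agent.P.MP_33ab4b_ag.T hiding tri

namespace BIN1x

variable {K : Type} [Field K] [LinearOrder K] [IsStrictOrderedRing K]

theorem d_mul (d : Derivation ℚ K K) (x y : K) : d (x * y) = x * d y + y * d x := by
  rw [Derivation.leibniz]; rfl

theorem d_two (d : Derivation ℚ K K) (x : K) : d (2 * x) = 2 * d x := by
  rw [two_mul, map_add, two_mul]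

theorem d_three (d : Derivation ℚ K K) (x : K) : d (3 * x) = 3 * d x := by
  rw [show 3 * x = x + x + x by ring, map_add, map_add]; ring

theorem core (hf : HF K) {a b del pi : K} (ha : a ∈ AR hf) (hb : b ∈ AR hf) (hdel : del ∈ AR hf)
    (hpi : pi ∈ AR hf) (a0 : a ≠ 0) (b0 : b ≠ 0) (del0 : del ≠ 0)
    (al sig n : Derivation ℚ K K → K)
    (h1 : ∀ d : Derivation ℚ K K, d a = 3 * al d * a + 3 * sig d * b)
    (h2 : ∀ d : Derivation ℚ K K, d a = al d * a + sig d * pi)
    (h3 : ∀ d : Derivation ℚ K K, d b = al d * b + n d * a)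
    (h4 : ∀ d : Derivation ℚ K K, sig d * del + 2 * n d * b = 0)
    (h5 : ∀ d : Derivation ℚ K K, d del = -3 * al d * del)
    (h6 : ∀ d : Derivation ℚ K K, d pi = n d * a - al d * pi)
    (hv : pi = 2 * b → Std (b / a) → Std a) :
    ∀ d : Derivation ℚ K K, al d = 0 ∧ sig d = 0 := by
  have two : (2 : K) ∈ AR hf := A_of_std std_two
  have al0 : Std del → ∀ d : Derivation ℚ K K, al d = 0 := fun s d => by
    have e := h5 d
    rw [s.der d] at e
    have : al d * del = 0 := by linear_combination (1 / 3 : K) * e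
    exact (mul_eq_zero.1 this).resolve_right del0
  have sig0 : Std a → ∀ d : Derivation ℚ K K, al d = 0 → sig d = 0 := fun s d e0 => by
    have e := h1 d
    rw [s.der d, e0] at e
    have : sig d * b = 0 := by linear_combination (-1 / 3 : K) * e
    exact (mul_eq_zero.1 this).resolve_right b0
  by_cases hD : del * (a * a * del + 2 * (2 * (b * b * b))) = 0
  · have hD' : a * a * del + 2 * (2 * (b * b * b)) = 0 := (mul_eq_zero.1 hD).resolve_left del0
    have k1 : ∀ d : Derivation ℚ K K, n d * a * a = 2 * b * b * sig d := fun d => by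
      have : b * (n d * a * a - 2 * b * b * sig d) = 0 := by
        linear_combination (a * a / 2) * h4 d - (sig d / 2) * hD'
      exact sub_eq_zero.1 ((mul_eq_zero.1 this).resolve_left b0)
    by_cases hp : pi = 2 * b
    · have k2 : ∀ d : Derivation ℚ K K, sig d * b = -2 * al d * a := fun d => by
        have e := (h1 d).symm.trans (h2 d)
        rw [hp] at e
        linear_combination e
      have k3 : ∀ d : Derivation ℚ K K, n d * a = -4 * al d * b := fun d => by
        have : a * (n d * a + 4 * al d * b) = 0 := by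
          linear_combination k1 d + (2 * b) * k2 d
        have := (mul_eq_zero.1 this).resolve_left a0
        linear_combination this
      have sr : Std (b / a) := hf.der _ fun d => by
        rw [d.leibniz_div, h3 d, h1 d]
        simp only [smul_eq_mul]
        have : a * (al d * b + n d * a) - b * (3 * al d * a + 3 * sig d * b) = 0 := by
          linear_combination a * k3 d - (3 * b) * k2 d
        rw [this, mul_zero]
      have sa := hv hp sr
      intro d
      have e0 : al d = 0 := by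
        have e := h1 d
        rw [sa.der d] at e
        have : al d * a = 0 := by linear_combination (1 / 3 : K) * e + k2 d
        exact (mul_eq_zero.1 this).resolve_right a0
      exact ⟨e0, sig0 sa d e0⟩
    · have s1 : Std (b * (pi - 2 * b)) := hf.der _ fun d => by
        rw [d_mul, map_sub, d_two, h6 d, h3 d]
        have e := (h1 d).symm.trans (h2 d)
        have : a * (b * (n d * a - al d * pi - 2 * (al d * b + n d * a)) +
            (pi - 2 * b) * (al d * b + n d * a)) = 0 := by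
          linear_combination (pi - 3 * b) * k1 d - (2 * b * b) * e
        exact (mul_eq_zero.1 this).resolve_left a0
      have sb : Std b := A_std_left hb ((AR hf).sub_mem hpi ((AR hf).mul_mem two hb)) s1
        (mul_ne_zero b0 (sub_ne_zero.2 hp))
      have s2 : Std (a * a * del) :=
        (std_two.mul (std_two.mul ((sb.mul sb).mul sb))).neg.of_eq (by linear_combination hD')
      have n2 : a * a * del ≠ 0 := mul_ne_zero (mul_ne_zero a0 a0) del0
      have sd : Std del := A_std_right ((AR hf).mul_mem ha ha) hdel s2 n2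
      have saa : Std (a * a) := A_std_left ((AR hf).mul_mem ha ha) hdel s2 n2
      have sa : Std a := A_std_left ha ha saa (mul_ne_zero a0 a0)
      exact fun d => ⟨al0 sd d, sig0 sa d (al0 sd d)⟩
  · have s1 : Std (del * (a * a * del + 2 * (2 * (b * b * b)))) := hf.der _ fun d => by
      simp only [d_mul, map_add, std_two.der d, h1 d, h3 d, h5 d]
      linear_combination (6 * a * b * del) * h4 d
    have sd : Std del := A_std_left hdel ((AR hf).add_mem
      ((AR hf).mul_mem ((AR hf).mul_mem ha ha) hdel)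
      ((AR hf).mul_mem two ((AR hf).mul_mem two
        ((AR hf).mul_mem ((AR hf).mul_mem hb hb) hb)))) s1 hD
    intro d
    refine ⟨al0 sd d, ?_⟩
    by_contra c
    have hp : pi = 3 * b := by
      have e := (h1 d).symm.trans (h2 d)
      rw [al0 sd d] at e
      have : sig d * (pi - 3 * b) = 0 := by linear_combination -e
      exact sub_eq_zero.1 ((mul_eq_zero.1 this).resolve_left c)
    have e := h6 d
    rw [hp, d_three, h3 d, al0 sd d] at e
    have n0 : n d = 0 := by
      have : n d * a = 0 := by linear_combination (1 / 2 : K) * e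
      exact (mul_eq_zero.1 this).resolve_right a0
    have e4 := h4 d
    rw [n0] at e4
    have : sig d * del = 0 := by linear_combination e4
    exact c ((mul_eq_zero.1 this).resolve_right del0)

end BIN1x

theorem p_BIN1 :
    S_BIN1 := by
  intro K _ _ _ hf mu p E Y hs ht hp hE hY hdet hEYY hpE a0 b0 del0
  have tr : ∀ d : Derivation ℚ K K,
      d (E 0) * Y 1 - d (E 1) * Y 0 + (E 0 * d (Y 1) - E 1 * d (Y 0)) = 0 := fun d => by
    have e := congrArg d hdet
    rw [map_sub, BIN1x.d_mul, BIN1x.d_mul, Std.one.der d] at e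
    linear_combination e
  have dE : ∀ d : Derivation ℚ K K, dv d E = (d (E 0) * Y 1 - d (E 1) * Y 0) • E +
      (E 0 * d (E 1) - E 1 * d (E 0)) • Y := fun d => by
    funext i
    fin_cases i
    · show d (E 0) = (d (E 0) * Y 1 - d (E 1) * Y 0) * E 0 + (E 0 * d (E 1) - E 1 * d (E 0)) * Y 0
      linear_combination (-d (E 0)) * hdet
    · show d (E 1) = (d (E 0) * Y 1 - d (E 1) * Y 0) * E 1 + (E 0 * d (E 1) - E 1 * d (E 0)) * Y 1
      linear_combination (-d (E 1)) * hdet
  have dY : ∀ d : Derivation ℚ K K, dv d Y = (d (Y 0) * Y 1 - d (Y 1) * Y 0) • E -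
      (d (E 0) * Y 1 - d (E 1) * Y 0) • Y := fun d => by
    funext i
    fin_cases i
    · show d (Y 0) = (d (Y 0) * Y 1 - d (Y 1) * Y 0) * E 0 - (d (E 0) * Y 1 - d (E 1) * Y 0) * Y 0
      linear_combination (-d (Y 0)) * hdet + Y 0 * tr d
    · show d (Y 1) = (d (Y 0) * Y 1 - d (Y 1) * Y 0) * E 1 - (d (E 0) * Y 1 - d (E 1) * Y 0) * Y 1
      linear_combination (-d (Y 1)) * hdet + Y 1 * tr d
  obtain ⟨al, hal⟩ : ∃ al : Derivation ℚ K K → K, ∀ d, al d = d (E 0) * Y 1 - d (E 1) * Y 0 :=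
    ⟨_, fun _ => rfl⟩
  obtain ⟨sig, hsig⟩ : ∃ sig : Derivation ℚ K K → K, ∀ d, sig d = E 0 * d (E 1) - E 1 * d (E 0) :=
    ⟨_, fun _ => rfl⟩
  obtain ⟨n, hn⟩ : ∃ n : Derivation ℚ K K → K, ∀ d, n d = d (Y 0) * Y 1 - d (Y 1) * Y 0 :=
    ⟨_, fun _ => rfl⟩
  simp only [← hal, ← hsig, ← hn] at dE dY
  have m1 : mu E Y E = mu E E Y := hs.2 _ _ _
  have m2 : mu Y E E = mu E E Y := symrot hs _ _ _
  have m3 : mu Y E Y = 0 := (hs.1 _ _ _).trans hEYY
  have m4 : mu Y Y E = 0 := (sym13 hs _ _ _).trans hEYY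
  have h1 : ∀ d : Derivation ℚ K K, d (mu E E E) = 3 * al d * mu E E E + 3 * sig d * mu E E Y :=
    fun d => by
      rw [ht.der, dE]
      simp only [map_add, map_smul, LinearMap.add_apply, LinearMap.smul_apply, smul_eq_mul, m1, m2]
      ring
  have h2 : ∀ d : Derivation ℚ K K, d (mu E E E) = al d * mu E E E + sig d * p Y := fun d => by
    rw [← hpE, hp.der, dE]
    simp only [map_add, map_smul, smul_eq_mul]
  have h3 : ∀ d : Derivation ℚ K K, d (mu E E Y) = al d * mu E E Y + n d * mu E E E := fun d => by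
    rw [ht.der, dE, dY]
    simp only [map_add, map_sub, map_smul, LinearMap.add_apply, LinearMap.smul_apply, smul_eq_mul,
      m3, hEYY]
    ring
  have h4 : ∀ d : Derivation ℚ K K, sig d * mu Y Y Y + 2 * n d * mu E E Y = 0 := fun d => by
    have e := ht.der d E Y Y
    rw [hEYY, map_zero, dE, dY] at e
    simp only [map_add, map_sub, map_smul, LinearMap.add_apply, LinearMap.sub_apply,
      LinearMap.smul_apply, smul_eq_mul, m1, hEYY] at e
    linear_combination -e
  have h5 : ∀ d : Derivation ℚ K K, d (mu Y Y Y) = -3 * al d * mu Y Y Y := fun d => by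
    rw [ht.der, dY]
    simp only [map_sub, map_smul, LinearMap.sub_apply, LinearMap.smul_apply, smul_eq_mul,
      m3, m4, hEYY]
    ring
  have h6 : ∀ d : Derivation ℚ K K, d (p Y) = n d * mu E E E - al d * p Y := fun d => by
    rw [hp.der, dY]
    simp only [map_sub, map_smul, smul_eq_mul, hpE]
  have aA : mu E E E ∈ AR hf := ht.ta E E E hE hE hE
  have hv : p Y = 2 * mu E E Y → Std (mu E E Y / mu E E E) → Std (mu E E E) := fun e sr => by
    have sv : VS (p Y • E - mu E E E • Y) := VS.of_dv hf fun d => by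
      rw [dv_sub, dv_smul, dv_smul, dE, dY, h6, h2]
      module
    have mem : ∀ i, 2 * (mu E E Y / mu E E E) * E i - Y i ∈ AR hf := fun i =>
      (AR hf).sub_mem ((AR hf).mul_mem (A_of_std (std_two.mul sr)) (hE i)) (hY i)
    have sm : ∀ i, Std (mu E E E * (2 * (mu E E Y / mu E E E) * E i - Y i)) := fun i =>
      (sv i).of_eq (by
        rw [Pi.sub_apply, Pi.smul_apply, Pi.smul_apply, smul_eq_mul, smul_eq_mul, e]
        field_simp)
    by_cases c0 : 2 * (mu E E Y / mu E E E) * E 0 - Y 0 = 0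
    · have c1 : 2 * (mu E E Y / mu E E E) * E 1 - Y 1 ≠ 0 := fun c1 => by
        have : (1 : K) = 0 := by linear_combination -hdet - E 0 * c1 + E 1 * c0
        exact one_ne_zero this
      exact A_std_left aA (mem 1) (sm 1) (mul_ne_zero a0 c1)
    · exact A_std_left aA (mem 0) (sm 0) (mul_ne_zero a0 c0)
  have key := BIN1x.core hf aA (ht.ta E E Y hE hE hY) (ht.ta Y Y Y hY hY hY) (hp.fa Y hY) a0 b0
    del0 al sig n h1 h2 h3 h4 h5 h6 hv
  refine VS.of_dv hf fun d => ?_
  rw [dE, (key d).1, (key d).2, zero_smul, zero_smul, add_zero]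

end Pool.Agent.P.MP_33ab4b_ag.B

end

section

/-! Step A0D. -/

set_option autoImplicit false

namespace Pool.Agent.P.MP_33ab4b_ag.B

open Pool.Agent.P.MP_33ab4b_ag.T hiding tri

namespace A0Dx

variable {K : Type} [Field K] [LinearOrder K] [IsStrictOrderedRing K] {n r : ℕ}

theorem nfm_sum (mu : Tri K (Vec K n)) (phi : Frm K n) (z0 : Vec K n) (w : Fin r → Vec K n)
    (t : Vec K r) (y : Vec K n) :
    nfm mu phi z0 (∑ j, t j • w j) y = ∑ j, t j * nfm mu phi z0 (w j) y := by
  simp only [nfm_apply, map_sum, map_smul, LinearMap.sum_apply, LinearMap.smul_apply, smul_eq_mul,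
    Finset.sum_div, Finset.sum_mul, ← Finset.sum_sub_distrib]
  exact Finset.sum_congr rfl fun j _ => by ring

end A0Dx

open A0Dx in
theorem p_A0D (hSPANA : S_SPANA) :
    S_A0D := by
  intro K _ _ _ h2 n mu phi z0 r w v hs ts fp vz _ hw hdet hv hstd hne
  obtain ⟨M, hM⟩ : ∃ M : Matrix (Fin r) (Fin r) K, M = Matrix.of fun j k => mu (w j) (w k) z0 :=
    ⟨_, rfl⟩
  rw [← hM] at hdet
  have Mjk : ∀ j k, M j k = mu (w j) (w k) z0 := fun j k => by rw [hM]; rfl
  have Msym : M.IsSymm := Matrix.IsSymm.ext fun j k => by rw [Mjk, Mjk, hs.1]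
  have Mstd : ∀ j k, Std (M j k) := fun j k => by
    rw [Mjk]; exact ts _ _ _ (hw j).1 (hw k).1 vz
  have pW : ∀ t : Vec K r, phi (∑ j, t j • w j) = 0 := fun t => by
    simp [map_sum, fun j => (hw j).2.1]
  have Nw : ∀ j (s : Vec K r), nfm mu phi z0 (w j) (∑ k, s k • w k) = M.mulVec s j := fun j s => by
    rw [nfm_apply, pW, mul_zero, sub_zero, map_sum, Matrix.mulVec, dotProduct]
    exact Finset.sum_congr rfl fun k _ => by rw [map_smul, smul_eq_mul, Mjk, hs.2, mul_comm]
  have NW : ∀ t s : Vec K r,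
      nfm mu phi z0 (∑ j, t j • w j) (∑ k, s k • w k) = t ⬝ᵥ M.mulVec s := fun t s => by
    rw [nfm_sum, dotProduct]
    exact Finset.sum_congr rfl fun j _ => by rw [Nw]
  have sw : ∀ t s : Vec K r, t ⬝ᵥ M.mulVec s = s ⬝ᵥ M.mulVec t := fun t s => by
    rw [Matrix.dotProduct_mulVec, ← Matrix.mulVec_transpose, Msym.eq, dotProduct_comm]
  have vv : mu (∑ j, v j • w j) (∑ j, v j • w j) z0 = v ⬝ᵥ M.mulVec v := by
    rw [← NW, nfm_apply, pW, mul_zero, sub_zero, hs.2]
  have muW : ∀ (t : Vec K r) y z, mu (∑ j, t j • w j) y z =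
      phi y * nfm mu phi z0 (∑ j, t j • w j) z + nfm mu phi z0 (∑ j, t j • w j) y * phi z := by
    intro t y z
    rw [nfm_sum, nfm_sum, map_sum, LinearMap.sum_apply, LinearMap.sum_apply, Finset.mul_sum,
      Finset.sum_mul, ← Finset.sum_add_distrib]
    refine Finset.sum_congr rfl fun j _ => ?_
    rw [map_smul, LinearMap.smul_apply, LinearMap.smul_apply, smul_eq_mul, (hw j).2.2]
    ring
  have Nfs : ∀ j, FS (nfm mu phi z0 (w j)) := fun j =>
    (ts.fs (hw j).1 vz).sub (fp.smul ((ts _ _ _ (hw j).1 vz vz).div std_two))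
  rw [vv] at hstd hne
  obtain ⟨s, b0, hb1, hb2, hb3⟩ := h2.herm r M Msym Mstd hdet v hv hstd hne
  obtain ⟨G, Gs, hG⟩ := Lb.std_ginv M Mstd
  have MG : M * G = 1 := by
    have u : IsUnit M.det := isUnit_iff_ne_zero.2 hdet
    have := congrArg (· * M⁻¹) hG
    simpa [Matrix.mul_assoc, Matrix.mul_nonsing_inv M u] using this
  have WA : ∀ t : Vec K r, VA h2.toHF t → VA h2.toHF (∑ j, t j • w j) := fun t ht =>
    VA.sum _ fun j _ => (hw j).1.va.smul (ht j)
  obtain ⟨b, hb⟩ : ∃ b : Set (Vec K n), ∀ x, x ∈ b ↔ (∃ i, x = ∑ j, b0 i j • w j) ∨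
      (VS x ∧ ∀ j, nfm mu phi z0 (w j) x = 0) := ⟨{x | _}, fun _ => Iff.rfl⟩
  have ph : ∀ y ∈ b, Std (phi y) := fun y hy => by
    rcases (hb y).1 hy with ⟨i, rfl⟩ | h
    · rw [pW]; exact Std.zero
    · exact fp y h.1
  have nb : ∀ i, ∀ y ∈ b, Std (nfm mu phi z0 (∑ j, b0 i j • w j) y) := fun i y hy => by
    rcases (hb y).1 hy with ⟨k, rfl⟩ | h
    · rw [NW]; exact hb2 i k
    · rw [nfm_sum]
      simp only [h.2, mul_zero, Finset.sum_const_zero]
      exact Std.zero
  have st : ∀ i, ∀ y ∈ b, ∀ z ∈ b, Std (mu (∑ j, b0 i j • w j) y z) := fun i y hy z hz => by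
    rw [muW]
    exact ((ph y hy).mul (nb i z hz)).add ((nb i y hy).mul (ph z hz))
  refine ⟨b, ⟨fun x hx => ?_, fun x hx xA => ?_, fun x hx y hy z hz => ?_⟩, fun x hx => ?_,
    fun x h1 h => (hb x).2 (Or.inr ⟨h1, h⟩)⟩
  · rcases (hb x).1 hx with ⟨i, rfl⟩ | h
    · exact ⟨by rw [NW, sw]; exact (hb1 i).2, WA _ (hb1 i).1⟩
    · exact ⟨by rw [nfm_sum]; simp [h.2], h.1.va⟩
  · obtain ⟨c, hc⟩ : ∃ c : Vec K r, c = G.mulVec fun j => nfm mu phi z0 (w j) x := ⟨_, rfl⟩
    have cA : VA h2.toHF c := fun j => by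
      rw [hc, Matrix.mulVec, dotProduct]
      exact (AR h2.toHF).sum_mem fun k _ =>
        (AR h2.toHF).mul_mem (A_of_std (Gs j k)) ((Nfs k).fa x xA)
    have Mc : M.mulVec c = fun j => nfm mu phi z0 (w j) x := by
      rw [hc, Matrix.mulVec_mulVec, MG, Matrix.one_mulVec]
    have sU : SSub (⨅ j, LinearMap.ker (nfm mu phi z0 (w j))) := fun d u hu => by
      rw [Submodule.mem_iInf] at hu ⊢
      exact fun j => SSub.ker (Nfs j) d u (hu j)
    have h1 := (hSPANA K h2.toHF n).1 _ sU (x - ∑ j, c j • w j) (by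
      rw [Submodule.mem_iInf]
      intro j
      rw [LinearMap.mem_ker, map_sub, Nw, Mc, sub_self]) (xA.sub (WA c cA))
    obtain ⟨t, tA, ht⟩ := hb3 c cA (by
      rw [sw, Mc, ← hx, nfm_sum, dotProduct])
    have h3 : ∑ j, c j • w j = ∑ i, t i • ∑ j, b0 i j • w j := by
      rw [ht]
      simp only [Finset.sum_apply, Pi.smul_apply, smul_eq_mul, Finset.sum_smul, Finset.smul_sum,
        smul_smul]
      exact Finset.sum_comm
    have e : x = (x - ∑ j, c j • w j) + ∑ j, c j • w j := (sub_add_cancel _ _).symm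
    rw [e]
    refine Submodule.add_mem _ (Submodule.span_mono (fun y hy => (hb y).2 (Or.inr ⟨hy.1, fun j =>
      (Submodule.mem_iInf _).1 hy.2 j⟩)) h1) ?_
    rw [h3]
    exact Submodule.sum_mem _ fun i _ =>
      mem_spanA_smul (tA i) (Submodule.subset_span ((hb _).2 (Or.inl ⟨i, rfl⟩)))
  · rcases (hb x).1 hx with ⟨i, rfl⟩ | h
    · exact st i y hy z hz
    rcases (hb y).1 hy with ⟨i, rfl⟩ | h'
    · rw [hs.1]; exact st i x hx z hz
    rcases (hb z).1 hz with ⟨i, rfl⟩ | h''
    · rw [sym13 hs]; exact st i y hy x hx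
    exact ts _ _ _ h.1 h'.1 h''.1
  · rcases (hb x).1 hx with ⟨i, rfl⟩ | h
    · exact Or.inr (Submodule.sum_mem _ fun j _ =>
        Submodule.smul_mem _ _ (Submodule.subset_span ⟨j, rfl⟩))
    · exact Or.inl h.1

end Pool.Agent.P.MP_33ab4b_ag.B

end

section

/-! Step DEATH. -/

set_option autoImplicit false

namespace Pool.Agent.P.MP_33ab4b_ag.B

open Pool.Agent.P.MP_33ab4b_ag.T hiding tri

theorem p_DEATH (hFO : S_FO) :
    S_DEATH := by
  intro K _ _ _ hf n D E l X f chi e s j0
  have sy := X.ho.sym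
  have e0 : e ≠ 0 := (X.ho.sp_H s.toSp).1
  have h1 : ∀ x, l x = 0 → -l f * gam D.mu E l x = e * chi E * chi x := fun x hx => by
    have := X.toCw.q f x
    rw [sy.1, s.eq, hx] at this
    linear_combination -this
  have N0 : chi E ≠ 0 := fun c => by
    obtain ⟨h, -, b, g⟩ := X.toCw.g_ne
    have := h1 h b
    rw [c] at this
    simp [j0, g] at this
  set R : Submodule K (Vec K n) := LinearMap.ker l ⊓ LinearMap.ker chi with hR
  have mR : ∀ x, x ∈ R ↔ l x = 0 ∧ chi x = 0 := fun _ => Iff.rfl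
  have gR : ∀ r ∈ R, gam D.mu E l r = 0 := fun r hr => by
    have := h1 r hr.1
    rw [((mR r).1 hr).2] at this
    simpa [j0] using this
  have ER : E ∈ ann D.mu R := fun r hr y => by
    rw [X.toCw.q, gR r hr, ((mR r).1 hr).1]
    ring
  have fR : f ∈ ann D.mu R := fun r hr y => by
    rw [s.eq, ((mR r).1 hr).2]
    ring
  have sR : SSub R := fun d w hw => by
    refine (mR _).2 ⟨?_, SSub.ker s.sc d w hw.2⟩
    have a := (hFO K hf n D E l X d).1 _ w (l_proj X.lE f) hw.1
    have b := h1 _ (l_proj X.lE f)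
    have c : D.mu (yy d E l) (f - l f • E) w = 0 := by
      rw [symrot sy]
      exact (ann D.mu R).sub_mem fR ((ann D.mu R).smul_mem _ ER) w hw _
    have g : gam D.mu E l (f - l f • E) ≠ 0 := fun g => by
      rw [g] at b
      simp [s.z, e0, N0, j0] at b
    rw [c, gR w hw, nu_ker d hw.1, mul_zero, add_zero] at a
    exact (mul_eq_zero.1 a.symm).resolve_left g
  obtain ⟨z, zR, sz, cz, zz⟩ : ∃ z ∈ ann D.mu R, VS z ∧ chi z = 1 ∧ D.mu z z z = 0 := by
    obtain ⟨z0, m0, s0, c0⟩ := (sR.ann X.ts).exists_std hf chi ER N0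
    obtain ⟨z, m, sz, c⟩ : ∃ z ∈ ann D.mu R, VS z ∧ chi z = 1 :=
      ⟨(chi z0)⁻¹ • z0, Submodule.smul_mem _ _ m0, s0.smul (s.sc _ s0).inv, by simp [c0]⟩
    refine ⟨z - (D.mu z z z / (3 * e)) • f, Submodule.sub_mem _ m (Submodule.smul_mem _ _ fR),
      sz.sub (s.sf.smul ((X.ts _ _ _ sz sz sz).div (std_three.mul s.se))), by simp [c, s.z], ?_⟩
    simp only [map_sub, map_smul, LinearMap.sub_apply, LinearMap.smul_apply, smul_eq_mul,
      sy.1 z f, sym13 sy z z f, s.eq, s.z, c]
    field_simp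
    ring
  have dec : ∀ x, x - chi x • z - ((l x - chi x * l z) / l f) • f ∈ R := fun x =>
    (mR _).2 ⟨by simp [j0], by simp [cz, s.z]⟩
  obtain ⟨k, hk⟩ : ∃ k : K, E = chi E • z + k • f := by
    refine ⟨(l E - chi E * l z) / l f, ?_⟩
    rw [← sub_eq_zero, ← sub_sub]
    have m := dec E
    have m' : E - chi E • z - ((l E - chi E * l z) / l f) • f ∈ ann D.mu R :=
      Submodule.sub_mem _ (Submodule.sub_mem _ ER (Submodule.smul_mem _ _ zR))
        (Submodule.smul_mem _ _ fR)
    generalize E - chi E • z - ((l E - chi E * l z) / l f) • f = r at m m'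
    refine X.ho.nd fun y w => ?_
    have := m' _ (dec y) w
    simpa only [map_sub, map_smul, LinearMap.sub_apply, LinearMap.smul_apply, smul_eq_mul,
      sy.1 r z, sy.1 r f, zR r m w, fR r m w, mul_zero, sub_zero] using this
  have NA : chi E ∈ AR hf := s.sc.fa _ X.EA
  have iA : l z ∈ AR hf := X.lA _ sz.va
  have jA : l f ∈ AR hf := X.lA _ s.sf.va
  have kA : k ∈ AR hf := by
    obtain ⟨m, hm, m1⟩ := s.sf.exists_form s.ne
    have := hm.fa _ (X.EA.sub (VA.smul NA sz.va))
    rwa [sub_eq_iff_eq_add'.2 hk, map_smul, m1, smul_eq_mul, mul_one] at this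
  have r1 : chi E * l z + k * l f = 1 := by
    have := X.lE
    rwa [hk, map_add, map_smul, map_smul, smul_eq_mul, smul_eq_mul] at this
  have r2 : k * l f = 2 * (chi E * l z) := by
    have := X.exc (l f • z - l z • f) (l f • z - l z • f) (by simp [mul_comm]) (by simp [mul_comm])
    generalize chi E = N at hk ⊢
    rw [hk] at this
    simp only [map_sub, map_add, map_smul, LinearMap.sub_apply, LinearMap.add_apply,
      LinearMap.smul_apply, smul_eq_mul, sy.1 z f, sym13 sy z z f, s.eq, s.z, cz, zz] at this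
    apply mul_left_cancel₀ (mul_ne_zero e0 j0)
    linear_combination this
  have r3 : chi E * l z = 3⁻¹ := by linear_combination (r1 - r2) / 3
  have r4 : k * l f = 2 * 3⁻¹ := by rw [r2, r3]
  have s3 : Std (chi E * l z) := r3 ▸ std_three.inv
  have s4 : Std (k * l f) := r4 ▸ std_two.mul std_three.inv
  have n3 : chi E * l z ≠ 0 := by rw [r3]; positivity
  have n4 : k * l f ≠ 0 := by rw [r4]; positivity
  refine ⟨((sz.smul (A_std_left NA iA s3 n3)).add (s.sf.smul (A_std_left kA jA s4 n4))).of_eq hk,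
    fun x hx => ?_, N0⟩
  have a := zR _ (dec x) z
  simp only [map_sub, map_smul, LinearMap.sub_apply, LinearMap.smul_apply, smul_eq_mul,
    sy.1 z f, s.eq, cz, zz] at a
  refine (((s.sc x hx).mul (A_std_right NA iA s3 n3)).add ((A_std_right kA jA s4 n4).mul
    ((X.ts _ _ _ sz hx sz).div s.se))).of_eq ?_
  field_simp at a ⊢
  linear_combination -a

end Pool.Agent.P.MP_33ab4b_ag.B

end

section

/-! Step A0A. -/

set_option autoImplicit false

namespace Pool.Agent.P.MP_33ab4b_ag.B

open Pool.Agent.P.MP_33ab4b_ag.T hiding tri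

theorem p_A0A (hFO : S_FO) :
    S_A0A := by
  intro K _ _ _ hf n D E l X a0
  have hs := X.ho.sym
  have F := hFO K hf n D E l X
  have hline : ∀ d : Derivation ℚ K K, ∃ c : K, df d (gam D.mu E l) = c • gam D.mu E l := by
    intro d
    obtain ⟨-, h2, h3⟩ := F d
    rw [a0, map_zero] at h3
    have g0 : gam D.mu E l (yy d E l) = 0 := by linarith
    exact ⟨2 * al d E l, by rw [h2, a0, g0]; simp⟩
  obtain ⟨phi, s, hphi, e⟩ := fline hf hline
  obtain ⟨h, -, -, hg⟩ := X.toCw.g_ne
  have s0 : s ≠ 0 := by rintro rfl; simp [e] at hg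
  have p0 : phi ≠ 0 := by rintro rfl; simp [e] at hg
  obtain ⟨z0, hz0, z1⟩ := hphi.exists_vec p0
  have ga : ∀ x, gam D.mu E l x = s * phi x := fun x => by rw [e]; rfl
  have sA : s ∈ AR hf := by
    have := X.toCw.gA z0 hz0.va
    rwa [ga, z1, mul_one] at this
  have pE : phi E = 0 := by
    have := X.toCw.gE
    rw [ga] at this
    exact (mul_eq_zero.1 this).resolve_left s0
  refine ⟨phi, s, z0, hphi, hz0, z1, sA, s0, e, fun x hx => ⟨hx phi hphi pE, ?_⟩⟩
  have k1 : ∀ y ∈ LinearMap.ker phi, VS y → ∀ z ∈ LinearMap.ker phi, VS z → D.mu x y z = 0 := by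
    intro y hy sy z hz sz
    rw [LinearMap.mem_ker] at hy hz
    rw [symrot hs]
    refine hx _ (X.ts.fs sy sz) ?_
    rw [sym13 hs, hs.2, X.toCw.q, ga, ga, hy, hz, a0]; ring
  have k2 : ∀ y ∈ LinearMap.ker phi, VS y → ∀ z ∈ LinearMap.ker phi, D.mu x y z = 0 :=
    fun y hy sy => (SSub.ker hphi).eq_zero hf (D.mu x y) (k1 y hy sy)
  have k3 : ∀ z ∈ LinearMap.ker phi, ∀ y ∈ LinearMap.ker phi, D.mu x z y = 0 := by
    intro z hz
    refine (SSub.ker hphi).eq_zero hf (D.mu x z) fun y hy sy => ?_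
    rw [hs.2]; exact k2 y hy sy z hz
  intro y z
  have := k3 (y - phi y • z0) (by simp [z1]) (z - phi z • z0) (by simp [z1])
  simp only [map_sub, map_smul, LinearMap.sub_apply, LinearMap.smul_apply, smul_eq_mul,
    hs.2 x y z0] at this
  simp only [nfm_apply]
  linear_combination this

end Pool.Agent.P.MP_33ab4b_ag.B

end

section

/-! Step SPANA. -/

set_option autoImplicit false

namespace Pool.Agent.P.MP_33ab4b_ag.B

open Pool.Agent.P.MP_33ab4b_ag.T hiding tri

theorem p_SPANA (hSCOMP : S_SCOMP) :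
    S_SPANA := by
  intro K _ _ _ hf n
  have key : ∀ W : Submodule K (Vec K n), SSub W → ∀ x ∈ W, VA hf x →
      x ∈ Submodule.span (AR hf) {v | VS v ∧ v ∈ W} := by
    intro W hW x hx hA
    obtain ⟨r, w, β, h1, -, h3⟩ := hSCOMP K hf n ⊥ W SSub.bot hW bot_le
    have e := h3 x hx
    rw [Submodule.mem_bot, sub_eq_zero] at e
    rw [e]
    refine Submodule.sum_mem _ fun j _ => ?_
    exact mem_spanA_smul ((h1 j).2.2.1.fa x hA)
      (Submodule.subset_span ⟨(h1 j).1, (h1 j).2.1⟩)
  refine ⟨key, fun mu l hmu hl => ⟨fun v hv => ⟨hv.2, hv.1.va⟩, fun x hx hA => ?_,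
    fun x hx y hy z hz => hmu x y z hx.1 hy.1 hz.1⟩⟩
  exact key (LinearMap.ker l) hl x hx hA

end Pool.Agent.P.MP_33ab4b_ag.B

end
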