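import Pool.Agent.P.MP_33ab4b_ag.B.IfaceA

section

/-! Step CBB2. -/

set_option autoImplicit false
set_option linter.unusedSectionVars false

namespace Pool.Agent.P.MP_33ab4b_ag.B

open Pool.Agent.P.MP_33ab4b_ag.T hiding tri

namespace CBB2x

variable {K : Type} [Field K] [LinearOrder K] [IsStrictOrderedRing K] {n : ℕ}

/-- Dual forms for three independent standard vectors. -/
theorem dual3 {f u v : Vec K n} (sf : VS f) (su : VS u) (sv : VS v) (m0 m1 : Frm K n) (f0 : f ≠ 0)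
    (a0 : m0 f = 0) (a1 : m0 u ≠ 0) (b0 : m1 f = 0) (b1 : m1 u = 0) (b2 : m1 v ≠ 0) :
    ∃ φ β0 β1 : Frm K n, FS φ ∧ FS β0 ∧ FS β1 ∧
      ∀ i j k : K, β0 (i • u + j • v + k • f) = i ∧ β1 (i • u + j • v + k • f) = j ∧
        φ (i • u + j • v + k • f) = k := by
  obtain ⟨φ, sφ, φ1⟩ := sf.exists_form f0
  obtain ⟨α, sα, α1⟩ := (su.sub (sf.smul (sφ u su))).exists_form fun c => a1 (by
    have := congrArg m0 c
    simpa [a0] using this)
  have sα' : FS (α - α f • φ) := sα.sub (sφ.smul (sα f sf))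
  have p0 : (α - α f • φ) f = 0 := by simp [φ1]
  have p1 : (α - α f • φ) u = 1 := by
    simp only [map_sub, map_smul, smul_eq_mul, LinearMap.sub_apply, LinearMap.smul_apply] at α1 ⊢
    linear_combination α1
  generalize α - α f • φ = α at sα' p0 p1
  have sφ' : FS (φ - φ u • α) := sφ.sub (sα'.smul (sφ u su))
  have q0 : (φ - φ u • α) f = 1 := by simp [φ1, p0]
  have q1 : (φ - φ u • α) u = 0 := by simp [p1]
  generalize φ - φ u • α = φ at sφ' q0 q1
  obtain ⟨β, sβ, β1⟩ := ((sv.sub (sf.smul (sφ' v sv))).sub (su.smul (sα' v sv))).exists_form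
    fun c => b2 (by
      have := congrArg m1 c
      simpa [b0, b1] using this)
  have sβ' : FS (β - β f • φ - β u • α) := (sβ.sub (sφ'.smul (sβ f sf))).sub (sα'.smul (sβ u su))
  have r0 : (β - β f • φ - β u • α) f = 0 := by simp [q0, p0]
  have r1 : (β - β f • φ - β u • α) u = 0 := by simp [q1, p1]
  have r2 : (β - β f • φ - β u • α) v = 1 := by
    simp only [map_sub, map_smul, smul_eq_mul, LinearMap.sub_apply, LinearMap.smul_apply] at β1 ⊢
    linear_combination β1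
  generalize β - β f • φ - β u • α = β at sβ' r0 r1 r2
  refine ⟨φ - φ v • β, α - α v • β, β, sφ'.sub (sβ'.smul (sφ' v sv)),
    sα'.sub (sβ'.smul (sα' v sv)), sβ', fun i j k => ⟨?_, ?_, ?_⟩⟩ <;>
  simp [p0, p1, q0, q1, r0, r1, r2, mul_comm j, add_comm _ k]

/-- The plane spanned by two vectors. -/
def jm (u v : Vec K n) : Vec K 2 →ₗ[K] Vec K n :=
  (LinearMap.proj 0 : Frm K 2).smulRight u + (LinearMap.proj 1 : Frm K 2).smulRight v

theorem jm_apply (u v : Vec K n) (x : Vec K 2) : jm u v x = x 0 • u + x 1 • v := rfl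

theorem jm_vs {u v : Vec K n} (su : VS u) (sv : VS v) {x : Vec K 2} (h : VS x) : VS (jm u v x) :=
  (su.smul (h 0)).add (sv.smul (h 1))

end CBB2x

open CBB2x in
theorem p_CBB2 (hSCOMP : S_SCOMP) (hBIN2 : S_BIN2) :
    S_CBB2 := by
  intro K _ _ _ hf n D E l X y f chi nu e C
  have sy := X.ho.sym
  obtain ⟨lf, gf, cf⟩ := mem_RB.1 C.fR
  have gE := X.toCw.gE
  have fe := C.ssp.eq
  set γ := gam D.mu E l with hγ
  set Om := ann D.mu (RB D E l chi) with hOm
  have sO : SSub Om := SSub.ann X.ts C.sR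
  have fO : f ∈ Om := fun r hr x => by rw [fe, (mem_RB.1 hr).2.2]; simp
  have cO : ∀ x ∈ Om, chi x = 0 := fun x hx => by
    obtain ⟨i, j, k, rfl⟩ := C.sp x hx
    simp [C.cE, C.cy, cf]
  have kO : ∀ x ∈ Om, l x = 0 → γ x = 0 → ∃ k : K, x = k • f := fun x hx h1 h2 => by
    obtain ⟨i, j, k, rfl⟩ := C.sp x hx
    have i0 : i = 0 := by simpa [X.lE, C.ly, lf] using h1
    have j0 : j = 0 := by simpa [gE, gf, show γ y ≠ 0 from C.gy] using h2
    exact ⟨k, by simp [i0, j0]⟩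
  obtain ⟨u, uO, su, lu⟩ := sO.exists_std hf l C.Em (by rw [X.lE]; exact one_ne_zero)
  obtain ⟨v, vO, sv, mv⟩ := sO.exists_std hf (l u • γ - γ u • l) C.ym
    (by simpa [C.ly, lu] using C.gy)
  obtain ⟨φ, β0, β1, sφ, sβ0, sβ1, hd⟩ := dual3 C.ssp.sf su sv l (l u • γ - γ u • l) C.ssp.ne lf lu
    (by simp [lf, gf]) (by simp [mul_comm]) mv
  have Δ0 : l u * γ v - γ u * l v ≠ 0 := by simpa using mv
  obtain ⟨z, sz, cz⟩ := X.ho.ssp_z C.ssp
  obtain ⟨i, j, k, hE⟩ : ∃ i j k : K, E = i • u + j • v + k • f := by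
    obtain ⟨k, hk⟩ := kO (E - (γ v / (l u * γ v - γ u * l v)) • u -
        (-γ u / (l u * γ v - γ u * l v)) • v)
      (Om.sub_mem (Om.sub_mem C.Em (Om.smul_mem _ uO)) (Om.smul_mem _ vO))
      (by
        simp only [map_sub, map_smul, smul_eq_mul, X.lE]
        linear_combination - div_self Δ0)
      (by simp only [map_sub, map_smul, smul_eq_mul, gE]; ring)
    exact ⟨_, _, k, by rw [← hk]; abel⟩
  have iA : i ∈ AR hf := by have := sβ0.fa E X.EA; rwa [hE, (hd i j k).1] at this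
  have jA : j ∈ AR hf := by have := sβ1.fa E X.EA; rwa [hE, (hd i j k).2.1] at this
  have kA : k ∈ AR hf := by have := sφ.fa E X.EA; rwa [hE, (hd i j k).2.2] at this
  have l1 : i * l u + j * l v = 1 := by
    have := X.lE
    rw [hE] at this
    simpa [lf] using this
  obtain ⟨Y, hY⟩ : ∃ Y, Y = jm u v ![-l v, l u] := ⟨_, rfl⟩
  have hY' : Y = (-l v) • u + l u • v := hY
  have YO : Y ∈ Om := hY' ▸ Om.add_mem (Om.smul_mem _ uO) (Om.smul_mem _ vO)
  have lY : l Y = 0 := by simp [hY', mul_comm]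
  have cY := cO Y YO
  have gY : γ Y ≠ 0 := by
    rw [hY']
    simp only [map_add, map_smul, smul_eq_mul]
    exact fun c => Δ0 (by linear_combination c)
  have hE' : jm u v ![i, j] = E - k • f := by rw [hE, jm_apply]; simp
  have fe2 : ∀ x x', D.mu x f x' = e * chi x * chi x' := fun x x' => by rw [sy.1, fe]
  have fe3 : ∀ x x', D.mu x x' f = e * chi x * chi x' := fun x x' => by rw [sy.2, fe2]
  have EEY : D.mu E E Y = -γ Y := by rw [hγ, gam_ker lY, neg_neg]
  have EYY : D.mu E Y Y = 0 := X.exc Y Y lY lY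
  have J0 : γ z * D.mu Y Y Y + D.mu z Y Y * -γ Y ≠ 0 := by
    intro J
    obtain ⟨t, ht⟩ : ∃ t, t = z - l z • E - (γ z / γ Y) • Y := ⟨_, rfl⟩
    have lt : l t = 0 := by simp [ht, X.lE, lY]
    have gt : γ t = 0 := by simp [ht, gE, gY]
    have ct : chi t = 1 := by simp [ht, cz, C.cE, cY]
    obtain ⟨x, x1, x2, x3⟩ := C.ind
    have nt : nu t ≠ 0 := fun c => x3 (by
      have := C.nuR (x - chi x • t) (mem_RB.2 ⟨by simp [x1, lt], by
        simp only [map_sub, map_smul, ← hγ, gt]; simpa using x2, by simp [ct]⟩)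
      simpa [c] using this)
    obtain ⟨τ, hτ⟩ := kO (y - (γ y / γ Y) • Y) (Om.sub_mem C.ym (Om.smul_mem _ YO))
      (by simp [C.ly, lY]) (by simp [gY])
    have a := C.yq Y t lY lt
    have b : D.mu Y Y t = 0 := by
      simp only [ht, map_sub, map_smul, smul_eq_mul, sym13 sy Y Y E, EYY, sym13 sy Y Y z]
      field_simp
      linear_combination -J
    rw [← hγ, gt, sub_eq_iff_eq_add'.1 hτ] at a
    simp only [map_add, map_smul, LinearMap.add_apply, LinearMap.smul_apply, b, fe, cY,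
      smul_eq_mul, mul_zero, zero_mul, add_zero] at a
    exact mul_ne_zero gY nt a.symm
  have H := hBIN2 K hf (tpull D.mu (jm u v)) ((D.mu z).compl₁₂ (jm u v) (jm u v)) ![i, j]
    ![-l v, l u] (l z) ⟨fun _ _ _ => sy.1 _ _ _, fun _ _ _ => sy.2 _ _ _⟩
    (fun _ _ _ a b c => X.ts _ _ _ (jm_vs su sv a) (jm_vs su sv b) (jm_vs su sv c))
    (fun _ _ => sy.2 _ _ _) (fun _ _ a b => X.ts _ _ _ sz (jm_vs su sv a) (jm_vs su sv b))
    (Fin.forall_fin_two.2 ⟨iA, jA⟩)
    (Fin.forall_fin_two.2 ⟨(AR hf).neg_mem (X.lA v sv.va), X.lA u su.va⟩) (X.lA z sz.va)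
    (by simpa using l1)
  simp only [tpull_apply, LinearMap.compl₁₂_apply, ← hY, hE', map_sub, map_smul,
    LinearMap.sub_apply, LinearMap.smul_apply, smul_eq_mul, fe, fe2, fe3, C.cE, cY, cf, mul_zero,
    sub_zero, EEY] at H
  have zEY : D.mu z E Y = l z * -γ Y := by rw [sy.1, X.toCw.q, lY]; simp [hγ]
  have zEE : l z * D.mu E E E - D.mu z E E = γ z := by
    rw [sym13 sy z E E, hγ, gam_apply]; ring
  rcases H EYY C.a0 (neg_ne_zero.2 gY) zEY (by rwa [zEE]) with H | ⟨Y3, H⟩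
  · obtain ⟨d, al, h⟩ := C.dE
    have := (jm_vs su sv H).dv d
    rw [hE', dv_sub, dv_smul, C.ssp.sf.dv, h] at this
    have := congrArg γ this
    exact absurd (by simpa [gE, gf] using this) C.gy
  have slu : Std (l u) := H 1
  have sY : VS Y := hY ▸ jm_vs su sv H
  obtain ⟨w, hw⟩ : ∃ w, w = (l u)⁻¹ • u := ⟨_, rfl⟩
  have wO : w ∈ Om := hw ▸ Om.smul_mem _ uO
  have sw : VS w := hw ▸ su.smul slu.inv
  have cw := cO w wO
  have Eeq : E = w + (j / l u) • Y + k • f := by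
    rw [hE, hw, hY']
    have : i = (l u)⁻¹ + j / l u * -l v := by field_simp; linear_combination l1
    rw [this, smul_add, smul_smul, smul_smul, div_mul_cancel₀ _ lu, add_smul, add_assoc _ _ (j • v)]
  have wYY : D.mu w Y Y = 0 := by
    rw [Eeq] at EYY
    simpa [fe, cY, Y3] using EYY
  have wwY : D.mu w w Y = -γ Y := by
    rw [← EEY]
    conv_rhs => rw [Eeq]
    simp [fe, fe2, cY, Y3, wYY, sy.1 Y w Y]
  have b0 : D.mu w w Y ≠ 0 := wwY ▸ neg_ne_zero.2 gY
  refine ⟨w, Y, z - (D.mu w Y z / D.mu w w Y) • w, j / l u, k, C.ns, C.ssp, C.sR, C.fR, sw, sY,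
    sz.sub (sw.smul ((X.ts _ _ _ sw sY sz).div (X.ts _ _ _ sw sw sY))), wO, YO, C.ON YO,
    by simp [hw, lu], lY, cw, cY, by simp [cz, cw], A_div jA slu, kA, Eeq, Y3, wYY, ?_, b0, ?_⟩
  · simp [sy.2 w Y w, b0]
  · rw [Y3, mul_zero, zero_add] at J0
    simpa [sym13 sy Y Y w, wYY, sym13 sy Y Y z] using left_ne_zero_of_mul J0

end Pool.Agent.P.MP_33ab4b_ag.B

end

section

/-! Step CBB1. -/

set_option autoImplicit false

namespace Pool.Agent.P.MP_33ab4b_ag.B

open Pool.Agent.P.MP_33ab4b_ag.T hiding tri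

theorem p_CBB1 :
    S_CBB1 := by
  intro K _ _ _ hf n D E l X y w nu C hex
  obtain ⟨x, hxO, hxR, hx0⟩ := hex
  have hs := X.ho.sym
  have sOR : SSub (ann D.mu (RB D E l nu) ⊓ RB D E l nu) := (SSub.ann X.ts C.sR).inf C.sR
  obtain ⟨f, ⟨hfO, hfR⟩, hfs, hf0⟩ := SSub.exists_gen hf sOR (Submodule.mem_inf.2 ⟨hxO, hxR⟩) hx0
  obtain ⟨lf, gf, nf⟩ := mem_RB.1 hfR
  obtain ⟨i, j, k, hfe⟩ := C.sp f hfO
  have hi : i = 0 := by
    have h := congrArg l hfe
    simp only [map_add, map_smul, smul_eq_mul, X.lE, C.ly, C.lw, lf] at h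
    linarith
  subst hi
  rw [zero_smul, zero_add] at hfe
  have hk : k ≠ 0 := by
    intro hk
    have h := congrArg (gam D.mu E l) hfe
    simp only [map_add, map_smul, smul_eq_mul, hk, gf, zero_mul, add_zero] at h
    have hj : j = 0 := by
      rcases mul_eq_zero.1 h.symm with h' | h'
      · exact h'
      · exact absurd h' C.gy
    apply hf0
    rw [hfe, hj, hk, zero_smul, zero_smul, add_zero]
  obtain ⟨k1, k2, hw⟩ := C.wq
  obtain ⟨x1, lx1, gx1, nx1⟩ := C.ind
  obtain ⟨A, hA⟩ : ∃ A : K, A = -2 * D.mu E E E * k := ⟨_, rfl⟩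
  have A0 : A ≠ 0 := by
    rw [hA]
    exact mul_ne_zero (mul_ne_zero (by norm_num) C.a0) hk
  have hq : ∀ u v, l u = 0 → l v = 0 → D.mu f u v =
      A * nu u * nu v + (j + k * k2) * (gam D.mu E l u * nu v + nu u * gam D.mu E l v) +
        k * k1 * gam D.mu E l u * gam D.mu E l v := by
    intro u v hu hv
    have e : D.mu f u v = j * D.mu y u v + k * D.mu w u v := by
      conv_lhs => rw [hfe]
      simp only [map_add, map_smul, LinearMap.add_apply, LinearMap.smul_apply, smul_eq_mul]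
    rw [e, C.yq u v hu hv, hw u v hu hv, hA]
    ring
  have hfy : ∀ v, D.mu f y v = 0 := fun v => by
    rw [hs.1 f y v]
    exact C.ym f hfR v
  have hfE : ∀ v, D.mu f E v = 0 := fun v => by
    rw [hs.1 f E v]
    exact C.Em f hfR v
  obtain ⟨r, hr⟩ : ∃ r : K, nu y = r * gam D.mu E l y :=
    ⟨nu y / gam D.mu E l y, by rw [div_mul_cancel₀ _ C.gy]⟩
  have hB : j + k * k2 = -A * r := by
    have h := hq y x1 C.ly lx1
    rw [hfy, gx1, hr] at h
    have h2 : (A * r + (j + k * k2)) * (gam D.mu E l y * nu x1) = 0 := by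
      linear_combination -h
    rcases mul_eq_zero.1 h2 with h3 | h3
    · linear_combination h3
    · exact absurd h3 (mul_ne_zero C.gy nx1)
  have hC : k * k1 = A * r ^ 2 := by
    have h := hq y y C.ly C.ly
    rw [hfy, hB, hr] at h
    have h2 : (k * k1 - A * r ^ 2) * (gam D.mu E l y * gam D.mu E l y) = 0 := by
      linear_combination -h
    rcases mul_eq_zero.1 h2 with h3 | h3
    · linear_combination h3
    · exact absurd h3 (mul_ne_zero C.gy C.gy)
  obtain ⟨lam, hlam⟩ : ∃ lam : Frm K n, ∀ u, lam u = nu u - r * gam D.mu E l u :=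
    ⟨nu - r • gam D.mu E l, fun u => by
      simp only [LinearMap.sub_apply, LinearMap.smul_apply, smul_eq_mul]⟩
  have lamE : lam E = 0 := by rw [hlam, C.nuE, gam_E X.lE]; ring
  have hq0 : ∀ u v, l u = 0 → l v = 0 → D.mu f u v = A * lam u * lam v := by
    intro u v hu hv
    rw [hq u v hu hv, hB, hC, hlam, hlam]
    ring
  have hq1 : ∀ u v, D.mu f u v = A * lam u * lam v := by
    intro u v
    have h := hq0 (u - l u • E) (v - l v • E) (l_proj X.lE u) (l_proj X.lE v)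
    have h2 : D.mu f u E = 0 := by rw [hs.2 f u E]; exact hfE u
    simp only [map_sub, map_smul, LinearMap.sub_apply, LinearMap.smul_apply, smul_eq_mul, hfE,
      h2, lamE, mul_zero, sub_zero] at h
    exact h
  have l1 : lam x1 ≠ 0 := by rw [hlam, gx1, mul_zero, sub_zero]; exact nx1
  obtain ⟨x0, -, sx0, lx0⟩ := SSub.exists_std hf SSub.top lam (Submodule.mem_top (x := x1)) l1
  have c0 : A * lam x0 ≠ 0 := mul_ne_zero A0 lx0
  have hR : RB D E l (D.mu f x0) = RB D E l nu := by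
    ext u
    rw [mem_RB, mem_RB]
    refine and_congr_right fun _ => and_congr_right fun hg => ?_
    rw [hq1, hlam u, hg, mul_zero, sub_zero]
    exact ⟨fun h => (mul_eq_zero.1 h).resolve_left c0, fun h => by rw [h, mul_zero]⟩
  have lamf : lam f = 0 := by rw [hlam, nf, gf]; ring
  have lamy : lam y = 0 := by rw [hlam, hr]; ring
  refine ⟨f, D.mu f x0, (D.mu f x0 x0)⁻¹,
    { a0 := C.a0
      ns := C.ns
      dE := C.dE
      ssp :=
        { mem := C.ON hfO
          ne := hf0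
          eq := fun u v => ?_
          z := by rw [hq1, lamf, mul_zero]
          sf := hfs
          sc := X.ts.fs hfs sx0
          se := ?_ }
      ind := ⟨x1, lx1, gx1, nx1⟩
      nuR := fun u hu => (mem_RB.1 (hR ▸ hu)).2.2
      ly := C.ly
      gy := C.gy
      cE := by rw [hq1, lamE, mul_zero]
      cy := by rw [hq1, lamy, mul_zero]
      sR := by rw [hR]; exact C.sR
      fR := by rw [hR]; exact hfR
      Em := by rw [hR]; exact C.Em
      ym := by rw [hR]; exact C.ym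
      ON := by rw [hR]; exact C.ON
      sp := ?_
      yq := C.yq }⟩
  · rw [hq1, hq1, hq1, hq1]
    field_simp
  · obtain ⟨q, hq'⟩ := X.ts f x0 x0 hfs sx0 sx0
    exact ⟨q⁻¹, by rw [Rat.cast_inv, hq']⟩
  · rw [hR]
    intro u hu
    obtain ⟨i', j', k', hu'⟩ := C.sp u hu
    refine ⟨i', j' - k' * j / k, k' / k, ?_⟩
    rw [hu', hfe]
    have e1 : k' / k * k = k' := div_mul_cancel₀ _ hk
    rw [smul_add, smul_smul, smul_smul, e1, sub_smul]
    have e2 : k' / k * j = k' * j / k := by ring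
    rw [e2]
    abel

end Pool.Agent.P.MP_33ab4b_ag.B

end

section

/-! Step TN1. -/

set_option autoImplicit false

namespace Pool.Agent.P.MP_33ab4b_ag.B

open Pool.Agent.P.MP_33ab4b_ag.T hiding tri

namespace TN1x

variable {K : Type} [Field K] [LinearOrder K] [IsStrictOrderedRing K] {hf : HF K}

theorem d_det (d : Derivation ℚ K K) (a b c : Vec K 3) :
    d (det3 a b c) = det3 (dv d a) b c + det3 a (dv d b) c + det3 a b (dv d c) := by
  simp only [det3, dv, map_add, map_sub, Derivation.leibniz, smul_eq_mul]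
  ring

theorem key (X : TF hf) (d : Derivation ℚ K K) :
    d (X.mu X.E X.E X.Y * X.mu X.E X.E X.Y * X.Hh) = 0 := by
  have fr : ∀ x : Vec K 3, x = det3 x X.Y X.Z • X.E + det3 X.E x X.Z • X.Y +
      det3 X.E X.Y x • X.Z := fun x => by
    have := cramer X.E X.Y X.Z x
    rwa [X.det, one_smul] at this
  have tr := d_det d X.E X.Y X.Z
  rw [X.det, Derivation.map_one_eq_zero] at tr
  have hE := fr (dv d X.E)
  have hY := fr (dv d X.Y)
  have hZ := fr (dv d X.Z)
  generalize det3 (dv d X.E) X.Y X.Z = al at hE tr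
  generalize det3 X.E (dv d X.E) X.Z = s1 at hE
  generalize det3 X.E X.Y (dv d X.E) = s2 at hE
  generalize det3 (dv d X.Y) X.Y X.Z = n1 at hY
  generalize det3 X.E (dv d X.Y) X.Z = b11 at hY tr
  generalize det3 X.E X.Y (dv d X.Y) = b12 at hY
  generalize det3 (dv d X.Z) X.Y X.Z = n2 at hZ
  generalize det3 X.E (dv d X.Z) X.Z = b21 at hZ
  generalize det3 X.E X.Y (dv d X.Z) = b22 at hZ tr
  have s := X.sym
  have e1 := X.ts.der d X.E X.Y X.Y
  have e2 := X.ts.der d X.E X.Y X.Z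
  have e3 := X.ts.der d X.E X.Z X.Z
  have e4 := X.ts.der d X.E X.E X.Z
  have e5 := X.ts.der d X.E X.E X.Y
  have e6 := X.ts.der d X.Y X.Y X.Z
  have e7 := X.ts.der d X.Y X.Z X.Z
  have e8 := X.ts.der d X.Z X.Z X.Z
  rw [X.EYY, map_zero] at e1
  rw [X.EYZ, map_zero] at e2
  rw [X.EZZ, map_zero] at e3
  rw [X.EEZ, map_zero] at e4
  have a1 : X.mu X.E X.Y X.E = X.mu X.E X.E X.Y := s.2 _ _ _
  have a2 : X.mu X.Y X.E X.E = X.mu X.E X.E X.Y := sym13 s _ _ _
  have a3 : X.mu X.E X.Z X.E = 0 := (s.2 _ _ _).trans X.EEZ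
  have a4 : X.mu X.Z X.E X.E = 0 := (sym13 s _ _ _).trans X.EEZ
  have a5 : X.mu X.Y X.E X.Y = 0 := (s.1 _ _ _).trans X.EYY
  have a6 : X.mu X.Y X.Y X.E = 0 := (sym13 s _ _ _).trans X.EYY
  have a7 : X.mu X.Z X.E X.Z = 0 := (s.1 _ _ _).trans X.EZZ
  have a8 : X.mu X.Z X.Z X.E = 0 := (sym13 s _ _ _).trans X.EZZ
  have a9 : X.mu X.E X.Z X.Y = 0 := (s.2 _ _ _).trans X.EYZ
  have a10 : X.mu X.Y X.E X.Z = 0 := (s.1 _ _ _).trans X.EYZ
  have a11 : X.mu X.Z X.E X.Y = 0 := (s.1 _ _ _).trans a9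
  have a12 : X.mu X.Y X.Z X.E = 0 := (s.2 _ _ _).trans a10
  have a13 : X.mu X.Z X.Y X.E = 0 := (s.2 _ _ _).trans a11
  have a14 : X.mu X.Y X.Z X.Y = X.mu X.Y X.Y X.Z := s.2 _ _ _
  have a15 : X.mu X.Z X.Y X.Y = X.mu X.Y X.Y X.Z := sym13 s _ _ _
  have a16 : X.mu X.Z X.Y X.Z = X.mu X.Y X.Z X.Z := s.1 _ _ _
  have a17 : X.mu X.Z X.Z X.Y = X.mu X.Y X.Z X.Z := sym13 s _ _ _
  rw [hE, hY] at e1 e5
  rw [hE, hY, hZ] at e2
  rw [hE, hZ] at e3 e4
  rw [hY, hZ] at e6 e7
  rw [hZ] at e8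
  simp only [map_add, map_smul, LinearMap.add_apply, LinearMap.smul_apply, smul_eq_mul, a1, a2, a3,
    a4, a5, a6, a7, a8, a9, a10, a11, a12, a13, a14, a15, a16, a17, X.EYY, X.EYZ, X.EZZ,
    X.EEZ] at e1 e2 e3 e4 e5 e6 e7 e8
  have hC := X.C0
  simp only [TF.Hh, TF.c1, TF.c2, TF.C, sq, map_sub, Derivation.leibniz, smul_eq_mul, e5, e6, e7, e8]
  generalize X.mu X.E X.E X.E = a at *
  generalize X.mu X.E X.E X.Y = b at *
  generalize X.mu X.Y X.Y X.Y = c0 at *
  generalize X.mu X.Y X.Y X.Z = c1 at *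
  generalize X.mu X.Y X.Z X.Z = c2 at *
  generalize X.mu X.Z X.Z X.Z = C at *
  apply mul_left_cancel₀ hC
  linear_combination (-4 * b ^ 2 * C * (c1 * C - c2 ^ 2)) * tr -
    (b * C * (c0 * C - c1 * c2)) * e4 - (a * C * (c1 * C - c2 ^ 2)) * e1 +
    (a * C * (c0 * C - c1 * c2)) * e2 +
    (a * (c1 * (c1 * C - c2 ^ 2) - c2 * (c0 * C - c1 * c2))) * e3

end TN1x

theorem p_TN1 :
    S_TN1 := by
  intro K _ _ _ hf X
  have st := hf.der _ (TN1x.key X)
  have ta : TA hf X.mu := X.ts.ta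
  have bA := ta _ _ _ X.EA X.EA X.YA
  have hA : X.Hh ∈ AR hf := (AR hf).sub_mem
    ((AR hf).mul_mem (ta _ _ _ X.YA X.YA X.ZA) (ta _ _ _ X.ZA X.ZA X.ZA))
    ((AR hf).pow_mem (ta _ _ _ X.YA X.ZA X.ZA) 2)
  have n0 : X.mu X.E X.E X.Y * X.mu X.E X.E X.Y * X.Hh ≠ 0 :=
    mul_ne_zero (mul_ne_zero X.b0 X.b0) X.h0
  have bb := (AR hf).mul_mem bA bA
  exact ⟨A_std_left bA bA (A_std_left bb hA st n0) (mul_ne_zero X.b0 X.b0),
    A_std_right bb hA st n0⟩

end Pool.Agent.P.MP_33ab4b_ag.B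

end

section

/-! Step PT. -/

set_option autoImplicit false

namespace Pool.Agent.P.MP_33ab4b_ag.B

open Pool.Agent.P.MP_33ab4b_ag.T hiding tri

theorem p_PT :
    S_PT := by
  intro K _ _ _ hf n mu E l a hs ts nd lE hq
  have a0 : a ≠ 0 := by
    rintro rfl
    have : E = 0 := nd E fun y z => by rw [hq]; ring
    rw [this, map_zero] at lE
    exact zero_ne_one lE
  have key : ∀ (d : Derivation ℚ K K) (x y : Vec K n), mu (dv d E) x y =
      d a * l x * l y + a * df d l x * l y + a * l x * df d l y := fun d x y => by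
    have h := ts.der d E x y
    rw [hq, hq, hq] at h
    simp only [Derivation.leibniz, smul_eq_mul] at h
    simp only [df_apply]
    linear_combination -h
  have hE : ∀ d : Derivation ℚ K K, dv d E = l (dv d E) • E := fun d => by
    have l0 : l (dv d E - l (dv d E) • E) = 0 := l_proj lE _
    have hk : ∀ x y, l x = 0 → l y = 0 → mu (dv d E - l (dv d E) • E) x y = 0 := fun x y hx hy => by
      simp only [map_sub, map_smul, LinearMap.sub_apply, LinearMap.smul_apply, smul_eq_mul]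
      rw [key, hq, hx, hy]; ring
    generalize hy0 : dv d E - l (dv d E) • E = y0 at l0 hk
    have h1 : ∀ y, mu y0 E y = 0 := fun y => by rw [hs.1, hq, l0]; ring
    have h2 : ∀ y, mu y0 y E = 0 := fun y => by rw [hs.2, h1]
    have : y0 = 0 := nd y0 fun x y => by
      have := hk (x - l x • E) (y - l y • E) (l_proj lE _) (l_proj lE _)
      simp only [map_sub, map_smul, LinearMap.sub_apply, LinearMap.smul_apply, smul_eq_mul,
        h1, h2] at this
      linear_combination this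
    rw [this] at hy0
    exact sub_eq_zero.1 hy0
  have hl : ∀ (d : Derivation ℚ K K) (x : Vec K n), l x = 0 → df d l x = 0 := fun d x hx => by
    have h := key d x E
    rw [hE d] at h
    simp only [map_smul, LinearMap.smul_apply, smul_eq_mul] at h
    rw [hq, hx, lE] at h
    apply mul_left_cancel₀ a0
    linear_combination -h
  refine ⟨fun d w hw => ?_, fun hA lA => ?_⟩
  · rw [LinearMap.mem_ker] at hw ⊢
    have h := hl d w hw
    rw [df_apply, hw, map_zero] at h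
    linear_combination -h
  · have s1 : Std (l E) := by rw [lE]; exact ⟨1, by simp⟩
    have n1 : l E ≠ 0 := by rw [lE]; exact one_ne_zero
    obtain ⟨x0, s, h0, e⟩ := vline hf (x := E) fun d => ⟨_, hE d⟩
    obtain ⟨l0, t, g0, e'⟩ := fline hf (l := l) fun d => ⟨df d l E, LinearMap.ext fun x => by
      have h := hl d (x - l x • E) (l_proj lE x)
      simp only [map_sub, map_smul, smul_eq_mul] at h
      rw [LinearMap.smul_apply, smul_eq_mul]
      linear_combination h⟩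
    exact ⟨vs_of_line hA h0 e lA s1 n1, fs_of_line lA g0 e' hA s1 n1⟩

end Pool.Agent.P.MP_33ab4b_ag.B

end

section

/-! Step ESTD. -/

set_option autoImplicit false

namespace Pool.Agent.P.MP_33ab4b_ag.B

open Pool.Agent.P.MP_33ab4b_ag.T hiding tri

theorem p_ESTD (hSPANA : S_SPANA) :
    S_ESTD := by
  intro K _ _ _ hf n D E l p0 cx hp _ hE hl
  have hg : FS (gam D.mu E l) := (hl.smul (cx.ts E E E hE hE hE)).sub (cx.ts.fs hE hE)
  have hb : ∀ lam : Frm K n, FS lam → BF {v | VS v ∧ l v = 0} lam := fun lam h v hv => h v hv.1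
  exact ⟨{v | VS v ∧ l v = 0}, (hSPANA K hf n).2 D.mu l cx.ts (SSub.ker hl),
    ⟨cx.ts E E E hE hE hE, hb _ hg, hb _ hp, fun lam h _ => hb lam h,
      fun v hv h0 => Submodule.subset_span ⟨hv, h0⟩⟩, hb⟩

end Pool.Agent.P.MP_33ab4b_ag.B

end
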