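import Pool.Agent.P.MP_33ab4b_ag.B.IfaceA

section

/-! Step TN5. -/

set_option autoImplicit false

namespace Pool.Agent.P.MP_33ab4b_ag.B

open Pool.Agent.P.MP_33ab4b_ag.T hiding tri

namespace TN5x

variable {K : Type} [Field K] [LinearOrder K] [IsStrictOrderedRing K] {hf : HF K} (X : TF hf)

theorem exc {x y : Vec K 3} (hx : X.l x = 0) (hy : X.l y = 0) : X.mu X.E x y = 0 := by
  have a := cramer X.E X.Y X.Z x
  have b := cramer X.E X.Y X.Z y
  rw [X.det, one_smul] at a b
  rw [show det3 x X.Y X.Z = 0 from hx] at a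
  rw [show det3 y X.Y X.Z = 0 from hy] at b
  rw [a, b]
  simp only [zero_smul, zero_add, map_add, map_smul, LinearMap.add_apply, LinearMap.smul_apply,
    smul_eq_mul, X.sym.2 X.E X.Z X.Y, X.EYY, X.EYZ, X.EZZ]
  ring

theorem d_det (d : Derivation ℚ K K) (a b c : Vec K 3) :
    d (det3 a b c) = det3 (dv d a) b c + det3 a (dv d b) c + det3 a b (dv d c) := by
  simp only [det3, dv, map_add, map_sub, Derivation.leibniz, smul_eq_mul]; ring

/-- The scalar flow equations. -/
theorem flow {f z : Vec K 3} (h : X.Sing f z) (d : Derivation ℚ K K) :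
    ∃ al s1 s2 n b1 : K, dv d X.E = al • X.E + s1 • f + s2 • z ∧
      d (X.mu X.E X.E f) = 2 * al * X.mu X.E X.E f ∧
      d (X.mu f z z) = -2 * al * X.mu f z z ∧
      s2 * X.mu f z z + n * X.mu X.E X.E f = 0 ∧
      s1 * X.mu f z z + s2 * X.mu z z z + 2 * n * X.mu X.E X.E z = 0 ∧
      d (X.mu z z z) = 3 * (b1 * X.mu f z z - al * X.mu z z z) ∧
      d (X.mu X.E X.E z) = al * X.mu X.E X.E z + n * X.a + b1 * X.mu X.E X.E f ∧
      d X.a = 3 * (al * X.a + s1 * X.mu X.E X.E f + s2 * X.mu X.E X.E z) ∧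
      d X.a = al * X.a + s1 * X.p f + s2 * X.p z ∧
      d (X.p z) = n * X.a + b1 * X.p f - al * X.p z := by
  obtain ⟨sf, -, lf, lz, dt, ff, -, -⟩ := h
  have s := X.sym
  have a := cramer X.E f z (dv d X.E)
  have b := cramer X.E f z (dv d z)
  have t := d_det d X.E f z
  rw [dt, one_smul] at a b
  rw [dt, sf.dv, Derivation.map_one_eq_zero] at t
  have t0 : det3 X.E (0 : Vec K 3) z = 0 := by simp [det3]
  rw [t0] at t
  have hb : det3 X.E f (dv d z) = - det3 (dv d X.E) f z := by linear_combination -t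
  rw [hb] at b
  generalize det3 (dv d X.E) f z = al at a b
  generalize det3 X.E (dv d X.E) z = s1 at a
  generalize det3 X.E f (dv d X.E) = s2 at a
  generalize det3 (dv d z) f z = n at b
  generalize det3 X.E (dv d z) z = b1 at b
  have Eff := exc X lf lf
  have Efz := exc X lf lz
  have Ezz := exc X lz lz
  have d1 := X.ts.der d X.E X.E f
  have d2 := X.ts.der d f z z
  have d3 := X.ts.der d X.E f z
  have d4 := X.ts.der d X.E z z
  have d5 := X.ts.der d z z z
  have d6 := X.ts.der d X.E X.E z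
  have d7 := X.ts.der d X.E X.E X.E
  have d8 := X.ps.der d X.E
  have d9 := X.ps.der d z
  rw [Efz, map_zero] at d3
  rw [Ezz, map_zero] at d4
  rw [X.pE] at d8
  rw [a] at d1 d3 d4 d6 d7 d8
  rw [b] at d2 d3 d4 d5 d6 d9
  rw [sf.dv] at d1 d2 d3
  simp only [map_add, map_smul, map_zero, LinearMap.add_apply, LinearMap.smul_apply,
    LinearMap.zero_apply, smul_eq_mul, X.pE,
    s.1 f X.E, s.1 z X.E, s.1 z f, s.2 X.E f X.E, s.2 X.E z X.E, s.2 X.E z f, s.2 f z f,
    sym13 s f z X.E, sym13 s z z X.E, sym13 s z z f, ff, Eff, Efz, Ezz]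
    at d1 d2 d3 d4 d5 d6 d7 d8 d9
  refine ⟨al, s1, s2, n, b1, a, ?_, ?_, ?_, ?_, ?_, ?_, ?_, ?_, ?_⟩
  · linear_combination d1
  · linear_combination d2
  · linear_combination -d3
  · linear_combination -d4
  · linear_combination d5
  · rw [TF.a]; linear_combination d6
  · rw [TF.a]; linear_combination d7
  · rw [TF.a]; linear_combination d8
  · rw [TF.a]; linear_combination d9

theorem std {f z : Vec K 3} (h : X.Sing f z) : Std (X.mu X.E X.E f) ∧ Std (X.mu f z z) := by
  have k : Std (X.mu X.E X.E f * X.mu f z z) := hf.der _ fun d => by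
    obtain ⟨al, -, -, -, -, -, a, b, -⟩ := flow X h d
    rw [Derivation.leibniz, a, b, smul_eq_mul, smul_eq_mul]; ring
  obtain ⟨sf, zA, -, -, -, -, g0, e0⟩ := h
  have gA := X.ts.ta (hf := hf) _ _ _ X.EA X.EA sf.va
  have eA := X.ts.ta (hf := hf) _ _ _ sf.va zA zA
  exact ⟨A_std_left gA eA k (mul_ne_zero g0 e0), A_std_right gA eA k (mul_ne_zero g0 e0)⟩

theorem norm {f z : Vec K 3} (h : X.Sing f z) : ∃ z', X.Sing f z' ∧ X.mu z' z' z' = 0 := by
  have se := (std X h).2
  obtain ⟨sf, zA, lf, lz, dt, ff, g0, e0⟩ := h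
  have s := X.sym
  obtain ⟨t, ht, tA⟩ : ∃ t, t * (3 * X.mu f z z) = X.mu z z z ∧ t ∈ AR hf :=
    ⟨X.mu z z z / (3 * X.mu f z z), div_mul_cancel₀ _ (mul_ne_zero three_ne_zero e0),
      A_div (X.ts.ta _ _ _ zA zA zA) (std_three.mul se)⟩
  refine ⟨z - t • f, ⟨sf, zA.sub (sf.va.smul tA), lf, ?_, ?_, ff, g0, ?_⟩, ?_⟩
  · simp only [TF.l, det3, Pi.sub_apply, Pi.smul_apply, smul_eq_mul] at lf lz ⊢
    linear_combination lz - t * lf
  · simp only [det3, Pi.sub_apply, Pi.smul_apply, smul_eq_mul] at dt ⊢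
    linear_combination dt
  · simpa only [map_sub, map_smul, LinearMap.sub_apply, LinearMap.smul_apply, smul_eq_mul,
      s.2 f z f, ff, mul_zero, sub_zero] using e0
  · simp only [map_sub, map_smul, LinearMap.sub_apply, LinearMap.smul_apply, smul_eq_mul,
      s.1 z f, s.2 f z f, sym13 s z z f, ff]
    linear_combination -ht

end TN5x

theorem p_TN5 :
    S_TN5 := by
  intro K _ _ _ hf X f z0 h0
  obtain ⟨z, h, c0⟩ := TN5x.norm X h0
  obtain ⟨sg, se⟩ := TN5x.std X h
  have F := TN5x.flow X h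
  have ⟨sf, zA, _, _, _, _, g0, e0⟩ := h
  have hA := X.ts.ta (hf := hf) _ _ _ X.EA X.EA zA
  have sp := X.ps _ sf
  have a0 : X.a ≠ 0 := X.a0
  refine ⟨z, h, c0, sg, se, ?_⟩
  rw [c0] at F
  generalize X.mu X.E X.E f = g at *
  generalize X.mu f z z = e at *
  generalize X.mu X.E X.E z = k at *
  generalize X.p f = pf at *
  generalize X.p z = pz at *
  generalize X.a = a at *
  have G : ∀ d : Derivation ℚ K K, ∃ n : K, (n = 0 → dv d X.E = 0) ∧ d k = n * a ∧
      e * d a = -9 * n * g * k ∧ n * (9 * g * k - 2 * k * pf - g * pz) = 0 ∧ d pz = n * a := by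
    intro d
    obtain ⟨al, s1, s2, n, b1, q0, q1, -, q3, q4, q5, q6, q7, q8, q9⟩ := F d
    rw [sg.der] at q1
    rw [map_zero] at q5
    have al0 : al = 0 := mul_right_cancel₀ g0 (by linear_combination -q1 / 2)
    have b0 : b1 = 0 := mul_right_cancel₀ e0 (by linear_combination -q5 / 3)
    subst al0 b0
    refine ⟨n, fun n0 => ?_, by linear_combination q6, ?_, ?_, by linear_combination q9⟩
    · have a1 : s1 = 0 := mul_right_cancel₀ e0 (by rw [n0] at q4; linear_combination q4)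
      have a2 : s2 = 0 := mul_right_cancel₀ e0 (by rw [n0] at q3; linear_combination q3)
      rw [q0, a1, a2]; simp
    · linear_combination e * q7 + 3 * g * q4 + 3 * k * q3
    · linear_combination e * q7 - e * q8 - (pf - 3 * g) * q4 - (pz - 3 * k) * q3
  have W : Std (e * a ^ 2 + 9 * g * k ^ 2) := hf.der _ fun d => by
    obtain ⟨n, -, q1, q2, -⟩ := G d
    have n9 : d 9 = 0 := (show Std (9 : K) from ⟨9, by simp⟩).der d
    simp only [sq, map_add, Derivation.leibniz, smul_eq_mul, sg.der d, se.der d, n9, q1]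
    linear_combination 2 * a * q2
  obtain ⟨d, hd⟩ : ∃ d : Derivation ℚ K K, dv d X.E ≠ 0 := by
    by_contra c
    push Not at c
    exact X.ns (VS.of_dv hf c)
  obtain ⟨n, q0, q1, -, q3, q4⟩ := G d
  have n0 : n ≠ 0 := fun c => hd (q0 c)
  have R : 9 * g * k - 2 * k * pf - g * pz = 0 := (mul_eq_zero.1 q3).resolve_left n0
  have dR := congrArg d R
  have n9 : d 9 = 0 := (show Std (9 : K) from ⟨9, by simp⟩).der d
  simp only [map_sub, map_zero, Derivation.leibniz, smul_eq_mul, sg.der d, sp.der d, n9,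
    std_two.der d, q1, q4] at dR
  have p1 : pf = 4 * g := mul_left_cancel₀ (mul_ne_zero n0 a0) (by linear_combination -dR / 2)
  have p2 : pz = k := mul_left_cancel₀ g0 (by rw [p1] at R; linear_combination -R)
  have nk : ¬ Fi k := A_not_fi hA fun c => mul_ne_zero n0 a0 (by rw [← q1, c.der])
  have k0 : k ≠ 0 := by rintro rfl; exact nk Fi.zero
  have s9 : Std (9 * g) := (show Std (9 : K) from ⟨9, by simp⟩).mul sg
  have key : ¬ Fi (9 * g * k ^ 2) := fun c =>
    nk (A_fi_of_mul hA k0 ((fi_of_std_mul s9 (mul_ne_zero (by norm_num) g0) c).of_eq (sq k).symm))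
  refine ⟨?_, p1, p2, nk, fun c => key ?_⟩
  · by_contra c
    push Not at c
    refine key (fi_of_std_mul se e0 (Fi.zero.of_le_of_le (se.mul W).fi ?_ ?_))
    · nlinarith [mul_nonneg c (sq_nonneg k)]
    · nlinarith [sq_nonneg (e * a)]
  · exact (W.fi.sub (se.fi.mul (c.mul c))).of_eq (by ring)

end Pool.Agent.P.MP_33ab4b_ag.B

end

section

/-! Step TFL. -/

set_option autoImplicit false

namespace Pool.Agent.P.MP_33ab4b_ag.B

open Pool.Agent.P.MP_33ab4b_ag.T hiding tri

namespace TFLx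

variable {K : Type} [Field K] [LinearOrder K] [IsStrictOrderedRing K]

theorem d_det (d : Derivation ℚ K K) (x y z : Vec K 3) :
    d (det3 x y z) = det3 (dv d x) y z + det3 x (dv d y) z + det3 x y (dv d z) := by
  simp only [det3, dv, map_add, map_sub, Derivation.leibniz, smul_eq_mul]
  ring

theorem core {mu : Tri K (Vec K 3)} (sym : Sym3 mu) (ts : TS mu) (d : Derivation ℚ K K)
    {E W Z : Vec K 3} (det : det3 E W Z = 1) {a g h C : K} (v1 : mu E E E = a) (v2 : mu E E W = 1)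
    (v3 : mu E E Z = 0) (v4 : mu E W W = 0) (v5 : mu E W Z = 0) (v6 : mu E Z Z = 0)
    (v7 : mu W W W = g) (v8 : mu W W Z = h) (v9 : mu W Z Z = 0) (v10 : mu Z Z Z = C) (C0 : C ≠ 0) :
    ∃ al s : K, dv d E = al • E + s • W ∧
      dv d W = (-s * g / 2) • E + (-2 * al + s * a * g / 2) • W + (-2 * s * a * h ^ 2 / C) • Z ∧
      dv d Z = (-s * h) • E + (s * a * h) • W + (al - s * a * g / 2) • Z ∧
      d a = 3 * al * a + 3 * s ∧ d C = 3 * (al - s * a * g / 2) * C ∧
      d g = 3 * (-2 * al + s * a * g / 2) * g - 6 * s * a * h ^ 3 / C ∧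
      d h = (-3 * al + 3 * s * a * g / 2) * h := by
  have hE := cramer E W Z (dv d E)
  have hW := cramer E W Z (dv d W)
  have hZ := cramer E W Z (dv d Z)
  have tr := d_det d E W Z
  rw [det, one_smul] at hE hW hZ
  rw [det, Derivation.map_one_eq_zero] at tr
  generalize det3 (dv d E) W Z = al, det3 E (dv d E) Z = s, det3 E W (dv d E) = r,
    det3 (dv d W) W Z = a1, det3 E (dv d W) Z = a2, det3 E W (dv d W) = a3,
    det3 (dv d Z) W Z = b1, det3 E (dv d Z) Z = b2, det3 E W (dv d Z) = b3 at hE hW hZ tr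
  have s1 := sym.1 W E
  have s2 := sym.1 Z E
  have s3 := sym.1 Z W
  have s4 := fun x => sym.2 x W E
  have s5 := fun x => sym.2 x Z E
  have s6 := fun x => sym.2 x Z W
  have e1 := ts.der d E E E
  have e2 := ts.der d E E W
  have e3 := ts.der d E E Z
  have e4 := ts.der d E W W
  have e5 := ts.der d E W Z
  have e6 := ts.der d E Z Z
  have e7 := ts.der d W W W
  have e8 := ts.der d W W Z
  have e9 := ts.der d W Z Z
  have e10 := ts.der d Z Z Z
  simp only [hE, hW, hZ, map_add, map_smul, LinearMap.add_apply, LinearMap.smul_apply, smul_eq_mul,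
    s1, s2, s3, s4, s5, s6, v1, v2, v3, v4, v5, v6, v7, v8, v9, v10, map_zero,
    Derivation.map_one_eq_zero] at e1 e2 e3 e4 e5 e6 e7 e8 e9 e10
  obtain rfl : r = 0 := mul_right_cancel₀ C0 (by linear_combination -e6)
  obtain rfl : a1 = -s * g / 2 := by linear_combination (-1 / 2) * e4
  obtain rfl : b1 = -s * h := by linear_combination -e5
  obtain rfl : b2 = s * a * h := by linear_combination -e3
  obtain rfl : a2 = -2 * al + s * a * g / 2 := by linear_combination -e2
  obtain rfl : b3 = al - s * a * g / 2 := by linear_combination -tr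
  obtain rfl : a3 = -2 * s * a * h ^ 2 / C := by
    rw [eq_div_iff C0]
    linear_combination -e9
  refine ⟨al, s, by rw [hE, zero_smul, add_zero], hW, hZ, ?_, ?_, ?_, ?_⟩
  · linear_combination e1
  · linear_combination e10
  · linear_combination e7
  · linear_combination e8

theorem flow {hf : HF K} (X : TF hf) (hN : X.Nm) (d : Derivation ℚ K K) :
    ∃ al s : K, X.Flow d al s := by
  have C0 : X.C ≠ 0 := X.C0
  have s3 := X.sym.1 X.Z X.Y
  have s6 := fun x => X.sym.2 x X.Z X.Y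
  have k0 : X.mu X.Y X.Y X.Y = X.c0 := rfl
  have k1 : X.mu X.Y X.Y X.Z = X.c1 := rfl
  have k2 : X.mu X.Y X.Z X.Z = X.c2 := rfl
  have k3 : X.mu X.Z X.Z X.Z = X.C := rfl
  have det : det3 X.E X.Yh X.Z = 1 := by
    rw [← X.det]
    simp only [TF.Yh, det3, Pi.sub_apply, Pi.smul_apply, smul_eq_mul]
    ring
  have v : X.mu X.E X.E X.Yh = 1 ∧ X.mu X.E X.Yh X.Yh = 0 ∧ X.mu X.E X.Yh X.Z = 0 ∧
      X.mu X.Yh X.Yh X.Yh = X.G / X.C ^ 2 ∧ X.mu X.Yh X.Yh X.Z = X.Hh / X.C ∧
      X.mu X.Yh X.Z X.Z = 0 := by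
    simp only [TF.Yh, map_sub, map_smul, LinearMap.sub_apply, LinearMap.smul_apply, smul_eq_mul,
      s3, s6, hN.1, X.EYY, X.EYZ, X.EZZ, X.EEZ, k0, k1, k2, k3, TF.G, TF.Hh]
    refine ⟨?_, ?_, ?_, ?_, ?_, ?_⟩ <;> field_simp <;> ring
  obtain ⟨v2, v4, v5, v7, v8, v9⟩ := v
  obtain ⟨al, s, hE, hW, hZ, da, dC, dg, dh⟩ :=
    core X.sym X.ts d det (a := X.a) rfl v2 X.EEZ v4 v5 X.EZZ v7 v8 v9 k3 C0
  have hG : X.G = X.G / X.C ^ 2 * X.C * X.C := by field_simp
  have hD : X.Dd = X.G / X.C ^ 2 * (X.G / X.C ^ 2) * X.C * X.C +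
      4 * (X.Hh / X.C * (X.Hh / X.C) * (X.Hh / X.C) * X.C) := by
    field_simp
    simp only [TF.Dd, TF.G, TF.Hh]
    ring
  have dp := X.ps.der d X.E
  rw [hE, map_add, map_smul, map_smul, X.pE] at dp
  refine ⟨al, s, hE, hW, hZ, da, dC, ?_, ?_, ?_⟩
  · generalize X.G / X.C ^ 2 = g, X.Hh / X.C = h at hG hD dC dg
    rw [hG, hD]
    simp only [Derivation.leibniz, smul_eq_mul, dC, dg]
    field_simp
    ring
  · have d4 : d 4 = 0 := d.map_natCast 4
    generalize X.G / X.C ^ 2 = g, X.Hh / X.C = h at hD dC dg dh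
    rw [hD]
    simp only [map_add, Derivation.leibniz, smul_eq_mul, dC, dg, dh, d4]
    field_simp
    ring
  · change d X.a = al * X.a + s * _ at dp
    linear_combination da - dp

end TFLx

theorem p_TFL :
    S_TFL := by
  intro K _ _ _ hf X hN
  refine ⟨TFLx.flow X hN, ?_⟩
  by_contra h
  push Not at h
  obtain ⟨x0, t, h0, e⟩ := vline hf (x := X.E) fun d => by
    obtain ⟨al, s, hF⟩ := TFLx.flow X hN d
    exact ⟨al, by rw [hF.1, h d al s hF, zero_smul, add_zero]⟩
  have h1 : detL X.Y X.Z X.E = 1 := by rw [detL_apply, det3_rot, X.det]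
  exact X.ns (vs_of_line (l := detL X.Y X.Z) X.EA h0 e
    (fun x hx => det3_mem (AR hf) X.YA X.ZA hx) (h1 ▸ Std.one) (h1 ▸ one_ne_zero))

end Pool.Agent.P.MP_33ab4b_ag.B

end

section

/-! Step CA2. -/

set_option autoImplicit false

namespace Pool.Agent.P.MP_33ab4b_ag.B

open Pool.Agent.P.MP_33ab4b_ag.T hiding tri

namespace CA2x

variable {K : Type} [Field K] {n : ℕ}

/-- The plane spanned by two vectors. -/
def j2 (w1 w2 : Vec K n) : Vec K 2 →ₗ[K] Vec K n where
  toFun x := x 0 • w1 + x 1 • w2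
  map_add' x y := by simp only [Pi.add_apply, add_smul]; abel
  map_smul' s x := by simp only [Pi.smul_apply, smul_eq_mul, mul_smul, smul_add, RingHom.id_apply]

theorem j2_apply (w1 w2 : Vec K n) (x : Vec K 2) : j2 w1 w2 x = x 0 • w1 + x 1 • w2 := rfl

end CA2x

open CA2x

theorem p_CA2 (hSCOMP : S_SCOMP) (hBIN1 : S_BIN1) :
    S_CA2 := by
  intro K _ _ _ hf n D E l p0 X hp pE y C gy
  have sW : SSub (ann D.mu (RA D E l)) := SSub.ann X.ts C.sR
  have gE : gam D.mu E l E = 0 := X.toCw.gE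
  obtain ⟨w1, m1, s1, l1⟩ := sW.exists_std hf l C.Em (by rw [X.lE]; exact one_ne_zero)
  obtain ⟨w, mw, sw, lw⟩ := sW.exists_std hf
    (l w1 • gam D.mu E l - gam D.mu E l w1 • l) C.ym (by
      simp only [LinearMap.sub_apply, LinearMap.smul_apply, smul_eq_mul, C.ly, mul_zero, sub_zero]
      exact mul_ne_zero l1 gy)
  simp only [LinearMap.sub_apply, LinearMap.smul_apply, smul_eq_mul] at lw
  obtain ⟨b1, hb1, b11⟩ := s1.exists_form (by rintro rfl; simp at l1)
  obtain ⟨w2, m2, s2, l2, b12⟩ : ∃ w2 ∈ ann D.mu (RA D E l), VS w2 ∧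
      l w1 * gam D.mu E l w2 - gam D.mu E l w1 * l w2 ≠ 0 ∧ b1 w2 = 0 := by
    refine ⟨w - b1 w • w1, Submodule.sub_mem _ mw (Submodule.smul_mem _ _ m1),
      sw.sub (s1.smul (hb1 _ sw)), ?_, by simp [b11]⟩
    simp only [map_sub, map_smul, smul_eq_mul]
    intro e; apply lw; linear_combination e
  obtain ⟨b2, hb2, b22⟩ := s2.exists_form (by rintro rfl; simp at l2)
  obtain ⟨i1, k1, e1⟩ := C.sp w1 m1
  obtain ⟨i2, k2, e2⟩ := C.sp w2 m2
  have li1 : l w1 = i1 := by rw [e1]; simp [X.lE, C.ly]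
  have li2 : l w2 = i2 := by rw [e2]; simp [X.lE, C.ly]
  have g1 : gam D.mu E l w1 = k1 * gam D.mu E l y := by rw [e1]; simp [gE]
  have g2 : gam D.mu E l w2 = k2 * gam D.mu E l y := by rw [e2]; simp [gE]
  have d0 : i1 * k2 - i2 * k1 ≠ 0 := by
    intro e; apply l2; rw [li1, li2, g1, g2]; linear_combination gam D.mu E l y * e
  obtain ⟨c, hc⟩ : ∃ c, c = i1 * k2 - i2 * k1 := ⟨_, rfl⟩
  rw [← hc] at d0
  have jE : j2 w1 w2 ![k2 / c, -k1 / c] = E := by
    rw [j2_apply]
    simp only [Matrix.cons_val_zero, Matrix.cons_val_one]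
    rw [e1, e2]
    funext t
    simp only [Pi.add_apply, Pi.smul_apply, smul_eq_mul]
    field_simp
    rw [hc]; ring
  have jY : j2 w1 w2 ![-i2, i1] = c • y := by
    rw [j2_apply]
    simp only [Matrix.cons_val_zero, Matrix.cons_val_one]
    rw [e1, e2]
    funext t
    simp only [Pi.add_apply, Pi.smul_apply, smul_eq_mul]
    rw [hc]; ring
  have js : ∀ x, VS x → VS (j2 w1 w2 x) := fun x hx => (s1.smul (hx 0)).add (s2.smul (hx 1))
  have a0 : k2 / c ∈ AR hf := by
    have := hb1.fa E X.EA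
    rw [← jE, j2_apply] at this
    simpa [b11, b12] using this
  have a1 : -k1 / c ∈ AR hf := by
    have := (hb2.sub (hb1.smul (hb2 _ s1))).fa E X.EA
    rw [← jE, j2_apply] at this
    convert this using 1
    simp [b11, b12, b22]
    ring
  have ai1 : i1 ∈ AR hf := li1 ▸ X.lA _ s1.va
  have ai2 : i2 ∈ AR hf := li2 ▸ X.lA _ s2.va
  obtain ⟨c0, hc0, yq⟩ := C.yq
  have hE := hBIN1 K hf (tpull D.mu (j2 w1 w2)) (p0 ∘ₗ j2 w1 w2) ![k2 / c, -k1 / c] ![-i2, i1]
    ⟨fun x y z => X.ho.sym.1 _ _ _, fun x y z => X.ho.sym.2 _ _ _⟩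
    (fun x y z hx hy hz => X.ts _ _ _ (js x hx) (js y hy) (js z hz))
    (fun x hx => hp _ (js x hx))
    (fun t => by fin_cases t <;> [exact a0; exact a1])
    (fun t => by fin_cases t <;> [exact (AR hf).neg_mem ai2; exact ai1])
    (by
      simp only [Matrix.cons_val_zero, Matrix.cons_val_one]
      field_simp
      rw [hc]; ring)
    (by rw [tpull_apply, jE, jY]; exact X.exc _ _ (by simp [C.ly]) (by simp [C.ly]))
    (by rw [tpull_apply, LinearMap.comp_apply, jE]; exact pE)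
    (by rw [tpull_apply, jE]; exact C.a0)
    (by
      rw [tpull_apply, jE, jY, map_smul, smul_eq_mul]
      refine mul_ne_zero d0 fun e => gy ?_
      rw [gam_ker C.ly, e, neg_zero])
    (by
      rw [tpull_apply, jY]
      simp only [map_smul, LinearMap.smul_apply, smul_eq_mul, yq, C.ly, mul_zero, zero_add]
      exact mul_ne_zero d0 (mul_ne_zero d0 (mul_ne_zero d0
        (mul_ne_zero (mul_ne_zero hc0 gy) gy))))
  exact C.ns (jE ▸ js _ hE)

end Pool.Agent.P.MP_33ab4b_ag.B

end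

section

/-! Step EICH. -/

set_option autoImplicit false

namespace Pool.Agent.P.MP_33ab4b_ag.B

open Pool.Agent.P.MP_33ab4b_ag.T hiding tri

namespace EICHx

variable {K : Type} [Field K] {n : ℕ}

/-- The map `x ↦ x + α x • u + β x • E`. -/
def tv (α β : Frm K n) (u E : Vec K n) : Vec K n →ₗ[K] Vec K n :=
  LinearMap.id + α.smulRight u + β.smulRight E

theorem tv_apply (α β : Frm K n) (u E x : Vec K n) :
    tv α β u E x = x + α x • u + β x • E := rfl

end EICHx

open EICHx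

theorem p_EICH :
    S_EICH := by
  intro K _ _ _ n mu phi n1 n2 E u s hs h0 hE hu p1 p2 a1 a2 b1 b2
  let α : Frm K n := (-1 / s) • n1 + (1 / (2 * s)) • n2
  let β : Frm K n := (1 / s) • n2
  let α' : Frm K n := (1 / s) • n1 + (1 / (2 * s)) • n2
  let β' : Frm K n := (-1 / s) • n2
  have hα : ∀ x, α x = -1 / s * n1 x + 1 / (2 * s) * n2 x := fun x => rfl
  have hβ : ∀ x, β x = 1 / s * n2 x := fun x => rfl
  have hα' : ∀ x, α' x = 1 / s * n1 x + 1 / (2 * s) * n2 x := fun x => rfl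
  have hβ' : ∀ x, β' x = -1 / s * n2 x := fun x => rfl
  have i1 : ∀ x, tv α β u E (tv α' β' u E x) = x := by
    intro x
    simp only [tv_apply, hα, hβ, hα', hβ', map_add, map_smul, a1, a2, b1, b2]
    ext i
    simp only [Pi.add_apply, Pi.smul_apply, smul_eq_mul]
    field_simp
    ring
  have i2 : ∀ x, tv α' β' u E (tv α β u E x) = x := by
    intro x
    simp only [tv_apply, hα, hβ, hα', hβ', map_add, map_smul, a1, a2, b1, b2]
    ext i
    simp only [Pi.add_apply, Pi.smul_apply, smul_eq_mul]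
    field_simp
    ring
  refine ⟨LinearEquiv.ofLinearMap (tv α β u E) (tv α' β' u E) (LinearMap.ext i1) (LinearMap.ext i2),
    fun x => ?_, fun x => ?_, fun x y z => ?_⟩
  · change tv α β u E x = _
    rw [tv_apply, hα, hβ]
    module
  · change tv α' β' u E x = _
    rw [tv_apply, hα', hβ']
    module
  · change mu (tv α β u E x) (tv α β u E y) (tv α β u E z) = _
    have f1 : ∀ x y z, mu (tv α β u E x) y z = mu x y z + α x * (phi y * n2 z + n2 y * phi z) +
        β x * (phi y * n1 z + n1 y * phi z) := by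
      intro x y z
      simp only [tv_apply, map_add, map_smul, LinearMap.add_apply, LinearMap.smul_apply,
        smul_eq_mul, hE, hu]
    have g0 : ∀ x, phi (tv α β u E x) = phi x := by
      intro x
      simp only [tv_apply, map_add, map_smul, p1, p2, smul_zero, add_zero]
    have g1 : ∀ x, n1 (tv α β u E x) = n1 x - n2 x := by
      intro x
      simp only [tv_apply, map_add, map_smul, a1, a2, smul_eq_mul, hβ]
      field_simp
      ring
    have g2 : ∀ x, n2 (tv α β u E x) = n2 x := by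
      intro x
      simp only [tv_apply, map_add, map_smul, b1, b2, smul_zero, add_zero]
    rw [f1, hs.1 x, f1, hs.2 y x, hs.1 y, f1, hs.1 z, hs.2 y z, hs.1 y x]
    simp only [g0, g1, g2, hα, hβ]
    field_simp
    ring

end Pool.Agent.P.MP_33ab4b_ag.B

end
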