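import Pool.Agent.P.MP_33ab4b_ag.B.IfaceA

section

/-! Step CBS. -/

set_option autoImplicit false

namespace Pool.Agent.P.MP_33ab4b_ag.B

open Pool.Agent.P.MP_33ab4b_ag.T hiding tri

namespace CBSx

variable {K : Type} [Field K] [LinearOrder K] [IsStrictOrderedRing K] {hf : HF K} {n : ℕ}
  {D : HD K n} {E : Vec K n} {l : Frm K n}

/-- A vector of the kernel of `l` is in the annihilator as soon as it is so on the kernel. -/
theorem ann_of_ker (X : Cw hf D E l) {m : Frm K n} {v : Vec K n} (lv : l v = 0)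
    (h : ∀ r ∈ RB D E l m, ∀ x, l x = 0 → D.mu v r x = 0) : v ∈ ann D.mu (RB D E l m) := by
  intro r hr x
  have a := h r hr _ (l_proj X.lE x)
  have b := X.exc v r lv (mem_RB.1 hr).1
  rw [symrot X.ho.sym] at b
  rw [map_sub, map_smul, b] at a
  simpa using a

/-- A dual basis for `gamma` and `m` on the kernel of `l`. -/
theorem dual {g m : Frm K n} {x0 y : Vec K n} (l0 : l x0 = 0) (g0 : g x0 = 0) (m0 : m x0 ≠ 0)
    (ly : l y = 0) (gy : g y ≠ 0) :
    ∃ e1 e2, l e1 = 0 ∧ l e2 = 0 ∧ g e1 = 1 ∧ m e1 = 0 ∧ g e2 = 0 ∧ m e2 = 1 := by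
  refine ⟨(g y)⁻¹ • (y - (m y / m x0) • x0), (m x0)⁻¹ • x0, ?_, ?_, ?_, ?_, ?_, ?_⟩
  · simp [l0, ly]
  · simp [l0]
  · simp [g0, gy]
  · simp [m0]
  · simp [g0]
  · simp [m0]

theorem expand {m : Frm K n} {e1 e2 : Vec K n} (l1 : l e1 = 0) (l2 : l e2 = 0)
    (g1 : gam D.mu E l e1 = 1) (m1 : m e1 = 0) (g2 : gam D.mu E l e2 = 0) (m2 : m e2 = 1)
    (φ : Frm K n) (h : ∀ r ∈ RB D E l m, φ r = 0) (x : Vec K n) (lx : l x = 0) :
    φ x = gam D.mu E l x * φ e1 + m x * φ e2 := by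
  have := h (x - gam D.mu E l x • e1 - m x • e2)
    (mem_RB.2 ⟨by simp [lx, l1, l2], by simp [g1, g2], by simp [m1, m2]⟩)
  simp only [map_sub, map_smul, smul_eq_mul] at this
  linear_combination this

/-- The annihilator is spanned by `E`, `y` and `w`. -/
theorem span3 (X : Cw hf D E l) (a0 : D.mu E E E ≠ 0) {m : Frm K n} {y w e1 e2 : Vec K n}
    (l1 : l e1 = 0) (l2 : l e2 = 0)
    (g1 : gam D.mu E l e1 = 1) (m1 : m e1 = 0) (g2 : gam D.mu E l e2 = 0) (m2 : m e2 = 1)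
    (ly : l y = 0) (lw : l w = 0) (gy : gam D.mu E l y ≠ 0) (Em : E ∈ ann D.mu (RB D E l m))
    (yq : ∀ x x', l x = 0 → l x' = 0 →
      D.mu y x x' = gam D.mu E l x * m x' + m x * gam D.mu E l x') {k1 k2 : K}
    (wq : ∀ x x', l x = 0 → l x' = 0 → D.mu w x x' =
      -2 * D.mu E E E * m x * m x' + k1 * gam D.mu E l x * gam D.mu E l x' +
        k2 * (gam D.mu E l x * m x' + m x * gam D.mu E l x'))
    (x : Vec K n) (hx : x ∈ ann D.mu (RB D E l m)) : ∃ i j k : K, x = i • E + j • y + k • w := by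
  have sy := X.ho.sym
  obtain ⟨x', hx'⟩ : ∃ x', x' = x - l x • E := ⟨_, rfl⟩
  have lx' : l x' = 0 := hx' ▸ l_proj X.lE x
  have xm : x' ∈ ann D.mu (RB D E l m) :=
    hx' ▸ Submodule.sub_mem _ hx (Submodule.smul_mem _ _ Em)
  have ex : ∀ u v, l v = 0 → D.mu x' u v =
      gam D.mu E l v * D.mu x' u e1 + m v * D.mu x' u e2 := fun u v lv =>
    expand l1 l2 g1 m1 g2 m2 (D.mu x' u) (fun r hr => by rw [sy.2]; exact xm r hr u) v lv
  have xq : ∀ u v, l u = 0 → l v = 0 → D.mu x' u v =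
      D.mu x' e1 e1 * gam D.mu E l u * gam D.mu E l v +
        D.mu x' e1 e2 * (gam D.mu E l u * m v + m u * gam D.mu E l v) +
          D.mu x' e2 e2 * m u * m v := fun u v lu lv => by
    rw [ex u v lv, sy.2 x' u e1, sy.2 x' u e2, ex e1 u lu, ex e2 u lu, sy.2 x' e2 e1]
    ring
  obtain ⟨k, hk⟩ : ∃ k, D.mu x' e2 e2 = -2 * D.mu E E E * k :=
    ⟨D.mu x' e2 e2 / (-2 * D.mu E E E), by field_simp⟩
  obtain ⟨j, hj⟩ : ∃ j, j = D.mu x' e1 e2 - k * k2 := ⟨_, rfl⟩
  obtain ⟨c, hc⟩ : ∃ c, c = D.mu x' e1 e1 - k * k1 := ⟨_, rfl⟩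
  obtain ⟨f, hf0⟩ : ∃ f, f = x' - j • y - k • w := ⟨_, rfl⟩
  have lf : l f = 0 := by simp [hf0, lx', ly, lw]
  have fq : ∀ u v, l u = 0 → l v = 0 → D.mu f u v = c * gam D.mu E l u * gam D.mu E l v :=
    fun u v lu lv => by
      rw [hf0]
      simp only [map_sub, map_smul, LinearMap.sub_apply, LinearMap.smul_apply, smul_eq_mul]
      rw [xq u v lu lv, yq u v lu lv, wq u v lu lv, hk, hj, hc]
      ring
  have p1 := fq y e2 ly l2
  have p2 := fq y e1 ly l1
  have p3 := fq w e2 lw l2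
  rw [sy.1, yq f e2 lf l2, g2, m2] at p1
  rw [sy.1, yq f e1 lf l1, g1, m1] at p2
  rw [sy.1, wq f e2 lf l2, g2, m2] at p3
  have gf : gam D.mu E l f = 0 := by linear_combination p1
  have mf : m f = 0 := by
    have : D.mu E E E * m f = 0 := by linear_combination (-1 / 2 : K) * p3 + (k2 / 2) * gf
    exact (mul_eq_zero.1 this).resolve_left a0
  have c0 : c = 0 := by
    have : c * gam D.mu E l y = 0 := by linear_combination mf - p2
    exact (mul_eq_zero.1 this).resolve_right gy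
  have f0 : f = 0 := X.nd f lf fun u v lu lv => by rw [fq u v lu lv, c0]; ring
  refine ⟨l x, j, k, ?_⟩
  rw [hf0, hx'] at f0
  rw [← sub_eq_zero, ← f0]
  abel

end CBSx

theorem p_CBS (hFO : S_FO) (hSO : S_SO) (hYN : S_YN) :
    S_CBS := by
  intro K _ _ _ hf n D E l X a0 d ind gy
  have sy := X.ho.sym
  have fo := hFO K hf n D E l X
  have so := (hSO K hf n D E l X).2
  have ly : ∀ d', l (yy d' E l) = 0 := fun d' => l_yy X.lE d'
  have lw : ∀ d' x, l (nab d' E l x) = 0 := fun d' x => l_nab X.lE d' x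
  have yR : ∀ r ∈ RB D E l (nu d E l), ∀ x, l x = 0 → D.mu (yy d E l) r x = 0 :=
    fun r hr x lx => by
      obtain ⟨r1, r2, r3⟩ := mem_RB.1 hr
      rw [(fo d).1 r x r1 lx, r2, r3]; ring
  have nuR : ∀ d', ∀ r ∈ RB D E l (nu d E l), nu d' E l r = 0 := fun d' r hr => by
    obtain ⟨r1, r2, -⟩ := mem_RB.1 hr
    have a := (fo d').1 _ r (ly d) r1
    rw [sy.1, sy.2, yR r hr _ (ly d'), r2] at a
    have : gam D.mu E l (yy d E l) * nu d' E l r = 0 := by linear_combination -a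
    exact (mul_eq_zero.1 this).resolve_left gy
  have kaR : ∀ d', ∀ r ∈ RB D E l (nu d E l), kap d' d E l r = 0 := fun d' r hr => by
    obtain ⟨r1, r2, r3⟩ := mem_RB.1 hr
    have a := so d d' _ r (ly d) r1
    rw [sy.1, sy.2, yR r hr _ (lw d' _), r2, r3, nuR d' r hr] at a
    have : gam D.mu E l (yy d E l) * kap d' d E l r = 0 := by linear_combination -a
    exact (mul_eq_zero.1 this).resolve_left gy
  have Em : E ∈ ann D.mu (RB D E l (nu d E l)) := fun r hr x => by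
    obtain ⟨r1, r2, -⟩ := mem_RB.1 hr
    rw [X.toCw.q, r1, r2]; ring
  obtain ⟨x0, l0, g0, m0⟩ := ind
  obtain ⟨e1, e2, l1, l2, g1, m1, g2, m2⟩ := CBSx.dual l0 g0 m0 (ly d) gy
  have wq : ∀ x x', l x = 0 → l x' = 0 → D.mu (nab d E l (yy d E l)) x x' =
      -2 * D.mu E E E * nu d E l x * nu d E l x' +
        (2 * kap d d E l e1) * gam D.mu E l x * gam D.mu E l x' +
        kap d d E l e2 * (gam D.mu E l x * nu d E l x' + nu d E l x * gam D.mu E l x') :=
    fun x x' lx lx' => by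
      rw [so d d x x' lx lx', CBSx.expand l1 l2 g1 m1 g2 m2 _ (kaR d) x lx,
        CBSx.expand l1 l2 g1 m1 g2 m2 _ (kaR d) x' lx']
      ring
  refine
    { a0 := a0
      ns := fun s => gy (by simp [yy, al, s.dv d])
      dE := ⟨d, _, dv_E d E l⟩
      nuE := nu_E X.lE d
      ind := ⟨x0, l0, g0, m0⟩
      ly := ly d
      lw := lw d _
      gy := gy
      sR := ?_
      Em := Em
      ym := CBSx.ann_of_ker X.toCw (ly d) yR
      wm := CBSx.ann_of_ker X.toCw (lw d _) ?_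
      ON := ?_
      sp := CBSx.span3 X.toCw a0 l1 l2 g1 m1 g2 m2 (ly d) (lw d _) gy Em (fo d).1 wq
      yq := (fo d).1
      wq := ⟨_, _, wq⟩ }
  · intro d' r hr
    obtain ⟨r1, r2, r3⟩ := mem_RB.1 hr
    refine mem_RB.2 ⟨?_, ?_, ?_⟩
    · rw [← nu_ker (E := E) d' r1]; exact nuR d' r hr
    · have a := d_frm d' (gam D.mu E l) r
      rw [r2, map_zero, (fo d').2.1] at a
      simp only [LinearMap.sub_apply, LinearMap.smul_apply, smul_eq_mul, r1, r2,
        nuR d' r hr] at a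
      linear_combination -a
    · have a := d_frm d' (nu d E l) r
      have b := kaR d' r hr
      rw [r3, map_zero] at a
      simp only [kap, LinearMap.add_apply, LinearMap.smul_apply, smul_eq_mul, r3] at b
      linear_combination -a - b
  · intro r hr x lx
    obtain ⟨r1, r2, r3⟩ := mem_RB.1 hr
    rw [wq r x r1 lx, r2, r3]; ring
  · intro x hx
    refine X.ho.nt fun t ht => ?_
    rw [symrot sy]
    exact hx t (mem_RB.2 ⟨(X.toCw.T_ker ht).1, (X.toCw.T_ker ht).2,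
      (hYN K hf n D E l X a0 d).1 t ht⟩) _

end Pool.Agent.P.MP_33ab4b_ag.B

end

section

/-! Step CBA2. -/

set_option autoImplicit false

namespace Pool.Agent.P.MP_33ab4b_ag.B

open Pool.Agent.P.MP_33ab4b_ag.T hiding tri

namespace CBA2x

variable {K : Type} [Field K] [LinearOrder K] [IsStrictOrderedRing K] {hf : HF K} {n : ℕ}

/-- The abstract form of the conclusion. -/
theorem core (D : HD K n) (E : Vec K n) (l p0 : Frm K n) (R : Submodule K (Vec K n))
    (f z : Vec K n) (hs : Sym3 D.mu) (ts : TS D.mu) (hp : FS p0)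
    (Rl : ∀ x ∈ R, l x = 0) (Rg : ∀ x ∈ R, gam D.mu E l x = 0)
    (fa : f ∈ ann D.mu R) (za : z ∈ ann D.mu R) (fN : f ∈ D.N) (zN : z ∈ D.N)
    (fA : VA hf f) (zA : VA hf z) (lf : l f = 0) (lz : l z = 0)
    (dec : ∀ x, l x = 0 → ∃ i k : K, x - (i • f + k • z) ∈ R ∧
      (VA hf x → i ∈ AR hf ∧ k ∈ AR hf))
    (sp : ∀ x ∈ R, VA hf x → x ∈ Submodule.span (AR hf) {v | VS v ∧ v ∈ R})
    (ff : ∀ x, D.mu f f x = 0) (e0 : D.mu f z z ≠ 0) (zzz : D.mu z z z = 0)
    (sf : Std (D.mu E E f)) (se : Std (D.mu f z z)) (sg : D.mu f z z * D.mu E E f < 0)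
    (pf : p0 f = 4 * D.mu E E f) (pz : p0 z = D.mu E E z) (nz : ¬ Fi (D.mu E E z))
    (na : ¬ Fi (D.mu E E E)) :
    ∃ b, Fam hf D.mu l b ∧ O4 D E l p0 b := by
  have fR : ∀ r ∈ R, ∀ y, D.mu f r y = 0 := fa
  have zR : ∀ r ∈ R, ∀ y, D.mu z r y = 0 := za
  have fR' : ∀ r ∈ R, ∀ y, D.mu f y r = 0 := fun r hr y => by rw [hs.2]; exact fR r hr y
  have zR' : ∀ r ∈ R, ∀ y, D.mu z y r = 0 := fun r hr y => by rw [hs.2]; exact zR r hr y
  have fzf : D.mu f z f = 0 := by rw [hs.2]; exact ff z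
  have gf : gam D.mu E l f = - D.mu E E f := gam_ker lf
  have gz : gam D.mu E l z = - D.mu E E z := gam_ker lz
  set e := D.mu f z z with he
  let chi : Frm K n := e⁻¹ • D.mu f z
  have cx : ∀ x, chi x = e⁻¹ * D.mu f z x := fun x => rfl
  have cf : chi f = 0 := by rw [cx, fzf, mul_zero]
  have cz : chi z = 1 := by rw [cx, ← he, inv_mul_cancel₀ e0]
  have cR : ∀ r ∈ R, chi r = 0 := fun r hr => by rw [cx, fR' r hr, mul_zero]
  let b : Set (Vec K n) := {v | v = f ∨ v = z ∨ (VS v ∧ v ∈ R)}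
  have bf : f ∈ b := .inl rfl
  have bz : z ∈ b := .inr (.inl rfl)
  have sF : ∀ y ∈ b, ∀ w ∈ b, Std (D.mu f y w) := by
    rintro y (rfl | rfl | ⟨-, hy⟩) w hw
    · rw [ff]; exact Std.zero
    · rcases hw with rfl | rfl | ⟨-, hw⟩
      · rw [fzf]; exact Std.zero
      · exact se
      · rw [fR' w hw]; exact Std.zero
    · rw [fR y hy]; exact Std.zero
  have sZ : ∀ y ∈ b, ∀ w ∈ b, Std (D.mu z y w) := by
    intro y hy w hw
    rcases hy with h1 | h1 | ⟨-, hy⟩
    · rw [h1, hs.1]; exact sF _ bz _ hw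
    · rcases hw with h2 | h2 | ⟨-, hw⟩
      · rw [h1, h2, sym13 hs]; exact se
      · rw [h1, h2, zzz]; exact Std.zero
      · rw [zR' w hw]; exact Std.zero
    · rw [zR y hy]; exact Std.zero
  have wr : ∀ x, l x = 0 → ∃ (i k : K) (r : Vec K n), r ∈ R ∧ x = i • f + k • z + r := fun x hx => by
    obtain ⟨i, k, h, -⟩ := dec x hx
    exact ⟨i, k, _, h, by abel⟩
  refine ⟨b, ⟨?_, ?_, ?_⟩, na, f, z, chi, e, 2 * gam D.mu E l z, fN, zN, lf, lz, BV.of_mem bf,
    BV.of_mem bz, ?_, ?_, se, ?_, cf, cz, ?_, ?_, ?_, ?_, ?_⟩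
  · rintro v (rfl | rfl | ⟨h1, h2⟩)
    exacts [⟨lf, fA⟩, ⟨lz, zA⟩, ⟨Rl v h2, h1.va⟩]
  · intro x hx xA
    obtain ⟨i, k, h, hA⟩ := dec x hx
    obtain ⟨iA, kA⟩ := hA xA
    have h1 := sp _ h (xA.sub ((fA.smul iA).add (zA.smul kA)))
    have h2 : x - (i • f + k • z) ∈ Submodule.span (AR hf) b :=
      Submodule.span_mono (fun v hv => .inr (.inr hv)) h1
    have h3 := Submodule.add_mem _ h2 (Submodule.add_mem _
      (mem_spanA_smul iA (Submodule.subset_span bf)) (mem_spanA_smul kA (Submodule.subset_span bz)))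
    rwa [sub_add_cancel] at h3
  · intro x hx y hy w hw
    rcases hx with h1 | h1 | ⟨sx, hx⟩
    · rw [h1]; exact sF _ hy _ hw
    · rw [h1]; exact sZ _ hy _ hw
    rcases hy with h1 | h1 | ⟨sy, hy⟩
    · rw [h1, hs.1, fR x hx]; exact Std.zero
    · rw [h1, hs.1, zR x hx]; exact Std.zero
    rcases hw with h1 | h1 | ⟨sw, hw⟩
    · rw [h1, sym13 hs, fR y hy]; exact Std.zero
    · rw [h1, sym13 hs, zR y hy]; exact Std.zero
    exact ts _ _ _ sx sy sw
  · intro h; apply e0; rw [he, h]; simp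
  · intro v hv
    rcases hv with h1 | h1 | ⟨-, hv⟩
    · rw [h1, cf]; exact Std.zero
    · rw [h1, cz]; exact Std.one
    · rw [cR v hv]; exact Std.zero
  · intro x y hx hy
    obtain ⟨i, k, r, hr, rfl⟩ := wr x hx
    obtain ⟨i', k', r', hr', rfl⟩ := wr y hy
    simp only [map_add, map_smul, LinearMap.add_apply, LinearMap.smul_apply, smul_eq_mul, cf, cz,
      cR r hr, cR r' hr', ff, fzf, fR r hr, fR' r' hr', ← he]
    ring
  · rw [gf]; linarith
  · rw [gf, pf]; ring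
  · intro x hx h1 h2
    obtain ⟨i, k, r, hr, rfl⟩ := wr x hx
    have a1 : D.mu r z z = 0 := by rw [sym13 hs]; exact zR' r hr z
    simp only [map_add, map_smul, LinearMap.add_apply, LinearMap.smul_apply, smul_eq_mul, cf, cz,
      cR r hr, zzz, a1, ← he, mul_zero, mul_one, add_zero, zero_add] at h1 h2
    have i0 : i = 0 := (mul_eq_zero.1 h2).resolve_right e0
    rw [i0, h1, zero_smul, zero_smul, zero_add, zero_add]
    exact ⟨Rg r hr, fun y _ => zR r hr y⟩
  · intro h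
    rw [gz] at h
    exact nz ((fi_of_std_mul std_two two_ne_zero h).neg.of_eq (by ring))
  · intro v hv
    simp only [LinearMap.sub_apply, LinearMap.add_apply, LinearMap.smul_apply, smul_eq_mul]
    rcases hv with h1 | h1 | ⟨sv, hv⟩
    · rw [h1, cf, gf, pf]; exact sf.of_eq (by ring)
    · rw [h1, cz, gz, pz]; exact Std.zero.of_eq (by ring)
    · rw [cR v hv, Rg v hv]; exact (hp v sv).of_eq (by ring)

end CBA2x

theorem p_CBA2 (hCBA1 : S_CBA1) (hTERN : S_TERN) (hSPANA : S_SPANA) :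
    S_CBA2 := by
  intro K _ _ _ h2 n D E l p0 cx hp pE y w nu cb h0
  obtain ⟨X, j, r, -, jA, rA, ja, jr, hmu, hpp, jE, jl⟩ :=
    hCBA1 K h2 n D E l p0 cx hp pE y w nu cb h0
  obtain ⟨f, z, ⟨fS, zA, lf, lz, dt, ff, -, e0⟩, zzz, sf, se, sg, pf, pz, nz, na⟩ :=
    hTERN K h2.toHF X
  have hs := cx.ho.sym
  simp only [TF.a, hmu, hpp, jE] at e0 zzz sf se sg pf pz nz na
  refine CBA2x.core D E l p0 (RB D E l nu) (j f) (j z) hs cx.ts hp (fun x h => (mem_RB.1 h).1)
    (fun x h => (mem_RB.1 h).2.1) (ja f) (ja z) (cb.ON (ja f)) (cb.ON (ja z)) (jA f fS.va) (jA z zA)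
    (by rw [jl, lf]) (by rw [jl, lz]) ?_ ((hSPANA K h2.toHF n).1 _ cb.sR) ?_ e0 zzz sf se sg pf pz
    nz na
  · intro x hx
    have a1 : l (j (r x)) = 0 := by
      have := (mem_RB.1 (jr x)).1
      rwa [map_sub, hx, zero_sub, neg_eq_zero] at this
    have a2 := form_cramer (l ∘ₗ j) X.E f z (r x)
    simp only [LinearMap.comp_apply, a1, jE, cx.lE, jl f, jl z, lf, lz, mul_zero, mul_one,
      add_zero] at a2
    have a3 := cramer X.E f z (r x)
    rw [dt, one_smul, ← a2, zero_smul, zero_add] at a3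
    refine ⟨det3 X.E (r x) z, det3 X.E f (r x), ?_, fun xA =>
      ⟨det3_mem _ X.EA (rA x xA) zA, det3_mem _ X.EA fS.va (rA x xA)⟩⟩
    have := jr x
    rwa [a3, map_add, map_smul, map_smul] at this
  · intro x
    have a1 := ff (r x)
    have a2 := ja f _ (jr x) (j f)
    rw [hmu] at a1
    rw [hs.2, map_sub, a1, sub_zero] at a2
    exact a2

end Pool.Agent.P.MP_33ab4b_ag.B

end

section

/-! Step SCOMP. -/

set_option autoImplicit false
set_option linter.unusedSectionVars false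

namespace Pool.Agent.P.MP_33ab4b_ag.B

open Pool.Agent.P.MP_33ab4b_ag.T hiding tri

namespace SCOMPx

variable {K : Type} [Field K] [LinearOrder K] [IsStrictOrderedRing K] {n : ℕ}

theorem cut_lt {W : Submodule K (Vec K n)} {l : Frm K n} {x : Vec K n} (hx : x ∈ W)
    (h : l x = 1) : Module.finrank K ↥(W ⊓ LinearMap.ker l) < Module.finrank K W := by
  refine Submodule.finrank_lt_finrank_of_lt (lt_of_le_of_ne inf_le_left fun e => ?_)
  have : x ∈ W ⊓ LinearMap.ker l := by rw [e]; exact hx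
  have h2 : l x = 0 := this.2
  rw [h] at h2
  exact one_ne_zero h2

theorem cut_mem {W : Submodule K (Vec K n)} {l : Frm K n} {x y : Vec K n} (hx : x ∈ W)
    (h : l x = 1) (hy : y ∈ W) : y - l y • x ∈ W ⊓ LinearMap.ker l :=
  ⟨W.sub_mem hy (W.smul_mem _ hx), show l _ = 0 by simp [h]⟩

theorem sep (hf : HF K) (m : ℕ) : ∀ U : Submodule K (Vec K n), Module.finrank K U < m → SSub U →
    ∀ w, VS w → w ∉ U → ∃ β : Frm K n, FS β ∧ (∀ u ∈ U, β u = 0) ∧ β w = 1 := by
  induction m with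
  | zero => exact fun _ h => absurd h (Nat.not_lt_zero _)
  | succ m ih =>
    intro U hm sU w sw nw
    by_cases z : ∀ u ∈ U, u = 0
    · obtain ⟨β, sβ, e⟩ := sw.exists_form (fun e => nw (e ▸ U.zero_mem))
      exact ⟨β, sβ, fun u hu => by rw [z u hu, map_zero], e⟩
    push Not at z
    obtain ⟨x, hx, x0⟩ := z
    obtain ⟨u0, hu0, su0, n0⟩ := sU.exists_gen hf hx x0
    obtain ⟨l, sl, l1⟩ := su0.exists_form n0
    obtain ⟨β, sβ, k, e⟩ := ih (U ⊓ LinearMap.ker l)
      (lt_of_lt_of_le (cut_lt hu0 l1) (Nat.lt_succ_iff.1 hm)) (sU.inf (SSub.ker sl))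
      (w - l w • u0) (sw.sub (su0.smul (sl w sw))) (fun c => nw (by
        simpa using U.add_mem c.1 (U.smul_mem (l w) hu0)))
    have q : ∀ y, (β - β u0 • l) y = β (y - l y • u0) := fun y => by
      simp only [LinearMap.sub_apply, LinearMap.smul_apply, map_sub, map_smul, smul_eq_mul]; ring
    exact ⟨β - β u0 • l, sβ.sub (sl.smul (sβ _ su0)),
      fun u hu => by rw [q]; exact k _ (cut_mem hu0 l1 hu), by rw [q, e]⟩

theorem main (hf : HF K) (U : Submodule K (Vec K n)) (sU : SSub U) (m : ℕ) :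
    ∀ W : Submodule K (Vec K n), Module.finrank K W < m → SSub W → U ≤ W →
    ∃ (r : ℕ) (w : Fin r → Vec K n) (β : Fin r → Frm K n),
      (∀ j, VS (w j) ∧ w j ∈ W ∧ FS (β j) ∧ ∀ u ∈ U, β j u = 0) ∧
      (∀ j k, β j (w k) = if j = k then 1 else 0) ∧ ∀ x ∈ W, x - ∑ j, β j x • w j ∈ U := by
  induction m with
  | zero => exact fun _ h => absurd h (Nat.not_lt_zero _)
  | succ m ih =>
    intro W hm sW le
    by_cases z : ∀ x ∈ W, VS x → x ∈ U
    · refine ⟨0, Fin.elim0, Fin.elim0, fun j => j.elim0, fun j => j.elim0, fun x hx => ?_⟩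
      rw [Lb.stdsub hf W sW] at hx
      simpa using (Submodule.span_le (p := U)).2 (fun v hv => z v hv.1 hv.2) hx
    push Not at z
    obtain ⟨w0, hw0, s0, n0⟩ := z
    obtain ⟨l, sl, lU, l1⟩ := sep hf _ U (Nat.lt_succ_self _) sU w0 s0 n0
    obtain ⟨r, w, β, a, b, c⟩ := ih (W ⊓ LinearMap.ker l)
      (lt_of_lt_of_le (cut_lt hw0 l1) (Nat.lt_succ_iff.1 hm)) (sW.inf (SSub.ker sl))
      (fun u hu => ⟨le hu, lU u hu⟩)
    have lw : ∀ k, l (w k) = 0 := fun k => (a k).2.1.2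
    refine ⟨r + 1, Fin.cons w0 w, Fin.cons l fun j => β j - β j w0 • l, fun j => ?_,
      fun j k => ?_, fun x hx => ?_⟩
    · refine Fin.cases ?_ (fun j => ?_) j
      · exact ⟨s0, hw0, sl, lU⟩
      · obtain ⟨a1, a2, a3, a4⟩ := a j
        exact ⟨a1, a2.1, a3.sub (sl.smul (a3 _ s0)), fun u hu => by simp [a4 u hu, lU u hu]⟩
    · refine Fin.cases ?_ (fun j => ?_) j <;> refine Fin.cases ?_ (fun k => ?_) k
      · simp [l1]
      · simp [lw, (Fin.succ_ne_zero k).symm]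
      · simp [l1, Fin.succ_ne_zero]
      · simp [lw, b]
    · have := c _ (cut_mem hw0 l1 hx)
      have q : ∀ j, β j (x - l x • w0) = (β j - β j w0 • l) x := fun j => by
        simp only [LinearMap.sub_apply, LinearMap.smul_apply, map_sub, map_smul, smul_eq_mul]; ring
      simp only [q] at this
      rw [Fin.sum_univ_succ, ← sub_sub]
      simpa only [Fin.cons_zero, Fin.cons_succ] using this

end SCOMPx

theorem p_SCOMP :
    S_SCOMP := fun _ _ _ _ hf _ U W sU sW le =>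
  SCOMPx.main hf U sU _ W (Nat.lt_succ_self _) sW le

end Pool.Agent.P.MP_33ab4b_ag.B

end

section

/-! Step CA1. -/

set_option autoImplicit false

namespace Pool.Agent.P.MP_33ab4b_ag.B

open Pool.Agent.P.MP_33ab4b_ag.T hiding tri

theorem p_CA1 (hFO : S_FO) (hYN : S_YN) :
    S_CA1 := by
  intro K _ _ _ hf n D E l X a0 hnu d hy
  have hs := X.ho.sym
  have ly : l (yy d E l) = 0 := l_yy X.lE d
  have gE : gam D.mu E l E = 0 := X.toCw.gE
  obtain ⟨c, hc⟩ := hnu d
  have F1 := (hFO K hf n D E l X d).1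
  have hk : ∀ x x', l x = 0 → l x' = 0 → D.mu (yy d E l) x x' =
      2 * c * gam D.mu E l x * gam D.mu E l x' := fun x x' hx hx' => by
    rw [F1 x x' hx hx', hc]
    simp only [LinearMap.smul_apply, smul_eq_mul]; ring
  have c0 : 2 * c ≠ 0 := fun e => hy (X.nd _ ly fun x x' hx hx' => by
    rw [hk x x' hx hx', e]; ring)
  have hq : ∀ x x', D.mu (yy d E l) x x' = - gam D.mu E l (yy d E l) * l x * l x' +
      2 * c * gam D.mu E l x * gam D.mu E l x' := fun x x' => by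
    have a := hk _ _ (l_proj X.lE x) (l_proj X.lE x')
    have b1 := X.toCw.q (yy d E l) x
    have b2 := X.toCw.q (yy d E l) x'
    have b3 := X.toCw.q (yy d E l) E
    rw [ly] at b1 b2 b3
    rw [X.lE] at b3
    simp only [map_sub, map_smul, LinearMap.sub_apply, LinearMap.smul_apply, smul_eq_mul, gE,
      hs.2 (yy d E l) x E, hs.1 (yy d E l) E] at a
    rw [b1, b2, b3] at a
    linear_combination a
  have Em : E ∈ ann D.mu (RA D E l) := fun r hr x => by
    obtain ⟨h1, h2⟩ := mem_RA.1 hr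
    rw [X.toCw.q, h1, h2]; ring
  refine ⟨a0, fun sE => hy ?_, fun d' x hx => ?_, ly, (hYN K hf n D E l X a0 d).2, Em,
    fun r hr x => ?_, fun x hx => ?_, 2 * c, c0, hq⟩
  · simp [yy, al, sE.dv d]
  · obtain ⟨h1, h2⟩ := mem_RA.1 hx
    obtain ⟨c', hc'⟩ := hnu d'
    have n0 : nu d' E l x = 0 := by rw [hc', LinearMap.smul_apply, h2, smul_zero]
    refine mem_RA.2 ⟨by rw [← nu_ker d' h1, n0], ?_⟩
    have a := d_frm d' (gam D.mu E l) x
    rw [(hFO K hf n D E l X d').2.1, h2, map_zero] at a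
    simp only [LinearMap.sub_apply, LinearMap.smul_apply, smul_eq_mul, h1, h2, n0] at a
    linear_combination -a
  · obtain ⟨h1, h2⟩ := mem_RA.1 hr
    rw [hq, h1, h2]; ring
  · obtain ⟨h, -, lh, gh⟩ := X.toCw.g_ne
    have hx' : x - l x • E ∈ ann D.mu (RA D E l) :=
      Submodule.sub_mem _ hx (Submodule.smul_mem _ _ Em)
    have lx' := l_proj X.lE x
    generalize hw : x - l x • E = w at hx' lx'
    have pr : ∀ u, l u = 0 → ∀ v, D.mu w u v = gam D.mu E l u / gam D.mu E l h * D.mu w h v :=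
      fun u hu v => by
        have := hx' (u - (gam D.mu E l u / gam D.mu E l h) • h)
          (mem_RA.2 ⟨by simp [hu, lh], by simp [gh]⟩) v
        simp only [map_sub, map_smul, LinearMap.sub_apply, LinearMap.smul_apply,
          smul_eq_mul] at this
        linear_combination this
    have z : w - (D.mu w h h / gam D.mu E l h ^ 2 / (2 * c)) • yy d E l = 0 :=
      X.nd _ (by simp [lx', ly]) fun u v hu hv => by
        simp only [map_sub, map_smul, LinearMap.sub_apply, LinearMap.smul_apply, smul_eq_mul]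
        rw [hk u v hu hv, pr u hu v, hs.2 w h v, pr v hv h]
        have c1 : c ≠ 0 := right_ne_zero_of_mul c0
        field_simp
        ring
    refine ⟨l x, D.mu w h h / gam D.mu E l h ^ 2 / (2 * c), ?_⟩
    rw [← sub_eq_zero.1 z, ← hw]; simp

end Pool.Agent.P.MP_33ab4b_ag.B

end
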