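import Pool.Agent.P.MP_33ab4b_ag.B.IfaceA

section

/-! Step CA3. -/

set_option autoImplicit false

namespace Pool.Agent.P.MP_33ab4b_ag.B

open Pool.Agent.P.MP_33ab4b_ag.T hiding tri

namespace CA3x

variable {K : Type} [Field K] [LinearOrder K] [IsStrictOrderedRing K] {hf : HF K} {n : ℕ}
  {D : HD K n} {E y : Vec K n} {l : Frm K n}

/-- the special pair -/
theorem pair (X : Cx hf D E l) (C : CA D E l y) (gy : gam D.mu E l y = 0) :
    ∃ f chi e, ∃ s j : K, D.SSp f chi e ∧ f ∈ RA D E l ∧ j ≠ 0 ∧ f = j • y ∧ s ≠ 0 ∧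
      gam D.mu E l = s • chi := by
  obtain ⟨c0, c00, yq⟩ := C.yq
  obtain ⟨h, -, -, gh⟩ := X.toCw.g_ne
  have y0 : y ≠ 0 := by
    rintro rfl
    have := yq h h
    simp [c00, gh] at this
  obtain ⟨f, ⟨fP, fR⟩, fs, f0⟩ := ((SSub.ann X.ts C.sR).inf C.sR).exists_gen hf
    (x := y) ⟨C.ym, mem_RA.2 ⟨C.ly, gy⟩⟩ y0
  obtain ⟨i, j, e⟩ := C.sp f fP
  have i0 : i = 0 := by
    have := (mem_RA.1 fR).1
    simpa [e, X.lE, C.ly] using this
  rw [i0, zero_smul, zero_add] at e
  have j0 : j ≠ 0 := by rintro rfl; exact f0 (by simp [e])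
  have fq : ∀ x x', D.mu f x x' = j * c0 * gam D.mu E l x * gam D.mu E l x' := fun x x' => by
    rw [e, map_smul, LinearMap.smul_apply, LinearMap.smul_apply, yq, gy, smul_eq_mul]; ring
  obtain ⟨x0, -, xs, g0⟩ := SSub.top.exists_std hf (gam D.mu E l) (x := h) trivial gh
  refine ⟨f, D.mu f x0, (D.mu f x0 x0)⁻¹, (j * c0 * gam D.mu E l x0)⁻¹, j,
    ⟨⟨e ▸ D.N.smul_mem j C.yN, f0, fun x x' => ?_, ?_⟩, fs, X.ts.fs fs xs,
      (X.ts _ _ _ fs xs xs).inv⟩, fR, j0, e, by positivity, LinearMap.ext fun x => ?_⟩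
  · simp only [fq]; field_simp
  · rw [fq, (mem_RA.1 fR).2, mul_zero]
  · rw [LinearMap.smul_apply, fq, smul_eq_mul]; field_simp

/-- the decomposition of `E` -/
theorem split (X : Cx hf D E l) (C : CA D E l y) {f : Vec K n} {j : K} (fs : VS f) (f0 : f ≠ 0)
    (j0 : j ≠ 0) (e : f = j • y) : ∃ (w : Vec K n) (k : K), VS w ∧ E = w + k • f := by
  obtain ⟨w0, wP, ws, lw⟩ := (SSub.ann X.ts C.sR).exists_std hf l C.Em (by simp [X.lE])
  obtain ⟨i, j', e'⟩ := C.sp w0 wP
  have li : l w0 = i := by simp [e', X.lE, C.ly]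
  have lf : l f = 0 := by simp [e, C.ly]
  rw [li] at lw
  obtain ⟨m1, ms, m1f⟩ := fs.exists_form f0
  have s1 : VS (w0 - m1 w0 • f) := ws.sub (fs.smul (ms _ ws))
  have n1 : w0 - m1 w0 • f ≠ 0 := fun c => lw (by simpa [li, lf] using congrArg l c)
  obtain ⟨m2, ms2, m2w⟩ := s1.exists_form n1
  have eE : E = i⁻¹ • (w0 - m1 w0 • f) + (i⁻¹ * (m1 w0 - j' / j)) • f := by
    have : y = j⁻¹ • f := by rw [e, inv_smul_smul₀ j0]
    have h2 : E = i⁻¹ • (w0 - j' • y) := by
      rw [e', add_sub_cancel_right, inv_smul_smul₀ lw]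
    rw [h2, this]
    module
  have uA : i⁻¹ ∈ AR hf := by
    have := (ms2.sub (ms.smul (ms2 _ fs))).fa (hf := hf) E X.EA
    have h2 : (m2 - m2 f • m1) E = i⁻¹ := by
      conv_lhs => rw [eE]
      rw [map_add, map_smul, map_smul, LinearMap.sub_apply, LinearMap.sub_apply, m2w]
      simp [m1f]
    rwa [h2] at this
  have us : Std i⁻¹ := A_std_left uA (li ▸ X.lA _ ws.va)
    (by rw [inv_mul_cancel₀ lw]; exact Std.one) (by rw [inv_mul_cancel₀ lw]; exact one_ne_zero)
  exact ⟨_, _, s1.smul us, eE⟩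

end CA3x

theorem p_CA3 (hSCOMP : S_SCOMP) (hSPANA : S_SPANA) :
    S_CA3 := by
  intro K _ _ _ hf n D E l p0 X ps pE y C gy
  obtain ⟨f, chi, e, s, j, P, fR, j0, fy, s0, gs⟩ := CA3x.pair X C gy
  obtain ⟨w, k, ws, eE⟩ := CA3x.split X C P.sf P.ne j0 fy
  have sy := X.ho.sym
  have ga : ∀ x, gam D.mu E l x = s * chi x := fun x => by rw [gs]; rfl
  have e0 := (X.ho.sp_H P.toSp).1
  have lf : l f = 0 := (mem_RA.1 fR).1
  have cE : chi E = 0 := by simpa [ga, s0] using X.toCw.gE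
  have cR : ∀ r ∈ RA D E l, chi r = 0 := fun r hr => by simpa [ga, s0] using (mem_RA.1 hr).2
  have cw : chi w = 0 := by simpa [eE, P.z] using cE
  have ks : ¬ Std k := fun c => C.ns (eE ▸ ws.add (P.sf.smul c))
  have fP : f ∈ ann D.mu (RA D E l) := fy ▸ Submodule.smul_mem _ j C.ym
  have Ex : ∀ x x', D.mu E x x' = D.mu w x x' + k * (e * chi x * chi x') := fun x x' => by
    conv_lhs => rw [eE]
    simp [P.eq]
  have EE : ∀ x, D.mu E E x = D.mu w w x := fun x => by
    rw [Ex, cE, sy.1 w E, Ex, cw]; ring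
  have aw : D.mu E E E = D.mu w w w := by
    rw [EE, sym13 sy, Ex, cw]; ring
  have as : Std (D.mu E E E) := aw ▸ X.ts _ _ _ ws ws ws
  obtain ⟨z, zs, cz⟩ := X.ho.ssp_z P
  have mA : l z ∈ AR hf := X.lA _ zs.va
  have hs : s = D.mu E E E * l z - D.mu w w z := by
    rw [← EE, ← gam_apply, ga, cz, mul_one]
  have wz : Std (D.mu w w z) := X.ts _ _ _ ws ws zs
  have hk : k * e = - D.mu w z z + 2 * l z * D.mu w w z - D.mu E E E * l z * l z := by
    have a := X.toCw.q z z
    rw [Ex, cz, ga, cz, hs] at a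
    linear_combination a
  have ms : ¬ Std (l z) := fun c => ks (by
    have : Std (k * e) := hk ▸
      ((X.ts _ _ _ ws zs zs).neg.add ((std_two.mul c).mul wz)).sub ((as.mul c).mul c)
    exact (this.div P.se).of_eq (by field_simp))
  have sF : ¬ Fi s := fun c => A_not_fi mA ms
    (fi_of_std_mul as C.a0 ((c.add wz.fi).of_eq (by rw [hs]; ring)))
  have pf : p0 f = 0 := by
    by_contra c
    refine ks (((as.sub (ps _ ws)).div (ps _ P.sf)).of_eq ?_)
    rw [← pE, eq_div_iff c]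
    conv_rhs => rw [eE]
    simp
  obtain ⟨u, hu⟩ : ∃ u, u = z - l z • E := ⟨_, rfl⟩
  have uA : VA hf u := hu ▸ zs.va.sub (X.EA.smul mA)
  have cu : chi u = 1 := by simp [hu, cz, cE]
  obtain ⟨t, ht⟩ : ∃ t, t = D.mu u u u / (3 * e) := ⟨_, rfl⟩
  have tA : t ∈ AR hf := ht ▸ A_div (X.ho.muA _ _ _ uA uA uA) (std_three.mul P.se)
  obtain ⟨v, hv⟩ : ∃ v, v = u - t • f := ⟨_, rfl⟩
  have vA : VA hf v := hv ▸ uA.sub (P.sf.va.smul tA)
  have cv : chi v = 1 := by simp [hv, cu, P.z]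
  have lv : l v = 0 := by simp [hv, hu, lf, X.lE]
  have vx : ∀ x x', D.mu v x x' = D.mu u x x' - t * (e * chi x * chi x') := fun x x' => by
    conv_lhs => rw [hv]
    simp [P.eq]
  have vvv : D.mu v v v = 0 := by
    rw [vx, sy.1 u v, vx, sym13 sy u u v, vx, cu, cv, ht]
    field_simp
    ring
  have vr : ∀ r ∈ RA D E l, ∀ x, D.mu v r x = D.mu z r x := fun r hr x => by
    rw [vx, cR r hr, hu]
    simp [C.Em r hr]
  have vrr : ∀ r, VS r ∧ r ∈ RA D E l → ∀ r', VS r' ∧ r' ∈ RA D E l → Std (D.mu v r r') :=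
    fun r hr r' hr' => vr r hr.2 r' ▸ X.ts _ _ _ zs hr.1 hr'.1
  have vrv : ∀ r, VS r ∧ r ∈ RA D E l → Std (D.mu v r v) := fun r hr => by
    rw [vr r hr.2, sym13 sy, vr r hr.2]
    exact X.ts _ _ _ zs hr.1 zs
  refine ⟨insert v {r | VS r ∧ r ∈ RA D E l}, ⟨?_, fun x lx xA => ?_, ?_⟩, as, f, chi, e, s, P, lf,
    cE, pf, BV.of_mem (Or.inr ⟨P.sf, fR⟩), ?_, gs, sF, ?_⟩
  · rintro r (rfl | hr)
    · exact ⟨lv, vA⟩
    · exact ⟨(mem_RA.1 hr.2).1, hr.1.va⟩
  · have cA : chi x ∈ AR hf := P.sc.fa x xA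
    have a := (hSPANA K hf n).1 _ C.sR (x - chi x • v)
      (mem_RA.2 ⟨by simp [lx, lv], by simp [ga, cv]⟩) (xA.sub (vA.smul cA))
    have b := Submodule.add_mem _ (Submodule.span_mono (Set.subset_insert v _) a)
      (mem_spanA_smul cA (Submodule.subset_span (Set.mem_insert v _)))
    rwa [sub_add_cancel] at b
  · rintro x (rfl | hx) x' (rfl | hx') x'' (rfl | hx'')
    · exact vvv ▸ Std.zero
    · exact sy.2 _ _ _ ▸ vrv _ hx''
    · exact vrv _ hx'
    · exact vrr _ hx' _ hx''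
    · exact sy.1 _ _ _ ▸ vrv _ hx
    · exact sy.1 _ _ _ ▸ vrr _ hx _ hx''
    · exact sym13 sy _ _ _ ▸ vrr _ hx' _ hx
    · exact X.ts _ _ _ hx.1 hx'.1 hx''.1
  · rintro r (rfl | hr)
    · exact cv ▸ Std.one
    · exact P.sc _ hr.1
  · rintro r (rfl | hr)
    · refine ((ps _ zs).sub wz).of_eq ?_
      have a : p0 r = p0 z - l z * D.mu E E E := by simp [hv, hu, pf, pE]
      simp only [LinearMap.sub_apply, LinearMap.add_apply, LinearMap.smul_apply, smul_eq_mul, ga,
        cv, a]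
      linear_combination hs
    · refine (ps _ hr.1).of_eq ?_
      simp [ga, cR r hr.2]

end Pool.Agent.P.MP_33ab4b_ag.B

end

section

/-! Step BIN2. -/

set_option autoImplicit false

namespace Pool.Agent.P.MP_33ab4b_ag.B

open Pool.Agent.P.MP_33ab4b_ag.T hiding tri

namespace BIN2x

variable {K : Type} [Field K] [LinearOrder K] [IsStrictOrderedRing K] {n : ℕ}

theorem qa (hf : HF K) {Q : Vec K n →ₗ[K] Vec K n →ₗ[K] K}
    (h : ∀ x y, VS x → VS y → Std (Q x y)) {x y : Vec K n} (hx : VA hf x) (hy : VA hf y) :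
    Q x y ∈ AR hf := by
  have a : ∀ i, Q (Pi.single i 1) y ∈ AR hf := fun i =>
    FS.fa (l := Q (Pi.single i 1)) (fun z hz => h _ z (VS.single i) hz) y hy
  exact FA.of_basis (l := Q.flip y) a x hx

theorem qder {Q : Vec K n →ₗ[K] Vec K n →ₗ[K] K}
    (h : ∀ x y, VS x → VS y → Std (Q x y)) (d : Derivation ℚ K K) (x y : Vec K n) :
    d (Q x y) = Q (dv d x) y + Q x (dv d y) := by
  have e : ∀ x y : Vec K n, Q x y = ∑ i, x i * Q (Pi.single i 1) y := fun x y => by
    have := frm_eq (Q.flip y) x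
    simpa only [LinearMap.flip_apply] using this
  have s : ∀ i, FS (Q (Pi.single i 1)) := fun i z hz => h _ z (VS.single i) hz
  rw [e x y, e (dv d x) y, e x (dv d y), map_sum, ← Finset.sum_add_distrib]
  refine Finset.sum_congr rfl fun i _ => ?_
  simp only [Derivation.leibniz, smul_eq_mul, (s i).der d y, dv]
  ring

theorem frame (d : Derivation ℚ K K) {E Y : Vec K 2} (h : E 0 * Y 1 - E 1 * Y 0 = 1) :
    ∃ α σ k : K, dv d E = α • E + σ • Y ∧ dv d Y = k • E + (-α) • Y := by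
  have h1 := congrArg d h
  simp only [map_sub, Derivation.leibniz, smul_eq_mul, Derivation.map_one_eq_zero] at h1
  refine ⟨d (E 0) * Y 1 - d (E 1) * Y 0, E 0 * d (E 1) - E 1 * d (E 0),
    d (Y 0) * Y 1 - d (Y 1) * Y 0, ?_, ?_⟩
  · funext i
    fin_cases i
    · simp only [dv, Fin.zero_eta, Pi.add_apply, Pi.smul_apply, smul_eq_mul]
      linear_combination (-d (E 0)) * h
    · simp only [dv, Fin.mk_one, Pi.add_apply, Pi.smul_apply, smul_eq_mul]
      linear_combination (-d (E 1)) * h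
  · funext i
    fin_cases i
    · simp only [dv, Fin.zero_eta, Pi.add_apply, Pi.smul_apply, smul_eq_mul]
      linear_combination (-d (Y 0)) * h + Y 0 * h1
    · simp only [dv, Fin.mk_one, Pi.add_apply, Pi.smul_apply, smul_eq_mul]
      linear_combination (-d (Y 1)) * h + Y 1 * h1

theorem rules {mu : Tri K (Vec K 2)} {Q : Vec K 2 →ₗ[K] Vec K 2 →ₗ[K] K} {E Y : Vec K 2}
    (hs : Sym3 mu) (ht : TS mu) (qs : ∀ x y, Q x y = Q y x)
    (hq : ∀ x y, VS x → VS y → Std (Q x y)) (h : E 0 * Y 1 - E 1 * Y 0 = 1) (h0 : mu E Y Y = 0)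
    (d : Derivation ℚ K K) :
    ∃ α σ k : K, dv d E = α • E + σ • Y ∧ dv d Y = k • E + (-α) • Y ∧
      d (mu E E E) = 3 * α * mu E E E + 3 * σ * mu E E Y ∧
      d (mu E E Y) = α * mu E E Y + k * mu E E E ∧
      σ * mu Y Y Y + 2 * k * mu E E Y = 0 ∧
      d (mu Y Y Y) = -3 * α * mu Y Y Y ∧
      d (Q E E) = 2 * α * Q E E + 2 * σ * Q E Y ∧
      d (Q E Y) = σ * Q Y Y + k * Q E E ∧
      d (Q Y Y) = 2 * k * Q E Y - 2 * α * Q Y Y := by
  obtain ⟨α, σ, k, hE, hY⟩ := frame d h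
  have e1 : mu E Y E = mu E E Y := hs.2 _ _ _
  have e2 : mu Y E E = mu E E Y := sym13 hs _ _ _
  have e3 : mu Y E Y = 0 := by rw [hs.1]; exact h0
  have e4 : mu Y Y E = 0 := by rw [sym13 hs]; exact h0
  have e5 : Q Y E = Q E Y := qs _ _
  have c := ht.der d E Y Y
  rw [h0, map_zero] at c
  refine ⟨α, σ, k, hE, hY, ?_, ?_, ?_, ?_, ?_, ?_, ?_⟩
  · rw [ht.der, hE]
    simp only [map_add, map_smul, LinearMap.add_apply, LinearMap.smul_apply, smul_eq_mul, e1, e2]
    ring
  · rw [ht.der, hE, hY]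
    simp only [map_add, map_smul, LinearMap.add_apply, LinearMap.smul_apply, smul_eq_mul, e3, h0]
    ring
  · rw [hE, hY] at c
    simp only [map_add, map_smul, LinearMap.add_apply, LinearMap.smul_apply, smul_eq_mul, e1,
      h0] at c
    linear_combination -c
  · rw [ht.der, hY]
    simp only [map_add, map_smul, LinearMap.add_apply, LinearMap.smul_apply, smul_eq_mul, e3, e4,
      h0]
    ring
  · rw [qder hq, hE]
    simp only [map_add, map_smul, LinearMap.add_apply, LinearMap.smul_apply, smul_eq_mul, e5]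
    ring
  · rw [qder hq, hE, hY]
    simp only [map_add, map_smul, LinearMap.add_apply, LinearMap.smul_apply, smul_eq_mul]
    ring
  · rw [qder hq, hY]
    simp only [map_add, map_smul, LinearMap.add_apply, LinearMap.smul_apply, smul_eq_mul, e5]
    ring

end BIN2x

theorem p_BIN2 :
    S_BIN2 := by
  intro K _ _ _ hf mu Q E Y m hs ht qs hq hE hY hm h h0 ha hb hη hJ
  have R := BIN2x.rules hs ht qs hq h h0
  have aA : mu E E E ∈ AR hf := ht.ta _ _ _ hE hE hE
  have bA : mu E E Y ∈ AR hf := ht.ta _ _ _ hE hE hY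
  have δA : mu Y Y Y ∈ AR hf := ht.ta _ _ _ hY hY hY
  have εA : Q E E ∈ AR hf := BIN2x.qa hf hq hE hE
  have qA : Q Y Y ∈ AR hf := BIN2x.qa hf hq hY hY
  generalize mu E E E = a at *
  generalize mu E E Y = b at *
  generalize mu Y Y Y = δ at *
  generalize Q E E = ε at *
  generalize Q Y Y = q at *
  generalize Q E Y = η at *
  have sI : Std (b * b * q + a * δ * η - b * δ * ε) := hf.der _ fun d => by
    obtain ⟨α, σ, k, -, -, r1, r2, r3, r4, r5, r6, r7⟩ := R d
    simp only [map_add, map_sub, Derivation.leibniz, smul_eq_mul, r1, r2, r4, r5, r6, r7]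
    linear_combination (a * q + b * η) * r3
  have sb : Std b := by
    refine A_std_left bA ((AR hf).add_mem ((AR hf).mul_mem ((AR hf).sub_mem
      ((AR hf).mul_mem hm aA) εA) δA) ((AR hf).mul_mem qA bA)) (sI.of_eq ?_) (mul_ne_zero hb hJ)
    rw [hη]; ring
  by_cases hδ : δ = 0
  · refine Or.inr ⟨hδ, VS.of_dv hf fun d => ?_⟩
    obtain ⟨α, σ, k, -, r0, -, r2, r3, -⟩ := R d
    rw [sb.der d] at r2
    have k0 : k = 0 := by
      have : k * b = 0 := by rw [hδ] at r3; linear_combination r3 / 2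
      exact (mul_eq_zero.1 this).resolve_right hb
    have α0 : α = 0 := by
      have : α * b = 0 := by rw [k0] at r2; linear_combination -r2
      exact (mul_eq_zero.1 this).resolve_right hb
    rw [r0, k0, α0]; simp
  · have sδ : Std δ := by
      have DA : a * a * δ + (b * b * b + b * b * b + b * b * b + b * b * b) ∈ AR hf := by
        have t := (AR hf).mul_mem ((AR hf).mul_mem bA bA) bA
        exact (AR hf).add_mem ((AR hf).mul_mem ((AR hf).mul_mem aA aA) δA)
          ((AR hf).add_mem ((AR hf).add_mem ((AR hf).add_mem t t) t) t)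
      by_cases hD : a * a * δ + (b * b * b + b * b * b + b * b * b + b * b * b) = 0
      · have t := (sb.mul sb).mul sb
        refine A_std_right ((AR hf).mul_mem aA aA) δA
          ((((t.add t).add t).add t).neg.of_eq ?_) (mul_ne_zero (mul_ne_zero ha ha) hδ)
        linear_combination hD
      · refine A_std_left δA DA (hf.der _ fun d => ?_) (mul_ne_zero hδ hD)
        obtain ⟨α, σ, k, -, -, r1, r2, r3, r4, -⟩ := R d
        simp only [map_add, Derivation.leibniz, smul_eq_mul, r1, r2, r4]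
        linear_combination (6 * a * b * δ) * r3
    refine Or.inl (VS.of_dv hf fun d => ?_)
    obtain ⟨α, σ, k, r0, -, -, r2, r3, r4, -⟩ := R d
    rw [sb.der d] at r2
    rw [sδ.der d] at r4
    have α0 : α = 0 := by
      have : α * δ = 0 := by linear_combination r4 / 3
      exact (mul_eq_zero.1 this).resolve_right hδ
    have k0 : k = 0 := by
      have : k * a = 0 := by rw [α0] at r2; linear_combination -r2
      exact (mul_eq_zero.1 this).resolve_right ha
    have σ0 : σ = 0 := by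
      have : σ * δ = 0 := by rw [k0] at r3; linear_combination r3
      exact (mul_eq_zero.1 this).resolve_right hδ
    rw [r0, σ0, α0]; simp

end Pool.Agent.P.MP_33ab4b_ag.B

end

section

/-! Step LEMI. -/

set_option autoImplicit false

namespace Pool.Agent.P.MP_33ab4b_ag.B

open Pool.Agent.P.MP_33ab4b_ag.T hiding tri

namespace LEMIx

/-- The covariant derivative of a form. -/
def Df {K : Type} [Field K] [Algebra ℚ K] {M : Type} [AddCommGroup M] [Module K M]
    (d : Derivation ℚ K K) (N : M →+ M) (hN : ∀ (s : K) x, N (s • x) = s • N x + d s • x)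
    (lam : M →ₗ[K] K) : M →ₗ[K] K where
  toFun x := d (lam x) - lam (N x)
  map_add' x y := by simp only [map_add]; ring
  map_smul' s x := by
    simp only [hN, map_smul, map_add, smul_eq_mul, Derivation.leibniz, RingHom.id_apply]; ring

theorem Df_apply {K : Type} [Field K] [Algebra ℚ K] {M : Type} [AddCommGroup M] [Module K M]
    (d : Derivation ℚ K K) (N : M →+ M) (hN : ∀ (s : K) x, N (s • x) = s • N x + d s • x)
    (lam : M →ₗ[K] K) (x : M) : Df d N hN lam x = d (lam x) - lam (N x) := rfl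

end LEMIx

open LEMIx in
theorem p_LEMI :
    S_LEMI := by
  intro K _ _ _ M _ _ d N m ga nu al a y hs hN hL hy hg a0 ⟨x1, g1, n1⟩ ⟨x2, g2⟩ gy
  obtain ⟨ka, hka⟩ : ∃ ka : M →ₗ[K] K, ∀ x, d (nu x) = ka x + nu (N x) - 2 * al * nu x :=
    ⟨Df d N hN nu + (2 * al) • nu, fun x => by
      simp only [LinearMap.add_apply, LinearMap.smul_apply, Df_apply, smul_eq_mul]; ring⟩
  obtain ⟨kb, hkb⟩ : ∃ kb : M →ₗ[K] K, ∀ x, d (ka x) = kb x + ka (N x) - 2 * al * ka x :=
    ⟨Df d N hN ka + (2 * al) • ka, fun x => by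
      simp only [LinearMap.add_apply, LinearMap.smul_apply, Df_apply, smul_eq_mul]; ring⟩
  have d2 : d (2 : K) = 0 := by
    have : (2 : K) = 1 + 1 := by norm_num
    rw [this, map_add, d.map_one_eq_zero, add_zero]
  -- the formula for `w = N y`
  have hw : ∀ x x', m (N y) x x' = ga x * ka x' + ka x * ga x' - 2 * a * nu x * nu x' := by
    intro x x'
    have e := hL y x x'
    rw [hy, hy, hy] at e
    simp only [map_add, Derivation.leibniz, smul_eq_mul, hg, hka] at e
    linear_combination -e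
  -- the formula for `w2 = N (N y)`
  have hw2 : ∀ x x', m (N (N y)) x x' = ga x * kb x' + kb x * ga x'
      - 3 * a * (nu x * ka x' + ka x * nu x') + (8 * a * al - 2 * d a) * nu x * nu x' := by
    intro x x'
    have e := hL (N y) x x'
    rw [hw, hw, hw] at e
    simp only [map_add, map_sub, Derivation.leibniz, smul_eq_mul, hg, hka, hkb, d2] at e
    linear_combination -e
  have gw : ga (N y) = a * nu y := by
    have e := hg y
    rw [gy, map_zero] at e
    linear_combination -e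
  have ny : nu y = 0 := by
    have e1 := hy (N y) x1
    have e2 := hw y x1
    rw [hs.1, e2, gw, g1, gy] at e1
    have : (3 * a * nu x1) * nu y = 0 := by linear_combination -e1
    exact (mul_eq_zero.1 this).resolve_left (mul_ne_zero (mul_ne_zero (by norm_num) a0) n1)
  have gw0 : ga (N y) = 0 := by rw [gw, ny, mul_zero]
  have yy0 : ∀ x, m y y x = 0 := fun x => by rw [hy, gy, ny]; ring
  have yw0 : ∀ x, m y (N y) x = 0 := fun x => by
    have e := hL y y x
    rw [yy0, yy0, map_zero, hs.1 (N y) y x] at e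
    have : (2 : K) * m y (N y) x = 0 := by linear_combination -e
    exact (mul_eq_zero.1 this).resolve_left (by norm_num)
  have nw : nu (N y) = 0 := by
    have e := yw0 x2
    rw [hy, gw0, zero_mul, zero_add] at e
    exact (mul_eq_zero.1 e).resolve_right g2
  have gw2 : ga (N (N y)) = 0 := by
    have e := hg (N y)
    rw [gw0, nw, map_zero] at e
    linear_combination -e
  have nw2 : nu (N (N y)) = - ka (N y) := by
    have e := hka (N y)
    rw [nw, map_zero] at e
    linear_combination -e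
  have kw : ka (N y) = 0 := by
    have e1 := hw (N (N y)) x1
    have e2 := hw2 (N y) x1
    rw [hs.1, e2, gw2, nw2, g1, gw0, nw] at e1
    have : (5 * a * nu x1) * ka (N y) = 0 := by linear_combination -e1
    exact (mul_eq_zero.1 this).resolve_left (mul_ne_zero (mul_ne_zero (by norm_num) a0) n1)
  refine ⟨ka, yy0, yw0, fun x => by rw [hw, gw0, kw, nw]; ring, hw, ?_⟩
  intro t t' gt nt gt' nt'
  have gN : ∀ s, ga s = 0 → nu s = 0 → ga (N s) = 0 := fun s g n => by
    have e := hg s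
    rw [g, n, map_zero] at e
    linear_combination -e
  have nN : ∀ s, nu s = 0 → nu (N s) = - ka s := fun s n => by
    have e := hka s
    rw [n, map_zero] at e
    linear_combination -e
  have e := hL (N (N y)) t t'
  rw [hw2, hw2, hw2, gN t gt nt, gN t' gt' nt', nN t nt, nN t' nt', gt, nt, gt', nt'] at e
  simp only [zero_mul, mul_zero, add_zero, sub_zero, map_zero] at e
  linear_combination -e

end Pool.Agent.P.MP_33ab4b_ag.B

end

section

/-! Step STEP. -/

set_option autoImplicit false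

namespace Pool.Agent.P.MP_33ab4b_ag.B

open Pool.Agent.P.MP_33ab4b_ag.T hiding tri

theorem p_STEP (hA0 : S_A0) (hESTD : S_ESTD) (hY0 : S_Y0) (hCA1 : S_CA1) (hCA2 : S_CA2) (hCA3 : S_CA3) (hCBI : S_CBI) (hCBS : S_CBS) (hCBB1 : S_CBB1) (hCBB2 : S_CBB2) (hCBB3 : S_CBB3) (hCBA2 : S_CBA2) :
    S_STEP := by
  intro K _ _ _ h2 n D E l p0 X hp pE
  by_cases a0 : D.mu E E E = 0
  · obtain ⟨b, hb, o⟩ := hA0 K h2 n D E l p0 X hp pE a0
    exact ⟨b, hb, .inl o⟩
  by_cases y0 : ∀ d : Derivation ℚ K K, yy d E l = 0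
  · obtain ⟨sE, sl⟩ := hY0 K _ n D E l X y0
    obtain ⟨b, hb, o, -⟩ := hESTD K _ n D E l p0 X hp pE sE sl
    exact ⟨b, hb, .inl o⟩
  push Not at y0
  obtain ⟨d0, y0⟩ := y0
  by_cases c : ∀ d : Derivation ℚ K K, ∃ c : K, nu d E l = c • gam D.mu E l
  · have ca := hCA1 K _ n D E l X a0 c d0 y0
    by_cases g : gam D.mu E l (yy d0 E l) = 0
    · obtain ⟨b, hb, o⟩ := hCA3 K _ n D E l p0 X hp pE _ ca g
      exact ⟨b, hb, .inr (.inl o)⟩
    · exact (hCA2 K _ n D E l p0 X hp pE _ ca g).elim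
  push Not at c
  obtain ⟨d, c⟩ := c
  have ind : ∃ x, l x = 0 ∧ gam D.mu E l x = 0 ∧ nu d E l x ≠ 0 := by
    by_contra e
    push Not at e
    obtain ⟨s, hs⟩ := X.toCw.mul_gam (nu_E X.lE d) e
    exact c s hs
  by_cases g : gam D.mu E l (yy d E l) = 0
  · exact (hCBI K _ n D E l X a0 d ind g).elim
  have cb := hCBS K _ n D E l X a0 d ind g
  by_cases t : ∀ x ∈ ann D.mu (RB D E l (nu d E l)), x ∈ RB D E l (nu d E l) → x = 0
  · obtain ⟨b, hb, o⟩ := hCBA2 K h2 n D E l p0 X hp pE _ _ _ cb t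
    exact ⟨b, hb, .inr (.inr (.inr o))⟩
  · push Not at t
    obtain ⟨f, chi, e, cc⟩ := hCBB1 K _ n D E l X _ _ _ cb t
    obtain ⟨w, Y, z, j, k, cd⟩ := hCBB2 K _ n D E l X _ _ _ _ _ cc
    obtain ⟨b, hb, o⟩ := hCBB3 K _ n D E l p0 X hp pE _ _ _ _ _ _ _ _ cd
    exact ⟨b, hb, .inr (.inr (.inl o))⟩

end Pool.Agent.P.MP_33ab4b_ag.B

end

section

/-! Step YN. -/

set_option autoImplicit false

namespace Pool.Agent.P.MP_33ab4b_ag.B

open Pool.Agent.P.MP_33ab4b_ag.T hiding tri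

theorem p_YN (hFO : S_FO) (hSO : S_SO) :
    S_YN := by
  intro K _ _ _ hf n D E l X a0 d
  have h1 : ∀ t, D.T t → nu d E l t = 0 := by
    intro t ht
    have := X.ho.rank (nab d E l (yy d E l)) (nu d E l) (-2 * D.mu E E E) (fun s s' hs hs' => by
      obtain ⟨a, b⟩ := X.toCw.T_ker hs
      obtain ⟨a', b'⟩ := X.toCw.T_ker hs'
      rw [(hSO K hf n D E l X).2 d d s s' a a', b, b']; ring) t ht
    exact (mul_eq_zero.1 this).resolve_left (mul_ne_zero (by norm_num) a0)
  refine ⟨h1, X.ho.nt fun t ht => ?_⟩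
  obtain ⟨a, b⟩ := X.toCw.T_ker ht
  have p := (hFO K hf n D E l X d).1 (D.H - l D.H • E) t (l_proj X.lE _) a
  have q := X.exc (yy d E l) t (l_yy X.lE d) a
  rw [h1 t ht, b] at p
  rw [X.ho.sym.1] at q
  simp only [map_sub, map_smul, LinearMap.sub_apply, LinearMap.smul_apply, smul_eq_mul, q] at p
  rw [X.ho.sym.1]
  linear_combination p

end Pool.Agent.P.MP_33ab4b_ag.B

end
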