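import Pool.Agent.P.MP_33ab4b_ag.B.IfaceB

section

/-! Step LAT. -/

set_option autoImplicit false
set_option linter.unusedSectionVars false

namespace Pool.Agent.P.MP_33ab4b_ag.B

open Pool.Agent.P.MP_33ab4b_ag.T hiding tri

namespace LATx

variable {K : Type} [Field K] [LinearOrder K] [IsStrictOrderedRing K] {hf : HF K} {n : ℕ}

theorem den {ι : Type} (s : Finset ι) (f : ι → K) (h : ∀ i ∈ s, f i ∈ AR hf) :
    ∃ m : ℕ, 0 < m ∧ ∀ i ∈ s, (m : K) * f i ∈ hf.Z := by
  classical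
  induction s using Finset.induction_on with
  | empty => exact ⟨1, one_pos, by simp⟩
  | insert a s _ ih =>
    obtain ⟨m, hm, H⟩ := ih fun i hi => h i (Finset.mem_insert_of_mem hi)
    obtain ⟨k, hk, Hk⟩ := h a (Finset.mem_insert_self _ _)
    refine ⟨m * k, Nat.mul_pos hm hk, fun i hi => ?_⟩
    rcases Finset.mem_insert.1 hi with rfl | hi
    · have : ((m * k : ℕ) : K) * f i = m * (k * f i) := by push_cast; ring
      rw [this]; exact hf.Z.mul_mem (natCast_mem _ _) Hk
    · have : ((m * k : ℕ) : K) * f i = k * (m * f i) := by push_cast; ring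
      rw [this]; exact hf.Z.mul_mem (natCast_mem _ _) (H i hi)

theorem map_eq (f : Vec K n →ₗ[K] Vec K n) (x : Vec K n) :
    f x = ∑ i, x i • f (Pi.single i 1) := by
  conv_lhs => rw [pi_eq_sum_univ' x]
  simp [map_sum]

theorem map_mem (f : Vec K n →ₗ[K] Vec K n) (m : K)
    (h : ∀ i j, m * f (Pi.single i 1) j ∈ hf.Z) (x : Vec K n) (hx : ∀ i, x i ∈ hf.Z) (j : Fin n) :
    m * f x j ∈ hf.Z := by
  rw [map_eq, Finset.sum_apply, Finset.mul_sum]
  refine hf.Z.sum_mem fun i _ => ?_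
  have : m * (x i • f (Pi.single i 1)) j = x i * (m * f (Pi.single i 1) j) := by
    simp only [Pi.smul_apply, smul_eq_mul]; ring
  rw [this]; exact hf.Z.mul_mem (hx i) (h i j)

/-- the scaled cast of an integer vector -/
def sc (m : K) : (Fin n → ℤ) →ₗ[ℤ] Vec K n where
  toFun z := fun i => m⁻¹ * (z i : K)
  map_add' a b := by funext i; simp [mul_add]
  map_smul' c a := by funext i; simp; ring

theorem sc_apply (m : K) (z : Fin n → ℤ) (i : Fin n) : sc m z i = m⁻¹ * (z i : K) := rfl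

/-- the lattice -/
def lat (hf : HF K) (f : Vec K n →ₗ[K] Vec K n) (m : K) : Submodule ℤ (Fin n → ℤ) where
  carrier := {z | ∀ i, f (sc m z) i ∈ hf.Z}
  add_mem' := fun {a b} ha hb i => by
    rw [map_add, map_add]; exact hf.Z.add_mem (ha i) (hb i)
  zero_mem' := fun i => by rw [map_zero, map_zero]; exact hf.Z.zero_mem
  smul_mem' := fun c a ha i => by
    rw [map_zsmul, map_zsmul]
    simp only [Pi.smul_apply, zsmul_eq_mul]
    exact hf.Z.mul_mem (intCast_mem _ _) (ha i)

theorem sc_sq (m : ℕ) (hm : 0 < m) (z : Fin n → ℤ) :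
    sc (m : K) (((m : ℤ) * m) • z) = (m : K) • fun i => (z i : K) := by
  funext i
  have : (m : K) ≠ 0 := by positivity
  simp only [sc_apply, Pi.smul_apply, smul_eq_mul]
  push_cast
  field_simp

theorem sq_mem (f : Vec K n →ₗ[K] Vec K n) (m : ℕ) (hm : 0 < m)
    (h : ∀ i j, (m : K) * f (Pi.single i 1) j ∈ hf.Z) (z : Fin n → ℤ) :
    ((m : ℤ) * m) • z ∈ lat hf f (m : K) := fun j => by
  rw [sc_sq m hm, map_smul]
  exact map_mem f m h _ (fun i => intCast_mem _ _) j

theorem finrank_lat (f : Vec K n →ₗ[K] Vec K n) (m : ℕ) (hm : 0 < m)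
    (h : ∀ i j, (m : K) * f (Pi.single i 1) j ∈ hf.Z) :
    Module.finrank ℤ (lat hf f (m : K)) = n := by
  apply le_antisymm
  · simpa using Submodule.finrank_le (lat hf f (m : K))
  · let φ : (Fin n → ℤ) →ₗ[ℤ] lat hf f (m : K) :=
      LinearMap.codRestrict _ (((m : ℤ) * m) • LinearMap.id) fun z => sq_mem f m hm h z
    have hφ : Function.Injective φ := fun a b hab => by
      have := congrArg Subtype.val hab
      have h0 : ((m : ℤ) * m) ≠ 0 := by positivity
      exact smul_right_injective _ h0 this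
    simpa using LinearMap.finrank_le_finrank_of_injective hφ

end LATx

open LATx in
theorem p_LAT :
    S_LAT := by
  intro K _ _ _ hf n g
  classical
  obtain ⟨m, hm, H⟩ := den (hf := hf) (Finset.univ : Finset (Bool × Fin n × Fin n))
    (fun p => if p.1 then g.g (Pi.single p.2.1 1) p.2.2 else g.g.symm (Pi.single p.2.1 1) p.2.2)
    (fun p _ => by
      obtain ⟨b, i, j⟩ := p
      cases b
      · have : VA hf (g.g.symm (Pi.single i 1)) :=
          (g.va _).1 (by rw [LinearEquiv.apply_symm_apply]; exact VA.single i)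
        simpa using this j
      · simpa using (g.va _).2 (VA.single i) j)
  have hP : ∀ i j, (m : K) * (g.g : Vec K n →ₗ[K] Vec K n) (Pi.single i 1) j ∈ hf.Z :=
    fun i j => by simpa using H (true, i, j) (Finset.mem_univ _)
  have hQ : ∀ i j, (m : K) * (g.g.symm : Vec K n →ₗ[K] Vec K n) (Pi.single i 1) j ∈ hf.Z :=
    fun i j => by simpa using H (false, i, j) (Finset.mem_univ _)
  have hm0 : (0 : K) < m := by positivity
  let L := lat hf (g.g : Vec K n →ₗ[K] Vec K n) (m : K)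
  let b : Module.Basis (Fin n) ℤ L := Module.finBasisOfFinrankEq ℤ L (finrank_lat _ m hm hP)
  let col : Fin n → Vec K n := fun j => g.g (sc (m : K) (b j : Fin n → ℤ))
  let W : Submodule hf.Z (Vec K n) := Submodule.span hf.Z (Set.range col)
  have hA : ∀ z ∈ L, g.g (sc (m : K) z) ∈ W := fun z hz => by
    have e : z = ∑ j, b.repr ⟨z, hz⟩ j • (b j : Fin n → ℤ) := by
      have := congrArg L.subtype (b.sum_repr ⟨z, hz⟩)
      rw [map_sum] at this
      simp only [map_zsmul] at this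
      exact this.symm
    rw [e, map_sum, map_sum]
    refine W.sum_mem fun j _ => ?_
    rw [map_zsmul, map_zsmul]
    exact W.toAddSubgroup.zsmul_mem (Submodule.subset_span ⟨j, rfl⟩) _
  have hB : ∀ w : Vec K n, (∀ i, w i ∈ hf.Z) → g.g ((m : K) • w) ∈ W := fun w hw => by
    have e : g.g ((m : K) • w) =
        ∑ i, w i • g.g (sc (m : K) (((m : ℤ) * m) • (Pi.single i 1 : Fin n → ℤ))) := by
      have := map_eq (g.g : Vec K n →ₗ[K] Vec K n) w
      simp only [LinearEquiv.coe_coe] at this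
      rw [map_smul, this, Finset.smul_sum]
      refine Finset.sum_congr rfl fun i _ => ?_
      have e2 : (fun k => ((Pi.single i 1 : Fin n → ℤ) k : K)) = (Pi.single i 1 : Vec K n) := by
        funext k; by_cases h : k = i <;> simp [h]
      rw [sc_sq m hm, e2, map_smul, smul_comm]
    rw [e]
    exact W.sum_mem fun i _ => W.smul_mem (⟨w i, hw i⟩ : hf.Z) (hA _ (sq_mem _ m hm hP _))
  have hC : ∀ y : Vec K n, (∀ i, y i ∈ hf.Z) → y ∈ W := fun y hy => by
    have hx : ∀ i, (m : K) * g.g.symm y i ∈ hf.Z := map_mem _ _ hQ y hy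
    choose w hw hw1 hw2 using fun i => hf.flo (g.g.symm y i / m)
    have hz : ∀ i, ∃ z : ℤ, (m : K) * (g.g.symm y i - m * w i) = z := fun i => by
      refine hf.int_of_fi ?_ ((Std.nat m).fi.mul ?_)
      · rw [mul_sub]
        exact hf.Z.sub_mem (hx i)
          (hf.Z.mul_mem (natCast_mem _ _) (hf.Z.mul_mem (natCast_mem _ _) (hw i)))
      · have a1 := (le_div_iff₀ hm0).1 (hw1 i)
        have a2 := (div_lt_iff₀ hm0).1 (hw2 i)
        exact Fi.of_le_of_le Fi.zero (Std.nat m).fi (by linarith) (by linarith)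
    choose z hz using hz
    have e : sc (m : K) z = g.g.symm y - (m : K) • w := by
      funext i
      rw [sc_apply, ← hz i]
      simp only [Pi.sub_apply, Pi.smul_apply, smul_eq_mul]
      field_simp
    have e2 : g.g (sc (m : K) z) = y - g.g ((m : K) • w) := by
      rw [e, map_sub, LinearEquiv.apply_symm_apply]
    have hzL : z ∈ L := fun i => by
      simp only [LinearEquiv.coe_coe]
      rw [e2, map_smul]
      exact hf.Z.sub_mem (hy i) (map_mem _ _ hP w hw i)
    have e3 : y = g.g (sc (m : K) z) + g.g ((m : K) • w) := by rw [e2]; abel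
    rw [e3]
    exact W.add_mem (hA z hzL) (hB w hw)
  have hD : ∀ k : Fin n, ∃ c : Fin n → hf.Z, ∑ j, c j • col j = Pi.single k 1 := fun k =>
    (Submodule.mem_span_range_iff_exists_fun hf.Z).1 (hC _ fun i => by
      by_cases h : i = k <;> simp [h, hf.Z.one_mem, hf.Z.zero_mem])
  choose c hc using hD
  refine ⟨Matrix.of fun i j => col j i, Matrix.of fun j k => (c k j : K),
    fun i j => ⟨(b j).2 i, (c j i).2⟩, ?_, fun j i => ?_⟩
  · ext i k
    have := congrFun (hc k) i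
    rw [Finset.sum_apply] at this
    rw [Matrix.mul_apply, Matrix.one_apply]
    simp only [Pi.single_apply] at this
    rw [← this]
    refine Finset.sum_congr rfl fun j _ => ?_
    rw [mul_comm]; rfl
  · have : (fun i => (Matrix.of fun i j => col j i) i j) = g.g (sc (m : K) (b j : Fin n → ℤ)) := rfl
    rw [this, LinearEquiv.symm_apply_apply, sc_apply]
    exact (Std.nat m).inv.mul (Std.int _)

end Pool.Agent.P.MP_33ab4b_ag.B

end

section

/-! Step HMINK. -/

set_option autoImplicit false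

namespace Pool.Agent.P.MP_33ab4b_ag.B

open Pool.Agent.P.MP_33ab4b_ag.T hiding tri

namespace HMINKx

open MeasureTheory Matrix

/-- Minkowski's theorem on linear forms -/
theorem forms {r : ℕ} (hr : 0 < r) (B : Matrix (Fin r) (Fin r) ℝ) (hB : B.det ≠ 0) (t : ℝ)
    (ht : 0 < t) (h : |B.det| < t ^ r) :
    ∃ v : Fin r → ℤ, v ≠ 0 ∧ ∀ i, |B.mulVec (fun j => (v j : ℝ)) i| < t := by
  have : Nonempty (Fin r) := ⟨⟨0, hr⟩⟩
  have hd : LinearMap.det (Matrix.toLin' B) ≠ 0 := by rwa [LinearMap.det_toLin']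
  have hp : 0 < |B.det| := abs_pos.2 hB
  have : Countable (Submodule.span ℤ (Set.range (Pi.basisFun ℝ (Fin r)))).toAddSubgroup :=
    inferInstanceAs (Countable (Submodule.span ℤ (Set.range (Pi.basisFun ℝ (Fin r)))))
  obtain ⟨x, hx0, hx⟩ := exists_ne_zero_mem_lattice_of_measure_mul_two_pow_lt_measure
    (ZSpan.isAddFundamentalDomain' (Pi.basisFun ℝ (Fin r)) volume)
    (s := Matrix.toLin' B ⁻¹' Metric.ball 0 t) (fun x hx => by simpa [mulVec_neg] using hx)
    ((convex_ball 0 t).linear_preimage _) (by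
      rw [Measure.addHaar_preimage_linearMap _ hd, Real.volume_pi_ball _ ht,
        ZSpan.fundamentalDomain_pi_basisFun, volume_pi_pi, LinearMap.det_toLin',
        ← ENNReal.ofReal_mul (abs_nonneg _)]
      simp only [Real.volume_Ico, sub_zero, ENNReal.ofReal_one, Finset.prod_const_one, one_mul,
        Module.finrank_fintype_fun_eq_card, Fintype.card_fin]
      rw [← ENNReal.ofReal_ofNat, ← ENNReal.ofReal_pow (by norm_num),
        ENNReal.ofReal_lt_ofReal_iff (by positivity), abs_inv, mul_pow, inv_mul_eq_div,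
        lt_div_iff₀ hp]
      gcongr)
  obtain ⟨x, hxs⟩ := x
  choose v hv using ((Pi.basisFun ℝ (Fin r)).mem_span_iff_repr_mem ℤ x).1 hxs
  have e : (fun j => (v j : ℝ)) = x := funext fun j => by simpa using hv j
  refine ⟨v, fun h0 => hx0 (Subtype.ext ?_), fun i => ?_⟩
  · show x = 0
    rw [← e, h0]; funext j; simp
  · rw [e]
    have := (pi_norm_lt_iff ht).1 (mem_ball_zero_iff.1 hx) i
    simpa using this

theorem diag {r : ℕ} (A : Matrix (Fin r) (Fin r) ℝ) (hA : A.IsSymm) :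
    ∃ (U : Matrix (Fin r) (Fin r) ℝ) (l : Fin r → ℝ), A = Uᵀ * diagonal l * U := by
  have hH : A.IsHermitian := by
    rwa [IsHermitian, conjTranspose_eq_transpose_of_trivial]
  refine ⟨(hH.eigenvectorUnitary : Matrix _ _ ℝ)ᵀ, hH.eigenvalues, ?_⟩
  conv_lhs => rw [hH.spectral_theorem, Unitary.conjStarAlgAut_apply]
  simp [star_eq_conjTranspose]

end HMINKx

open HMINKx Matrix in
theorem p_HMINK :
    S_HMINK := by
  intro r D hr
  refine ⟨r * (D + 1) ^ 2, fun M hM h0 hD => ?_⟩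
  obtain ⟨U, l, hA⟩ := diag (M.map (Int.cast : ℤ → ℝ)) (hM.map _)
  have hdet : (M.det : ℝ) = U.det ^ 2 * ∏ i, l i := by
    rw [Int.cast_det, hA, det_mul, det_mul, det_transpose, det_diagonal]; ring
  have hB : (diagonal (fun i => √|l i|) * U).det ^ 2 = |(M.det : ℝ)| := by
    rw [hdet, det_mul, det_diagonal, mul_pow, ← Finset.prod_pow, abs_mul, Finset.abs_prod,
      abs_of_nonneg (sq_nonneg _), mul_comm]
    simp [Real.sq_sqrt (abs_nonneg _)]
  have hD' : |(M.det : ℝ)| ≤ D := by exact_mod_cast hD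
  have hD0 : (0 : ℝ) ≤ D := D.cast_nonneg
  obtain ⟨v, hv0, hv⟩ := forms hr (diagonal (fun i => √|l i|) * U) (fun h => by
      rw [h] at hB
      exact h0 (by exact_mod_cast abs_eq_zero.1 (hB.symm.trans (by norm_num))))
    (D + 1) (by positivity) (by
      refine lt_of_lt_of_le (abs_lt_of_sq_lt_sq ?_ (by positivity) (b := (D : ℝ) + 1))
        (le_self_pow₀ (by linarith) hr.ne')
      nlinarith)
  refine ⟨v, hv0, ?_⟩
  set y := U.mulVec fun j => (v j : ℝ) with hy
  have e : ((v ⬝ᵥ M.mulVec v : ℤ) : ℝ) = ∑ i, l i * y i ^ 2 := by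
    have : ((v ⬝ᵥ M.mulVec v : ℤ) : ℝ) = (fun j => (v j : ℝ)) ⬝ᵥ
        (M.map (Int.cast : ℤ → ℝ)).mulVec fun j => (v j : ℝ) := by
      simp [dotProduct, mulVec]
    rw [this, hA, ← mulVec_mulVec, ← mulVec_mulVec, dotProduct_mulVec, vecMul_transpose, ← hy]
    simp only [dotProduct, mulVec_diagonal]
    exact Finset.sum_congr rfl fun i _ => by ring
  have b : ∀ i, |l i * y i ^ 2| ≤ ((D : ℝ) + 1) ^ 2 := fun i => by
    have h := hv i
    rw [← mulVec_mulVec, mulVec_diagonal, ← hy] at h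
    have h2 := sq_lt_sq' (abs_lt.1 h).1 (abs_lt.1 h).2
    rw [mul_pow, Real.sq_sqrt (abs_nonneg _)] at h2
    rw [abs_mul, abs_of_nonneg (sq_nonneg (y i))]
    exact h2.le
  have : |((v ⬝ᵥ M.mulVec v : ℤ) : ℝ)| ≤ r * ((D : ℝ) + 1) ^ 2 := by
    rw [e]
    refine (Finset.abs_sum_le_sum_abs _ _).trans ((Finset.sum_le_sum fun i _ => b i).trans ?_)
    simp
  exact_mod_cast this

end Pool.Agent.P.MP_33ab4b_ag.B

end

section

/-! Step HP. -/

set_option autoImplicit false

namespace Pool.Agent.P.MP_33ab4b_ag.B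

open Pool.Agent.P.MP_33ab4b_ag.T hiding tri

namespace HPx

theorem symm_dot {r : ℕ} (M : Matrix (Fin r) (Fin r) ℤ) (hM : M.IsSymm) (x y : Fin r → ℤ) :
    x ⬝ᵥ M.mulVec y = y ⬝ᵥ M.mulVec x := by
  rw [Matrix.dotProduct_mulVec, ← Matrix.mulVec_transpose, hM.eq, dotProduct_comm]

end HPx

theorem p_HP (hHVAL : S_HVAL) :
    S_HP := by
  intro r hQ N hN
  obtain ⟨C1, h1⟩ := hHVAL (r + 1) N (Nat.succ_pos r) hN
  obtain ⟨C2, hC2, h2⟩ := hQ N C1 hN
  have hf : 0 < C1.factorial := Nat.factorial_pos C1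
  have hbig : C1 + C2 + 1 ≤ C1.factorial * C2 * (C1 + C2 + 1) :=
    Nat.le_mul_of_pos_left _ (Nat.mul_pos hf hC2)
  refine ⟨C1.factorial * C2 * (C1 + C2 + 1), by positivity, fun M hM => ?_⟩
  obtain ⟨v, hv0, hv1⟩ := h1 M hM
  obtain ⟨b, hb0, hb1, hb2⟩ := h2 M hM v hv0 hv1
  have hbigZ : (C1 : ℤ) + C2 + 1 ≤ ((C1.factorial * C2 * (C1 + C2 + 1) : ℕ) : ℤ) := by
    exact_mod_cast hbig
  have hC1 : (0 : ℤ) ≤ C1 := Int.natCast_nonneg _
  have hC2' : (0 : ℤ) ≤ C2 := Int.natCast_nonneg _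
  refine ⟨Fin.cons v b, ?_, ?_⟩
  · intro j k
    refine Fin.cases ?_ (fun j => ?_) j <;> refine Fin.cases ?_ (fun k => ?_) k
    · simp only [Fin.cons_zero]; linarith
    · simp only [Fin.cons_zero, Fin.cons_succ]
      rw [HPx.symm_dot M hM.1, hb0, abs_zero]; linarith
    · simp only [Fin.cons_zero, Fin.cons_succ]
      rw [hb0, abs_zero]; linarith
    · simp only [Fin.cons_succ]
      have := hb1 j k
      linarith
  · intro x
    set s := v ⬝ᵥ M.mulVec v with hs
    have hdvd : s ∣ (C1.factorial : ℤ) := by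
      rw [← Int.natAbs_dvd]
      exact Int.natCast_dvd_natCast.mpr (Nat.dvd_factorial (Int.natAbs_pos.mpr hv0) (by
        have : ((s.natAbs : ℕ) : ℤ) ≤ C1 := by rw [Int.natCast_natAbs]; exact hv1
        exact_mod_cast this))
    obtain ⟨u, hu⟩ := hdvd
    obtain ⟨t, ht⟩ := hb2 (s • x - (x ⬝ᵥ M.mulVec v) • v) (by
      rw [sub_dotProduct, smul_dotProduct, smul_dotProduct, ← hs, smul_eq_mul, smul_eq_mul]
      ring)
    refine ⟨Fin.cons (u * (C1 + C2 + 1) * C2 * (x ⬝ᵥ M.mulVec v))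
      (fun j => u * (C1 + C2 + 1) * t j), ?_⟩
    rw [Fin.sum_univ_succ]
    simp only [Fin.cons_zero, Fin.cons_succ]
    have e1 : ∑ j, (u * (C1 + C2 + 1) * t j) • b j = (u * (C1 + C2 + 1)) • ∑ j, t j • b j := by
      rw [Finset.smul_sum]
      exact Finset.sum_congr rfl fun j _ => by rw [smul_smul]
    rw [e1, ← ht]
    push_cast
    rw [hu]
    module

end Pool.Agent.P.MP_33ab4b_ag.B

end

section

/-! Step TC0. -/

set_option autoImplicit false

namespace Pool.Agent.P.MP_33ab4b_ag.B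

open Pool.Agent.P.MP_33ab4b_ag.T hiding tri

theorem p_TC0 (hSTEP : S_STEP) (hREFR : S_REFR) (hDN : S_DN) (hAF3 : S_AF3) :
    S_TC0 := by
  intro K _ _ _ h2 n D D' σ0 ih ht0 ho cv0 s0
  obtain ⟨b, fam, o⟩ := hSTEP K h2 (n + 1) D σ0.E σ0.l D.p
    { σ0.cw ho ht0.ho cv0 with ts := s0.1 } s0.2 cv0.2.2.2.1
  obtain ⟨D'', σ, ht, hE, hl, -, hcv, fr⟩ := hREFR K h2.toHF n D D' σ0 ht0 b fam
  rw [← hl] at fam
  rw [← hE, ← hl] at o
  have cv := hcv cv0
  have dn := hDN K h2.toHF n D D'' σ b fam fr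
  have cl := ih D'' ht
  rcases o with o | o | o | o
  · obtain ⟨a, bg, bp, -, -⟩ := o
    exact σ.fi_c3 ho cv a.fi (cl.1 (dn.1 (bp.add (bg.smul std_three))))
  · obtain ⟨a, f, chi, e, s, ssp, lf, -, pf, bvf, bfc, ge, ns, bp⟩ := o
    have lo : Low D σ.l (D.p + (3 : K) • gam D.mu σ.E σ.l) b f chi e (2 * s) :=
      ⟨ssp.mem, lf, ssp.ne, bvf, bfc, ssp.se, fun x y _ _ => ssp.eq x y, ssp.z, bp⟩
    refine σ.fi_c3 ho cv a.fi (cl.2.1 ((dn.2 f chi e _ lo).1 ?_
      (σ.chi_c_zero ht.ho cv ssp.sc ge ns a.fi)))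
    simp [ge, pf, ssp.z]
  · obtain ⟨na, f, chi, e, u, b0, q, t2, ssp, lf, -, gf, pf, bvf, bfc, uN, lu, uA, cu, gu, sb, nb,
      sq, nq, eq, nt, pos, bp⟩ := o
    have lo : Low D σ.l (D.p + (3 : K) • gam D.mu σ.E σ.l) b f chi e t2 :=
      ⟨ssp.mem, lf, ssp.ne, bvf, bfc, ssp.se, fun x y _ _ => ssp.eq x y, ssp.z, bp⟩
    obtain ⟨h1, h3⟩ := hAF3 K h2.toHF n D D'' σ ht ho cv na f chi e u b0 q ssp.toSp lf gf pf uN lu
      uA cu gu sb nb sq nq eq
    refine absurd ((dn.2 f chi e _ lo).2.1 (by simp [gf, pf]) h1 nt ?_) cl.2.2.1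
    have h4 : 0 < q * q := mul_self_pos.2 nq
    have h5 := mul_neg_of_pos_of_neg pos h3
    by_contra h6
    push Not at h6
    nlinarith [mul_nonneg h4.le h6]
  · obtain ⟨na, f, z, chi, e, t2, fN, zN, lf, lz, bvf, bvz, nf, bfc, se, eq, cf, cz, pos, pf, blk,
      nt, bp⟩ := o
    have lo : Low D σ.l (D.p + (3 : K) • gam D.mu σ.E σ.l) b f chi e t2 :=
      ⟨fN, lf, nf, bvf, bfc, se, eq, cf, bp⟩
    have hP : (D.p + (3 : K) • gam D.mu σ.E σ.l) f = - gam D.mu σ.E σ.l f := by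
      rw [LinearMap.add_apply, LinearMap.smul_apply, smul_eq_mul, pf]
    refine absurd ((dn.2 f chi e _ lo).2.2 z (by rw [hP]; linarith) nt zN lz bvz cz
      (fun x lx cx h => (blk x lx cx h).2) fun hc hfi => na ?_) cl.2.2.2
    have e0 : e ≠ 0 := left_ne_zero_of_mul pos.ne'
    have sg : Std (- gam D.mu σ.E σ.l f) := by
      have := bp.bv bvf
      rwa [LinearMap.sub_apply, hP, LinearMap.smul_apply, cf, smul_zero, sub_zero] at this
    have hz := eq z z lz lz
    rw [cz, mul_one, mul_one] at hz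
    have g0 := (blk (σ.i D''.c - (D.mu (σ.i D''.c) z z / e) • f) (by simp [σ.li, lf])
      (by simp [hc, cf]) (by
        simp only [map_sub, map_smul, LinearMap.sub_apply, LinearMap.smul_apply, smul_eq_mul, hz]
        field_simp
        ring)).1
    rw [map_sub, map_smul, smul_eq_mul, sub_eq_zero] at g0
    refine (cv.2.2.2.2.2.add ((hfi.mul se.inv.fi).mul sg.fi)).of_eq ?_
    rw [g0, div_eq_mul_inv]; ring

end Pool.Agent.P.MP_33ab4b_ag.B

end

section

/-! Step AF3. -/

set_option autoImplicit false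

namespace Pool.Agent.P.MP_33ab4b_ag.B

open Pool.Agent.P.MP_33ab4b_ag.T hiding tri

theorem p_AF3 (hUD : S_UD) :
    S_AF3 := by
  intro K _ _ _ hf n D D' σ ht h cv ia f chi e u b0 q s lf gf pf uN lu uA cu gu sb b00 sq q0 id
  have h' := ht.ho
  obtain ⟨f', rfl⟩ := σ.rng f lf
  obtain ⟨u', rfl⟩ := σ.rng u lu
  have s' := σ.sp_down s.mem s.ne (fun x y _ _ => s.eq x y) s.z
  have uu : ∀ x, D'.mu u' u' x = q * chi (σ.i x) := fun x => by
    have := id _ _ lu cu (σ.li x)
    rw [gu] at this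
    rw [σ.mu_eq]
    apply mul_left_cancel₀ b00
    linear_combination this
  refine ⟨fun c => ia ?_, ?_⟩
  · have := hUD K hf n D' ht f' _ e u' q (-q * gam D.mu σ.E σ.l (σ.i D'.c) / b0) s'
      (by rw [σ.p_eq, pf, gf]; simp) c (σ.iN.1 uN) ((σ.iA _).1 uA) cu
      (fun x y hx hy => by
        have := id _ _ (σ.li x) hx (σ.li y)
        replace hy : chi (σ.i y) = 0 := hy
        rw [hy, mul_zero] at this
        rw [σ.mu_eq]; exact (mul_eq_zero.1 this).resolve_left b00) uu sq.fi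
      (fun x => by
        have := id _ _ (σ.li D'.c) c (σ.li x)
        rw [σ.mu_eq, LinearMap.comp_apply]
        field_simp
        linear_combination this)
    have g : Fi (gam D.mu σ.E σ.l (σ.i D'.c)) :=
      fi_of_std_mul (sq.neg.div sb) (div_ne_zero (neg_ne_zero.2 q0) b00) (this.of_eq (by ring))
    exact (cv.2.2.2.2.2.sub g).of_eq (by ring)
  · rcases h'.sp_neg s' (σ.iN.1 uN) cu with c | ⟨t, c⟩
    · rwa [symrot h'.sym, uu] at c
    · have := uu D'.H
      rw [c] at this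
      simp only [map_smul, LinearMap.smul_apply, s'.eq, s'.z] at this
      have b := (h'.sp_H s').2
      exact absurd (by simpa [q0] using this.symm) b

end Pool.Agent.P.MP_33ab4b_ag.B

end
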