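import Pool.Agent.P.MP_33ab4b_ag.B.IfaceB

section

/-! Step INV. -/

set_option autoImplicit false
set_option linter.unusedSectionVars false

namespace Pool.Agent.P.MP_33ab4b_ag.B

open Pool.Agent.P.MP_33ab4b_ag.T hiding tri

namespace INVx

variable {K : Type} [Field K] [LinearOrder K] [IsStrictOrderedRing K] {hf : HF K} {n : ℕ}

theorem mu_c (D : HD K n) (g : Vec K n ≃ₗ[K] Vec K n) (x y z : Vec K n) :
    (D.comap g).mu x y z = D.mu (g x) (g y) (g z) := rfl

theorem p_c (D : HD K n) (g : Vec K n ≃ₗ[K] Vec K n) (x : Vec K n) :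
    (D.comap g).p x = D.p (g x) := rfl

theorem N_c (D : HD K n) (g : Vec K n ≃ₗ[K] Vec K n) (x : Vec K n) :
    x ∈ (D.comap g).N ↔ g x ∈ D.N := Iff.rfl

theorem c_c (D : HD K n) (g : Vec K n ≃ₗ[K] Vec K n) : g (D.comap g).c = D.c :=
  g.apply_symm_apply _

theorem H_c (D : HD K n) (g : Vec K n ≃ₗ[K] Vec K n) : g (D.comap g).H = D.H :=
  g.apply_symm_apply _

theorem c3_c (D : HD K n) (g : Vec K n ≃ₗ[K] Vec K n) : (D.comap g).c3 = D.c3 := by
  unfold HD.c3; rw [mu_c, c_c]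

theorem T_c (D : HD K n) (g : Vec K n ≃ₗ[K] Vec K n) (t : Vec K n) :
    (D.comap g).T t ↔ D.T (g t) := by
  constructor
  · intro h x hx y hy
    have := h (g.symm x) (by rw [N_c]; simpa using hx) (g.symm y) (by rw [N_c]; simpa using hy)
    simpa [mu_c] using this
  · intro h x hx y hy
    exact h (g x) hx (g y) hy

theorem va_symm (g : AIso hf n) (x : Vec K n) : VA hf (g.g.symm x) ↔ VA hf x := by
  rw [← g.va]; simp

theorem ho_c {D : HD K n} (h : D.Ho hf) (g : AIso hf n) : (D.comap g.g).Ho hf where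
  sym := ⟨fun x y z => h.sym.1 _ _ _, fun x y z => h.sym.2 _ _ _⟩
  muA := fun x y z hx hy hz => h.muA _ _ _ ((g.va x).2 hx) ((g.va y).2 hy) ((g.va z).2 hz)
  Hm := by rw [N_c, H_c]; exact h.Hm
  cm := by rw [N_c, c_c]; exact h.cm
  cA := (va_symm g _).2 h.cA
  split := fun x => by
    obtain ⟨y, hy, ht⟩ := h.split (g.g x)
    refine ⟨g.g.symm y, by rw [N_c]; simpa using hy, ?_⟩
    rw [T_c]; simpa using ht
  pT := fun t ht => h.pT _ ((T_c D g.g t).1 ht)
  index := fun x hx h0 e => by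
    rw [mu_c, H_c] at e ⊢
    exact h.index _ hx (by simpa using h0) e
  lef := fun x e => by
    have : g.g x = 0 := h.lef _ fun y => by
      have := e (g.g.symm y)
      rwa [mu_c, H_c, LinearEquiv.apply_symm_apply] at this
    simpa using this
  rank := fun w nu e hw t ht => by
    have := h.rank (g.g w) (nu ∘ₗ g.g.symm.toLinearMap) e (fun s s' hs hs' => by
      have := hw (g.g.symm s) (g.g.symm s') (by rw [T_c]; simpa using hs)
        (by rw [T_c]; simpa using hs')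
      simpa [mu_c] using this) (g.g t) ((T_c D g.g t).1 ht)
    simpa using this

theorem adm_c {D : HD K n} (h : D.Adm) (g : Vec K n ≃ₗ[K] Vec K n) : (D.comap g).Adm := by
  intro f chi e sp he
  have sp' : D.Sp (g f) (chi ∘ₗ g.symm.toLinearMap) e :=
    ⟨sp.mem, by simpa using sp.ne, fun x y => by
      have := sp.eq (g.symm x) (g.symm y)
      simpa [mu_c] using this, by simpa using sp.z⟩
  obtain ⟨h1, h2, h3⟩ := h _ _ _ sp' he
  refine ⟨by rw [c3_c]; exact h1, by rw [p_c, c_c]; exact h2, ?_⟩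
  rcases h3 with ⟨s, hs⟩ | h3
  · left
    refine ⟨s, g.injective ?_⟩
    rw [c_c, hs, map_smul]
  · right
    intro x hx h0
    obtain ⟨s, hs⟩ := h3 (g x) hx (by simpa using h0)
    exact ⟨s, g.injective (by rw [hs, map_smul])⟩

theorem kb_c {D : HD K n} (h : D.KB hf) (g : AIso hf n) : (D.comap g.g).KB hf := by
  refine ⟨fun g' h1 h2 => ?_, adm_c h.2 _⟩
  rw [c3_c]
  exact h.1 ⟨g'.g.trans g.g, fun x => (g.va _).trans (g'.va x)⟩ h1 h2

theorem gam_c (D : HD K n) (g : Vec K n ≃ₗ[K] Vec K n) (E : Vec K n) (l : Frm K n) (x : Vec K n) :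
    gam (D.comap g).mu (g.symm E) (l ∘ₗ g.toLinearMap) (g.symm x) = gam D.mu E l x := by
  simp [gam, mu_c]

/-- The step in the new coordinates. -/
def stepc {D : HD K (n + 1)} {D' : HD K n} (σ : HS hf D D') (g : AIso hf (n + 1)) :
    HS hf (D.comap g.g) D' where
  i := g.g.symm.toLinearMap ∘ₗ σ.i
  E := g.g.symm σ.E
  l := σ.l ∘ₗ g.g.toLinearMap
  k := σ.k
  m := σ.m
  δ := σ.δ
  iA := fun x => (va_symm g _).trans (σ.iA x)
  inj := g.g.symm.injective.comp σ.inj
  lE := by simpa using σ.lE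
  li := fun x => by simpa using σ.li x
  rng := fun x hx => by
    obtain ⟨x', e⟩ := σ.rng (g.g x) hx
    exact ⟨x', by simp [← e]⟩
  exc := fun x y hx hy => by
    rw [mu_c, LinearEquiv.apply_symm_apply]; exact σ.exc _ _ hx hy
  mu_eq := fun x y z => by simpa [mu_c] using σ.mu_eq x y z
  p_eq := fun x => by
    have := gam_c D g.g σ.E σ.l (σ.i x)
    have e := σ.p_eq x
    rw [← this] at e
    simpa [p_c] using e
  N_eq := fun x => by
    rw [N_c, σ.N_eq]
    constructor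
    · rintro ⟨x', hx, t, e⟩
      exact ⟨x', hx, t, g.g.injective (by simpa using e)⟩
    · rintro ⟨x', hx, t, e⟩
      exact ⟨x', hx, t, by simp [e]⟩
  k_pos := σ.k_pos
  H_eq := g.g.injective (by rw [H_c]; simpa using σ.H_eq)
  c_eq := g.g.injective (by rw [c_c]; simpa using σ.c_eq)

theorem pt_c {D : HD K (n + 1)} {D' : HD K n} (σ : HS hf D D') (g : AIso hf (n + 1)) (h : σ.Pt) :
    (stepc σ g).Pt := by
  refine ⟨fun x hx => ?_, by rw [c3_c]; exact h.2⟩
  change (D.comap g.g).mu (g.g.symm σ.E) (g.g.symm σ.E) x = 0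
  rw [mu_c, LinearEquiv.apply_symm_apply]
  exact h.1 _ hx

theorem cv_c {D : HD K (n + 1)} {D' : HD K n} (σ : HS hf D D') (g : AIso hf (n + 1)) (h : σ.Cv) :
    (stepc σ g).Cv := by
  obtain ⟨h1, h2, h3, h4, h5, h6⟩ := h
  have e3 : (D.comap g.g).mu (g.g.symm σ.E) (g.g.symm σ.E) (g.g.symm σ.E) = D.mu σ.E σ.E σ.E := by
    rw [mu_c, LinearEquiv.apply_symm_apply]
  refine ⟨h1, (va_symm g _).2 h2, fun x hx => h3 _ ((g.va x).2 hx), ?_, ?_, ?_⟩
  · change (D.comap g.g).p (g.g.symm σ.E) =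
      (D.comap g.g).mu (g.g.symm σ.E) (g.g.symm σ.E) (g.g.symm σ.E)
    rw [e3, p_c, LinearEquiv.apply_symm_apply]; exact h4
  · change 0 < gam (D.comap g.g).mu (g.g.symm σ.E) (σ.l ∘ₗ g.g.toLinearMap) (g.g.symm (σ.i D'.H))
    rw [gam_c]; exact h5
  · change Fi ((D.comap g.g).mu (g.g.symm σ.E) (g.g.symm σ.E) (g.g.symm σ.E) +
      gam (D.comap g.g).mu (g.g.symm σ.E) (σ.l ∘ₗ g.g.toLinearMap) (g.g.symm (σ.i D'.c)))
    rw [gam_c, e3]; exact h6

end INVx

theorem p_INV :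
    S_INV := by
  intro K _ _ _ hf n D h g
  cases h with
  | base kb ho => exact HT.base (INVx.kb_c kb g) (INVx.ho_c ho g)
  | step σ ht ho k =>
    exact HT.step (INVx.stepc σ g) ht (INVx.ho_c ho g) (k.imp (INVx.pt_c σ g) (INVx.cv_c σ g))

end Pool.Agent.P.MP_33ab4b_ag.B

end

section

/-! Step FRAME. -/

set_option autoImplicit false

namespace Pool.Agent.P.MP_33ab4b_ag.B

open Pool.Agent.P.MP_33ab4b_ag.T hiding tri

namespace FRAMEx

variable {K : Type} [Field K] [LinearOrder K] [IsStrictOrderedRing K] {hf : HF K} {n : ℕ}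

theorem frame (mu : Tri K (Vec K n)) (b : Set (Vec K n))
    (nd : ∀ x, (∀ y z, mu x y z = 0) → x = 0) (mem : ∀ v ∈ b, VA hf v)
    (sp : ∀ x, VA hf x → x ∈ Submodule.span (AR hf) b)
    (std : ∀ x ∈ b, ∀ y ∈ b, ∀ z ∈ b, Std (mu x y z)) :
    ∃ g : AIso hf n, (∀ j, g.g (Pi.single j 1) ∈ b) ∧ ∀ v ∈ b, VS (g.g.symm v) := by
  have top : ⊤ ≤ Submodule.span K b := by
    rw [← (Pi.basisFun K (Fin n)).span_eq, Submodule.span_le]
    rintro _ ⟨j, rfl⟩
    rw [Pi.basisFun_apply]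
    exact Submodule.span_subset_span (AR hf) K b (sp _ (VA.single j))
  set β := (Module.Basis.ofSpan top).reindex
    ((Module.Basis.ofSpan top).indexEquiv (Pi.basisFun K (Fin n))) with hβ
  have βb : ∀ j, β j ∈ b := fun j => by
    rw [hβ, Module.Basis.reindex_apply]
    exact Module.Basis.ofSpan_subset top ⟨_, rfl⟩
  set g := β.equivFun.symm with hg
  have ge : ∀ j, g (Pi.single j 1) = β j := fun j => by
    simp [hg, Module.Basis.equivFun_symm_apply, Pi.single_apply]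
  have ts : TS (tpull mu g.toLinearMap) := TS.of_basis fun i j k => by
    simp only [tpull_apply, LinearEquiv.coe_coe, ge]
    exact std _ (βb i) _ (βb j) _ (βb k)
  have vs : ∀ v ∈ b, VS (g.symm v) := fun v hv => VS.of_dv hf fun d => by
    have z : tpull mu g.toLinearMap (dv d (g.symm v)) = 0 := by
      refine (Pi.basisFun K (Fin n)).ext fun j => (Pi.basisFun K (Fin n)).ext fun k => ?_
      have e := ts.der d (g.symm v) (Pi.single j 1) (Pi.single k 1)
      rw [(VS.single j).dv, (VS.single k).dv] at e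
      simp only [map_zero, LinearMap.zero_apply, add_zero] at e
      simp only [Pi.basisFun_apply, LinearMap.zero_apply]
      rw [← e]
      simp only [tpull_apply, LinearEquiv.coe_coe, ge, LinearEquiv.apply_symm_apply]
      exact (std _ hv _ (βb j) _ (βb k)).der d
    refine g.injective ?_
    rw [map_zero]
    refine nd _ fun y w => ?_
    have := LinearMap.congr_fun (LinearMap.congr_fun z (g.symm y)) (g.symm w)
    simpa using this
  refine ⟨⟨g, fun x => ⟨fun h => ?_, fun h => ?_⟩⟩, fun j => by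
    change g (Pi.single j 1) ∈ b
    rw [ge]; exact βb j, vs⟩
  · have key : ∀ y ∈ Submodule.span (AR hf) b, VA hf (g.symm y) := fun y hy => by
      induction hy using Submodule.span_induction with
      | mem v hv => exact (vs v hv).va
      | zero => rw [map_zero]; exact VA.zero
      | add _ _ _ _ a c => rw [map_add]; exact a.add c
      | smul s y _ a => exact (a.smul s.2).of_eq (map_smul g.symm (s : K) y)
    simpa using key _ (sp _ h)
  · rw [hg, Module.Basis.equivFun_symm_apply]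
    exact VA.sum _ fun j _ => (mem _ (βb j)).smul (h j)

end FRAMEx

theorem p_FRAME :
    S_FRAME := by
  intro K _ _ _ hf n D D' σ ho b hb
  have sp : ∀ x, VA hf x → x ∈ Submodule.span (AR hf) (σ.i ⁻¹' b) := by
    have key : ∀ y ∈ Submodule.span (AR hf) b,
        ∃ y' ∈ Submodule.span (AR hf) (σ.i ⁻¹' b), y = σ.i y' := fun y hy => by
      induction hy using Submodule.span_induction with
      | mem v hv =>
        obtain ⟨v', rfl⟩ := σ.rng v (hb.mem v hv).1
        exact ⟨v', Submodule.subset_span hv, rfl⟩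
      | zero => exact ⟨0, Submodule.zero_mem _, (map_zero _).symm⟩
      | add _ _ _ _ a c =>
        obtain ⟨u, hu, rfl⟩ := a
        obtain ⟨w, hw, rfl⟩ := c
        exact ⟨u + w, Submodule.add_mem _ hu hw, (map_add _ _ _).symm⟩
      | smul s y _ a =>
        obtain ⟨u, hu, rfl⟩ := a
        exact ⟨s • u, Submodule.smul_mem _ s hu, (map_smul σ.i (s : K) u).symm⟩
    intro x hx
    obtain ⟨y, hy, e⟩ := key _ (hb.span _ (σ.li x) ((σ.iA x).2 hx))
    rwa [σ.inj e]
  obtain ⟨g, g1, g2⟩ := FRAMEx.frame (hf := hf) D'.mu (σ.i ⁻¹' b) (fun x h => ho.nd h)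
    (fun v hv => (σ.iA v).1 (hb.mem _ hv).2) sp
    (fun x hx y hy z hz => by rw [σ.mu_eq]; exact hb.std _ hx _ hy _ hz)
  refine ⟨g, g1, fun v hv => ?_⟩
  induction hv using Submodule.span_induction with
  | mem v hv =>
    obtain ⟨v', rfl⟩ := σ.rng v (hb.mem v hv).1
    exact ⟨_, g2 v' hv, by rw [LinearEquiv.apply_symm_apply]⟩
  | zero => exact ⟨0, VS.zero, by simp⟩
  | add _ _ _ _ a c =>
    obtain ⟨u, hu, rfl⟩ := a
    obtain ⟨w, hw, rfl⟩ := c
    exact ⟨u + w, hu.add hw, by simp⟩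
  | smul q y _ a =>
    obtain ⟨u, hu, rfl⟩ := a
    refine ⟨(q : K) • u, hu.smul (Std.rat q), ?_⟩
    rw [map_smul, map_smul]
    funext i; simp [Rat.smul_def]

end Pool.Agent.P.MP_33ab4b_ag.B

end

section

/-! Step TCC. -/

set_option autoImplicit false

namespace Pool.Agent.P.MP_33ab4b_ag.B

open Pool.Agent.P.MP_33ab4b_ag.T hiding tri

namespace TCCx

/-- Two terms of the same sign do not cancel. -/
theorem abs_le_add {K : Type} [Field K] [LinearOrder K] [IsStrictOrderedRing K] {x y h : K}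
    (hx : x * h < 0) (hy : y * h < 0) : |x| ≤ |x + y| := by
  rcases lt_trichotomy h 0 with c | c | c
  · have a : 0 < x := by by_contra t; push Not at t; nlinarith
    have b : 0 < y := by by_contra t; push Not at t; nlinarith
    rw [abs_of_pos a, abs_of_pos (add_pos a b)]; linarith
  · simp [c] at hx
  · have a : x < 0 := by by_contra t; push Not at t; nlinarith
    have b : y < 0 := by by_contra t; push Not at t; nlinarith
    rw [abs_of_neg a, abs_of_neg (add_neg a b)]; linarith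

end TCCx

theorem p_TCC (hSTEP : S_STEP) (hREFR : S_REFR) (hDN : S_DN) (hAF3 : S_AF3) (hDEATH : S_DEATH) :
    S_TCC := by
  intro K _ _ _ h2 n D D' σ0 ih hT0 ho cv0
  rintro ⟨ts, f, chi, e, t, s, hp0, pf, cc, ti, neg⟩
  have X : Cx h2.toHF D σ0.E σ0.l := ⟨σ0.cw ho hT0.ho cv0, ts⟩
  have pE : D.p σ0.E = D.mu σ0.E σ0.E σ0.E := cv0.2.2.2.1
  by_cases lf : σ0.l f = 0
  swap
  · obtain ⟨sE, -, cE⟩ := hDEATH K h2.toHF _ D σ0.E σ0.l X f chi e s lf
    refine ti ((((ts _ _ _ sE sE sE).sub (hp0 _ sE)).div (s.sc _ sE)).fi.of_eq ?_)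
    rw [LinearMap.sub_apply, LinearMap.smul_apply, pE, smul_eq_mul]
    field_simp
    ring
  obtain ⟨cE, gf⟩ := X.toCw.vert s.toSp lf
  have p0E : (D.p - t • chi) σ0.E = D.mu σ0.E σ0.E σ0.E := by simp [pE, cE]
  obtain ⟨b, fam, o⟩ := hSTEP K h2 _ D σ0.E σ0.l _ X hp0 p0E
  obtain ⟨D'', σ, hT, hE, hl, -, hcv, fr⟩ := hREFR K h2.toHF n D D' σ0 hT0 b fam
  rw [← hl] at fam lf
  rw [← hE] at cE
  rw [← hE, ← hl] at o gf
  have cv := hcv cv0
  have dn := (hDN K h2.toHF n D D'' σ b fam fr).2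
  have cl := (ih D'' hT).2.2.1
  have cc' : chi (σ.i D''.c) ≠ 0 := by rwa [σ.chi_c cE]
  have neg' : t * chi (σ.i D''.H) < 0 := by
    rw [σ.chi_H cE] at neg
    by_contra c
    push Not at c
    nlinarith [mul_nonneg σ.k_pos.le c]
  rcases o with o | o | o | o
  · obtain ⟨-, bg, bp, bl, bv⟩ := o
    have low : Low D σ.l (D.p + (3 : K) • gam D.mu σ.E σ.l) b f chi e t :=
      ⟨s.mem, lf, s.ne, bv f s.sf lf, bl chi s.sc cE, s.se, fun x y _ _ => s.eq x y, s.z,
        (bp.add (bg.smul std_three)).congr fun v _ => by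
          simp only [LinearMap.add_apply, LinearMap.sub_apply]; ring⟩
    exact cl ((dn f chi e t low).2.1 (by simp [gf, pf]) cc' ti neg')
  · obtain ⟨a, f2, chi2, e2, s', s2, -, -, -, -, -, ge, ns, -⟩ := o
    obtain ⟨-, k, -, k0, -, hk⟩ := ho.uniq s.toSp s2.toSp
    have := σ.chi_c_zero hT.ho cv s2.sc ge ns a.fi
    rw [hk, LinearMap.smul_apply, smul_eq_mul] at this
    exact mul_ne_zero k0 cc' this
  · obtain ⟨na, f2, chi2, e2, u, b0, q, t2, s2, l2, -, g2, -, bvf, bfc, uN, lu, uA, cu, gu, sb, nb,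
      sq, nq, eq, nt, pos, bp⟩ := o
    obtain ⟨a, k, -, k0, ha, hk⟩ := ho.uniq s.toSp s2.toSp
    have pf2 : D.p f2 = 0 := by simp [ha, pf]
    obtain ⟨h1, h3⟩ := hAF3 K h2.toHF n D D'' σ hT ho cv na f2 chi2 e2 u b0 q s2.toSp l2 g2 pf2 uN
      lu uA cu gu sb nb sq nq eq
    have low : Low D σ.l (D.p + (3 : K) • gam D.mu σ.E σ.l) b f2 chi2 e2 (t2 + t / k) :=
      ⟨s2.mem, l2, s2.ne, bvf, bfc, s2.se, fun x y _ _ => s2.eq x y, s2.z,
        bp.congr fun v _ => by
          simp only [LinearMap.add_apply, LinearMap.sub_apply, LinearMap.smul_apply, smul_eq_mul,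
            hk]
          field_simp
          ring⟩
    have n1 : t2 * chi2 (σ.i D''.H) < 0 := by
      have h4 : 0 < q * q := mul_self_pos.2 nq
      have h5 := mul_neg_of_pos_of_neg pos h3
      by_contra h6
      push Not at h6
      nlinarith [mul_nonneg h4.le h6]
    have n2 : t / k * chi2 (σ.i D''.H) < 0 := by
      rw [hk, LinearMap.smul_apply, smul_eq_mul, ← mul_assoc, div_mul_cancel₀ _ k0]
      exact neg'
    exact cl ((dn f2 chi2 e2 _ low).2.1 (by simp [g2, pf2]) h1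
      (fun c => nt (c.of_abs_le (TCCx.abs_le_add n1 n2))) (by rw [add_mul]; exact add_neg n1 n2))
  · obtain ⟨-, f2, -, chi2, e2, -, m2, -, l2, -, -, -, n2, -, -, q2, z2, -, g2, -⟩ := o
    obtain ⟨a, ha⟩ := σ.low_uniq hT.ho s.mem lf s.ne (fun x y _ _ => s.eq x y) s.z m2 l2 n2 q2 z2
    rw [ha, map_smul, gf] at g2
    simp at g2

end Pool.Agent.P.MP_33ab4b_ag.B

end

section

/-! Step DN. -/

set_option autoImplicit false
set_option linter.unusedSectionVars false

namespace Pool.Agent.P.MP_33ab4b_ag.B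

open Pool.Agent.P.MP_33ab4b_ag.T hiding tri

namespace DNx

variable {K : Type} [Field K] [LinearOrder K] [IsStrictOrderedRing K] {hf : HF K} {n : ℕ}
  {D : HD K (n + 1)} {D' : HD K n} (σ : HS hf D D') {b : Set (Vec K (n + 1))}

theorem pdown (x : Vec K n) :
    D'.p x = (D.p + (3 : K) • gam D.mu σ.E σ.l) (σ.i x) := by
  rw [σ.p_eq]; rfl

theorem ts (hb : Fam hf D.mu σ.l b) (fr : σ.Fr b) : TS D'.mu :=
  TS.of_basis fun i j k => by
    rw [σ.mu_eq]; exact hb.std _ (fr.1 i) _ (fr.1 j) _ (fr.1 k)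

theorem fs (fr : σ.Fr b) {m : Frm K (n + 1)} {m' : Frm K n} (h : BF b m)
    (e : ∀ x, m' x = m (σ.i x)) : FS m' :=
  FS.of_basis fun i => by rw [e]; exact h _ (fr.1 i)

theorem ssp (fr : σ.Fr b) {f : Vec K (n + 1)} {chi : Frm K (n + 1)} {e t : K}
    (L : Low D σ.l (D.p + (3 : K) • gam D.mu σ.E σ.l) b f chi e t) :
    ∃ f', f = σ.i f' ∧ D'.SSp f' (chi ∘ₗ σ.i) e ∧ FS (D'.p - t • (chi ∘ₗ σ.i)) := by
  obtain ⟨f', hv, rfl⟩ := fr.2 f L.bv
  refine ⟨f', rfl, ⟨σ.sp_down L.mem L.ne L.eq L.z, hv, fs σ fr L.bf fun _ => rfl, L.se⟩, ?_⟩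
  refine fs σ fr L.bp fun x => ?_
  rw [LinearMap.sub_apply, LinearMap.sub_apply, pdown σ]; rfl

end DNx

theorem p_DN :
    S_DN := by
  intro K _ _ _ hf n D D' σ b hb fr
  have hts := DNx.ts σ hb fr
  refine ⟨fun h => ⟨hts, DNx.fs σ fr h (DNx.pdown σ)⟩, fun f chi e t L => ?_⟩
  obtain ⟨f', rfl, hs, hp⟩ := DNx.ssp σ fr L
  refine ⟨fun h0 hc => ⟨hts, f', _, e, t, hs, hp, by rw [DNx.pdown σ]; exact h0, hc⟩,
    fun h0 hc ht hH => ⟨hts, f', _, e, t, hs, hp, by rw [DNx.pdown σ]; exact h0, hc, ht, hH⟩, ?_⟩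
  intro z he ht zN _ zb cz hz hc
  obtain ⟨z', hv, rfl⟩ := fr.2 z zb
  refine ⟨hts, f', _, e, t, z', hs, hp, by rw [DNx.pdown σ]; exact he, ht, σ.iN.1 zN, hv, cz,
    fun x hx hm y => ?_, fun h => ?_⟩
  · rw [σ.mu_eq] at hm ⊢
    exact hz _ (σ.li _) hx hm _ (σ.li _)
  · rw [σ.mu_eq]; exact hc h

end Pool.Agent.P.MP_33ab4b_ag.B

end

section

/-! Step KM. -/

set_option autoImplicit false

namespace Pool.Agent.P.MP_33ab4b_ag.B

open Pool.Agent.P.MP_33ab4b_ag.T hiding tri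

theorem p_KM (hTB : S_TB) (hTP : S_TP) (hTC0 : S_TC0) (hTCA : S_TCA) (hTCC : S_TCC) (hTCP : S_TCP) :
    S_KM := by
  intro K _ _ _ h2 n
  induction n with
  | zero =>
    intro D hD
    cases hD with
    | base hb ho => exact hTB K h2.toHF 0 D hb ho
  | succ n ih =>
    intro D hD
    cases hD with
    | base hb ho => exact hTB K h2.toHF (n + 1) D hb ho
    | step σ hD' ho hc =>
      rcases hc with hc | hc
      · exact hTP K h2.toHF n D _ σ ih hD' ho hc
      · exact ⟨hTC0 K h2 n D _ σ ih hD' ho hc, hTCA K h2 n D _ σ ih hD' ho hc,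
          hTCC K h2 n D _ σ ih hD' ho hc, hTCP K h2 n D _ σ ih hD' ho hc⟩

end Pool.Agent.P.MP_33ab4b_ag.B

end
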