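import Pool.Agent.P.MP_33ab4b_ag.B.IfaceB

section

/-! Step TCP. -/

set_option autoImplicit false

namespace Pool.Agent.P.MP_33ab4b_ag.B

open Pool.Agent.P.MP_33ab4b_ag.T hiding tri

namespace TCPx

variable {K : Type} [Field K] [LinearOrder K] [IsStrictOrderedRing K] {hf : HF K} {n : ℕ}
  {D : HD K (n + 1)} {D' : HD K n}

/-- Descent of the state in the case O1. -/
theorem desc (hREFR : S_REFR) (hDN : S_DN) (σ : HS hf D D') (ih : IH hf n) (hT : HT hf n D')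
    (cv : σ.Cv) {f z : Vec K (n + 1)} {chi : Frm K (n + 1)} {e t : K} (s : D.SSp f chi e)
    (lf : σ.l f = 0) (cE : chi σ.E = 0) (gf : gam D.mu σ.E σ.l f = 0) (neg : e * D.p f < 0)
    (ti : ¬ Fi t) {b : Set (Vec K (n + 1))} (fam : Fam hf D.mu σ.l b)
    (o : O1 D σ.E σ.l (D.p - t • chi) b) (zN : z ∈ D.N) (lz : σ.l z = 0) (zS : VS z)
    (cz : chi z = 1)
    (blk : ∀ x, σ.l x = 0 → chi x = 0 → D.mu x z z = 0 → ∀ y, σ.l y = 0 → D.mu z x y = 0)
    (fin : chi D.c = 0 → ¬ Fi (D.mu (D.c + σ.E) z z)) : False := by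
  obtain ⟨-, bg, bp, bl, bv⟩ := o
  obtain ⟨D'', σ', hT'', hE, hl, -, hc, fr⟩ := hREFR K hf n D D' σ hT b fam
  have low : Low D σ.l (D.p + (3 : K) • gam D.mu σ.E σ.l) b f chi e t :=
    ⟨s.mem, lf, s.ne, bv f s.sf lf, bl chi s.sc cE, s.se, fun x y _ _ => s.eq x y, s.z,
      (bp.add (bg.smul std_three)).congr fun v _ => by
        simp only [LinearMap.add_apply, LinearMap.sub_apply]; ring⟩
  have bz := bv z zS lz
  have d1 := (hc cv).1
  rw [← hl] at fam lz blk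
  rw [← hE] at fin cE
  rw [← hl, ← hE] at low gf
  refine (ih D'' hT'').2.2.2 (((hDN K hf n D D'' σ' b fam fr).2 f chi e t low).2.2 z ?_ ti zN lz
    bz cz blk fun h => ?_)
  · simpa [gf] using neg
  · rw [σ'.chi_c cE] at h
    rw [σ'.ic, d1, one_smul]
    exact fin h

end TCPx

theorem p_TCP (hSTEP : S_STEP) (hREFR : S_REFR) (hDN : S_DN) (hDEATH : S_DEATH) (hPT : S_PT) (hESTD : S_ESTD) :
    S_TCP := by
  intro K _ _ _ h2 n D D' σ ih hT ho cv
  rintro ⟨ts, f, chi, e, t, z, s, hp0, neg, ti, zN, zS, cz, blk, fin⟩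
  have X : Cx h2.toHF D σ.E σ.l := ⟨σ.cw ho hT.ho cv, ts⟩
  have pE : D.p σ.E = D.mu σ.E σ.E σ.E := cv.2.2.2.1
  by_cases lf : σ.l f = 0
  swap
  · obtain ⟨sE, -, cE⟩ := hDEATH K h2.toHF _ D σ.E σ.l X f chi e s lf
    refine ti ((((ts _ _ _ sE sE sE).sub (hp0 _ sE)).div (s.sc _ sE)).fi.of_eq ?_)
    rw [LinearMap.sub_apply, LinearMap.smul_apply, pE, smul_eq_mul]
    field_simp
    ring
  obtain ⟨cE, gf⟩ := X.toCw.vert s.toSp lf
  have e0 : e ≠ 0 := (ho.sp_H s.toSp).1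
  have p0E : (D.p - t • chi) σ.E = D.mu σ.E σ.E σ.E := by simp [pE, cE]
  have p0f : (D.p - t • chi) f = D.p f := by simp [s.z]
  have pf0 : D.p f ≠ 0 := fun h => by simp [h] at neg
  obtain ⟨k, hk⟩ : ∃ k, k = D.mu σ.E z z / e := ⟨_, rfl⟩
  have ke : k * e = D.mu σ.E z z := by rw [hk]; field_simp
  have Ez : ∀ y, D.mu σ.E z y = k * e * chi y := fun y => by
    have := blk (σ.E - k • f) (by simp [cE, s.z]) (by simp [s.eq, cz, ke]) y
    rw [ho.sym.1] at this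
    simp only [map_sub, map_smul, LinearMap.sub_apply, LinearMap.smul_apply, smul_eq_mul, s.eq,
      cz] at this
    linear_combination this
  have gz : gam D.mu σ.E σ.l z = D.mu σ.E σ.E σ.E * σ.l z := by
    have := Ez σ.E
    rw [X.toCw.q, X.toCw.gE, X.lE, cE] at this
    linear_combination -this
  have gm : ∀ y, - σ.l z * gam D.mu σ.E σ.l y = k * e * chi y := fun y => by
    have := Ez y
    rw [X.toCw.q, gz] at this
    linear_combination this
  by_cases m0 : σ.l z = 0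
  · have ke0 : D.mu σ.E z z = 0 := by
      have := gm z
      rw [m0, cz, ke] at this
      linear_combination -this
    obtain ⟨b, fam, o | o | o | o⟩ := hSTEP K h2 _ D σ.E σ.l _ X hp0 p0E
    · exact TCPx.desc hREFR hDN σ ih hT cv s lf cE gf neg ti fam o zN m0 zS cz
        (fun x _ a c y _ => blk x a c y) fun h => by simpa [ke0] using fin h
    · obtain ⟨-, f2, chi2, e2, -, s2, -, -, q, -⟩ := o
      obtain ⟨a, -, a0, -, ha, -⟩ := ho.uniq s.toSp s2.toSp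
      rw [ha, map_smul, p0f] at q
      exact mul_ne_zero a0 pf0 q
    · obtain ⟨-, f2, chi2, e2, -, -, -, -, s2, -, -, -, q, -⟩ := o
      obtain ⟨a, -, a0, -, ha, -⟩ := ho.uniq s.toSp s2.toSp
      rw [ha, map_smul, p0f] at q
      exact mul_ne_zero a0 pf0 q
    · obtain ⟨-, f2, -, chi2, e2, -, m2, -, l2, -, -, -, n2, -, -, q2, z2, -, g2, -⟩ := o
      obtain ⟨a, ha⟩ := σ.low_uniq hT.ho s.mem lf s.ne (fun x y _ _ => s.eq x y) s.z m2 l2 n2 q2 z2
      rw [ha, map_smul, gf] at g2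
      simp at g2
  obtain ⟨m, hm⟩ : ∃ m, m = σ.l z := ⟨_, rfl⟩
  obtain ⟨a, ha⟩ : ∃ a, a = D.mu σ.E σ.E σ.E := ⟨_, rfl⟩
  rw [← hm] at m0 gz gm
  rw [← ha] at gz
  have kea : k * e = - a * m ^ 2 := by
    have := gm z
    rw [gz, cz] at this
    linear_combination -this
  have g1 : ∀ y, gam D.mu σ.E σ.l y = a * m * chi y := fun y => by
    apply mul_left_cancel₀ m0
    have := gm y
    rw [kea] at this
    linear_combination -this
  have a0 : a ≠ 0 := fun h => by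
    obtain ⟨v, -, -, c⟩ := X.toCw.g_ne
    exact c (by rw [g1, h]; ring)
  have kA : k ∈ AR h2.toHF := by
    rw [hk]; exact A_div (ho.muA _ _ _ X.EA zS.va zS.va) s.se
  have mA : m ∈ AR h2.toHF := by rw [hm]; exact X.lA _ zS.va
  have l1 : (σ.l - m • chi) (σ.E - k • f) = 1 := by simp [X.lE, lf, cE, s.z]
  have q1 : ∀ x y, D.mu (σ.E - k • f) x y = a * (σ.l - m • chi) x * (σ.l - m • chi) y :=
    fun x y => by
      simp only [map_sub, map_smul, LinearMap.sub_apply, LinearMap.smul_apply, smul_eq_mul, s.eq]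
      rw [X.toCw.q, g1, g1, ← ha]
      linear_combination (- chi x * chi y) * kea
  obtain ⟨sE1, sl1⟩ := (hPT K h2.toHF _ D.mu _ _ a ho.sym ts (fun x h => ho.nd h) l1 q1).2
    (X.EA.sub (s.sf.va.smul kA)) (X.lA.sub (s.sc.fa.smul mA))
  have sa : Std a := (ts _ _ _ sE1 sE1 sE1).of_eq (by rw [q1, l1]; ring)
  have sk : Std k := ((sa.sub (hp0 _ sE1)).div (hp0 _ s.sf)).of_eq (by
    rw [map_sub, map_smul, p0E, p0f, ← ha, smul_eq_mul]; field_simp; ring)
  have sm : Std m := A_std_of_sq mA (((sk.mul s.se).div sa).neg.of_eq (by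
    rw [kea]; field_simp))
  have sE : VS σ.E := (sE1.add (s.sf.smul sk)).of_eq (by simp)
  have sl : FS σ.l := (sl1.add (s.sc.smul sm)).of_eq (by simp)
  obtain ⟨b, fam, o, -⟩ := hESTD K h2.toHF _ D σ.E σ.l _ X hp0 p0E sE sl
  have zz : ∀ x, σ.l x = 0 → chi x = 0 →
      D.mu x (z - m • σ.E) (z - m • σ.E) = D.mu x z z := fun x lx cx => by
    have u1 : D.mu x z σ.E = 0 := by rw [sym13 ho.sym, Ez, cx, mul_zero]
    have u2 : D.mu x σ.E z = 0 := by rw [ho.sym.2, u1]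
    have u3 : D.mu x σ.E σ.E = 0 := by
      have := g1 x
      rw [gam_ker lx, cx, mul_zero, neg_eq_zero] at this
      rw [sym13 ho.sym, this]
    simp [u1, u2, u3]
  refine TCPx.desc hREFR hDN σ ih hT cv s lf cE gf neg ti fam o (z := z - m • σ.E)
    (D.N.sub_mem zN (D.N.smul_mem _ X.EN)) (by simp [X.lE, hm]) (zS.sub (sE.smul sm))
    (by simp [cz, cE]) (fun x lx cx h y ly => ?_) fun h c => fin h ?_
  · rw [zz x lx cx] at h
    simp [blk x cx h y, X.exc x y lx ly]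
  · have lc : σ.l (D.c + σ.E) = 0 := by
      have := σ.li D'.c
      rwa [σ.ic, cv.1, one_smul] at this
    rw [zz _ lc (by simp [h, cE])] at c
    exact (c.sub (sk.mul s.se).fi).of_eq (by simp [ke])

end Pool.Agent.P.MP_33ab4b_ag.B

end

section

/-! Step TP. -/

set_option autoImplicit false

namespace Pool.Agent.P.MP_33ab4b_ag.B

open Pool.Agent.P.MP_33ab4b_ag.T hiding tri

namespace TPx

variable {K : Type} [Field K] [LinearOrder K] [IsStrictOrderedRing K] {hf : HF K} {n : ℕ}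
  {D : HD K (n + 1)} {D' : HD K n}

theorem gam_zero (σ : HS hf D D') (hP : σ.Pt) : gam D.mu σ.E σ.l = 0 := by
  refine LinearMap.ext fun x => ?_
  have a := gam_ker (mu := D.mu) (E := σ.E) (l_proj σ.lE x)
  rw [hP.1 _ (l_proj σ.lE x), map_sub, map_smul, gam_E σ.lE] at a
  simpa using a

theorem qE (σ : HS hf D D') (h : D.Ho hf) (hP : σ.Pt) (x y : Vec K (n + 1)) :
    D.mu σ.E x y = D.mu σ.E σ.E σ.E * σ.l x * σ.l y := by
  rw [qform h.sym σ.lE σ.exc x y, gam_zero σ hP]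
  simp

theorem a_ne (σ : HS hf D D') (h : D.Ho hf) (hP : σ.Pt) : D.mu σ.E σ.E σ.E ≠ 0 := fun a => by
  have e : σ.E = 0 := h.nd fun y z => by rw [qE σ h hP, a]; simp
  have := σ.lE
  rw [e] at this
  simp at this

theorem sp_ker (σ : HS hf D D') (h : D.Ho hf) (hP : σ.Pt) {f : Vec K (n + 1)}
    {chi : Frm K (n + 1)} {e : K} (s : D.Sp f chi e) : σ.l f = 0 ∧ chi σ.E = 0 := by
  have lf : σ.l f = 0 := by
    have a := qE σ h hP f f
    rw [h.sym.1, s.eq, s.z] at a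
    simpa [a_ne σ h hP] using a.symm
  refine ⟨lf, ?_⟩
  have a := hP.1 f lf
  rw [sym13 h.sym, s.eq] at a
  simpa [(h.sp_H s).1] using a

theorem low (σ : HS hf D D') (h : D.Ho hf) (hP : σ.Pt) {f : Vec K (n + 1)}
    {chi : Frm K (n + 1)} {e t : K} (s : D.SSp f chi e) (hp : FS (D.p - t • chi)) :
    Low D σ.l D.p {v | VS v ∧ σ.l v = 0} f chi e t where
  mem := s.mem
  lf := (sp_ker σ h hP s.toSp).1
  ne := s.ne
  bv := BV.of_mem ⟨s.sf, (sp_ker σ h hP s.toSp).1⟩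
  bf := fun v hv => s.sc v hv.1
  se := s.se
  eq := fun x y _ _ => s.eq x y
  z := s.z
  bp := fun v hv => hp v hv.1

end TPx

theorem p_TP (hPT : S_PT) (hSPANA : S_SPANA) (hREFR : S_REFR) (hDN : S_DN) :
    S_TP := by
  intro K _ _ _ hf n D D0 σ0 ih ht0 h hP0
  have key : TS D.mu → ∃ (D' : HD K n) (σ : HS hf D D'), HT hf n D' ∧ σ.Pt ∧
      Fam hf D.mu σ.l {v | VS v ∧ σ.l v = 0} ∧ σ.Fr {v | VS v ∧ σ.l v = 0} := fun ts => by
    have a := (hPT K hf (n + 1) D.mu σ0.E σ0.l _ h.sym ts (fun x e => h.nd e) σ0.lE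
      (TPx.qE σ0 h hP0)).1
    have b := (hSPANA K hf (n + 1)).2 D.mu σ0.l ts a
    obtain ⟨D', σ, ht, -, el, hP, -, fr⟩ := hREFR K hf n D D0 σ0 ht0 _ b
    refine ⟨D', σ, ht, hP hP0, ?_, ?_⟩
    · rw [el]; exact b
    · rw [el]; exact fr
  have up : ∀ {D' : HD K n} (σ : HS hf D D'), σ.Pt → Fi D'.c3 → Fi D.c3 := fun σ hP f =>
    (hP.2.add f).of_eq (by ring)
  have pg : ∀ {D' : HD K n} (σ : HS hf D D'), σ.Pt →
      D.p + (3 : K) • gam D.mu σ.E σ.l = D.p := fun σ hP => by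
    rw [TPx.gam_zero σ hP, smul_zero, add_zero]
  refine ⟨?_, ?_, ?_, ?_⟩
  · rintro ⟨ts, hp⟩
    obtain ⟨D', σ, ht, hP, fam, fr⟩ := key ts
    have dn := hDN K hf n D D' σ _ fam fr
    rw [pg σ hP] at dn
    exact up σ hP ((ih D' ht).1 (dn.1 fun v hv => hp v hv.1))
  · rintro ⟨ts, f, chi, e, t, s, hp, pf, cc⟩
    obtain ⟨D', σ, ht, hP, fam, fr⟩ := key ts
    have dn := hDN K hf n D D' σ _ fam fr
    rw [pg σ hP] at dn
    have cE := (TPx.sp_ker σ h hP s.toSp).2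
    exact up σ hP ((ih D' ht).2.1
      ((dn.2 f chi e t (TPx.low σ h hP s hp)).1 pf (by rw [σ.chi_c cE]; exact cc)))
  · rintro ⟨ts, f, chi, e, t, s, hp, pf, cc, ti, tH⟩
    obtain ⟨D', σ, ht, hP, fam, fr⟩ := key ts
    have dn := hDN K hf n D D' σ _ fam fr
    rw [pg σ hP] at dn
    have cE := (TPx.sp_ker σ h hP s.toSp).2
    refine (ih D' ht).2.2.1
      ((dn.2 f chi e t (TPx.low σ h hP s hp)).2.1 pf (by rw [σ.chi_c cE]; exact cc) ti ?_)
    rw [σ.chi_H cE] at tH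
    have := σ.k_pos
    by_contra c
    nlinarith [mul_nonneg this.le (not_lt.1 c)]
  · rintro ⟨ts, f, chi, e, t, z, s, hp, pf, ti, zN, sz, cz, bl, fin⟩
    obtain ⟨D', σ, ht, hP, fam, fr⟩ := key ts
    have dn := hDN K hf n D D' σ _ fam fr
    rw [pg σ hP] at dn
    have cE := (TPx.sp_ker σ h hP s.toSp).2
    have e0 := (h.sp_H s.toSp).1
    have lz : σ.l z = 0 := by
      have a := bl (σ.E - (D.mu σ.E z z / e) • f) (by simp [cE, s.z]) (by
        simp only [map_sub, map_smul, LinearMap.sub_apply, LinearMap.smul_apply, smul_eq_mul,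
          s.eq, cz]
        field_simp
        ring) σ.E
      simp only [map_sub, map_smul, LinearMap.sub_apply, LinearMap.smul_apply, smul_eq_mul] at a
      rw [h.sym.1 z f, s.eq, cE, h.sym.1 z σ.E, TPx.qE σ h hP z σ.E, σ.lE] at a
      simpa [TPx.a_ne σ h hP] using a
    refine (ih D' ht).2.2.2 ((dn.2 f chi e t (TPx.low σ h hP s hp)).2.2 z pf ti zN lz
      (BV.of_mem ⟨sz, lz⟩) cz (fun x _ cx xz y _ => bl x cx xz y) fun c0 => ?_)
    rw [σ.chi_c cE] at c0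
    have : D.mu (σ.i D'.c) z z = D.mu D.c z z := by
      rw [σ.ic]
      simp only [map_add, map_smul, LinearMap.add_apply, LinearMap.smul_apply, smul_eq_mul]
      rw [TPx.qE σ h hP z z, lz]
      ring
    rw [this]
    exact fin c0

end Pool.Agent.P.MP_33ab4b_ag.B

end

section

/-! Step TB. -/

set_option autoImplicit false

namespace Pool.Agent.P.MP_33ab4b_ag.B

open Pool.Agent.P.MP_33ab4b_ag.T hiding tri

theorem p_TB :
    S_TB := by
  intro K _ _ _ hf n D hK h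
  refine ⟨fun s => hK.1 ⟨LinearEquiv.refl K _, fun _ => Iff.rfl⟩ s.1 s.2, ?_, ?_, ?_⟩
  · rintro ⟨-, f, chi, e, t, s, -, pf, -⟩
    exact (hK.2 f chi e s.toSp (by rw [pf, mul_zero])).1
  · rintro ⟨-, f, chi, e, t, s, p0, pf, r0, ti, -⟩
    obtain ⟨-, pc, ⟨u, hu⟩ | a⟩ := hK.2 f chi e s.toSp (by rw [pf, mul_zero])
    · exact r0 (by rw [hu, map_smul, s.z, smul_zero])
    obtain ⟨z, sz, cz⟩ := h.ssp_z s
    obtain ⟨y, yN, yT⟩ := h.split z
    have cy : chi y = 1 := by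
      have := h.sp_T s.toSp yT
      rw [map_sub, cz] at this
      linear_combination -this
    have py : D.p y = D.p z := by
      have := h.pT _ yT
      rw [map_sub] at this
      linear_combination -this
    obtain ⟨u, hu⟩ := a (D.c - chi D.c • y) (D.N.sub_mem h.cm (D.N.smul_mem _ yN)) (by simp [cy])
    have e1 := congrArg D.p hu
    simp only [map_sub, map_smul, smul_eq_mul, pf, py, mul_zero] at e1
    have f1 : Fi (D.p z) := A_fi_of_mul (s.sc.fa _ h.cA) r0 (pc.of_eq (by linear_combination -e1))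
    exact ti ((f1.sub (p0 z sz).fi).of_eq (by simp [cz]))
  · rintro ⟨ts, f, chi, e, t, z, s, p0, pf, ti, zN, sz, cz, -, cc⟩
    obtain ⟨c3, pc, a⟩ := hK.2 f chi e s.toSp pf.le
    have e0 : e ≠ 0 := left_ne_zero_of_mul pf.ne
    have f0 : D.p f ≠ 0 := right_ne_zero_of_mul pf.ne
    have sf : Std (D.p f) := (p0 f s.sf).of_eq (by simp [s.z])
    by_cases r0 : chi D.c = 0
    · obtain ⟨u, hu⟩ : ∃ u : K, D.c = u • f := a.elim id fun a => a _ h.cm r0
      have f1 : Fi u := fi_of_std_mul sf f0 (pc.of_eq (by rw [hu]; simp [mul_comm]))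
      exact cc r0 ((f1.mul s.se.fi).of_eq (by rw [hu]; simp [s.eq, cz]))
    obtain ⟨u, hu⟩ | a := a
    · exact r0 (by rw [hu, map_smul, s.z, smul_zero])
    obtain ⟨u, hu⟩ := a (D.c - chi D.c • z) (D.N.sub_mem h.cm (D.N.smul_mem _ zN)) (by simp [cz])
    have rA : chi D.c ∈ AR hf := s.sc.fa _ h.cA
    generalize chi D.c = r at r0 hu rA
    have hc : D.c = u • f + r • z := by rw [← hu]; abel
    have m1 : ∀ x, D.mu z f x = e * chi x := fun x => by rw [h.sym.1, s.eq, cz, mul_one]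
    have m2 : D.mu z z f = e := by rw [sym13 h.sym, s.eq, cz]; ring
    have e1 : D.c3 = r * (r * (3 * e * u + r * D.mu z z z)) := by
      rw [HD.c3, hc]
      simp only [map_add, map_smul, LinearMap.add_apply, LinearMap.smul_apply, smul_eq_mul, s.eq,
        m1, m2, s.z, cz]
      ring
    have f1 : Fi (3 * e * u + r * D.mu z z z) :=
      A_fi_of_mul rA r0 (A_fi_of_mul rA r0 (c3.of_eq e1.symm))
    have s1 : Std (D.p f / (3 * e)) := sf.div (std_three.mul s.se)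
    have f2 : Fi (D.p z - D.mu z z z * (D.p f / (3 * e))) := by
      refine A_fi_of_mul rA r0 ((pc.sub (f1.mul s1.fi)).of_eq ?_)
      rw [hc]
      simp only [map_add, map_smul, smul_eq_mul]
      field_simp
      ring
    exact ti (((f2.add ((ts z z z sz sz sz).mul s1).fi).sub (p0 z sz).fi).of_eq (by simp [cz]))

end Pool.Agent.P.MP_33ab4b_ag.B

end

section

/-! Step TCA. -/

set_option autoImplicit false

namespace Pool.Agent.P.MP_33ab4b_ag.B

open Pool.Agent.P.MP_33ab4b_ag.T hiding tri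

theorem p_TCA (hSTEP : S_STEP) (hREFR : S_REFR) (hDN : S_DN) (hAF3 : S_AF3) (hDEATH : S_DEATH) (hTC0 : S_TC0) :
    S_TCA := by
  intro K _ _ _ h2 n D D' σ0 ih ht0 ho cv0
  rintro ⟨ts, f, chi, e, t, s, hp0, pf, cc⟩
  have X : Cx h2.toHF D σ0.E σ0.l := ⟨σ0.cw ho ht0.ho cv0, ts⟩
  have pE : D.p σ0.E = D.mu σ0.E σ0.E σ0.E := cv0.2.2.2.1
  by_cases lf : σ0.l f = 0
  swap
  · obtain ⟨sE, -, cE⟩ := hDEATH K h2.toHF _ D σ0.E σ0.l X f chi e s lf
    have st : Std t := by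
      refine (((ts _ _ _ sE sE sE).sub (hp0 _ sE)).div (s.sc _ sE)).of_eq ?_
      rw [LinearMap.sub_apply, LinearMap.smul_apply, pE, smul_eq_mul]
      field_simp
      ring
    exact hTC0 K h2 n D D' σ0 ih ht0 ho cv0 ⟨ts, (hp0.add (s.sc.smul st)).of_eq (by simp)⟩
  obtain ⟨cE, gf⟩ := X.toCw.vert s.toSp lf
  have p0E : (D.p - t • chi) σ0.E = D.mu σ0.E σ0.E σ0.E := by simp [pE, cE]
  obtain ⟨b, fam, o⟩ := hSTEP K h2 _ D σ0.E σ0.l _ X hp0 p0E
  obtain ⟨D'', σ, ht, hE, hl, -, hcv, fr⟩ := hREFR K h2.toHF n D D' σ0 ht0 b fam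
  rw [← hl] at fam lf
  rw [← hE, ← hl] at o gf
  rw [← hE] at cE
  have cv := hcv cv0
  have dn := hDN K h2.toHF n D D'' σ b fam fr
  have cl := ih D'' ht
  have c0 : chi (σ.i D''.c) = 0 := by rw [σ.chi_c cE, cc]
  rcases o with o | o | o | o
  · obtain ⟨a, bg, bp, bl, bv⟩ := o
    have lo : Low D σ.l (D.p + (3 : K) • gam D.mu σ.E σ.l) b f chi e t :=
      ⟨s.mem, lf, s.ne, bv f s.sf lf, bl chi s.sc cE, s.se, fun x y _ _ => s.eq x y, s.z,
        (bp.add (bg.smul std_three)).congr fun v _ => by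
          simp only [LinearMap.add_apply, LinearMap.sub_apply]; ring⟩
    exact σ.fi_c3 ho cv a.fi (cl.2.1 ((dn.2 f chi e _ lo).1 (by simp [gf, pf]) c0))
  · obtain ⟨a, f2, chi2, e2, r, s2, lf2, -, -, bvf, bfc, -, -, bp⟩ := o
    obtain ⟨u, k, -, k0, hu, hk⟩ := ho.uniq s.toSp s2.toSp
    have lo : Low D σ.l (D.p + (3 : K) • gam D.mu σ.E σ.l) b f2 chi2 e2 (t / k + 2 * r) :=
      ⟨s2.mem, lf2, s2.ne, bvf, bfc, s2.se, fun x y _ _ => s2.eq x y, s2.z,
        bp.congr fun v _ => by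
          simp only [hk, LinearMap.add_apply, LinearMap.sub_apply, LinearMap.smul_apply,
            smul_eq_mul]
          field_simp
          ring⟩
    exact σ.fi_c3 ho cv a.fi (cl.2.1 ((dn.2 f2 chi2 e2 _ lo).1 (by simp [hu, gf, pf])
      (by simp [hk, c0])))
  · obtain ⟨na, f2, chi2, e2, u, b0, q, t2, s2, lf2, -, gf2, -, -, -, uN, lu, uA, cu, gu, sb, nb,
      sq, nq, eq, -⟩ := o
    obtain ⟨w, k, -, -, hw, hk⟩ := ho.uniq s.toSp s2.toSp
    obtain ⟨h1, -⟩ := hAF3 K h2.toHF n D D'' σ ht ho cv na f2 chi2 e2 u b0 q s2.toSp lf2 gf2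
      (by simp [hw, pf]) uN lu uA cu gu sb nb sq nq eq
    exact absurd (by simp [hk, c0]) h1
  · obtain ⟨-, f2, -, chi2, e2, -, m2, -, l2, -, -, -, n2, -, -, q2, z2, -, g2, -⟩ := o
    obtain ⟨a, ha⟩ := σ.low_uniq ht.ho s.mem lf s.ne (fun x y _ _ => s.eq x y) s.z m2 l2 n2 q2 z2
    rw [ha, map_smul, gf] at g2
    simp at g2

end Pool.Agent.P.MP_33ab4b_ag.B

end

section

/-! Step UDP. -/

set_option autoImplicit false

namespace Pool.Agent.P.MP_33ab4b_ag.B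

open Pool.Agent.P.MP_33ab4b_ag.T hiding tri

theorem p_UDP :
    S_UDP := by
  intro K _ _ _ hf n D D' σ h h' pt ud f chi e u q w s pf cc uN uA cu uk uu fq uc
  have g0 : ∀ x, gam D.mu σ.E σ.l x = 0 := fun x => by
    have a := gam_ker (mu := D.mu) (E := σ.E) (l_proj σ.lE x)
    rw [pt.1 _ (l_proj σ.lE x), map_sub, map_smul, gam_E σ.lE] at a
    simpa using a
  have Q : ∀ x y, D.mu σ.E x y = D.mu σ.E σ.E σ.E * σ.l x * σ.l y := fun x y => by
    rw [qform h.sym σ.lE σ.exc x y, g0, g0]; ring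
  have a0 : D.mu σ.E σ.E σ.E ≠ 0 := fun a => by
    have := h.nd (x := σ.E) fun y z => by rw [Q, a]; ring
    have b := σ.lE
    rw [this] at b; simp at b
  have lf : σ.l f = 0 := by
    have := Q f f
    rw [h.sym.1, s.eq, s.z] at this
    simpa [a0] using this.symm
  have cE : chi σ.E = 0 := by
    have := Q f σ.E
    rw [h.sym.1, s.eq, lf] at this
    simpa [(h.sp_H s).1] using this
  have lu : σ.l u = 0 := by
    have := Q u σ.E
    rw [h.sym.1, uk _ _ cE cE, σ.lE] at this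
    simpa [a0] using this.symm
  obtain ⟨f', rfl⟩ := σ.rng f lf
  obtain ⟨u', rfl⟩ := σ.rng u lu
  refine ud f' (chi ∘ₗ σ.i) e u' q w (σ.sp_down s.mem s.ne (fun x y _ _ => s.eq x y) s.z)
    (by rw [σ.p_eq, pf, g0]; simp) ((σ.chi_c cE).trans cc) (σ.iN.1 uN) ((σ.iA _).1 uA) cu
    (fun x y hx hy => by rw [σ.mu_eq]; exact uk _ _ hx hy) (fun x => by rw [σ.mu_eq]; exact uu _)
    fq fun x => ?_
  rw [σ.mu_eq, σ.ic, map_add, map_smul, LinearMap.add_apply, LinearMap.smul_apply, uc,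
    h.sym.1 _ σ.E, Q, lu]
  simp

end Pool.Agent.P.MP_33ab4b_ag.B

end
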