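import Pool.Agent.P.MP_33ab4b_ag.B.IfaceU

section

/-! Step ULS. -/

set_option autoImplicit false

namespace Pool.Agent.P.MP_33ab4b_ag.B

open Pool.Agent.P.MP_33ab4b_ag.T hiding tri
open Pool.Agent.P.MP_33ab4b_ag.T.Hq
open Filter

namespace ULSx

variable {n a : ℕ}

/-- The linear map given by a sequence of integer matrices. -/
noncomputable def ui (i : ℕ → Matrix (Fin a) (Fin n) ℤ) : Vec QU n →ₗ[QU] Vec QU a :=
  Matrix.mulVecLin (Matrix.of fun s t => hz fun r => i r s t)

theorem ui_hw (i : ℕ → Matrix (Fin a) (Fin n) ℤ) (x : ℕ → Fin n → ℚ) :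
    ui i (hw x) = hw fun r => app (i r) (x r) := by
  funext s
  exact hq_sum (fun r t => (i r s t : ℚ)) x

theorem app_smul (g : Matrix (Fin a) (Fin n) ℤ) (s : ℚ) (x : Fin n → ℚ) :
    app g (s • x) = s • app g x := by
  funext j
  simp only [app, Pi.smul_apply, smul_eq_mul, Finset.mul_sum]
  exact Finset.sum_congr rfl fun _ _ => by ring

theorem app_int (g : Matrix (Fin a) (Fin n) ℤ) {x : Fin n → ℚ} (h : Integral x) :
    Integral (app g x) := fun j => by
  choose z hz using h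
  exact ⟨∑ t, g j t * z t, by simp [app, hz]⟩

theorem app_inj {g : Matrix (Fin a) (Fin n) ℤ} (h : ∀ x, Integral (app g x) → Integral x)
    {x : Fin n → ℚ} (e : app g x = 0) : x = 0 := by
  funext j
  by_contra c
  have c' : x j ≠ 0 := c
  obtain ⟨z, hz⟩ := h ((2 * x j)⁻¹ • x) (by rw [app_smul, e]; exact fun _ => ⟨0, by simp⟩) j
  have : (2 * z : ℤ) = 1 := by
    have : (2 * z : ℚ) = 1 := by
      rw [← hz, Pi.smul_apply, smul_eq_mul]; field_simp
    exact_mod_cast this
  omega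

theorem hw_comb (i : ℕ → Matrix (Fin a) (Fin n) ℤ) (E : ℕ → Fin a → ℚ) (x : ℕ → Fin n → ℚ)
    (t : ℕ → ℚ) : hw (fun r => app (i r) (x r) + t r • E r) = ui i (hw x) + hq t • hw E := by
  rw [hw_add, hw_smul, ui_hw]

theorem hw_single (j : Fin a) : hw (fun _ => (Pi.single j 1 : Fin a → ℚ)) = Pi.single j 1 := by
  funext s
  rw [hw, hq_const]
  by_cases h : s = j <;> simp [h]

theorem exists_l {K : Type} [Field K] (i : Vec K n →ₗ[K] Vec K (n + 1)) (E : Vec K (n + 1))
    (h : ∀ x, ∃ (x' : Vec K n) (t : K), x = i x' + t • E) :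
    ∃ l : Frm K (n + 1), l E = 1 ∧ ∀ x, l (i x) = 0 := by
  have hE : E ∉ LinearMap.range i := by
    rintro ⟨e, rfl⟩
    have s : Function.Surjective i := fun x => by
      obtain ⟨x', t, rfl⟩ := h x
      exact ⟨x' + t • e, by simp⟩
    have := LinearMap.finrank_le_finrank_of_surjective s
    simp at this
  obtain ⟨f, f0, hf⟩ := Submodule.exists_le_ker_of_notMem hE
  exact ⟨(f E)⁻¹ • f, by simp [inv_mul_cancel₀ f0], fun x => by
    have : f (i x) = 0 := hf ⟨x, rfl⟩
    simp [this]⟩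

end ULSx

open ULSx in
theorem p_ULS :
    S_ULS := by
  intro G n D D' i E k m δ h _
  have sp : ∀ x, ∃ (x' : Vec QU n) (t : QU), x = ui i x' + t • hw E := fun x => by
    obtain ⟨x, rfl⟩ := hw_surj x
    obtain ⟨y, hy⟩ := (h.mono fun r s => s.span (x r)).choice
    obtain ⟨t, ht⟩ := hy.choice
    exact ⟨hw y, hq t, by rw [← hw_comb]; exact hw_eq.2 ht⟩
  obtain ⟨l, lE, li⟩ := exists_l (ui i) (hw E) sp
  have rng : ∀ x, l x = 0 → ∃ x', x = ui i x' := fun x hx => by
    obtain ⟨x', t, rfl⟩ := sp x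
    have : t = 0 := by simpa [li, lE] using hx
    exact ⟨x', by simp [this]⟩
  have ga : ∀ x : ℕ → Fin n → ℚ, gam (ul D).mu (hw E) l (ui i (hw x)) =
      hq fun r => -(D r).m (E r) (E r) (app (i r) (x r)) := fun x => by
    rw [gam_ker (li _), ui_hw, ul_mu, ← map_neg]; rfl
  have z0 : (0 : QU) = hq fun _ => 0 := (map_zero hq).symm
  let σ : HS Hq.hf (ul D) (ul D') :=
    { i := ui i
      E := hw E
      l := l
      k := hq k
      m := hq m
      δ := hq δ
      iA := fun x => by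
        obtain ⟨x, rfl⟩ := hw_surj x
        rw [ui_hw, VA_hw, VA_hw]
        refine exists_congr fun c => and_congr_right fun _ => ⟨fun e => ?_, fun e => ?_⟩
        · exact (h.and e).mono fun r e => e.1.sat _ (by rw [app_smul]; exact e.2)
        · exact e.mono fun r e => by rw [← app_smul]; exact app_int _ e
      inj := (injective_iff_map_eq_zero _).2 fun x e => by
        obtain ⟨x, rfl⟩ := hw_surj x
        rw [ui_hw, ← hw_zero, hw_eq] at e
        rw [← hw_zero, hw_eq]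
        exact (h.and e).mono fun r e => app_inj e.1.sat e.2
      lE := lE
      li := li
      rng := rng
      exc := fun x y hx hy => by
        obtain ⟨x, rfl⟩ := rng x hx
        obtain ⟨y, rfl⟩ := rng y hy
        obtain ⟨x, rfl⟩ := hw_surj x
        obtain ⟨y, rfl⟩ := hw_surj y
        rw [ui_hw, ui_hw, ul_mu, z0, hq_eq]
        exact h.mono fun r s => s.exc _ _
      mu_eq := fun x y z => by
        obtain ⟨x, rfl⟩ := hw_surj x
        obtain ⟨y, rfl⟩ := hw_surj y
        obtain ⟨z, rfl⟩ := hw_surj z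
        rw [ui_hw, ui_hw, ui_hw, ul_mu, ul_mu, hq_eq]
        exact h.mono fun r s => s.mu_eq _ _ _
      p_eq := fun x => by
        obtain ⟨x, rfl⟩ := hw_surj x
        have e3 : (3 : QU) = hq fun _ => 3 := by rw [hq_const]; simp
        rw [ga, ui_hw, ul_p, ul_p, e3, ← map_mul, ← map_add, hq_eq]
        exact h.mono fun r s => by rw [s.p_eq]; simp [sub_eq_add_neg]
      N_eq := fun x => by
        obtain ⟨x, rfl⟩ := hw_surj x
        constructor
        · intro e
          obtain ⟨y, hy⟩ := ((h.and (mem_ulN.1 e)).mono fun r s => (s.1.N_eq _).1 s.2).choice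
          obtain ⟨t, ht⟩ := (hy.mono fun r s => s.2).choice
          exact ⟨hw y, mem_ulN.2 (hy.mono fun r s => s.1), hq t,
            by rw [← hw_comb]; exact hw_eq.2 ht⟩
        · rintro ⟨_, ⟨y, rfl, hy⟩, t, e⟩
          obtain ⟨t, rfl⟩ := hq_surj t
          rw [e, ← hw_comb]
          exact mem_ulN.2 ((h.and hy).mono fun r s => (s.1.N_eq _).2 ⟨_, s.2, _, rfl⟩)
      k_pos := by rw [z0, hq_lt]; exact h.mono fun r s => s.k_pos
      H_eq := by
        change hw _ = _ • ui i (hw _) - _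
        rw [ui_hw, ← hw_smul, ← hw_smul, ← hw_sub, hw_eq]
        exact h.mono fun r s => s.H_eq
      c_eq := by
        change hw _ = ui i (hw _) - _
        rw [ui_hw, ← hw_smul, ← hw_sub, hw_eq]
        exact h.mono fun r s => s.c_eq }
  refine ⟨σ, (Ultrafilter.eventually_or.1 (h.mono fun r s => s.kind)).imp (fun e => ⟨?_, ?_⟩)
    fun e => ⟨?_, ?_, ?_, ?_, ?_, ?_⟩⟩
  · intro x hx
    obtain ⟨x, rfl⟩ := rng x hx
    obtain ⟨x, rfl⟩ := hw_surj x
    change (ul D).mu (hw E) (hw E) _ = 0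
    rw [ui_hw, ul_mu, z0, hq_eq]
    exact e.mono fun r s => s.1 _
  · rw [ul_c3, ul_c3, ← map_sub]
    exact fi_hq (e.mono fun r s => s.2)
  · change hq δ = 1
    rw [← map_one hq, hq_eq]
    exact e.mono fun r s => s.1
  · exact VA_hw.2 ⟨1, one_pos, e.mono fun r s => by simpa using s.2.1⟩
  · refine FA.of_basis fun j => A_of_Z ?_
    have hj : Integral (Pi.single j 1 : Fin (n + 1) → ℚ) := fun s =>
      ⟨(Pi.single j 1 : Fin (n + 1) → ℤ) s, by by_cases c : s = j <;> simp [c]⟩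
    obtain ⟨y, hy⟩ := (e.mono fun r s => s.2.2.1 _ hj).choice
    obtain ⟨t, ht⟩ := hy.choice
    change l _ ∈ _
    rw [← hw_single, hw_eq.2 ht, hw_comb]
    simp only [map_add, map_smul, li, lE, smul_eq_mul, mul_one, zero_add]
    exact Z_hq.2 (.of_forall fun r => ⟨t r, rfl⟩)
  · change (ul D).p (hw E) = (ul D).mu (hw E) (hw E) (hw E)
    rw [ul_p, ul_mu, hq_eq]
    exact e.mono fun r s => s.2.2.2.1
  · change 0 < gam (ul D).mu (hw E) l (ui i (hw _))
    rw [ga, z0, hq_lt]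
    exact e.mono fun r s => neg_pos.2 s.2.2.2.2.1
  · change Fi ((ul D).mu (hw E) (hw E) (hw E) + gam (ul D).mu (hw E) l (ui i (hw _)))
    rw [ga, ul_mu, ← map_add]
    exact fi_hq (e.mono fun r s => by simpa [sub_eq_add_neg] using s.2.2.2.2.2)

end Pool.Agent.P.MP_33ab4b_ag.B

end

section

/-! Step ULH. -/

set_option autoImplicit false

namespace Pool.Agent.P.MP_33ab4b_ag.B

open Pool.Agent.P.MP_33ab4b_ag.T hiding tri
open Pool.Agent.P.MP_33ab4b_ag.T.Hq
open Filter

namespace ULHx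

/-- Choice of almost everywhere witnesses. -/
theorem ch {α : Type} [Inhabited α] {p : ℕ → α → Prop} (h : ∀ᶠ r in UF, ∃ a, p r a) :
    ∃ a : ℕ → α, ∀ᶠ r in UF, p r (a r) := by
  classical
  exact ⟨fun r => if e : ∃ a, p r a then e.choose else default, h.mono fun r e => by
    simp only [dif_pos e]; exact e.choose_spec⟩

/-- The theorem of Los for one universal quantifier. -/
theorem los {α : Type} [Inhabited α] {p : ℕ → α → Prop}
    (h : ∀ a : ℕ → α, ∀ᶠ r in UF, p r (a r)) : ∀ᶠ r in UF, ∀ a, p r a := by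
  by_contra c
  obtain ⟨a, ha⟩ := ch (p := fun r a => ¬ p r a)
    ((Ultrafilter.eventually_not.2 c).mono fun r e => not_forall.1 e)
  obtain ⟨r, h1, h2⟩ := (ha.and (h a)).exists
  exact h1 h2

theorem hq_zero {a : ℕ → ℚ} : hq a = 0 ↔ ∀ᶠ r in UF, a r = 0 := by
  rw [← map_zero hq, hq_eq]; rfl

theorem s12 {n G : ℕ} {D : Datum n} (h : D.Hodge G) (x y z : Fin n → ℚ) :
    D.m x y z = D.m y x z := by
  unfold Datum.m tri
  rw [Finset.sum_comm]
  refine Finset.sum_congr rfl fun i _ => Finset.sum_congr rfl fun j _ =>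
    Finset.sum_congr rfl fun k _ => ?_
  rw [h.sym12]; ring

theorem s23 {n G : ℕ} {D : Datum n} (h : D.Hodge G) (x y z : Fin n → ℚ) :
    D.m x y z = D.m x z y := by
  unfold Datum.m tri
  refine Finset.sum_congr rfl fun i _ => ?_
  rw [Finset.sum_comm]
  refine Finset.sum_congr rfl fun j _ => Finset.sum_congr rfl fun k _ => ?_
  rw [h.sym23]; ring

end ULHx

open ULHx in
theorem p_ULH :
    S_ULH := by
  intro G n D h
  have eH : (ul D).H = hw fun r => (D r).H := rfl
  refine ⟨⟨fun x y z => ?_, fun x y z => ?_⟩, fun x y z hx hy hz => ?_,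
    mem_ulN.2 (h.mono fun r e => e.H_mem), mem_ulN.2 (h.mono fun r e => e.c_mem),
    VA_hw.2 ⟨G.factorial, G.factorial_pos, h.mono fun r e i => ?_⟩, fun x => ?_, fun t ht => ?_,
    fun x hx x0 h0 => ?_, fun x hx => ?_, fun w nu e hw' t ht => ?_⟩
  · obtain ⟨x, rfl⟩ := hw_surj x
    obtain ⟨y, rfl⟩ := hw_surj y
    obtain ⟨z, rfl⟩ := hw_surj z
    rw [ul_mu, ul_mu, hq_eq]
    exact h.mono fun r e => s12 e _ _ _
  · obtain ⟨x, rfl⟩ := hw_surj x
    obtain ⟨y, rfl⟩ := hw_surj y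
    obtain ⟨z, rfl⟩ := hw_surj z
    rw [ul_mu, ul_mu, hq_eq]
    exact h.mono fun r e => s23 e _ _ _
  · change ulMu _ x y z ∈ _
    rw [ulMu_apply]
    exact sum_mem fun i _ => sum_mem fun j _ => sum_mem fun k _ =>
      mul_mem (mul_mem (mul_mem ⟨1, one_pos, by rw [Nat.cast_one, one_mul]; exact ⟨_, rfl⟩⟩ (hx i))
        (hy j)) (hz k)
  · obtain ⟨m, m0, mG, hm⟩ := e.c_int
    obtain ⟨c, hc⟩ := Nat.dvd_factorial m0 mG
    obtain ⟨z, hz⟩ := hm i
    rw [Pi.smul_apply, smul_eq_mul] at hz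
    exact ⟨c * z, by rw [hc, Pi.smul_apply, smul_eq_mul]; push_cast; rw [← hz]; ring⟩
  · obtain ⟨x, rfl⟩ := hw_surj x
    obtain ⟨y, hy⟩ := ch (h.mono fun r e => e.split (x r))
    refine ⟨hw y, mem_ulN.2 (hy.mono fun r e => e.1), ?_⟩
    rw [← hw_sub, ul_T]
    exact hy.mono fun r e => e.2
  · obtain ⟨t, rfl⟩ := hw_surj t
    rw [ul_p, hq_zero]
    exact (h.and ((ul_T D t).1 ht)).mono fun r e => e.1.p_T _ e.2
  · obtain ⟨x, rfl, hx⟩ := hx
    rw [eH, ul_mu, hq_zero] at h0
    rw [Ne, ← hw_zero, hw_eq, ← Ultrafilter.eventually_not] at x0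
    rw [eH, ul_mu, ← map_zero hq, hq_lt]
    exact (h.and (hx.and (x0.and h0))).mono fun r e => e.1.index _ e.2.1 e.2.2.1 e.2.2.2
  · obtain ⟨x, rfl⟩ := hw_surj x
    rw [← hw_zero, hw_eq]
    have := los (p := fun r y => (D r).m (D r).H (x r) y = 0) fun y => by
      rw [← hq_zero, ← ul_mu]; exact hx _
    exact (h.and this).mono fun r e => e.1.lefschetz _ e.2
  · obtain ⟨w, rfl⟩ := hw_surj w
    obtain ⟨nu, rfl⟩ := frm_surj nu
    obtain ⟨e, rfl⟩ := hq_surj e
    obtain ⟨t, rfl⟩ := hw_surj t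
    have := los (p := fun r (s : (Fin n → ℚ) × (Fin n → ℚ)) => (D r).T s.1 → (D r).T s.2 →
        (D r).m (w r) s.1 s.2 = e r * (nu r ⬝ᵥ s.1) * (nu r ⬝ᵥ s.2)) fun s => by
      by_cases h1 : ∀ᶠ r in UF, (D r).T (s r).1
      · by_cases h2 : ∀ᶠ r in UF, (D r).T (s r).2
        · have := hw' _ _ ((ul_T D _).2 h1) ((ul_T D _).2 h2)
          rw [ul_mu, fmK_hw', fmK_hw', ← map_mul, ← map_mul, hq_eq] at this
          exact this.mono fun r e _ _ => e
        · exact (Ultrafilter.eventually_not.2 h2).mono fun r e _ e' => absurd e' e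
      · exact (Ultrafilter.eventually_not.2 h1).mono fun r e e' => absurd e' e
    rw [fmK_hw', ← map_mul, hq_zero]
    exact (h.and (this.and ((ul_T D t).1 ht))).mono fun r k =>
      k.1.rank _ _ _ (fun a b => k.2.1 (a, b)) _ k.2.2

end Pool.Agent.P.MP_33ab4b_ag.B

end

section

/-! Step MAIN. -/

set_option autoImplicit false

namespace Pool.Agent.P.MP_33ab4b_ag.B

open Pool.Agent.P.MP_33ab4b_ag.T hiding tri
open Pool.Agent.P.MP_33ab4b_ag.T.Hq
open Filter

namespace MAINx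

variable {n : ℕ}

/-- The linear map given by a sequence of integer matrices. -/
noncomputable def um (g : ℕ → Matrix (Fin n) (Fin n) ℤ) : Vec QU n →ₗ[QU] Vec QU n :=
  Matrix.toLin' (Matrix.of fun i j => hz fun r => g r i j)

theorem um_apply (g : ℕ → Matrix (Fin n) (Fin n) ℤ) (x : Vec QU n) (i : Fin n) :
    um g x i = ∑ j, (hz fun r => g r i j) * x j := by
  simp [um, Matrix.mulVec, dotProduct]

theorem um_hw (g : ℕ → Matrix (Fin n) (Fin n) ℤ) (x : ℕ → Fin n → ℚ) :
    um g (hw x) = hw fun r => app (g r) (x r) := by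
  funext i
  rw [um_apply]
  exact hq_sum (fun r j => (g r i j : ℚ)) x

theorem um_va (g : ℕ → Matrix (Fin n) (Fin n) ℤ) {x : Vec QU n} (h : VA Hq.hf x) :
    VA Hq.hf (um g x) := fun i => by
  rw [um_apply]
  exact Subring.sum_mem _ fun j _ => Subring.mul_mem _
    (A_of_Z (by rw [hz_def, Z_hq]; exact .of_forall fun r => ⟨_, rfl⟩)) (h j)

theorem app_app (g h : Matrix (Fin n) (Fin n) ℤ) (e : g * h = 1) (x : Fin n → ℚ) :
    app g (app h x) = x := by
  funext i
  have e' : ∀ k, ∑ j, (g i j : ℚ) * h j k = if i = k then 1 else 0 := fun k => by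
    have := congrFun (congrFun e i) k
    rw [Matrix.mul_apply, Matrix.one_apply] at this
    exact_mod_cast this
  simp only [app, Finset.mul_sum]
  rw [Finset.sum_comm]
  simp only [← mul_assoc, ← Finset.sum_mul, e']
  simp

theorem um_um {g h : ℕ → Matrix (Fin n) (Fin n) ℤ} (e : ∀ r, g r * h r = 1) (x : Vec QU n) :
    um g (um h x) = x := by
  obtain ⟨x, rfl⟩ := hw_surj x
  rw [um_hw, um_hw]
  exact congrArg hw (funext fun r => app_app _ _ (e r) _)

/-- The automorphism given by a sequence of invertible integer matrices. -/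
noncomputable def ua (g h : ℕ → Matrix (Fin n) (Fin n) ℤ) (e : ∀ r, g r * h r = 1)
    (e' : ∀ r, h r * g r = 1) : AIso Hq.hf n where
  g := LinearEquiv.ofLinear (um g) (um h) (LinearMap.ext (um_um e)) (LinearMap.ext (um_um e'))
  va x := ⟨fun a => (um_va h a).of_eq (um_um e' x).symm, um_va g⟩

theorem hw_single (i : Fin n) :
    (Pi.single i 1 : Vec QU n) = hw fun _ => (Pi.single i 1 : Fin n → ℚ) := by
  funext j
  rw [hw, hq_const]
  by_cases h : j = i <;> simp [Pi.single_apply, h]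

end MAINx

open MAINx in
theorem p_MAIN (hHFQ2 : S_HFQ2) (hKM : S_KM) (hINV : S_INV) (hULT : S_ULT) :
    S_MAIN := by
  intro G B hB hA n mu p
  by_contra hi
  have f := Set.Infinite.natEmbedding _ hi
  choose D hD hI hc using fun k => (f k).2
  choose g hu hm hp using hI
  choose u hu using hu
  have e1 : ∀ r, g r * (↑(u r)⁻¹ : Matrix (Fin n) (Fin n) ℤ) = 1 := fun r => by
    rw [← hu r]; exact (u r).mul_inv
  have e2 : ∀ r, (↑(u r)⁻¹ : Matrix (Fin n) (Fin n) ℤ) * g r = 1 := fun r => by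
    rw [← hu r]; exact (u r).inv_mul
  have T0 := hULT G B hB hA n D (.of_forall hD)
  have T1 := hINV _ _ _ _ T0 (ua g _ e1 e2)
  obtain ⟨h2, e⟩ := hHFQ2
  have C := hKM _ h2 n
  rw [e] at C
  have s0 : ((ul D).comap (ua g _ e1 e2).g).S0 := by
    refine ⟨TS.of_basis fun i j k => ?_, FS.of_basis fun i => ?_⟩
    · change Std ((ul D).mu (um g _) (um g _) (um g _))
      rw [hw_single i, hw_single j, hw_single k, um_hw, um_hw, um_hw, ul_mu]
      simp only [hm]
      rw [hq_const]; exact Std.rat _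
    · change Std ((ul D).p (um g _))
      rw [hw_single i, um_hw, ul_p]
      simp only [hp]
      rw [hq_const]; exact Std.rat _
  have fi := (C _ T1).1 s0
  have e3 : ((ul D).comap (ua g _ e1 e2).g).c3 = (ul D).c3 := by
    simp [HD.c3, HD.comap]
  rw [e3] at fi
  obtain ⟨q, hq'⟩ := A_std_of_fi (T0.ho.muA _ _ _ T0.ho.cA T0.ho.cA T0.ho.cA) fi
  change (ul D).c3 = _ at hq'
  rw [ul_c3, ← hq_const, hq_eq] at hq'
  refine Set.Finite.notMem_hyperfilter (Set.Subsingleton.finite fun k hk l hl => ?_) hq'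
  refine f.injective (Subtype.ext ?_)
  rw [hc, hc]
  exact hk.trans hl.symm

end Pool.Agent.P.MP_33ab4b_ag.B

end
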