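import Pool.Agent.P.MP_33ab4b_ag.B.IfaceC
import Pool.Agent.P.MP_33ab4b_ag.B.PU1

section

/-! Step EX. -/

set_option autoImplicit false

namespace Pool.Agent.P.MP_33ab4b_ag.B

open Pool.Agent.P.MP_33ab4b_ag.T hiding tri
open Pool.Agent.P.MP_33ab4b_ag.T.Hq
open Filter

namespace EXx

theorem m1 (x y z : Fin 1 → ℚ) : exP3.m x y z = x 0 * y 0 * z 0 := by
  simp [Datum.m, tri, exP3]

theorem m2 (x y z : Fin 2 → ℚ) : exBl.m x y z =
    x 0 * y 0 * z 0 - x 0 * y 1 * z 1 - x 1 * y 0 * z 1 - x 1 * y 1 * z 0 - 2 * x 1 * y 1 * z 1 := by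
  simp [Datum.m, tri, exBl, Fin.sum_univ_two]; ring

theorem app_eq (x : Fin 1 → ℚ) : app !![1; 0] x = ![x 0, 0] := by
  funext i; fin_cases i <;> simp [app]

theorem T1 {t : Fin 1 → ℚ} (h : exP3.T t) : t = 0 := by
  have := h ![1] trivial ![1] trivial
  rw [m1] at this
  funext i; fin_cases i; simpa using this

theorem T2 {t : Fin 2 → ℚ} (h : exBl.T t) : t = 0 := by
  have a := h ![1, 0] trivial ![1, 0] trivial
  have b := h ![1, 0] trivial ![0, 1] trivial
  rw [m2] at a b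
  funext i; fin_cases i
  · simpa using a
  · simpa using b

theorem T1z : exP3.T 0 := fun x _ y _ => by simp [m1]

theorem T2z : exBl.T 0 := fun x _ y _ => by simp [m2]

theorem hodge1 : exP3.Hodge 2 where
  sym12 _ _ _ := rfl
  sym23 _ _ _ := rfl
  H_mem := trivial
  c_mem := trivial
  c_int := ⟨1, one_pos, by norm_num, fun i => ⟨4, by fin_cases i; simp [exP3]⟩⟩
  split x := ⟨x, trivial, by rw [sub_self]; exact T1z⟩
  p_T t ht := by rw [T1 ht]; simp
  index x _ h0 h := by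
    rw [m1] at h
    exact absurd (funext fun i => by fin_cases i; simpa [exP3] using h) h0
  lefschetz x h := by
    have := h ![1]
    rw [m1] at this
    funext i; fin_cases i; simpa [exP3] using this
  rank w nu e _ t ht := by rw [T1 ht]; simp

theorem adm1 : exP3.Adm 2 := by
  intro f _ chi e f0 h z _
  exfalso
  have a := h f f
  rw [m1, z] at a
  apply f0
  funext i; fin_cases i
  simpa using a

theorem hodge2 : exBl.Hodge 2 where
  sym12 i j k := by fin_cases i <;> fin_cases j <;> fin_cases k <;> rfl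
  sym23 i j k := by fin_cases i <;> fin_cases j <;> fin_cases k <;> rfl
  H_mem := trivial
  c_mem := trivial
  c_int := ⟨1, one_pos, by norm_num, fun i => by
    fin_cases i
    · exact ⟨4, by simp [exBl]⟩
    · exact ⟨-1, by simp [exBl]⟩⟩
  split x := ⟨x, trivial, by rw [sub_self]; exact T2z⟩
  p_T t ht := by rw [T2 ht]; simp
  index x _ h0 h := by
    rw [m2] at h ⊢
    simp only [exBl, Matrix.cons_val_zero, Matrix.cons_val_one] at h ⊢
    have e : x 1 = -(3 / 2) * x 0 := by linarith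
    have n : x 0 ≠ 0 := fun c => h0 (funext fun i => by fin_cases i <;> simp [e, c])
    rw [e]
    nlinarith [sq_pos_of_ne_zero n]
  lefschetz x h := by
    have a := h ![1, 0]
    have b := h ![0, 1]
    rw [m2] at a b
    simp only [exBl, Matrix.cons_val_zero, Matrix.cons_val_one] at a b
    have e0 : x 0 = 0 := by linarith
    have e1 : x 1 = 0 := by linarith
    funext i; fin_cases i
    · exact e0
    · exact e1
  rank w nu e _ t ht := by rw [T2 ht]; simp

theorem step : Step 2 exBl exP3 !![1; 0] ![0, 1] 2 1 1 where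
  sat x h i := by
    have := h 0
    rw [app_eq] at this
    fin_cases i; simpa using this
  span x := ⟨![x 0], x 1, by rw [app_eq]; funext i; fin_cases i <;> simp⟩
  exc x y := by simp [m2, app_eq]
  mu_eq x y z := by simp [m1, m2, app_eq]
  p_eq x := by
    rw [m2, app_eq]
    simp [exP3, exBl, dotProduct, Fin.sum_univ_two]; ring
  N_eq x := ⟨fun _ => ⟨![x 0], trivial, x 1, by rw [app_eq]; funext i; fin_cases i <;> simp⟩,
    fun _ => trivial⟩
  k_pos := two_pos
  H_eq := by rw [app_eq]; funext i; fin_cases i <;> simp [exP3, exBl]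
  c_eq := by rw [app_eq]; funext i; fin_cases i <;> simp [exP3, exBl]
  kind := by
    refine .inr ⟨rfl, fun i => ?_, fun x h => ?_, ?_, ?_, ?_⟩
    · fin_cases i
      · exact ⟨0, by simp⟩
      · exact ⟨1, by simp⟩
    · obtain ⟨t, ht⟩ := h 1
      exact ⟨![x 0], t, by rw [app_eq]; funext i; fin_cases i <;> simp [ht]⟩
    · rw [m2]; simp [exBl, dotProduct, Fin.sum_univ_two]
    · rw [m2, app_eq]; simp [exP3]
    · rw [m2, m2, app_eq]; simp [exP3]; norm_num

theorem c1 : exP3.c3 = 64 := by rw [Datum.c3, m1]; simp [exP3]; norm_num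

theorem c2 : exBl.c3 = 54 := by rw [Datum.c3, m2]; simp [exBl]; norm_num

end EXx

theorem p_EX (hKBD : S_KBD) :
    S_EX := by
  refine ⟨EXx.hodge1, EXx.adm1, EXx.hodge2, EXx.step, fun x => by rw [EXx.m2]; ring, EXx.c2,
    fun n mu p => (hKBD 2 64 n mu p).subset ?_,
    .step (.base ⟨EXx.hodge1, by rw [EXx.c1]; norm_num, rfl⟩ EXx.hodge1) EXx.hodge2 EXx.step⟩
  rintro q ⟨D, ⟨a, b, -⟩, c, d⟩
  exact ⟨D, ⟨a, by exact_mod_cast b⟩, c, d⟩

end Pool.Agent.P.MP_33ab4b_ag.B

end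

section

/-! Step CK. -/

set_option autoImplicit false

namespace Pool.Agent.P.MP_33ab4b_ag.B

open Pool.Agent.P.MP_33ab4b_ag.T hiding tri
open Pool.Agent.P.MP_33ab4b_ag.T.Hq
open Filter

namespace CKx

/-- The statement `S_CKH` in coordinates given by an automorphism over `A`. -/
theorem comap (hCKH : S_CKH) {K : Type} [Field K] [LinearOrder K] [IsStrictOrderedRing K]
    {hf : HF K} {n : ℕ} (g : AIso hf n) (mu : Tri K (Vec K n)) (p phi : Frm K n)
    (c kap Del : Vec K n) (h1 : Sym3 mu) (h2 : TS (tpull mu g.g.toLinearMap))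
    (h3 : FS (p ∘ₗ g.g.toLinearMap)) (h4 : FA hf phi) (h5 : VA hf c) (h6 : phi c = 2)
    (h7 : ∀ x y z, phi x = 0 → phi y = 0 → phi z = 0 → mu x y z = 0)
    (h8 : ∀ x, phi x = 0 → (∀ y, phi y = 0 → mu c x y = 0) → x = 0) (h9 : phi kap = 0)
    (h10 : phi Del = 0) (h11 : ∀ x, phi x = 0 → 2 * mu c c x = 4 * mu c kap x - mu c Del x)
    (h12 : ∀ x, phi x = 0 → 2 * p x = -3 * mu c Del x) (h13 : Fi (mu c kap kap))
    (h14 : Fi (mu c Del Del - mu c kap Del)) : Fi (mu c c c) := by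
  have e : ∀ x, g.g.toLinearMap (g.g.symm x) = x := g.g.apply_symm_apply
  have := hCKH K hf n (tpull mu g.g.toLinearMap) (p ∘ₗ g.g.toLinearMap) (phi ∘ₗ g.g.toLinearMap)
    (g.g.symm c) (g.g.symm kap) (g.g.symm Del)
    ⟨fun x y z => h1.1 _ _ _, fun x y z => h1.2 _ _ _⟩ h2 h3
    (fun x hx => h4 _ ((g.va x).2 hx)) ((g.va _).1 (by rwa [g.g.apply_symm_apply]))
    (by rwa [LinearMap.comp_apply, e]) (fun x y z a b c => h7 _ _ _ a b c)
    (fun x a b => g.g.map_eq_zero_iff.1 (h8 _ a fun y hy => by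
      have := b (g.g.symm y) (by rwa [LinearMap.comp_apply, e])
      rwa [tpull_apply, e, e] at this))
    (by rwa [LinearMap.comp_apply, e]) (by rwa [LinearMap.comp_apply, e])
    (fun x a => by simp only [tpull_apply, e]; exact h11 _ a)
    (fun x a => by simp only [tpull_apply, e]; exact h12 _ a)
    (by simp only [tpull_apply, e]; exact h13) (by simp only [tpull_apply, e]; exact h14)
  simpa only [tpull_apply, e] using this

theorem hq_nat (m : ℕ) (a : ℕ → ℚ) : (m : QU) * hq a = hq fun r => (m : ℚ) * a r := by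
  rw [← Rat.cast_natCast, ← hq_const]; exact (map_mul hq _ _).symm

end CKx

open MAINx ULHx in
theorem p_CK (hCKH : S_CKH) (hULH : S_ULH) :
    S_CK := by
  intro G n mu p
  by_contra hi
  have f := Set.Infinite.natEmbedding _ hi
  choose D hD hI hc using fun k => (f k).2
  choose g hu hm hp using hI
  choose u hu using hu
  choose phi kap Del hC using fun r => (hD r).2
  have e1 : ∀ r, g r * (↑(u r)⁻¹ : Matrix (Fin n) (Fin n) ℤ) = 1 := fun r => by
    rw [← hu r]; exact (u r).mul_inv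
  have e2 : ∀ r, (↑(u r)⁻¹ : Matrix (Fin n) (Fin n) ℤ) * g r = 1 := fun r => by
    rw [← hu r]; exact (u r).inv_mul
  have ho := hULH G n D (.of_forall fun r => (hD r).1)
  have ec : (ul D).c = hw fun r => (D r).c := rfl
  have z : ∀ x : ℕ → Fin n → ℚ, fmK (hw phi) (hw x) = 0 ↔ ∀ᶠ r in UF, phi r ⬝ᵥ x r = 0 :=
    fun x => by rw [fmK_hw', hq_zero]
  have fi : Fi ((ul D).mu (ul D).c (ul D).c (ul D).c) := by
    refine CKx.comap hCKH (ua g _ e1 e2) (ul D).mu (ul D).p (fmK (hw phi)) (ul D).c (hw kap)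
      (hw Del) ho.sym (TS.of_basis fun i j k => ?_) (FS.of_basis fun i => ?_) (fun x hx => ?_)
      ho.cA ?_ (fun x y w a b c => ?_) (fun x a b => ?_)
      ((z _).2 (.of_forall fun r => (hC r).phi_kap)) ((z _).2 (.of_forall fun r => (hC r).phi_Del))
      (fun x a => ?_) (fun x a => ?_) ?_ ?_
    · change Std ((ul D).mu (um g _) (um g _) (um g _))
      rw [hw_single i, hw_single j, hw_single k, um_hw, um_hw, um_hw, ul_mu]
      simp only [hm]
      rw [hq_const]; exact Std.rat _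
    · change Std ((ul D).p (um g _))
      rw [hw_single i, um_hw, ul_p]
      simp only [hp]
      rw [hq_const]; exact Std.rat _
    · rw [fmK_apply]
      exact Subring.sum_mem _ fun j _ => Subring.mul_mem _
        (A_of_Z (Z_hq.2 (.of_forall fun r => (hC r).phi_int j))) (hx j)
    · rw [ec, fmK_hw']
      simp only [fun r => (hC r).phi_c]
      rw [hq_const]; norm_num
    · obtain ⟨x, rfl⟩ := hw_surj x
      obtain ⟨y, rfl⟩ := hw_surj y
      obtain ⟨w, rfl⟩ := hw_surj w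
      rw [ul_mu, hq_zero]
      filter_upwards [(z _).1 a, (z _).1 b, (z _).1 c] with r using (hC r).vanish _ _ _
    · obtain ⟨x, rfl⟩ := hw_surj x
      rw [← hw_zero, hw_eq]
      have := los (p := fun r y => phi r ⬝ᵥ y = 0 → (D r).m (D r).c (x r) y = 0) fun y => by
        by_cases h1 : ∀ᶠ r in UF, phi r ⬝ᵥ y r = 0
        · have := b _ ((z _).2 h1)
          rw [ec, ul_mu, hq_zero] at this
          exact this.mono fun r e _ => e
        · exact (Ultrafilter.eventually_not.2 h1).mono fun r e e' => absurd e' e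
      filter_upwards [(z _).1 a, this] with r using (hC r).nondeg _
    · obtain ⟨x, rfl⟩ := hw_surj x
      have a2 := CKx.hq_nat 2
      have a4 := CKx.hq_nat 4
      push_cast at a2 a4
      rw [ec, ul_mu, ul_mu, ul_mu, a2, a4, ← map_sub, hq_eq]
      filter_upwards [(z _).1 a] with r using (hC r).cc_eq _
    · obtain ⟨x, rfl⟩ := hw_surj x
      have a2 := CKx.hq_nat 2
      have a3 := CKx.hq_nat 3
      push_cast at a2 a3
      rw [ec, ul_mu, ul_p, a2, neg_mul, a3, ← map_neg, hq_eq]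
      filter_upwards [(z _).1 a] with r h using ((hC r).p_eq _ h).trans (neg_mul _ _)
    · rw [ec, ul_mu]
      exact fi_hq (.of_forall fun r => (hC r).kap_le)
    · rw [ec, ul_mu, ul_mu, ← map_sub]
      exact fi_hq (.of_forall fun r => (hC r).Del_le)
  obtain ⟨q, hq'⟩ := A_std_of_fi (ho.muA _ _ _ ho.cA ho.cA ho.cA) fi
  change (ul D).c3 = _ at hq'
  rw [ul_c3, ← hq_const, hq_eq] at hq'
  refine Set.Finite.notMem_hyperfilter (Set.Subsingleton.finite fun k hk l hl => ?_) hq'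
  refine f.injective (Subtype.ext ?_)
  rw [hc, hc]
  exact hk.trans hl.symm

end Pool.Agent.P.MP_33ab4b_ag.B

end

section

/-! Step CADM. -/

set_option autoImplicit false

namespace Pool.Agent.P.MP_33ab4b_ag.B

open Pool.Agent.P.MP_33ab4b_ag.T hiding tri
open Pool.Agent.P.MP_33ab4b_ag.T.Hq
open Filter

namespace CADMx

variable {n : ℕ} {G : ℕ} {D : Datum n}

theorem m_lin (D : Datum n) (s : ℚ) (x y z w : Fin n → ℚ) :
    D.m (s • x + y) z w = s * D.m x z w + D.m y z w := by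
  simp only [Datum.m, tri, Finset.mul_sum, ← Finset.sum_add_distrib, Pi.add_apply, Pi.smul_apply,
    smul_eq_mul]
  refine Finset.sum_congr rfl fun i _ => Finset.sum_congr rfl fun j _ =>
    Finset.sum_congr rfl fun k _ => by ring

theorem m12 (h : D.Hodge G) (x y z : Fin n → ℚ) : D.m x y z = D.m y x z := by
  simp only [Datum.m, tri]
  rw [Finset.sum_comm]
  refine Finset.sum_congr rfl fun i _ => Finset.sum_congr rfl fun j _ =>
    Finset.sum_congr rfl fun k _ => by rw [h.sym12 j i k]; ring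

theorem m23 (h : D.Hodge G) (x y z : Fin n → ℚ) : D.m x y z = D.m x z y := by
  simp only [Datum.m, tri]
  refine Finset.sum_congr rfl fun i _ => ?_
  rw [Finset.sum_comm]
  refine Finset.sum_congr rfl fun j _ =>
    Finset.sum_congr rfl fun k _ => by rw [h.sym23 i k j]; ring

theorem bound {g X Y Z : ℚ} (hg : 0 ≤ g) (hX : |X| ≤ g) (hY : |Y - Z| ≤ g) (e : Z ^ 2 = X * Y) :
    |3 * (X - Z / 2 + Y / 16)| ≤ 7 * g := by
  have h1 : |Y| ≤ g + |Z| := by
    have := abs_add_le (Y - Z) Z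
    rw [sub_add_cancel] at this
    linarith
  have h2 : |Z| ^ 2 ≤ g * (g + |Z|) := by
    rw [sq_abs, e]
    refine (le_abs_self _).trans ?_
    rw [abs_mul]
    exact mul_le_mul hX h1 (abs_nonneg _) hg
  have h3 : |Z| ≤ 2 * g := by
    by_contra c
    push Not at c
    nlinarith [abs_nonneg Z]
  have h4 := abs_le.1 hX
  have h5 := abs_le.1 h3
  have h6 := abs_le.1 (show |Y| ≤ 3 * g by linarith)
  rw [abs_le]
  constructor <;> linarith [h4.1, h4.2, h5.1, h5.2, h6.1, h6.2]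

end CADMx

open CADMx in
theorem p_CADM :
    S_CADM := by
  intro G n D phi kap Del h C f _ chi e f0 hq cf _
  have a0 : phi ⬝ᵥ f ≠ 0 := fun a => f0 <| C.nondeg f a fun y hy => by
    have h1 := C.vanish f y y a hy hy
    rw [hq] at h1
    have h2 : e * (chi ⬝ᵥ y) = 0 := by
      rcases mul_eq_zero.1 h1 with h2 | h2
      · exact h2
      · rw [h2, mul_zero]
    rw [m12 h, hq]
    linear_combination (chi ⬝ᵥ D.c) * h2
  obtain ⟨s, hs⟩ : ∃ s : ℚ, s * (phi ⬝ᵥ f) = 2 := ⟨2 / (phi ⬝ᵥ f), div_mul_cancel₀ _ a0⟩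
  have s0 : s ≠ 0 := by rintro rfl; simp at hs
  obtain ⟨c0, hc⟩ : ∃ c0, D.c = s • f + c0 := ⟨D.c - s • f, by abel⟩
  have p0 : phi ⬝ᵥ c0 = 0 := by
    have := C.phi_c
    rw [hc, dotProduct_add, dotProduct_smul, smul_eq_mul] at this
    linarith
  have cc : chi ⬝ᵥ D.c = chi ⬝ᵥ c0 := by
    rw [hc, dotProduct_add, dotProduct_smul, cf, smul_zero, zero_add]
  have lin : ∀ x y, D.m D.c x y = s * (e * (chi ⬝ᵥ x) * (chi ⬝ᵥ y)) + D.m c0 x y := fun x y => by
    rw [← hq, ← m_lin, ← hc]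
  have B : ∀ x y, phi ⬝ᵥ x = 0 → phi ⬝ᵥ y = 0 →
      D.m D.c x y = s * (e * (chi ⬝ᵥ x) * (chi ⬝ᵥ y)) := fun x y hx hy => by
    rw [lin, C.vanish c0 x y p0 hx hy, add_zero]
  have CC : ∀ x, phi ⬝ᵥ x = 0 →
      D.m D.c D.c x = 2 * (s * (e * (chi ⬝ᵥ c0) * (chi ⬝ᵥ x))) := fun x hx => by
    rw [lin, m12 h c0, B c0 x p0 hx, cc]; ring
  have c3 : D.c3 = 3 * (s * (e * (chi ⬝ᵥ c0) * (chi ⬝ᵥ c0))) := by
    rw [Datum.c3, lin, m12 h c0, m23 h D.c c0, CC c0 p0, cc]; ring
  have q0 := C.cc_eq c0 p0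
  have q1 := C.cc_eq kap C.phi_kap
  have q2 := C.cc_eq Del C.phi_Del
  rw [CC _ p0, B _ _ C.phi_kap p0, B _ _ C.phi_Del p0] at q0
  rw [CC _ C.phi_kap, B _ _ C.phi_kap C.phi_kap, B _ _ C.phi_Del C.phi_kap] at q1
  rw [CC _ C.phi_Del, B _ _ C.phi_kap C.phi_Del, B _ _ C.phi_Del C.phi_Del] at q2
  have k1 := C.kap_le
  have k2 := C.Del_le
  rw [B _ _ C.phi_kap C.phi_kap] at k1
  rw [B _ _ C.phi_kap C.phi_Del, B _ _ C.phi_Del C.phi_Del] at k2
  have g0 : (0 : ℚ) ≤ G := Nat.cast_nonneg _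
  have b := bound g0 k1 k2 (by ring)
  have e3 : D.c3 = 3 * (s * (e * (chi ⬝ᵥ kap) * (chi ⬝ᵥ kap)) -
      s * (e * (chi ⬝ᵥ kap) * (chi ⬝ᵥ Del)) / 2 + s * (e * (chi ⬝ᵥ Del) * (chi ⬝ᵥ Del)) / 16) := by
    rw [c3]
    linear_combination (3 / 4) * q0 + (3 / 4) * q1 - (3 / 16) * q2
  rw [← e3] at b
  have k3 := abs_le.1 C.chi_le
  have b' := abs_le.1 b
  refine ⟨by push_cast; linarith, ?_, Or.inr fun x _ hx => ⟨phi ⬝ᵥ x / (phi ⬝ᵥ f), ?_⟩⟩
  · rw [abs_le]
    push_cast
    constructor <;> linarith [k3.1, k3.2, b'.1, b'.2]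
  · have hp : phi ⬝ᵥ (x - (phi ⬝ᵥ x / (phi ⬝ᵥ f)) • f) = 0 := by
      rw [dotProduct_sub, dotProduct_smul, smul_eq_mul, div_mul_cancel₀ _ a0, sub_self]
    refine sub_eq_zero.1 (C.nondeg _ hp fun y hy => ?_)
    rw [B _ _ hp hy, dotProduct_sub, dotProduct_smul, hx, cf]
    simp

end Pool.Agent.P.MP_33ab4b_ag.B

end

section

/-! Step CKH. -/

set_option autoImplicit false

namespace Pool.Agent.P.MP_33ab4b_ag.B

open Pool.Agent.P.MP_33ab4b_ag.T hiding tri
open Pool.Agent.P.MP_33ab4b_ag.T.Hq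
open Filter

theorem p_CKH :
    S_CKH := by
  intro K _ _ _ hf n mu p phi c kap Del sym ts ps pA cA pc h0 nd pk pD hc hp f1 f2
  have red : ∀ w x y, phi x = 0 → phi y = 0 → mu w x y = phi w / 2 * mu c x y := by
    intro w x y hx hy
    have := h0 (w - (phi w / 2) • c) x y (by simp [pc]) hx hy
    simp only [map_sub, map_smul, LinearMap.sub_apply, LinearMap.smul_apply, smul_eq_mul] at this
    linear_combination this
  have nu0 : ∀ (d : Derivation ℚ K K) x, phi x = 0 → phi (dv d x) = 0 := by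
    intro d x hx
    by_contra hne
    have key : ∀ z, phi z = 0 →
        2 * phi (dv d x) * mu c x z + phi (dv d z) * mu c x x = 0 := by
      intro z hz
      have a := ts.der d x x z
      rw [h0 x x z hx hx hz, map_zero, sym.1 x (dv d x) z, sym13 sym x x (dv d z),
        red _ x z hx hz, red _ x x hx hx] at a
      linear_combination -2 * a
    have b : mu c x x = 0 := by
      have := key x hx
      exact (mul_eq_zero.1 (show phi (dv d x) * mu c x x = 0 by linear_combination this / 3)).resolve_left hne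
    have := nd x hx fun z hz => by
      have := key z hz
      rw [b] at this
      exact (mul_eq_zero.1 (show phi (dv d x) * mu c x z = 0 by linear_combination this / 2)).resolve_left hne
    exact hne (by rw [this, dv_zero, map_zero])
  obtain ⟨l0, s, hl0, e0⟩ := fline hf (l := phi) fun d => ⟨df d phi c / 2, LinearMap.ext fun w => by
    have hw : phi (w - (phi w / 2) • c) = 0 := by simp [pc]
    have a : df d phi (w - (phi w / 2) • c) = 0 := by
      rw [df_apply, nu0 d _ hw, hw, map_zero, sub_zero]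
    simp only [map_sub, map_smul, smul_eq_mul] at a
    simp only [LinearMap.smul_apply, smul_eq_mul]
    linear_combination a⟩
  have fs : FS phi := fs_of_line pA hl0 e0 cA (pc ▸ std_two) (by rw [pc]; exact two_ne_zero)
  obtain ⟨z, sz, z1⟩ := fs.exists_vec (by rintro rfl; simp at pc)
  have cz : ∀ x y, phi x = 0 → phi y = 0 → mu c x y = 2 * mu z x y := fun x y hx hy => by
    rw [red z x y hx hy, z1]; ring
  have uq : ∀ (v : Vec K n) (m : Frm K n), FS m → phi v = 0 →
      (∀ x, phi x = 0 → mu z v x = m x) → VS v := fun v m hm hv h =>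
    VS.of_dv hf fun d => nd _ (nu0 d v hv) fun x hx => by
      have a := ts.der d z v x
      rw [h x hx, hm.der, sz.dv, map_zero, h _ (nu0 d x hx)] at a
      rw [cz _ _ (nu0 d v hv) hx]
      simp only [LinearMap.zero_apply] at a
      linear_combination -2 * a
  have sD : VS Del := uq Del ((-3 : K)⁻¹ • p) (ps.smul std_three.neg.inv) pD fun x hx => by
    have := hp x hx
    rw [cz _ _ pD hx] at this
    simp only [LinearMap.smul_apply, smul_eq_mul]
    field_simp
    linear_combination this / 2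
  obtain ⟨b, rfl⟩ : ∃ b, c = (2 : K) • z + b := ⟨c - (2 : K) • z, by abel⟩
  have pb : phi b = 0 := by
    simp only [map_add, map_smul, z1, smul_eq_mul] at pc
    linear_combination pc
  obtain ⟨ze, rfl⟩ : ∃ ze, kap = ze + (4 : K)⁻¹ • Del + b := ⟨kap - (4 : K)⁻¹ • Del - b, by abel⟩
  have pz : phi ze = 0 := by
    simp only [map_add, map_smul, pb, pD, smul_eq_mul] at pk
    linear_combination pk
  have hz : ∀ x, phi x = 0 → mu z ze x = mu z z x := fun x hx => by
    have a := hc x hx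
    rw [cz _ x pk hx, cz _ x pD hx] at a
    simp only [map_add, map_smul, LinearMap.add_apply, LinearMap.smul_apply, smul_eq_mul,
      h0 b b x pb pb hx, sym.1 b z x] at a
    linear_combination -a / 8
  have sZ : VS ze := uq ze (mu z z) (ts.fs sz sz) pz hz
  rw [cz _ _ pk pk] at f1
  rw [cz _ _ pD pD, cz _ _ pk pD] at f2
  have r : ∀ q : ℚ, Fi (q : K) := fun q => (Std.rat q).fi
  refine ((((((r 8).mul (ts z z z sz sz sz).fi).add ((r (-6)).mul (ts z ze ze sz sZ sZ).fi)).add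
    ((r 3).mul f1)).add ((r (3 / 2)).mul f2)).add
      ((r (-21 / 8)).mul (ts z Del Del sz sD sD).fi)).of_eq ?_
  have g1 := hz b pb
  simp only [map_add, map_smul, LinearMap.add_apply, LinearMap.smul_apply, smul_eq_mul,
    h0 b b b pb pb pb, sym.1 b z, sym13 sym b b z, sym.2 z b z, sym.2 z b ze, sym.2 z b Del,
    sym.2 z Del ze]
  push_cast
  linear_combination -12 * g1

end Pool.Agent.P.MP_33ab4b_ag.B

end

section

/-! Step KBD. -/

set_option autoImplicit false

namespace Pool.Agent.P.MP_33ab4b_ag.B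

open Pool.Agent.P.MP_33ab4b_ag.T hiding tri
open Pool.Agent.P.MP_33ab4b_ag.T.Hq
open Filter

namespace KBDx

theorem tri_int {n : ℕ} (mu : Fin n → Fin n → Fin n → ℤ) (r : ℚ) (c : Fin n → ℚ)
    (h : Integral (r • c)) : ∃ z : ℤ, r ^ 3 * tri mu c c c = z := by
  choose z hz using h
  refine ⟨∑ i, ∑ j, ∑ k, mu i j k * z i * z j * z k, ?_⟩
  unfold tri
  push_cast
  rw [Finset.mul_sum]
  refine Finset.sum_congr rfl fun i _ => ?_
  rw [Finset.mul_sum]
  refine Finset.sum_congr rfl fun j _ => ?_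
  rw [Finset.mul_sum]
  refine Finset.sum_congr rfl fun k _ => ?_
  rw [← hz i, ← hz j, ← hz k]
  simp only [Pi.smul_apply, smul_eq_mul]
  ring

end KBDx

theorem p_KBD :
    S_KBD := by
  intro G M n mu p
  have hfin : (Set.Icc 1 G ×ˢ Set.Icc (-((G : ℤ) ^ 3 * M)) ((G : ℤ) ^ 3 * M)).Finite :=
    (Set.finite_Icc _ _).prod (Set.finite_Icc _ _)
  refine (hfin.image fun x : ℕ × ℤ => (x.2 : ℚ) / (x.1 : ℚ) ^ 3).subset ?_
  rintro q ⟨D, ⟨hH, hM⟩, -, rfl⟩
  obtain ⟨r, hr, hG, hI⟩ := hH.c_int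
  obtain ⟨z, hz⟩ := KBDx.tri_int D.mu r D.c hI
  have hz' : (r : ℚ) ^ 3 * D.c3 = z := hz
  have hr' : (0 : ℚ) < r := by exact_mod_cast hr
  have hG' : (r : ℚ) ≤ G := by exact_mod_cast hG
  have hb : |(z : ℚ)| ≤ (G : ℚ) ^ 3 * M := by
    rw [← hz', abs_mul, abs_of_pos (pow_pos hr' 3)]
    exact mul_le_mul (pow_le_pow_left₀ hr'.le hG' 3) hM (abs_nonneg _) (by positivity)
  have hb' : |z| ≤ (G : ℤ) ^ 3 * M := by exact_mod_cast hb
  refine ⟨(r, z), ⟨⟨hr, hG⟩, abs_le.1 hb'⟩, ?_⟩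
  change (z : ℚ) / (r : ℚ) ^ 3 = D.c3
  rw [← hz']
  field_simp

end Pool.Agent.P.MP_33ab4b_ag.B

end

section

/-! Step MONO. -/

set_option autoImplicit false

namespace Pool.Agent.P.MP_33ab4b_ag.B

open Pool.Agent.P.MP_33ab4b_ag.T hiding tri
open Pool.Agent.P.MP_33ab4b_ag.T.Hq
open Filter

namespace MONOx

theorem hodge {n : ℕ} {D : Datum n} {G G' : ℕ} (h : G ≤ G') (hD : D.Hodge G) : D.Hodge G' := by
  obtain ⟨r, h1, h2, h3⟩ := hD.c_int
  exact ⟨hD.sym12, hD.sym23, hD.H_mem, hD.c_mem, ⟨r, h1, h2.trans h, h3⟩, hD.split, hD.p_T,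
    hD.index, hD.lefschetz, hD.rank⟩

theorem step {n : ℕ} {D : Datum (n + 1)} {D' : Datum n} {i : Matrix (Fin (n + 1)) (Fin n) ℤ}
    {E : Fin (n + 1) → ℚ} {k m δ : ℚ} {G G' : ℕ} (h : G ≤ G') (s : Step G D D' i E k m δ) :
    Step G' D D' i E k m δ := by
  have hq : (G : ℚ) ≤ G' := by exact_mod_cast h
  refine ⟨s.sat, s.span, s.exc, s.mu_eq, s.p_eq, s.N_eq, s.k_pos, s.H_eq, s.c_eq, ?_⟩
  rcases s.kind with ⟨h1, h2⟩ | ⟨h1, h2, h3, h4, h5, h6⟩
  · exact Or.inl ⟨h1, h2.trans hq⟩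
  · exact Or.inr ⟨h1, h2, h3, h4, h5, h6.trans hq⟩

end MONOx

theorem p_MONO :
    S_MONO := by
  intro G G' B B' h hB n D hT
  induction hT with
  | base h1 h2 => exact Tower.base (hB _ _ h1 h2) (MONOx.hodge h h2)
  | step _ h2 h3 ih => exact Tower.step ih (MONOx.hodge h h2) (MONOx.step h h3)

end Pool.Agent.P.MP_33ab4b_ag.B

end

section

/-! Step CMAIN. -/

set_option autoImplicit false

namespace Pool.Agent.P.MP_33ab4b_ag.B

open Pool.Agent.P.MP_33ab4b_ag.T hiding tri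
open Pool.Agent.P.MP_33ab4b_ag.T.Hq
open Filter

theorem p_CMAIN (hMAIN : S_MAIN) (hCK : S_CK) (hCADM : S_CADM) (hMONO : S_MONO) :
    S_CMAIN := by
  intro G n mu p
  have h1 := hMAIN (8 * G) (fun _ D => D.Hodge G ∧ ∃ phi kap Del, Conic G D phi kap Del) (hCK G)
    (by
      rintro n D ⟨hH, phi, kap, Del, hC⟩
      exact hCADM G n D phi kap Del hH hC) n mu p
  refine h1.subset ?_
  rintro q ⟨D, hD, hiso, hq⟩
  exact ⟨D, hMONO G (8 * G) _ _ (by omega) (fun n D h hH => ⟨hH, h⟩) n D hD, hiso, hq⟩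

end Pool.Agent.P.MP_33ab4b_ag.B

end
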