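import Pool.Agent.P.MP_33ab4b_ag.B.IfaceU

section

/-! Step HFQ2. -/

set_option autoImplicit false

namespace Pool.Agent.P.MP_33ab4b_ag.B

open Pool.Agent.P.MP_33ab4b_ag.T hiding tri
open Pool.Agent.P.MP_33ab4b_ag.T.Hq
open Filter

namespace HFQ2x

theorem va_hv {n : ℕ} (z : ℕ → Fin n → ℤ) : VA Hq.hf (hv z) := fun _ => A_of_Z ⟨_, rfl⟩

theorem va_ex {n : ℕ} {x : Vec QU n} (h : VA Hq.hf x) :
    ∃ m : ℕ, 0 < m ∧ ∃ z : ℕ → Fin n → ℤ, (m : QU) • x = hv z := by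
  choose m m0 hm using h
  have : ∀ i, ∃ z : ℕ → ℤ, ((∏ i, m i : ℕ) : QU) * x i = hz z := fun i => by
    obtain ⟨c, hc⟩ := Finset.dvd_prod_of_mem m (Finset.mem_univ i)
    obtain ⟨z, e⟩ := Hq.hf.Z.mul_mem (natCast_mem _ c) (hm i)
    exact ⟨z, by rw [e, hc]; push_cast; ring⟩
  choose z e using this
  exact ⟨_, Finset.prod_pos fun i _ => m0 i, fun k i => z i k, funext e⟩

theorem hz_eq {a b : ℕ → ℤ} : hz a = hz b ↔ ∀ᶠ n in UF, a n = b n := by
  rw [hz_def, hz_def, hq_eq]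
  simp only [Int.cast_inj]

theorem hv_dot {n : ℕ} (x y : ℕ → Fin n → ℤ) : hv x ⬝ᵥ hv y = hz fun k => x k ⬝ᵥ y k := by
  have : (fun k => x k ⬝ᵥ y k) = ∑ i, (fun k => x k i) * fun k => y k i := by
    funext k; simp [Finset.sum_apply, dotProduct]
  rw [this, map_sum]
  exact Finset.sum_congr rfl fun i _ => (map_mul hz _ _).symm

theorem hv_mulVec {n : ℕ} (M : Matrix (Fin n) (Fin n) ℤ) (y : ℕ → Fin n → ℤ) :
    (M.map (Int.cast : ℤ → QU)).mulVec (hv y) = hv fun k => M.mulVec (y k) := by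
  funext i
  have e : (fun j => M.map (Int.cast : ℤ → QU) i j) = hv fun _ => M i :=
    funext fun j => (hz_const _).symm
  rw [Matrix.mulVec, e, hv_dot]
  rfl

theorem bez (x : Vec QU 3) (h : VA Hq.hf x) :
    ∃ (g : QU) (x' lam : Vec QU 3), VA Hq.hf x' ∧ VA Hq.hf lam ∧ x = g • x' ∧ lam ⬝ᵥ x' = 1 := by
  obtain ⟨m, m0, z, e⟩ := va_ex h
  have : ∀ k, ∃ (g : ℤ) (z' l : Fin 3 → ℤ), (∀ i, z k i = g * z' i) ∧ l ⬝ᵥ z' = 1 := fun k => by
    obtain ⟨z', h1, h2⟩ := Finset.extract_gcd (z k) (Finset.univ_nonempty (α := Fin 3))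
    obtain ⟨l, hl⟩ := Finset.gcd_eq_sum_mul Finset.univ z'
    exact ⟨_, z', l, fun i => h1 i (Finset.mem_univ i), by
      rw [dotProduct_comm, ← h2, hl]; rfl⟩
  choose g z' l h1 h2 using this
  have m1 : (m : QU) ≠ 0 := by positivity
  refine ⟨hz g / m, hv z', hv l, va_hv _, va_hv _, funext fun i => ?_, ?_⟩
  · have e1 : (m : QU) * x i = hz g * hv z' i := by
      refine (congrFun e i).trans ?_
      rw [hv, hv, ← map_mul]
      exact congrArg hz (funext fun k => h1 k i)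
    rw [Pi.smul_apply, smul_eq_mul, div_mul_eq_mul_div, ← e1]
    field_simp
  · rw [hv_dot, ← map_one hz]
    exact congrArg hz (funext h2)

theorem qq (hHQ : S_HQ) (hHP : S_HP) (r : ℕ) : QQ r := by
  induction r with
  | zero =>
    exact hHQ 0 fun N _ => ⟨1, one_pos, fun M _ => ⟨fun j => j.elim0, fun j => j.elim0,
      fun x => ⟨fun j => j.elim0, Subsingleton.elim _ _⟩⟩⟩
  | succ r ih => exact hHQ _ (hHP r ih)

theorem clear {r : ℕ} (M : Matrix (Fin r) (Fin r) QU) (hs : M.IsSymm) (h : ∀ i j, Std (M i j))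
    (h0 : M.det ≠ 0) : ∃ (d N : ℕ) (M0 : Matrix (Fin r) (Fin r) ℤ), 0 < d ∧ 0 < N ∧ Level M0 N ∧
      M0.map (Int.cast : ℤ → QU) = (d : QU) • M := by
  choose q hq using h
  have : ∀ i j, ∃ z : ℤ, (z : QU) = ((∏ p : Fin r × Fin r, (q p.1 p.2).den : ℕ) : QU) * M i j :=
    fun i j => by
      obtain ⟨c, hc⟩ := Finset.dvd_prod_of_mem (fun p : Fin r × Fin r => (q p.1 p.2).den)
        (Finset.mem_univ (i, j))
      refine ⟨c * (q i j).num, ?_⟩
      have t : (((q i j).den : ℕ) : QU) * (q i j : QU) = ((q i j).num : QU) := by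
        exact_mod_cast congrArg (Rat.cast : ℚ → QU) (Rat.den_mul_eq_num (q i j))
      rw [hc, hq]; push_cast; rw [← t]; ring
  choose z e using this
  set d : ℕ := ∏ p : Fin r × Fin r, (q p.1 p.2).den
  have d0 : 0 < d := Finset.prod_pos fun p _ => (q p.1 p.2).den_pos
  have e1 : (Matrix.of z).map (Int.cast : ℤ → QU) = (d : QU) • M := by
    ext i j; exact e i j
  have e2 : (Matrix.of z).det ≠ 0 := fun c => by
    have := (Int.castRingHom QU).map_det (Matrix.of z)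
    rw [c, map_zero, RingHom.mapMatrix_apply, Int.coe_castRingHom, e1, Matrix.det_smul] at this
    exact mul_ne_zero (by positivity) h0 this.symm
  refine ⟨d, (Matrix.of z).det.natAbs ^ 2, Matrix.of z, d0, by positivity, ⟨?_,
    (Matrix.of z).det • (Matrix.of z).adjugate, ?_⟩, e1⟩
  · ext i j
    have : ((z j i : ℤ) : QU) = z i j := by rw [e, e, hs.apply i j]
    exact_mod_cast this
  · rw [Matrix.mul_smul, Matrix.mul_adjugate, smul_smul]
    congr 1
    push_cast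
    rw [sq_abs, sq]

theorem herm (hHQ : S_HQ) (hHP : S_HP) (r : ℕ) (M : Matrix (Fin r) (Fin r) QU) (hs : M.IsSymm)
    (h : ∀ i j, Std (M i j)) (h0 : M.det ≠ 0) (v : Vec QU r) (va : VA Hq.hf v)
    (sv : Std (v ⬝ᵥ M.mulVec v)) (nv : v ⬝ᵥ M.mulVec v ≠ 0) :
    ∃ (s : ℕ) (b : Fin s → Vec QU r), (∀ j, VA Hq.hf (b j) ∧ b j ⬝ᵥ M.mulVec v = 0) ∧
      (∀ j k, Std (b j ⬝ᵥ M.mulVec (b k))) ∧
      ∀ x, VA Hq.hf x → x ⬝ᵥ M.mulVec v = 0 →
        ∃ t : Vec QU s, VA Hq.hf t ∧ x = ∑ j, t j • b j := by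
  rcases r with _ | r
  · exact absurd (by simp [dotProduct]) nv
  obtain ⟨d, N, M0, d0, N0, hL, eM⟩ := clear M hs h h0
  have key : ∀ x y : ℕ → Fin (r + 1) → ℤ, (hz fun k => x k ⬝ᵥ M0.mulVec (y k)) =
      d * (hv x ⬝ᵥ M.mulVec (hv y)) := fun x y => by
    rw [← hv_dot, ← hv_mulVec, eM, Matrix.smul_mulVec, dotProduct_smul, smul_eq_mul]
  obtain ⟨m, m0, z, ez⟩ := va_ex va
  have d1 : (d : QU) ≠ 0 := by positivity
  have m1 : (m : QU) ≠ 0 := by positivity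
  have kv : ∀ x : ℕ → Fin (r + 1) → ℤ, (hz fun k => x k ⬝ᵥ M0.mulVec (z k)) =
      d * m * (hv x ⬝ᵥ M.mulVec v) := fun x => by
    rw [key, ← ez, Matrix.mulVec_smul, dotProduct_smul, smul_eq_mul, mul_assoc]
  have ev : (hz fun k => z k ⬝ᵥ M0.mulVec (z k)) = d * m * (m * (v ⬝ᵥ M.mulVec v)) := by
    rw [kv, ← ez, smul_dotProduct, smul_eq_mul]
  obtain ⟨s, es⟩ := Hq.hf.int_of_fi (x := hz fun k => z k ⬝ᵥ M0.mulVec (z k)) ⟨_, rfl⟩ (by
    rw [ev]; exact (((Std.nat d).mul (Std.nat m)).mul ((Std.nat m).mul sv)).fi)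
  have s0 : s ≠ 0 := by
    rintro rfl
    rw [ev, Int.cast_zero] at es
    exact mul_ne_zero (mul_ne_zero d1 m1) (mul_ne_zero m1 nv) es
  rw [← hz_const, hz_eq] at es
  obtain ⟨C, C0, hC⟩ := qq hHQ hHP r N s.natAbs N0
  have : ∀ k, ∃ b : Fin r → Fin (r + 1) → ℤ, z k ⬝ᵥ M0.mulVec (z k) = s →
      (∀ j, b j ⬝ᵥ M0.mulVec (z k) = 0) ∧ (∀ j j', |b j ⬝ᵥ M0.mulVec (b j')| ≤ C) ∧
      ∀ x : Fin (r + 1) → ℤ, x ⬝ᵥ M0.mulVec (z k) = 0 →
        ∃ t : Fin r → ℤ, (C : ℤ) • x = ∑ j, t j • b j := fun k => by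
    by_cases c : z k ⬝ᵥ M0.mulVec (z k) = s
    · obtain ⟨b, hb⟩ := hC M0 hL (z k) (by rwa [c]) (by rw [c, Int.natCast_natAbs])
      exact ⟨b, fun _ => hb⟩
    · exact ⟨0, fun c' => absurd c' c⟩
  choose b hb using this
  refine ⟨r, fun j => hv fun k => b k j, fun j => ⟨va_hv _, ?_⟩, fun j j' => ?_, fun x vx ex => ?_⟩
  · have e := kv fun k => b k j
    rw [show (hz fun k => b k j ⬝ᵥ M0.mulVec (z k)) = hz 0 from
      hz_eq.2 (es.mono fun k c => (hb k c).1 j), map_zero] at e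
    exact (mul_eq_zero.1 e.symm).resolve_left (mul_ne_zero d1 m1)
  · have e := key (fun k => b k j) fun k => b k j'
    have f : Std (hz fun k => b k j ⬝ᵥ M0.mulVec (b k j')) :=
      Hq.hf.std_of_fi ⟨_, rfl⟩ (fi_hq (G := C) (a := fun k =>
        ((b k j ⬝ᵥ M0.mulVec (b k j') : ℤ) : ℚ)) (es.mono fun k c => by
          exact_mod_cast (hb k c).2.1 j j'))
    exact (f.div (Std.nat d)).of_eq (by rw [e]; field_simp)
  · obtain ⟨n, n0, y, ey⟩ := va_ex vx
    have e := kv y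
    rw [← ey, smul_dotProduct, ex, smul_zero, mul_zero, ← map_zero hz, hz_eq] at e
    have : ∀ k, ∃ t : Fin r → ℤ, z k ⬝ᵥ M0.mulVec (z k) = s ∧ y k ⬝ᵥ M0.mulVec (z k) = 0 →
        (C : ℤ) • y k = ∑ j, t j • b k j := fun k => by
      by_cases c : z k ⬝ᵥ M0.mulVec (z k) = s ∧ y k ⬝ᵥ M0.mulVec (z k) = 0
      · obtain ⟨t, ht⟩ := (hb k c.1).2.2 (y k) c.2
        exact ⟨t, fun _ => ht⟩
      · exact ⟨0, fun c' => absurd c' c⟩
    choose t ht using this
    have n1 : (n : QU) ≠ 0 := by positivity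
    have C1 : (C : QU) ≠ 0 := by positivity
    refine ⟨((C : QU) * n)⁻¹ • hv t,
      (va_hv t).smul (A_of_std ((Std.nat C).mul (Std.nat n)).inv), funext fun i => ?_⟩
    have e1 : (C : QU) * (n * x i) = hv t ⬝ᵥ hv fun k j => b k j i := by
      rw [hv_dot, show (n : QU) * x i = hz fun k => y k i from congrFun ey i, ← Int.cast_natCast,
        ← hz_const, ← map_mul]
      refine hz_eq.2 ((es.and e).mono fun k c => ?_)
      simpa [Finset.sum_apply, dotProduct] using congrFun (ht k c) i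
    have e2 : (∑ j, (((C : QU) * n)⁻¹ • hv t) j • hv fun k => b k j) i =
        ((C : QU) * n)⁻¹ * (hv t ⬝ᵥ hv fun k j => b k j i) := by
      rw [Finset.sum_apply, dotProduct, Finset.mul_sum]
      exact Finset.sum_congr rfl fun j _ => mul_assoc _ _ _
    rw [e2, ← e1]
    field_simp

end HFQ2x

theorem p_HFQ2 (hHQ : S_HQ) (hHP : S_HP) :
    S_HFQ2 :=
  ⟨⟨Hq.hf, fun x h _ => HFQ2x.bez x h, HFQ2x.herm hHQ hHP⟩, rfl⟩

end Pool.Agent.P.MP_33ab4b_ag.B

end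

section

/-! Step ULK. -/

set_option autoImplicit false

namespace Pool.Agent.P.MP_33ab4b_ag.B

open Pool.Agent.P.MP_33ab4b_ag.T hiding tri
open Pool.Agent.P.MP_33ab4b_ag.T.Hq
open Filter

namespace ULKx

/-- The columns of an integer matrix. -/
def col {n : ℕ} (g : Matrix (Fin n) (Fin n) ℤ) (j : Fin n) : Fin n → ℚ := fun i => (g i j : ℚ)

theorem app_eq {n : ℕ} (g : Matrix (Fin n) (Fin n) ℤ) (x : Fin n → ℚ) :
    app g x = ∑ a, x a • col g a := by
  funext i; simp [app, col, Finset.sum_apply, mul_comm]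

theorem tri_s1 {n : ℕ} (mu : Fin n → Fin n → Fin n → ℤ) (s : Fin n → ℚ)
    (v : Fin n → Fin n → ℚ) (y z : Fin n → ℚ) :
    tri mu (∑ a, s a • v a) y z = ∑ a, s a * tri mu (v a) y z := by
  simp only [tri, Finset.sum_apply, Pi.smul_apply, smul_eq_mul, Finset.mul_sum, Finset.sum_mul]
  symm
  rw [Finset.sum_comm]
  refine Finset.sum_congr rfl fun i _ => ?_
  rw [Finset.sum_comm]
  refine Finset.sum_congr rfl fun j _ => ?_
  rw [Finset.sum_comm]
  exact Finset.sum_congr rfl fun k _ => Finset.sum_congr rfl fun a _ => by ring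

theorem tri_s2 {n : ℕ} (mu : Fin n → Fin n → Fin n → ℤ) (s : Fin n → ℚ)
    (v : Fin n → Fin n → ℚ) (x z : Fin n → ℚ) :
    tri mu x (∑ a, s a • v a) z = ∑ a, s a * tri mu x (v a) z := by
  simp only [tri, Finset.sum_apply, Pi.smul_apply, smul_eq_mul, Finset.mul_sum, Finset.sum_mul]
  symm
  rw [Finset.sum_comm]
  refine Finset.sum_congr rfl fun i _ => ?_
  rw [Finset.sum_comm]
  refine Finset.sum_congr rfl fun j _ => ?_
  rw [Finset.sum_comm]
  exact Finset.sum_congr rfl fun k _ => Finset.sum_congr rfl fun a _ => by ring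

theorem tri_s3 {n : ℕ} (mu : Fin n → Fin n → Fin n → ℤ) (s : Fin n → ℚ)
    (v : Fin n → Fin n → ℚ) (x y : Fin n → ℚ) :
    tri mu x y (∑ a, s a • v a) = ∑ a, s a * tri mu x y (v a) := by
  simp only [tri, Finset.sum_apply, Pi.smul_apply, smul_eq_mul, Finset.mul_sum, Finset.sum_mul]
  symm
  rw [Finset.sum_comm]
  refine Finset.sum_congr rfl fun i _ => ?_
  rw [Finset.sum_comm]
  refine Finset.sum_congr rfl fun j _ => ?_
  rw [Finset.sum_comm]
  exact Finset.sum_congr rfl fun k _ => Finset.sum_congr rfl fun a _ => by ring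

theorem tri_col {n : ℕ} (mu : Fin n → Fin n → Fin n → ℤ) (g : Matrix (Fin n) (Fin n) ℤ)
    (a b c : Fin n) : ((⌊tri mu (col g a) (col g b) (col g c)⌋ : ℤ) : ℚ) =
      tri mu (col g a) (col g b) (col g c) := by
  have : tri mu (col g a) (col g b) (col g c) =
      ((∑ i, ∑ j, ∑ k, mu i j k * g i a * g j b * g k c : ℤ) : ℚ) := by
    simp [tri, col]
  rw [this, Int.floor_intCast]

theorem iso_of {n : ℕ} (D : Datum n) (g : Matrix (Fin n) (Fin n) ℤ) (hg : IsUnit g)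
    (q : Fin n → Fin n → Fin n → ℚ) (p : Fin n → ℚ)
    (hq : ∀ a b c, D.m (col g a) (col g b) (col g c) = q a b c)
    (hp : ∀ a, D.p ⬝ᵥ col g a = p a) : D.Iso (fun a b c => ⌊q a b c⌋) p := by
  refine ⟨g, hg, fun x y z => ?_, fun x => ?_⟩
  · rw [app_eq, app_eq, app_eq, Datum.m, tri_s1]
    refine Finset.sum_congr rfl fun a _ => ?_
    rw [tri_s2, Finset.mul_sum]
    refine Finset.sum_congr rfl fun b _ => ?_
    rw [tri_s3, Finset.mul_sum, Finset.mul_sum]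
    refine Finset.sum_congr rfl fun c _ => ?_
    simp only [← hq, Datum.m, tri_col]
    ring
  · rw [app_eq, dotProduct_sum]
    refine Finset.sum_congr rfl fun a _ => ?_
    rw [dotProduct_smul, hp, smul_eq_mul, mul_comm]

end ULKx

open ULKx in
theorem p_ULK (hLAT : S_LAT) :
    S_ULK := by
  intro B hB n D hD g hT hF
  obtain ⟨U, V, hZ, hUV, hS⟩ := hLAT QU Hq.hf n g
  choose u hu using fun i j => (hZ i j).1
  choose v hv using fun i j => (hZ i j).2
  let A : ℕ → Matrix (Fin n) (Fin n) ℤ := fun r i j => u i j r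
  let C : ℕ → Matrix (Fin n) (Fin n) ℤ := fun r i j => v i j r
  have h1 : ∀ᶠ r in UF, A r * C r = 1 := by
    simp only [← Matrix.ext_iff, eventually_all]
    intro i j
    have e := congrFun (congrFun hUV i) j
    have e1 : (U * V) i j = hz fun r => (A r * C r) i j := by
      have : (fun r => (A r * C r) i j) = ∑ k, u i k * v k j := by
        funext r; simp [Matrix.mul_apply, Finset.sum_apply, A, C]
      rw [this, map_sum, Matrix.mul_apply]
      exact Finset.sum_congr rfl fun k _ => by rw [map_mul, hu, hv]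
    have e2 : (1 : Matrix (Fin n) (Fin n) QU) i j =
        hz fun _ => (1 : Matrix (Fin n) (Fin n) ℤ) i j := by
      rw [hz_const]; by_cases h : i = j <;> simp [Matrix.one_apply, h]
    rw [e1, e2, hz_def, hz_def, hq_eq] at e
    exact e.mono fun r h => by exact_mod_cast h
  have hc : ∀ j, g.g.toLinearMap (g.g.symm fun i => U i j) = hw fun r => col (A r) j := fun j => by
    rw [LinearEquiv.coe_coe, LinearEquiv.apply_symm_apply]
    funext i; exact (hu i j).symm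
  have h2 : ∀ a b c, ∃ q : ℚ, ∀ᶠ r in UF,
      (D r).m (col (A r) a) (col (A r) b) (col (A r) c) = q := fun a b c => by
    obtain ⟨q, e⟩ := hT _ _ _ (hS a) (hS b) (hS c)
    refine ⟨q, ?_⟩
    change (ul D).mu (g.g.toLinearMap _) (g.g.toLinearMap _) (g.g.toLinearMap _) = _ at e
    rwa [hc, hc, hc, ul_mu, ← hq_const, hq_eq] at e
  have h3 : ∀ a, ∃ q : ℚ, ∀ᶠ r in UF, (D r).p ⬝ᵥ col (A r) a = q := fun a => by
    obtain ⟨q, e⟩ := hF _ (hS a)
    refine ⟨q, ?_⟩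
    change (ul D).p (g.g.toLinearMap _) = _ at e
    rwa [hc, ul_p, ← hq_const, hq_eq] at e
  choose q hq using h2
  choose p hp using h3
  have h2 : ∀ᶠ r in UF, ∀ a b c, (D r).m (col (A r) a) (col (A r) b) (col (A r) c) = q a b c :=
    eventually_all.2 fun a => eventually_all.2 fun b => eventually_all.2 fun c => hq a b c
  obtain ⟨M, hM⟩ := ((hB n (fun a b c => ⌊q a b c⌋) p).image fun x => |x|).bddAbove
  obtain ⟨G, hG⟩ := exists_nat_ge M
  rw [ul_c3]
  refine fi_hq (G := G) ((hD.and (h1.and (h2.and (eventually_all.2 hp)))).mono ?_)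
  rintro r ⟨a, b, c, d⟩
  refine (hM ⟨_, ⟨D r, a, iso_of _ (A r) ?_ q p c d, rfl⟩, rfl⟩).trans hG
  exact (Matrix.isUnit_iff_isUnit_det _).2 (Matrix.isUnit_det_of_right_inverse b)

end Pool.Agent.P.MP_33ab4b_ag.B

end

section

/-! Step ULA. -/

set_option autoImplicit false

namespace Pool.Agent.P.MP_33ab4b_ag.B

open Pool.Agent.P.MP_33ab4b_ag.T hiding tri
open Pool.Agent.P.MP_33ab4b_ag.T.Hq
open Filter

namespace ULAx

theorem los_all {α : Type} [Nonempty α] {P : ℕ → α → Prop}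
    (h : ∀ x : ℕ → α, ∀ᶠ r in UF, P r (x r)) : ∀ᶠ r in UF, ∀ x, P r x := by
  by_contra c
  have c' := Ultrafilter.eventually_not.2 c
  have : ∀ r, ∃ x, P r x → ∀ y, P r y := fun r => by
    by_cases e : ∀ y, P r y
    · exact ⟨Classical.arbitrary α, fun _ => e⟩
    · obtain ⟨x, hx⟩ := not_forall.1 e
      exact ⟨x, fun a => absurd a hx⟩
  choose x hx using this
  obtain ⟨r, a, b⟩ := ((h x).and c').exists
  exact b (hx r a)

theorem los_ex {α : Type} [Nonempty α] {P : ℕ → α → Prop}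
    (h : ∀ᶠ r in UF, ∃ x, P r x) : ∃ x : ℕ → α, ∀ᶠ r in UF, P r (x r) := by
  have : ∀ r, ∃ x, (∃ y, P r y) → P r x := fun r => by
    by_cases e : ∃ y, P r y
    · obtain ⟨x, hx⟩ := e
      exact ⟨x, fun _ => hx⟩
    · exact ⟨Classical.arbitrary α, fun a => absurd a e⟩
  choose x hx using this
  exact ⟨x, h.mono fun r a => hx r a⟩

theorem hq_zero {a : ℕ → ℚ} (h : hq a = 0) : ∀ᶠ r in UF, a r = 0 := by
  rw [← map_zero hq, hq_eq] at h
  exact h

end ULAx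

open ULAx in
theorem p_ULA :
    S_ULA := by
  intro G n D h f chi e sp he
  obtain ⟨f, rfl⟩ := hw_surj f
  obtain ⟨chi, rfl⟩ := frm_surj chi
  obtain ⟨e, rfl⟩ := hq_surj e
  have h1 : ∀ᶠ r in UF, f r ∈ (D r).N := mem_ulN.1 sp.mem
  have h2 : ∀ᶠ r in UF, f r ≠ 0 :=
    Ultrafilter.eventually_not.2 fun c => sp.ne (by rw [← hw_zero]; exact hw_eq.2 c)
  have h3 : ∀ᶠ r in UF, ∀ x : (Fin n → ℚ) × (Fin n → ℚ),
      (D r).m (f r) x.1 x.2 = e r * (chi r ⬝ᵥ x.1) * (chi r ⬝ᵥ x.2) := los_all fun x => by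
    have := sp.eq (hw fun r => (x r).1) (hw fun r => (x r).2)
    rw [ul_mu, fmK_hw', fmK_hw', ← map_mul, ← map_mul, hq_eq] at this
    exact this
  have h4 : ∀ᶠ r in UF, chi r ⬝ᵥ f r = 0 := hq_zero (by rw [← fmK_hw']; exact sp.z)
  have h5 : ∀ᶠ r in UF, e r * ((D r).p ⬝ᵥ f r) ≤ 0 := by
    rw [ul_p, ← map_mul, ← map_zero hq, hq_le] at he
    exact he
  have k : ∀ᶠ r in UF, |(D r).c3| ≤ G ∧ |(D r).p ⬝ᵥ (D r).c| ≤ G ∧
      ((∃ s : ℚ, (D r).c = s • f r) ∨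
        ∀ x ∈ (D r).N, chi r ⬝ᵥ x = 0 → ∃ s : ℚ, x = s • f r) := by
    filter_upwards [h, h1, h2, h3, h4, h5] with r a a1 a2 a3 a4 a5
    exact a _ a1 _ _ a2 (fun x y => a3 (x, y)) a4 a5
  refine ⟨?_, ?_, ?_⟩
  · rw [ul_c3]; exact fi_hq (k.mono fun r a => a.1)
  · have := ul_p D fun r => (D r).c
    change (ul D).p (ul D).c = _ at this
    rw [this]; exact fi_hq (k.mono fun r a => a.2.1)
  · rcases Ultrafilter.eventually_or.1 (k.mono fun r a => a.2.2) with c | c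
    · obtain ⟨s, hs⟩ := los_ex c
      exact .inl ⟨hq s, by rw [← hw_smul]; exact hw_eq.2 hs⟩
    · refine .inr ?_
      rintro _ ⟨x, rfl, hx⟩ z
      have z' : ∀ᶠ r in UF, chi r ⬝ᵥ x r = 0 := hq_zero (by rw [← fmK_hw']; exact z)
      obtain ⟨s, hs⟩ := los_ex (P := fun r (s : ℚ) => x r = s • f r) (by
        filter_upwards [c, hx, z'] with r a b b'
        exact a _ b b')
      exact ⟨hq s, by rw [← hw_smul]; exact hw_eq.2 hs⟩

end Pool.Agent.P.MP_33ab4b_ag.B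

end

section

/-! Step ULT. -/

set_option autoImplicit false

namespace Pool.Agent.P.MP_33ab4b_ag.B

open Pool.Agent.P.MP_33ab4b_ag.T hiding tri
open Pool.Agent.P.MP_33ab4b_ag.T.Hq
open Filter

namespace ULTx

theorem inv0 {G : ℕ} {B : ∀ n, Datum n → Prop} {D : Datum 0} (h : Tower G B 0 D) :
    B 0 D ∧ D.Hodge G := by
  cases h with
  | base h1 h2 => exact ⟨h1, h2⟩

theorem inv1 {G : ℕ} {B : ∀ n, Datum n → Prop} {n : ℕ} {D : Datum (n + 1)}
    (h : Tower G B (n + 1) D) :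
    (B (n + 1) D ∧ D.Hodge G) ∨
      ∃ (D' : Datum n) (i : Matrix (Fin (n + 1)) (Fin n) ℤ) (E : Fin (n + 1) → ℚ) (k m δ : ℚ),
        Tower G B n D' ∧ D.Hodge G ∧ Step G D D' i E k m δ := by
  cases h with
  | base h1 h2 => exact Or.inl ⟨h1, h2⟩
  | step h1 h2 h3 => exact Or.inr ⟨_, _, _, _, _, _, h1, h2, h3⟩

theorem base (hULH : S_ULH) (hULA : S_ULA) (hULK : S_ULK) {G : ℕ} {B : ∀ n, Datum n → Prop}
    (hK : Kfin B) (hA : ∀ n D, B n D → D.Adm G) {n : ℕ} {D : ℕ → Datum n}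
    (h : ∀ᶠ r in UF, B n (D r) ∧ (D r).Hodge G) : HT Hq.hf n (ul D) :=
  HT.base ⟨hULK B hK n D (h.mono fun _ e => e.1), hULA G n D (h.mono fun _ e => hA n _ e.1)⟩
    (hULH G n D (h.mono fun _ e => e.2))

end ULTx

theorem p_ULT (hULH : S_ULH) (hULS : S_ULS) (hULA : S_ULA) (hULK : S_ULK) :
    S_ULT := by
  intro G B hK hA n
  induction n with
  | zero =>
    intro D h
    exact ULTx.base hULH hULA hULK hK hA (h.mono fun _ e => ULTx.inv0 e)
  | succ n ih =>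
    intro D h
    rcases Ultrafilter.eventually_or.1 (h.mono fun _ e => ULTx.inv1 e) with h1 | h1
    · exact ULTx.base hULH hULA hULK hK hA h1
    · have key : ∀ r, ∃ (D' : Datum n) (i : Matrix (Fin (n + 1)) (Fin n) ℤ)
          (E : Fin (n + 1) → ℚ) (k m δ : ℚ),
          (∃ (D' : Datum n) (i : Matrix (Fin (n + 1)) (Fin n) ℤ) (E : Fin (n + 1) → ℚ)
            (k m δ : ℚ), Tower G B n D' ∧ (D r).Hodge G ∧ Step G (D r) D' i E k m δ) →
          Tower G B n D' ∧ (D r).Hodge G ∧ Step G (D r) D' i E k m δ := by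
        intro r
        by_cases e : ∃ (D' : Datum n) (i : Matrix (Fin (n + 1)) (Fin n) ℤ) (E : Fin (n + 1) → ℚ)
            (k m δ : ℚ), Tower G B n D' ∧ (D r).Hodge G ∧ Step G (D r) D' i E k m δ
        · obtain ⟨D', i, E, k, m, δ, e⟩ := e
          exact ⟨D', i, E, k, m, δ, fun _ => e⟩
        · exact ⟨⟨0, 0, 0, 0, ⊥⟩, 0, 0, 0, 0, 0, fun e' => absurd e' e⟩
      choose D' i E k m δ hk using key
      have h2 := h1.mono fun r e => hk r e
      obtain ⟨σ, hσ⟩ := hULS G n D D' i E k m δ (h2.mono fun _ e => e.2.2)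
        (h2.mono fun _ e => e.2.1)
      exact HT.step σ (ih D' (h2.mono fun _ e => e.1)) (hULH G _ D (h2.mono fun _ e => e.2.1)) hσ

end Pool.Agent.P.MP_33ab4b_ag.B

end
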