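import Pool.Agent.P.MP_33ab4b_ag.B.PA1
import Pool.Agent.P.MP_33ab4b_ag.B.PA2
import Pool.Agent.P.MP_33ab4b_ag.B.PA3
import Pool.Agent.P.MP_33ab4b_ag.B.PA4
import Pool.Agent.P.MP_33ab4b_ag.B.PA5
import Pool.Agent.P.MP_33ab4b_ag.B.PA6
import Pool.Agent.P.MP_33ab4b_ag.B.PA7
import Pool.Agent.P.MP_33ab4b_ag.B.PA8
import Pool.Agent.P.MP_33ab4b_ag.B.PB1
import Pool.Agent.P.MP_33ab4b_ag.B.PB2
import Pool.Agent.P.MP_33ab4b_ag.B.PB3
import Pool.Agent.P.MP_33ab4b_ag.B.PB4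
import Pool.Agent.P.MP_33ab4b_ag.B.PC1
import Pool.Agent.P.MP_33ab4b_ag.B.PU1
import Pool.Agent.P.MP_33ab4b_ag.B.PU2

/-! Assembly of all steps. -/

set_option autoImplicit false

namespace Pool.Agent.P.MP_33ab4b_ag.B

theorem all_SCOMP : S_SCOMP := p_SCOMP
theorem all_SPANA : S_SPANA := p_SPANA all_SCOMP
theorem all_FO : S_FO := p_FO
theorem all_SO : S_SO := p_SO all_FO
theorem all_YN : S_YN := p_YN all_FO all_SO
theorem all_PT : S_PT := p_PT
theorem all_A0A : S_A0A := p_A0A all_FO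
theorem all_A0C : S_A0C := p_A0C all_SCOMP
theorem all_EICH : S_EICH := p_EICH
theorem all_A0D : S_A0D := p_A0D all_SPANA
theorem all_A0 : S_A0 := p_A0 all_A0A all_A0C all_EICH all_A0D
theorem all_ESTD : S_ESTD := p_ESTD all_SPANA
theorem all_Y0 : S_Y0 := p_Y0 all_FO
theorem all_CA1 : S_CA1 := p_CA1 all_FO all_YN
theorem all_BIN1 : S_BIN1 := p_BIN1
theorem all_CA2 : S_CA2 := p_CA2 all_SCOMP all_BIN1
theorem all_CA3 : S_CA3 := p_CA3 all_SCOMP all_SPANA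
theorem all_LEMI : S_LEMI := p_LEMI
theorem all_CBI : S_CBI := p_CBI all_FO all_SO all_YN all_LEMI
theorem all_CBS : S_CBS := p_CBS all_FO all_SO all_YN
theorem all_CBB1 : S_CBB1 := p_CBB1
theorem all_BIN2 : S_BIN2 := p_BIN2
theorem all_CBB2 : S_CBB2 := p_CBB2 all_SCOMP all_BIN2
theorem all_CBB3 : S_CBB3 := p_CBB3 all_SPANA
theorem all_CBA1 : S_CBA1 := p_CBA1 all_SCOMP
theorem all_TN1 : S_TN1 := p_TN1
theorem all_TFL : S_TFL := p_TFL
theorem all_TN2 : S_TN2 := p_TN2 all_TFL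
theorem all_TN3 : S_TN3 := p_TN3 all_TFL
theorem all_TN4 : S_TN4 := p_TN4
theorem all_TN5 : S_TN5 := p_TN5
theorem all_TERN : S_TERN := p_TERN all_TN1 all_TN2 all_TN3 all_TN4 all_TN5
theorem all_CBA2 : S_CBA2 := p_CBA2 all_CBA1 all_TERN all_SPANA
theorem all_STEP : S_STEP := p_STEP all_A0 all_ESTD all_Y0 all_CA1 all_CA2 all_CA3 all_CBI all_CBS all_CBB1 all_CBB2 all_CBB3 all_CBA2
theorem all_DEATH : S_DEATH := p_DEATH all_FO
theorem all_FRAME : S_FRAME := p_FRAME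
theorem all_INV : S_INV := p_INV
theorem all_REFR : S_REFR := p_REFR all_FRAME all_INV
theorem all_DN : S_DN := p_DN
theorem all_UDB : S_UDB := p_UDB
theorem all_UDP : S_UDP := p_UDP
theorem all_UDC : S_UDC := p_UDC
theorem all_UD : S_UD := p_UD all_UDB all_UDP all_UDC
theorem all_AF3 : S_AF3 := p_AF3 all_UD
theorem all_TB : S_TB := p_TB
theorem all_TP : S_TP := p_TP all_PT all_SPANA all_REFR all_DN
theorem all_TC0 : S_TC0 := p_TC0 all_STEP all_REFR all_DN all_AF3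
theorem all_TCA : S_TCA := p_TCA all_STEP all_REFR all_DN all_AF3 all_DEATH all_TC0
theorem all_TCC : S_TCC := p_TCC all_STEP all_REFR all_DN all_AF3 all_DEATH
theorem all_TCP : S_TCP := p_TCP all_STEP all_REFR all_DN all_DEATH all_PT all_ESTD
theorem all_KM : S_KM := p_KM all_TB all_TP all_TC0 all_TCA all_TCC all_TCP
theorem all_LAT : S_LAT := p_LAT
theorem all_HMINK : S_HMINK := p_HMINK
theorem all_HVAL : S_HVAL := p_HVAL all_HMINK
theorem all_HQ : S_HQ := p_HQ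
theorem all_HP : S_HP := p_HP all_HVAL
theorem all_KBD : S_KBD := p_KBD
theorem all_EX : S_EX := p_EX all_KBD
theorem all_CKH : S_CKH := p_CKH
theorem all_ULH : S_ULH := p_ULH
theorem all_CK : S_CK := p_CK all_CKH all_ULH
theorem all_CADM : S_CADM := p_CADM
theorem all_MONO : S_MONO := p_MONO
theorem all_HFQ2 : S_HFQ2 := p_HFQ2 all_HQ all_HP
theorem all_ULS : S_ULS := p_ULS
theorem all_ULA : S_ULA := p_ULA
theorem all_ULK : S_ULK := p_ULK all_LAT
theorem all_ULT : S_ULT := p_ULT all_ULH all_ULS all_ULA all_ULK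
theorem all_MAIN : S_MAIN := p_MAIN all_HFQ2 all_KM all_INV all_ULT
theorem all_CMAIN : S_CMAIN := p_CMAIN all_MAIN all_CK all_CADM all_MONO

end Pool.Agent.P.MP_33ab4b_ag.B
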