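import Pool.Agent.P.MP_33ab4b_ag.B.Defs

/-! Small library: the ring `A`, standard vectors and forms, derivations, Hodge lemmas. -/

set_option autoImplicit false
set_option linter.unusedSectionVars false

namespace Pool.Agent.P.MP_33ab4b_ag.B

open Pool.Agent.P.MP_33ab4b_ag.T hiding tri

variable {K : Type} [Field K] [LinearOrder K] [IsStrictOrderedRing K] {hf : HF K} {n : ℕ}

/-! ### The ring `A` -/

theorem A_of_Z {x : K} (h : x ∈ hf.Z) : x ∈ AR hf := ⟨1, one_pos, by simpa using h⟩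

theorem A_of_std {x : K} (h : Std x) : x ∈ AR hf := by
  obtain ⟨q, rfl⟩ := h
  refine ⟨q.den, q.den_pos, ?_⟩
  have t : ((q.den : ℕ) : K) * (q : K) = (q.num : K) := by
    exact_mod_cast congrArg (Rat.cast : ℚ → K) (Rat.den_mul_eq_num q)
  rw [t]; exact intCast_mem _ _

/-- (A1) -/
theorem A_std_of_fi {x : K} (h : x ∈ AR hf) (f : Fi x) : Std x := by
  obtain ⟨m, hm, h⟩ := h
  exact hf.std_of_fi_mul (Std.nat m) (by positivity) h f

/-- (A3) -/
theorem A_lower {x : K} (h : x ∈ AR hf) (h0 : x ≠ 0) : ∃ m : ℕ, 0 < m ∧ 1 ≤ m * |x| := by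
  obtain ⟨m, hm, h⟩ := h
  refine ⟨m, hm, ?_⟩
  have := hf.one_le_abs h (mul_ne_zero (by positivity) h0)
  rwa [abs_mul, abs_of_nonneg (by positivity : (0 : K) ≤ m)] at this

theorem A_fi_of_mul {x y : K} (h : x ∈ AR hf) (h0 : x ≠ 0) (f : Fi (x * y)) : Fi y := by
  obtain ⟨m, -, hm⟩ := A_lower h h0
  refine ((Std.nat m).fi.mul f).of_abs_le ?_
  rw [abs_mul, abs_mul, abs_of_nonneg (by positivity : (0 : K) ≤ m), ← mul_assoc]
  nlinarith [abs_nonneg y]

/-- (A2) -/
theorem A_std_left {x y : K} (hx : x ∈ AR hf) (hy : y ∈ AR hf) (s : Std (x * y)) (h0 : x * y ≠ 0) :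
    Std x :=
  A_std_of_fi hx (A_fi_of_mul hy (right_ne_zero_of_mul h0) (by rw [mul_comm]; exact s.fi))

theorem A_std_right {x y : K} (hx : x ∈ AR hf) (hy : y ∈ AR hf) (s : Std (x * y)) (h0 : x * y ≠ 0) :
    Std y :=
  A_std_left hy hx (by rwa [mul_comm]) (by rwa [mul_comm])

theorem A_not_fi {x : K} (h : x ∈ AR hf) (s : ¬ Std x) : ¬ Fi x := fun f => s (A_std_of_fi h f)

theorem A_div {x s : K} (h : x ∈ AR hf) (hs : Std s) : x / s ∈ AR hf := by
  rw [div_eq_mul_inv]; exact (AR hf).mul_mem h (A_of_std hs.inv)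

theorem A_std_of_sq {x : K} (h : x ∈ AR hf) (s : Std (x ^ 2)) : Std x := by
  rcases eq_or_ne x 0 with rfl | h0
  · exact Std.zero
  · exact A_std_left h h (by rwa [← sq]) (mul_ne_zero h0 h0)

/-- An element of `A` whose product with an infinite element is finite vanishes. -/
theorem A_eq_zero {x t : K} (h : x ∈ AR hf) (ht : ¬ Fi t) (f : Fi (x * t)) : x = 0 := by
  by_contra h0; exact ht (A_fi_of_mul h h0 f)

theorem fi_of_std_mul {s x : K} (hs : Std s) (h0 : s ≠ 0) (f : Fi (s * x)) : Fi x :=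
  (hs.inv.fi.mul f).of_eq (by field_simp)

theorem std_two : Std (2 : K) := ⟨2, by simp⟩
theorem std_three : Std (3 : K) := ⟨3, by simp⟩

/-! ### Vectors -/

namespace VS
variable {x y : Vec K n}
theorem zero : VS (0 : Vec K n) := fun _ => Std.zero
theorem add (a : VS x) (b : VS y) : VS (x + y) := fun i => (a i).add (b i)
theorem sub (a : VS x) (b : VS y) : VS (x - y) := fun i => (a i).sub (b i)
theorem neg (a : VS x) : VS (-x) := fun i => (a i).neg
theorem smul {s : K} (h : Std s) (a : VS x) : VS (s • x) := fun i => h.mul (a i)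
theorem single (i : Fin n) : VS (Pi.single i (1 : K) : Vec K n) := fun j => by
  by_cases h : j = i <;> simp [Pi.single_apply, h, Std.zero, Std.one]
theorem sum {ι : Type} (s : Finset ι) {f : ι → Vec K n} (h : ∀ i ∈ s, VS (f i)) :
    VS (∑ i ∈ s, f i) := fun j => by
  rw [Finset.sum_apply]; exact Std.sum s fun i hi => h i hi j
theorem va (a : VS x) : VA hf x := fun i => A_of_std (a i)
theorem dv (a : VS x) (d : Derivation ℚ K K) : T.dv d x = 0 := dv_std d a
theorem of_dv (hf : HF K) (h : ∀ d : Derivation ℚ K K, T.dv d x = 0) : VS x :=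
  fun i => hf.der _ fun d => congrFun (h d) i
theorem of_eq (a : VS x) (h : y = x) : VS y := h ▸ a
theorem qsmul (q : ℚ) (a : VS x) : VS (q • x) := fun i => by
  simpa [Rat.smul_def] using (Std.rat q).mul (a i)
end VS

namespace VA
variable {x y : Vec K n}
theorem zero : VA hf (0 : Vec K n) := fun _ => (AR hf).zero_mem
theorem add (a : VA hf x) (b : VA hf y) : VA hf (x + y) := fun i => (AR hf).add_mem (a i) (b i)
theorem sub (a : VA hf x) (b : VA hf y) : VA hf (x - y) := fun i => (AR hf).sub_mem (a i) (b i)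
theorem neg (a : VA hf x) : VA hf (-x) := fun i => (AR hf).neg_mem (a i)
theorem smul {s : K} (h : s ∈ AR hf) (a : VA hf x) : VA hf (s • x) :=
  fun i => (AR hf).mul_mem h (a i)
theorem single (i : Fin n) : VA hf (Pi.single i (1 : K) : Vec K n) := (VS.single i).va
theorem sum {ι : Type} (s : Finset ι) {f : ι → Vec K n} (h : ∀ i ∈ s, VA hf (f i)) :
    VA hf (∑ i ∈ s, f i) := fun j => by
  rw [Finset.sum_apply]; exact (AR hf).sum_mem fun i hi => h i hi j
theorem of_eq (a : VA hf x) (h : y = x) : VA hf y := h ▸ a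
theorem of_span {b : Set (Vec K n)} (hb : ∀ v ∈ b, VA hf v) (h : x ∈ Submodule.span (AR hf) b) :
    VA hf x := by
  induction h using Submodule.span_induction with
  | mem v hv => exact hb v hv
  | zero => exact zero
  | add _ _ _ _ a b => exact a.add b
  | smul s _ _ a => exact smul s.2 a
end VA

theorem mem_spanA_smul {b : Set (Vec K n)} {s : K} {x : Vec K n} (hs : s ∈ AR hf)
    (hx : x ∈ Submodule.span (AR hf) b) : s • x ∈ Submodule.span (AR hf) b :=
  Submodule.smul_mem _ (⟨s, hs⟩ : AR hf) hx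

theorem mem_spanQ_smul {b : Set (Vec K n)} {s : K} {x : Vec K n} (hs : Std s)
    (hx : x ∈ Submodule.span ℚ b) : s • x ∈ Submodule.span ℚ b := by
  obtain ⟨q, rfl⟩ := hs
  have : (q : K) • x = q • x := by funext i; simp [Rat.smul_def]
  rw [this]; exact Submodule.smul_mem _ q hx

theorem frm_eq (l : Frm K n) (x : Vec K n) : l x = ∑ i, x i * l (Pi.single i 1) := by
  conv_lhs => rw [pi_eq_sum_univ' x]
  simp [map_sum]

/-! ### Forms -/

namespace FS
variable {l m : Frm K n}
theorem of_basis (h : ∀ i, Std (l (Pi.single i 1))) : FS l := fun x hx => by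
  rw [frm_eq]; exact Std.sum _ fun i _ => (hx i).mul (h i)
theorem zero : FS (0 : Frm K n) := fun _ _ => Std.zero
theorem add (a : FS l) (b : FS m) : FS (l + m) := fun x h => (a x h).add (b x h)
theorem sub (a : FS l) (b : FS m) : FS (l - m) := fun x h => (a x h).sub (b x h)
theorem neg (a : FS l) : FS (-l) := fun x h => (a x h).neg
theorem smul {s : K} (h : Std s) (a : FS l) : FS (s • l) := fun x hx => h.mul (a x hx)
theorem proj (i : Fin n) : FS (LinearMap.proj i : Frm K n) := fun _ h => h i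
theorem fa (a : FS l) : FA hf l := fun x hx => by
  rw [frm_eq]; exact (AR hf).sum_mem fun i _ => (AR hf).mul_mem (hx i) (A_of_std (a _ (VS.single i)))
theorem der (a : FS l) (d : Derivation ℚ K K) (x : Vec K n) : d (l x) = l (dv d x) :=
  d_form d l (fun i => a _ (VS.single i)) x
theorem df (a : FS l) (d : Derivation ℚ K K) : B.df d l = 0 :=
  LinearMap.ext fun x => sub_eq_zero.2 (a.der d x)
theorem of_df (hf : HF K) (h : ∀ d : Derivation ℚ K K, B.df d l = 0) : FS l := fun x hx =>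
  hf.der _ fun d => by
    have : d (l x) - l (dv d x) = 0 := LinearMap.congr_fun (h d) x
    rwa [hx.dv, map_zero, sub_zero] at this
theorem of_eq (a : FS l) (h : m = l) : FS m := h ▸ a
end FS

namespace FA
variable {l m : Frm K n}
theorem of_basis (h : ∀ i, l (Pi.single i 1) ∈ AR hf) : FA hf l := fun x hx => by
  rw [frm_eq]; exact (AR hf).sum_mem fun i _ => (AR hf).mul_mem (hx i) (h i)
theorem add (a : FA hf l) (b : FA hf m) : FA hf (l + m) := fun x h => (AR hf).add_mem (a x h) (b x h)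
theorem sub (a : FA hf l) (b : FA hf m) : FA hf (l - m) := fun x h => (AR hf).sub_mem (a x h) (b x h)
theorem neg (a : FA hf l) : FA hf (-l) := fun x h => (AR hf).neg_mem (a x h)
theorem smul {s : K} (h : s ∈ AR hf) (a : FA hf l) : FA hf (s • l) :=
  fun x hx => (AR hf).mul_mem h (a x hx)
end FA

theorem df_apply (d : Derivation ℚ K K) (l : Frm K n) (x : Vec K n) :
    df d l x = d (l x) - l (dv d x) := rfl

theorem d_frm (d : Derivation ℚ K K) (l : Frm K n) (x : Vec K n) :
    d (l x) = df d l x + l (dv d x) := by rw [df_apply]; ring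

theorem df_add (d : Derivation ℚ K K) (l m : Frm K n) : df d (l + m) = df d l + df d m :=
  LinearMap.ext fun x => by simp only [df_apply, LinearMap.add_apply, map_add]; ring

theorem df_sub (d : Derivation ℚ K K) (l m : Frm K n) : df d (l - m) = df d l - df d m :=
  LinearMap.ext fun x => by simp only [df_apply, LinearMap.sub_apply, map_sub]; ring

theorem df_smul (d : Derivation ℚ K K) (s : K) (l : Frm K n) : df d (s • l) = s • df d l + d s • l :=
  LinearMap.ext fun x => by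
    simp only [df_apply, LinearMap.add_apply, LinearMap.smul_apply, smul_eq_mul,
      Derivation.leibniz]; ring

/-! ### Trilinear forms -/

theorem sym13 {L : Type} [AddCommGroup L] [Module K L] {mu : Tri K L} (h : Sym3 mu) (x y z : L) :
    mu x y z = mu z y x := by rw [h.1, h.2, h.1]

theorem symrot {L : Type} [AddCommGroup L] [Module K L] {mu : Tri K L} (h : Sym3 mu) (x y z : L) :
    mu x y z = mu y z x := by rw [h.1, h.2]

namespace TS
variable {mu : Tri K (Vec K n)}
theorem of_basis (h : ∀ i j k, Std (mu (Pi.single i 1) (Pi.single j 1) (Pi.single k 1))) :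
    TS mu := fun x y z hx hy hz => by
  have a : ∀ i j, Std (mu (Pi.single i 1) (Pi.single j 1) z) := fun i j =>
    FS.of_basis (h i j) z hz
  have b : ∀ i, Std (mu (Pi.single i 1) y z) := fun i =>
    FS.of_basis (l := (mu (Pi.single i 1)).flip z) (a i) y hy
  exact FS.of_basis (l := (mu.flip y).flip z) b x hx
theorem fs (h : TS mu) {x y : Vec K n} (hx : VS x) (hy : VS y) : FS (mu x y) :=
  fun z hz => h x y z hx hy hz
theorem ta (h : TS mu) : TA hf mu := fun x y z hx hy hz => by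
  have a : ∀ i j, mu (Pi.single i 1) (Pi.single j 1) z ∈ AR hf := fun i j =>
    (h.fs (VS.single i) (VS.single j)).fa z hz
  have b : ∀ i, mu (Pi.single i 1) y z ∈ AR hf := fun i =>
    FA.of_basis (l := (mu (Pi.single i 1)).flip z) (a i) y hy
  exact FA.of_basis (l := (mu.flip y).flip z) b x hx
/-- Leibniz rule. -/
theorem der (h : TS mu) (d : Derivation ℚ K K) (x y z : Vec K n) :
    d (mu x y z) = mu (dv d x) y z + mu x (dv d y) z + mu x y (dv d z) := by
  have e : ∀ x y z : Vec K n, mu x y z = ∑ i, ∑ j, x i * y j *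
      mu (Pi.single i 1) (Pi.single j 1) z := fun x y z => by
    have := frm_eq ((mu.flip y).flip z) x
    simp only [LinearMap.flip_apply] at this
    rw [this]
    refine Finset.sum_congr rfl fun i _ => ?_
    have := frm_eq ((mu (Pi.single i 1)).flip z) y
    simp only [LinearMap.flip_apply] at this
    rw [this, Finset.mul_sum]
    exact Finset.sum_congr rfl fun j _ => by ring
  rw [e x y z, e (dv d x) y z, e x (dv d y) z, e x y (dv d z), map_sum, ← Finset.sum_add_distrib,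
    ← Finset.sum_add_distrib]
  refine Finset.sum_congr rfl fun i _ => ?_
  rw [map_sum, ← Finset.sum_add_distrib, ← Finset.sum_add_distrib]
  refine Finset.sum_congr rfl fun j _ => ?_
  simp only [Derivation.leibniz, smul_eq_mul, (h.fs (VS.single i) (VS.single j)).der d z, dv]
  ring
end TS

theorem TA.fa {mu : Tri K (Vec K n)} (h : TA hf mu) {x y : Vec K n} (hx : VA hf x) (hy : VA hf y) :
    FA hf (mu x y) := fun z hz => h x y z hx hy hz

/-! ### Standard lines and subspaces -/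

theorem vline (hf : HF K) {x : Vec K n} (h : ∀ d : Derivation ℚ K K, ∃ c : K, dv d x = c • x) :
    ∃ (x0 : Vec K n) (s : K), VS x0 ∧ x = s • x0 := by
  by_cases z : x = 0
  · exact ⟨0, 0, VS.zero, by simp [z]⟩
  obtain ⟨i, hi⟩ := Function.ne_iff.1 z
  replace hi : x i ≠ 0 := hi
  refine ⟨(x i)⁻¹ • x, x i, fun j => hf.der _ fun d => ?_, (smul_inv_smul₀ hi x).symm⟩
  obtain ⟨c, hc⟩ := h d
  have a : ∀ j, d (x j) = c * x j := fun j => congrFun hc j
  rw [Pi.smul_apply, smul_eq_mul, inv_mul_eq_div, d.leibniz_div, a, a]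
  simp only [smul_eq_mul]; ring

theorem fline (hf : HF K) {l : Frm K n} (h : ∀ d : Derivation ℚ K K, ∃ c : K, df d l = c • l) :
    ∃ (l0 : Frm K n) (s : K), FS l0 ∧ l = s • l0 := by
  by_cases z : ∀ i, l (Pi.single i 1) = 0
  · exact ⟨l, 1, FS.of_basis fun i => by rw [z]; exact Std.zero, by simp⟩
  push Not at z
  obtain ⟨i, hi⟩ := z
  refine ⟨(l (Pi.single i 1))⁻¹ • l, l (Pi.single i 1), fun x hx => hf.der _ fun d => ?_,
    (smul_inv_smul₀ hi l).symm⟩
  obtain ⟨c, hc⟩ := h d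
  have a : ∀ y, VS y → d (l y) = c * l y := fun y hy => by
    rw [d_frm, hc, hy.dv]; simp
  rw [LinearMap.smul_apply, smul_eq_mul, inv_mul_eq_div, d.leibniz_div, a _ hx, a _ (VS.single i)]
  simp only [smul_eq_mul]; ring

/-- A nonzero standard vector is unimodular. -/
theorem VS.exists_form {x : Vec K n} (h : VS x) (h0 : x ≠ 0) : ∃ l : Frm K n, FS l ∧ l x = 1 := by
  obtain ⟨i, hi⟩ := Function.ne_iff.1 h0
  replace hi : x i ≠ 0 := hi
  exact ⟨(x i)⁻¹ • LinearMap.proj i, (FS.proj i).smul (h i).inv, by simp [hi]⟩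

/-- A nonzero standard form takes the value one on a standard vector. -/
theorem FS.exists_vec {l : Frm K n} (h : FS l) (h0 : l ≠ 0) : ∃ x, VS x ∧ l x = 1 := by
  have : ∃ i, l (Pi.single i 1) ≠ 0 := by
    by_contra c; push Not at c
    exact h0 (LinearMap.ext fun x => by rw [frm_eq]; simp [c])
  obtain ⟨i, hi⟩ := this
  exact ⟨(l (Pi.single i 1))⁻¹ • Pi.single i 1, (VS.single i).smul (h _ (VS.single i)).inv,
    by simp [hi]⟩

/-- A vector over `A` on a standard line, with a nonzero standard pairing, is standard. -/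
theorem vs_of_line {x x0 : Vec K n} {s : K} {l : Frm K n} (hx : VA hf x) (h0 : VS x0)
    (e : x = s • x0) (hl : FA hf l) (sl : Std (l x)) (nl : l x ≠ 0) : VS x := by
  have n0 : x0 ≠ 0 := by rintro rfl; simp [e] at nl
  obtain ⟨m, hm, m1⟩ := h0.exists_form n0
  have sA : s ∈ AR hf := by have := hm.fa x hx; rwa [e, map_smul, m1, smul_eq_mul, mul_one] at this
  rw [e, map_smul, smul_eq_mul] at sl nl
  rw [e]; exact h0.smul (A_std_left sA (hl _ h0.va) sl nl)

/-- A form over `A` on a standard line, with a nonzero standard pairing, is standard. -/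
theorem fs_of_line {l l0 : Frm K n} {s : K} {x : Vec K n} (hl : FA hf l) (h0 : FS l0)
    (e : l = s • l0) (hx : VA hf x) (sl : Std (l x)) (nl : l x ≠ 0) : FS l := by
  have n0 : l0 ≠ 0 := by rintro rfl; simp [e] at nl
  obtain ⟨m, hm, m1⟩ := h0.exists_vec n0
  have sA : s ∈ AR hf := by
    have := hl m hm.va; rwa [e, LinearMap.smul_apply, m1, smul_eq_mul, mul_one] at this
  rw [e, LinearMap.smul_apply, smul_eq_mul] at sl nl
  rw [e]; exact h0.smul (A_std_left sA (h0.fa _ hx) sl nl)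

namespace SSub
variable {U W : Submodule K (Vec K n)}
theorem top : SSub (⊤ : Submodule K (Vec K n)) := fun _ _ _ => trivial
theorem bot : SSub (⊥ : Submodule K (Vec K n)) := fun d w h => by
  rw [Submodule.mem_bot] at h ⊢; rw [h, dv_zero]
theorem inf (a : SSub U) (b : SSub W) : SSub (U ⊓ W) := fun d w h => ⟨a d w h.1, b d w h.2⟩
theorem ker {l : Frm K n} (h : FS l) : SSub (LinearMap.ker l) := fun d w hw => by
  rw [LinearMap.mem_ker] at hw ⊢; rw [← h.der, hw, map_zero]
theorem ann {mu : Tri K (Vec K n)} (h : TS mu) (a : SSub W) : SSub (B.ann mu W) :=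
  fun d x hx r hr y => by
    have := h.der d x r y
    rw [hx r hr, hx _ (a d r hr), hx r hr, map_zero] at this
    simpa using this.symm
theorem w0 (E : Vec K n) : SSub (W0 E) := fun d x hx l hl h0 => by
  rw [← hl.der, hx l hl h0, map_zero]
theorem span_single {x : Vec K n} (h : VS x) : SSub (Submodule.span K {x}) := fun d w hw => by
  obtain ⟨s, rfl⟩ := Submodule.mem_span_singleton.1 hw
  rw [dv_smul, h.dv, smul_zero, zero_add]
  exact Submodule.smul_mem _ _ (Submodule.mem_span_singleton_self x)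
/-- A linear map that kills the standard vectors of a standard subspace kills it. -/
theorem eq_zero (hf : HF K) (a : SSub W) {M : Type} [AddCommGroup M] [Module K M]
    (l : Vec K n →ₗ[K] M) (h : ∀ w ∈ W, VS w → l w = 0) : ∀ w ∈ W, l w = 0 := fun w hw => by
  rw [Lb.stdsub hf W a] at hw
  exact (Submodule.span_le (p := LinearMap.ker l)).2 (fun v hv => h v hv.1 hv.2) hw
theorem exists_std (hf : HF K) (a : SSub W) {M : Type} [AddCommGroup M] [Module K M]
    (l : Vec K n →ₗ[K] M) {x : Vec K n} (hx : x ∈ W) (h : l x ≠ 0) : ∃ w ∈ W, VS w ∧ l w ≠ 0 := by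
  by_contra c; push Not at c; exact h (a.eq_zero hf l c x hx)
/-- A standard subspace inside a line has a standard generator. -/
theorem exists_gen (hf : HF K) (a : SSub W) {x : Vec K n} (hx : x ∈ W) (h : x ≠ 0) :
    ∃ w ∈ W, VS w ∧ w ≠ 0 := a.exists_std hf LinearMap.id hx h
end SSub

theorem mem_ann {mu : Tri K (Vec K n)} {R : Submodule K (Vec K n)} {x : Vec K n} :
    x ∈ ann mu R ↔ ∀ r ∈ R, ∀ y, mu x r y = 0 := Iff.rfl

theorem mem_W0 {E x : Vec K n} : x ∈ W0 E ↔ ∀ l : Frm K n, FS l → l E = 0 → l x = 0 := Iff.rfl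

theorem nfm_apply (mu : Tri K (Vec K n)) (phi : Frm K n) (z0 x v : Vec K n) :
    nfm mu phi z0 x v = mu x z0 v - mu x z0 z0 / 2 * phi v := rfl

theorem mem_RA {D : HD K n} {E x : Vec K n} {l : Frm K n} :
    x ∈ RA D E l ↔ l x = 0 ∧ gam D.mu E l x = 0 := Iff.rfl

theorem mem_RB {D : HD K n} {E x : Vec K n} {l m : Frm K n} :
    x ∈ RB D E l m ↔ l x = 0 ∧ gam D.mu E l x = 0 ∧ m x = 0 := and_assoc

/-! ### Families -/

namespace BF
variable {b : Set (Vec K n)} {l m : Frm K n}
theorem bv (a : BF b l) {v : Vec K n} (h : BV b v) : Std (l v) := by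
  induction h using Submodule.span_induction with
  | mem v hv => exact a v hv
  | zero => simpa using Std.zero
  | add _ _ _ _ p q => rw [map_add]; exact p.add q
  | smul s x _ p =>
    have : s • x = (s : K) • x := by funext i; simp [Rat.smul_def]
    rw [this, map_smul]; exact (Std.rat s).mul p
theorem add (a : BF b l) (c : BF b m) : BF b (l + m) := fun x h => (a x h).add (c x h)
theorem sub (a : BF b l) (c : BF b m) : BF b (l - m) := fun x h => (a x h).sub (c x h)
theorem smul {s : K} (h : Std s) (a : BF b l) : BF b (s • l) := fun x hx => h.mul (a x hx)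
theorem congr (a : BF b l) (h : ∀ v ∈ b, m v = l v) : BF b m := fun x hx => by
  rw [h x hx]; exact a x hx
end BF

namespace BV
variable {b : Set (Vec K n)} {x y : Vec K n}
theorem of_mem (h : x ∈ b) : BV b x := Submodule.subset_span h
theorem add (a : BV b x) (c : BV b y) : BV b (x + y) := Submodule.add_mem _ a c
theorem sub (a : BV b x) (c : BV b y) : BV b (x - y) := Submodule.sub_mem _ a c
theorem smul {s : K} (h : Std s) (a : BV b x) : BV b (s • x) := mem_spanQ_smul h a
end BV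

/-! ### The form `gamma` -/

theorem gam_apply (mu : Tri K (Vec K n)) (E : Vec K n) (l : Frm K n) (x : Vec K n) :
    gam mu E l x = mu E E E * l x - mu E E x := rfl

theorem gam_E {mu : Tri K (Vec K n)} {E : Vec K n} {l : Frm K n} (h : l E = 1) :
    gam mu E l E = 0 := by rw [gam_apply, h]; ring

theorem gam_ker {mu : Tri K (Vec K n)} {E x : Vec K n} {l : Frm K n} (h : l x = 0) :
    gam mu E l x = - mu E E x := by rw [gam_apply, h]; ring

/-- The formula (Q). -/
theorem qform {mu : Tri K (Vec K n)} (hs : Sym3 mu) {E : Vec K n} {l : Frm K n} (lE : l E = 1)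
    (exc : ∀ x y, l x = 0 → l y = 0 → mu E x y = 0) (x y : Vec K n) :
    mu E x y = - l x * gam mu E l y - gam mu E l x * l y + mu E E E * l x * l y := by
  have := exc (x - l x • E) (y - l y • E) (by simp [lE]) (by simp [lE])
  simp only [map_sub, map_smul, LinearMap.sub_apply, LinearMap.smul_apply, smul_eq_mul,
    hs.2 E x E] at this
  simp only [gam_apply]; linear_combination this

theorem l_proj {E : Vec K n} {l : Frm K n} (lE : l E = 1) (x : Vec K n) : l (x - l x • E) = 0 := by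
  simp [lE]

/-! ### Hodge lemmas -/

namespace HD.Ho
variable {D : HD K n} (h : D.Ho hf)
include h

theorem nd {x : Vec K n} (e : ∀ y z, D.mu x y z = 0) : x = 0 :=
  h.lef x fun y => by rw [h.sym.1]; exact e _ _

theorem HH_ne {f : Vec K n} (m : f ∈ D.N) (n0 : f ≠ 0) (i : 0 ≤ D.mu D.H f f) :
    D.mu D.H D.H f ≠ 0 := fun e => absurd (h.index f m n0 e) (not_lt.2 i)

/-- NEG -/
theorem neg {f u : Vec K n} (m : f ∈ D.N) (n0 : f ≠ 0) (i : D.mu D.H f f = 0) (mu : u ∈ D.N)
    (o : D.mu D.H f u = 0) : D.mu D.H u u < 0 ∨ ∃ s : K, u = s • f := by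
  have a := h.HH_ne m n0 i.ge
  set s := D.mu D.H D.H u / D.mu D.H D.H f with hs
  by_cases z : u - s • f = 0
  · exact .inr ⟨s, sub_eq_zero.1 z⟩
  · have := h.index _ (D.N.sub_mem mu (D.N.smul_mem s m)) z (by
      rw [map_sub, map_smul, hs, smul_eq_mul, div_mul_cancel₀ _ a, sub_self])
    simp only [map_sub, map_smul, LinearMap.sub_apply, LinearMap.smul_apply, smul_eq_mul,
      h.sym.2 D.H u f, i, o] at this
    exact .inl (by simpa using this)

theorem T_HN {t x : Vec K n} (ht : D.T t) (hx : x ∈ D.N) : D.mu D.H x t = 0 := by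
  rw [sym13 h.sym]; exact ht _ hx _ h.Hm

/-- NT -/
theorem nt {x : Vec K n} (e : ∀ t, D.T t → D.mu D.H x t = 0) : x ∈ D.N := by
  obtain ⟨y, hy, ht⟩ := h.split x
  have : x - y = 0 := h.lef _ fun z => by
    obtain ⟨z', hz, hz'⟩ := h.split z
    have a := e _ hz'
    have b := h.T_HN hz' hy
    have c := h.T_HN ht hz
    rw [h.sym.2] at c
    simp only [map_sub, LinearMap.sub_apply] at a b c ⊢
    linear_combination a - b + c
  rw [sub_eq_zero.1 this]; exact hy

theorem sp_H {f : Vec K n} {chi : Frm K n} {e : K} (s : D.Sp f chi e) : e ≠ 0 ∧ chi D.H ≠ 0 := by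
  have a := h.HH_ne s.mem s.ne (by rw [sym13 h.sym, s.eq, s.z]; simp)
  rw [sym13 h.sym, s.eq] at a
  exact ⟨left_ne_zero_of_mul (left_ne_zero_of_mul a), right_ne_zero_of_mul a⟩

theorem sp_T {f t : Vec K n} {chi : Frm K n} {e : K} (s : D.Sp f chi e) (ht : D.T t) :
    chi t = 0 := by
  have a := ht _ s.mem _ h.Hm
  rw [h.sym.1, s.eq] at a
  obtain ⟨b, c⟩ := h.sp_H s
  simpa [b, c] using a

/-- NEG for a special pair. -/
theorem sp_neg {f u : Vec K n} {chi : Frm K n} {e : K} (s : D.Sp f chi e) (mu : u ∈ D.N)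
    (o : chi u = 0) : D.mu D.H u u < 0 ∨ ∃ s : K, u = s • f :=
  h.neg s.mem s.ne (by rw [h.sym.1, s.eq, s.z]; simp) mu (by rw [h.sym.1, s.eq, o]; simp)

/-- UNIQ -/
theorem uniq {f f' : Vec K n} {chi chi' : Frm K n} {e e' : K} (s : D.Sp f chi e)
    (s' : D.Sp f' chi' e') : ∃ a b : K, a ≠ 0 ∧ b ≠ 0 ∧ f' = a • f ∧ chi' = b • chi := by
  obtain ⟨e0, c0⟩ := h.sp_H s
  obtain ⟨e0', c0'⟩ := h.sp_H s'
  have a : chi f' = 0 := by
    have := s.eq f' f'
    rw [h.sym.1, s'.eq, s'.z] at this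
    simpa [e0] using this.symm
  rcases h.sp_neg s s'.mem a with c | ⟨a, ha⟩
  · rw [h.sym.1, s'.eq, s'.z] at c; simp at c
  have a0 : a ≠ 0 := by rintro rfl; exact s'.ne (by simp [ha])
  refine ⟨a, chi' D.H / chi D.H, a0, div_ne_zero c0' c0, ha, LinearMap.ext fun x => ?_⟩
  have p := s'.eq D.H x
  have q := s'.eq D.H D.H
  rw [ha, map_smul, LinearMap.smul_apply, LinearMap.smul_apply, s.eq, smul_eq_mul] at p q
  rw [LinearMap.smul_apply, smul_eq_mul, div_mul_eq_mul_div, eq_div_iff c0]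
  apply mul_left_cancel₀ (mul_ne_zero e0' c0')
  linear_combination (chi x) * q - (chi D.H) * p

/-- UNIQ for standard pairs. -/
theorem uniqs {f f' : Vec K n} {chi chi' : Frm K n} {e e' : K} (s : D.SSp f chi e)
    (s' : D.SSp f' chi' e') :
    ∃ a b : K, Std a ∧ Std b ∧ a ≠ 0 ∧ b ≠ 0 ∧ f' = a • f ∧ chi' = b • chi := by
  obtain ⟨a, b, a0, b0, ha, hb⟩ := h.uniq s.toSp s'.toSp
  obtain ⟨l, hl, l1⟩ := s.sf.exists_form s.ne
  obtain ⟨x, hx, x1⟩ := s.sc.exists_vec (fun c => (h.sp_H s.toSp).2 (by simp [c]))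
  refine ⟨a, b, (hl _ s'.sf).of_eq (by simp [ha, l1]), (s'.sc _ hx).of_eq (by simp [hb, x1]),
    a0, b0, ha, hb⟩

theorem ssp_z {f : Vec K n} {chi : Frm K n} {e : K} (s : D.SSp f chi e) : ∃ z, VS z ∧ chi z = 1 :=
  s.sc.exists_vec (fun c => (h.sp_H s.toSp).2 (by simp [c]))

end HD.Ho

theorem HT.ho {D : HD K n} (h : HT hf n D) : D.Ho hf := by cases h <;> assumption

/-! ### The curve context -/

namespace Cw
variable {D : HD K n} {E : Vec K n} {l : Frm K n} (X : Cw hf D E l)
include X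

theorem q (x y : Vec K n) : D.mu E x y =
    - l x * gam D.mu E l y - gam D.mu E l x * l y + D.mu E E E * l x * l y :=
  qform X.ho.sym X.lE X.exc x y

theorem gE : gam D.mu E l E = 0 := gam_E X.lE

theorem aA : D.mu E E E ∈ AR hf := X.ho.muA _ _ _ X.EA X.EA X.EA

theorem gA : FA hf (gam D.mu E l) := (X.lA.smul X.aA).sub (X.ho.muA.fa X.EA X.EA)

theorem g_ne : ∃ h ∈ D.N, l h = 0 ∧ gam D.mu E l h ≠ 0 := by
  obtain ⟨h, a, b, c⟩ := X.hN
  exact ⟨h, a, b, by rw [gam_ker b]; exact neg_ne_zero.2 c⟩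

theorem T_ker {t : Vec K n} (ht : D.T t) : l t = 0 ∧ gam D.mu E l t = 0 := by
  obtain ⟨h, a, b, c⟩ := X.g_ne
  have p := ht _ X.EN _ a
  rw [X.ho.sym.1, X.q, b] at p
  have l0 : l t = 0 := by simpa [c] using p
  refine ⟨l0, ?_⟩
  rw [gam_ker l0, sym13 X.ho.sym, ht _ X.EN _ X.EN, neg_zero]

/-- VERT -/
theorem vert {f : Vec K n} {chi : Frm K n} {e : K} (s : D.Sp f chi e) (lf : l f = 0) :
    chi E = 0 ∧ gam D.mu E l f = 0 := by
  have c : chi E = 0 := by
    by_contra c
    refine s.ne (X.nd f lf fun y z hy _ => ?_)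
    have := X.exc f y lf hy
    rw [X.ho.sym.1, s.eq] at this
    have c' : chi y = 0 := by simpa [c, (X.ho.sp_H s).1] using this
    rw [s.eq, c']; simp
  refine ⟨c, ?_⟩
  rw [gam_ker lf, sym13 X.ho.sym, s.eq, c]; simp

/-- A form that kills `E` and the common kernel of `l` and `gamma` is a multiple of `gamma`. -/
theorem mul_gam {m : Frm K n} (mE : m E = 0) (h : ∀ x, l x = 0 → gam D.mu E l x = 0 → m x = 0) :
    ∃ c : K, m = c • gam D.mu E l := by
  obtain ⟨v, -, b, c⟩ := X.g_ne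
  refine ⟨m v / gam D.mu E l v, LinearMap.ext fun x => ?_⟩
  have := h (x - l x • E - (gam D.mu E l x / gam D.mu E l v) • v) (by simp [X.lE, b])
    (by simp [X.gE, c])
  simp only [map_sub, map_smul, smul_eq_mul, mE] at this
  rw [LinearMap.smul_apply, smul_eq_mul]
  linear_combination this

end Cw

theorem l_yy {E : Vec K n} {l : Frm K n} (lE : l E = 1) (d : Derivation ℚ K K) :
    l (yy d E l) = 0 := by simp [yy, al, lE]

theorem dv_E (d : Derivation ℚ K K) (E : Vec K n) (l : Frm K n) :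
    dv d E = al d E l • E + yy d E l := by simp [yy]

theorem nu_E {E : Vec K n} {l : Frm K n} (lE : l E = 1) (d : Derivation ℚ K K) :
    nu d E l E = 0 := by simp [nu, al, df_apply, lE]

theorem nu_ker {E x : Vec K n} {l : Frm K n} (d : Derivation ℚ K K) (h : l x = 0) :
    nu d E l x = l (dv d x) := by simp [nu, df_apply, h]

theorem df_l (d : Derivation ℚ K K) (E : Vec K n) (l : Frm K n) :
    df d l = - nu d E l - al d E l • l := by simp [nu]

theorem l_nab {E : Vec K n} {l : Frm K n} (lE : l E = 1) (d : Derivation ℚ K K) (x : Vec K n) :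
    l (nab d E l x) = 0 := by simp [nab, lE]

theorem dv_nab (d : Derivation ℚ K K) (E : Vec K n) (l : Frm K n) (x : Vec K n) :
    dv d x = nab d E l x + l (dv d x) • E := by simp [nab]

/-! ### Steps -/

namespace HS
variable {D : HD K (n + 1)} {D' : HD K n} (σ : HS hf D D')

theorem EN : σ.E ∈ D.N := (σ.N_eq _).2 ⟨0, D'.N.zero_mem, 1, by simp⟩

theorem iN {x : Vec K n} : σ.i x ∈ D.N ↔ x ∈ D'.N := by
  refine ⟨fun h => ?_, fun h => (σ.N_eq _).2 ⟨x, h, 0, by simp⟩⟩
  obtain ⟨x', h', t, e⟩ := (σ.N_eq _).1 h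
  have : t = 0 := by simpa [σ.li, σ.lE] using (congrArg σ.l e).symm
  rw [this, zero_smul, add_zero] at e
  rwa [σ.inj e]

theorem nd (h' : D'.Ho hf) (x : Vec K (n + 1)) (hx : σ.l x = 0)
    (h : ∀ y z, σ.l y = 0 → σ.l z = 0 → D.mu x y z = 0) : x = 0 := by
  obtain ⟨x', rfl⟩ := σ.rng x hx
  rw [h'.nd (x := x') fun y z => by rw [σ.mu_eq]; exact h _ _ (σ.li _) (σ.li _), map_zero]

theorem cw (h : D.Ho hf) (h' : D'.Ho hf) (c : σ.Cv) : Cw hf D σ.E σ.l where
  ho := h
  EA := c.2.1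
  lA := c.2.2.1
  lE := σ.lE
  exc := σ.exc
  EN := σ.EN
  nd := σ.nd h'
  hN := ⟨σ.i D'.H, σ.iN.2 h'.Hm, σ.li _, fun e => by
    have := c.2.2.2.2.1
    rw [gam_ker (σ.li _), e] at this; simp at this⟩

theorem sp_down {f : Vec K n} {chi : Frm K (n + 1)} {e : K} (m : σ.i f ∈ D.N) (n0 : σ.i f ≠ 0)
    (q : ∀ x y, σ.l x = 0 → σ.l y = 0 → D.mu (σ.i f) x y = e * chi x * chi y)
    (z : chi (σ.i f) = 0) : D'.Sp f (chi ∘ₗ σ.i) e :=
  ⟨σ.iN.1 m, by rintro rfl; simp at n0, fun x y => by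
    rw [σ.mu_eq]; exact q _ _ (σ.li _) (σ.li _), z⟩

theorem ic : σ.i D'.c = D.c + σ.δ • σ.E := by rw [σ.c_eq]; simp

theorem chi_c {chi : Frm K (n + 1)} (h : chi σ.E = 0) : chi (σ.i D'.c) = chi D.c := by
  rw [σ.ic]; simp [h]

theorem chi_H {chi : Frm K (n + 1)} (h : chi σ.E = 0) : chi D.H = σ.k * chi (σ.i D'.H) := by
  rw [σ.H_eq]; simp [h]

theorem c3_cv (h : D.Ho hf) (c : σ.Cv) :
    D.c3 = D'.c3 - 3 * gam D.mu σ.E σ.l (σ.i D'.c) - D.mu σ.E σ.E σ.E := by
  have a := σ.exc _ _ (σ.li D'.c) (σ.li D'.c)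
  rw [HD.c3, HD.c3, σ.mu_eq, gam_ker (σ.li _), σ.c_eq, c.1, one_smul]
  simp only [map_sub, LinearMap.sub_apply, h.sym.1 (σ.i D'.c) σ.E, h.sym.2 σ.E (σ.i D'.c) σ.E,
    sym13 h.sym (σ.i D'.c) (σ.i D'.c) σ.E, a]
  ring

/-- For a curve step with standard `a`, finiteness of `c ^ 3` lifts. -/
theorem fi_c3 (h : D.Ho hf) (c : σ.Cv) (a : Fi (D.mu σ.E σ.E σ.E)) (f : Fi D'.c3) : Fi D.c3 := by
  rw [σ.c3_cv h c]
  exact (f.sub (std_three.fi.mul ((c.2.2.2.2.2.sub a).of_eq (by ring)))).sub a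

/-- Two pairs that are special on the kernel of `l` are proportional. -/
theorem low_uniq (h' : D'.Ho hf) {f f' : Vec K (n + 1)} {chi chi' : Frm K (n + 1)} {e e' : K}
    (m : f ∈ D.N) (lf : σ.l f = 0) (n0 : f ≠ 0)
    (q : ∀ x y, σ.l x = 0 → σ.l y = 0 → D.mu f x y = e * chi x * chi y) (z : chi f = 0)
    (m' : f' ∈ D.N) (lf' : σ.l f' = 0) (n0' : f' ≠ 0)
    (q' : ∀ x y, σ.l x = 0 → σ.l y = 0 → D.mu f' x y = e' * chi' x * chi' y) (z' : chi' f' = 0) :
    ∃ a : K, f' = a • f := by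
  obtain ⟨g, rfl⟩ := σ.rng f lf
  obtain ⟨g', rfl⟩ := σ.rng f' lf'
  obtain ⟨a, -, -, -, ha, -⟩ := h'.uniq (σ.sp_down m n0 q z) (σ.sp_down m' n0' q' z')
  exact ⟨a, by rw [ha, map_smul]⟩

/-- After O2. -/
theorem chi_c_zero (h' : D'.Ho hf) (c : σ.Cv) {chi : Frm K (n + 1)} {s : K} (hc : FS chi)
    (e : gam D.mu σ.E σ.l = s • chi) (hs : ¬ Fi s) (a : Fi (D.mu σ.E σ.E σ.E)) :
    chi (σ.i D'.c) = 0 := by
  refine A_eq_zero (hc.fa _ ((σ.iA _).2 h'.cA)) hs ((c.2.2.2.2.2.sub a).of_eq ?_)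
  rw [e, LinearMap.smul_apply, smul_eq_mul]; ring

end HS

end Pool.Agent.P.MP_33ab4b_ag.B
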