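import Pool.Agent.P.MP_33ab4b_ag.B.Stmt
import Pool.Agent.P.MP_33ab4b_ag.T.Lb

/-!
Working definitions for the tower theorem: the ring `A` of hyperintegers with standard
denominators, data and towers over an ordered field, states, and the outputs of the step lemma.
-/

set_option autoImplicit false
set_option linter.unusedSectionVars false

namespace Pool.Agent.P.MP_33ab4b_ag.B

open Pool.Agent.P.MP_33ab4b_ag.T hiding tri

abbrev Vec (K : Type) (n : ℕ) : Type := Fin n → K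

abbrev Frm (K : Type) [Field K] (n : ℕ) : Type := Vec K n →ₗ[K] K

variable {K : Type} [Field K] [LinearOrder K] [IsStrictOrderedRing K]

/-- The ring `A`: elements with a positive standard multiple in `Z`. -/
def AR (hf : HF K) : Subring K where
  carrier := {x | ∃ m : ℕ, 0 < m ∧ (m : K) * x ∈ hf.Z}
  zero_mem' := ⟨1, one_pos, by simp⟩
  one_mem' := ⟨1, one_pos, by simp⟩
  add_mem' := by
    rintro x y ⟨m, hm, h⟩ ⟨m', hm', h'⟩
    refine ⟨m * m', by positivity, ?_⟩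
    have e : ((m * m' : ℕ) : K) * (x + y) = m' * (m * x) + m * (m' * y) := by push_cast; ring
    rw [e]
    exact hf.Z.add_mem (hf.Z.mul_mem (natCast_mem _ _) h) (hf.Z.mul_mem (natCast_mem _ _) h')
  neg_mem' := by
    rintro x ⟨m, hm, h⟩
    exact ⟨m, hm, by simpa using hf.Z.neg_mem h⟩
  mul_mem' := by
    rintro x y ⟨m, hm, h⟩ ⟨m', hm', h'⟩
    refine ⟨m * m', by positivity, ?_⟩
    have e : ((m * m' : ℕ) : K) * (x * y) = (m * x) * (m' * y) := by push_cast; ring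
    rw [e]; exact hf.Z.mul_mem h h'

section basic
variable {n : ℕ}

/-- Standard vector. -/
def VS (x : Vec K n) : Prop := ∀ i, Std (x i)
/-- Vector over `A`. -/
def VA (hf : HF K) (x : Vec K n) : Prop := ∀ i, x i ∈ AR hf
/-- Standard form. -/
def FS (l : Frm K n) : Prop := ∀ x, VS x → Std (l x)
/-- Form over `A`. -/
def FA (hf : HF K) (l : Frm K n) : Prop := ∀ x, VA hf x → l x ∈ AR hf
/-- Standard trilinear form. -/
def TS (mu : Tri K (Vec K n)) : Prop := ∀ x y z, VS x → VS y → VS z → Std (mu x y z)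
/-- Trilinear form over `A`. -/
def TA (hf : HF K) (mu : Tri K (Vec K n)) : Prop :=
  ∀ x y z, VA hf x → VA hf y → VA hf z → mu x y z ∈ AR hf

/-- The derivative of a form. -/
def df (d : Derivation ℚ K K) (l : Frm K n) : Frm K n where
  toFun x := d (l x) - l (dv d x)
  map_add' x y := by simp only [map_add, dv_add]; ring
  map_smul' s x := by
    simp only [map_smul, dv_smul, map_add, smul_eq_mul, Derivation.leibniz, RingHom.id_apply]; ring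

/-- A subspace that is stable under all derivations. -/
def SSub (W : Submodule K (Vec K n)) : Prop := ∀ d : Derivation ℚ K K, ∀ w ∈ W, dv d w ∈ W

/-- The vectors whose products with the elements of `R` vanish. -/
def ann (mu : Tri K (Vec K n)) (R : Submodule K (Vec K n)) : Submodule K (Vec K n) where
  carrier := {x | ∀ r ∈ R, ∀ y, mu x r y = 0}
  zero_mem' := by intro r _ y; simp
  add_mem' := by intro a b ha hb r hr y; simp [ha r hr y, hb r hr y]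
  smul_mem' := by intro s a ha r hr y; simp [ha r hr y]

/-- The vectors killed by every standard form that kills `E`. -/
def W0 (E : Vec K n) : Submodule K (Vec K n) where
  carrier := {x | ∀ l : Frm K n, FS l → l E = 0 → l x = 0}
  zero_mem' := by intro l _ _; simp
  add_mem' := by intro a b ha hb l h h'; simp [ha l h h', hb l h h']
  smul_mem' := by intro s a ha l h h'; simp [ha l h h']

/-- The form `n_x`. -/
def nfm (mu : Tri K (Vec K n)) (phi : Frm K n) (z0 x : Vec K n) : Frm K n :=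
  mu x z0 - (mu x z0 z0 / 2) • phi

end basic

/-- Hyperintegers with the Bezout property and Hermite reduction. -/
structure HF2 (K : Type) [Field K] [LinearOrder K] [IsStrictOrderedRing K] extends HF K where
  bez : ∀ x : Vec K 3, VA toHF x → x ≠ 0 →
    ∃ (g : K) (x' lam : Vec K 3), VA toHF x' ∧ VA toHF lam ∧ x = g • x' ∧ lam ⬝ᵥ x' = 1
  herm : ∀ (r : ℕ) (M : Matrix (Fin r) (Fin r) K), M.IsSymm → (∀ i j, Std (M i j)) → M.det ≠ 0 →
    ∀ v : Vec K r, VA toHF v → Std (v ⬝ᵥ M.mulVec v) → v ⬝ᵥ M.mulVec v ≠ 0 →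
    ∃ (s : ℕ) (b : Fin s → Vec K r), (∀ j, VA toHF (b j) ∧ b j ⬝ᵥ M.mulVec v = 0) ∧
      (∀ j k, Std (b j ⬝ᵥ M.mulVec (b k))) ∧
      ∀ x, VA toHF x → x ⬝ᵥ M.mulVec v = 0 → ∃ t : Vec K s, VA toHF t ∧ x = ∑ j, t j • b j

/-- A datum over `K`. -/
structure HD (K : Type) [Field K] (n : ℕ) where
  mu : Tri K (Vec K n)
  p : Frm K n
  c : Vec K n
  H : Vec K n
  N : Submodule K (Vec K n)

/-- An automorphism of `K ^ n` that preserves `A ^ n`. -/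
structure AIso (hf : HF K) (n : ℕ) where
  g : Vec K n ≃ₗ[K] Vec K n
  va : ∀ x, VA hf (g x) ↔ VA hf x

/-- Pull-back of a trilinear form. -/
def tpull {m n : ℕ} (mu : Tri K (Vec K n)) (j : Vec K m →ₗ[K] Vec K n) : Tri K (Vec K m) :=
  (mu.compl₁₂ j j).compr₂ (LinearMap.lcomp K K j)

@[simp] theorem tpull_apply {m n : ℕ} (mu : Tri K (Vec K n)) (j : Vec K m →ₗ[K] Vec K n)
    (x y z : Vec K m) : tpull mu j x y z = mu (j x) (j y) (j z) := rfl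

namespace HD

variable {n : ℕ} (D : HD K n)

def T (t : Vec K n) : Prop := ∀ x ∈ D.N, ∀ y ∈ D.N, D.mu t x y = 0

def c3 : K := D.mu D.c D.c D.c

structure Ho (hf : HF K) : Prop where
  sym : Sym3 D.mu
  muA : TA hf D.mu
  Hm : D.H ∈ D.N
  cm : D.c ∈ D.N
  cA : VA hf D.c
  split : ∀ x, ∃ y ∈ D.N, D.T (x - y)
  pT : ∀ t, D.T t → D.p t = 0
  index : ∀ x ∈ D.N, x ≠ 0 → D.mu D.H D.H x = 0 → D.mu D.H x x < 0
  lef : ∀ x, (∀ y, D.mu D.H x y = 0) → x = 0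
  rank : ∀ (w : Vec K n) (nu : Frm K n) (e : K),
    (∀ t t', D.T t → D.T t' → D.mu w t t' = e * nu t * nu t') → ∀ t, D.T t → e * nu t = 0

/-- A special pair. -/
structure Sp (f : Vec K n) (chi : Frm K n) (e : K) : Prop where
  mem : f ∈ D.N
  ne : f ≠ 0
  eq : ∀ x y, D.mu f x y = e * chi x * chi y
  z : chi f = 0

/-- A standard special pair. -/
structure SSp (f : Vec K n) (chi : Frm K n) (e : K) : Prop extends D.Sp f chi e where
  sf : VS f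
  sc : FS chi
  se : Std e

def Adm : Prop :=
  ∀ f chi e, D.Sp f chi e → e * D.p f ≤ 0 → Fi D.c3 ∧ Fi (D.p D.c) ∧
    ((∃ s : K, D.c = s • f) ∨ ∀ x ∈ D.N, chi x = 0 → ∃ s : K, x = s • f)

/-- The datum in the coordinates given by `g`. -/
def comap (g : Vec K n ≃ₗ[K] Vec K n) : HD K n where
  mu := tpull D.mu g.toLinearMap
  p := D.p ∘ₗ g.toLinearMap
  c := g.symm D.c
  H := g.symm D.H
  N := D.N.comap g.toLinearMap

/-- The base property. -/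
def KB (hf : HF K) : Prop :=
  (∀ g : AIso hf n, TS (D.comap g.g).mu → FS (D.comap g.g).p → Fi D.c3) ∧ D.Adm

def S0 : Prop := TS D.mu ∧ FS D.p

def SA : Prop := TS D.mu ∧ ∃ f chi e, ∃ t : K, D.SSp f chi e ∧ FS (D.p - t • chi) ∧
  D.p f = 0 ∧ chi D.c = 0

def SC : Prop := TS D.mu ∧ ∃ f chi e, ∃ t : K, D.SSp f chi e ∧ FS (D.p - t • chi) ∧
  D.p f = 0 ∧ chi D.c ≠ 0 ∧ ¬ Fi t ∧ t * chi D.H < 0

def SP : Prop := TS D.mu ∧ ∃ f chi e, ∃ (t : K) (z : Vec K n), D.SSp f chi e ∧ FS (D.p - t • chi) ∧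
  e * D.p f < 0 ∧ ¬ Fi t ∧ z ∈ D.N ∧ VS z ∧ chi z = 1 ∧
  (∀ x, chi x = 0 → D.mu x z z = 0 → ∀ y, D.mu z x y = 0) ∧ (chi D.c = 0 → ¬ Fi (D.mu D.c z z))

def Claim : Prop := (D.S0 → Fi D.c3) ∧ (D.SA → Fi D.c3) ∧ ¬ D.SC ∧ ¬ D.SP

/-- The descent property of finite pairings. -/
def UD (hf : HF K) : Prop :=
  ∀ f chi e, ∀ (u : Vec K n) (q w : K), D.Sp f chi e → D.p f = 0 → chi D.c = 0 → u ∈ D.N → VA hf u →
    chi u = 0 → (∀ x y, chi x = 0 → chi y = 0 → D.mu u x y = 0) → (∀ x, D.mu u u x = q * chi x) →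
    Fi q → (∀ x, D.mu u D.c x = w * chi x) → Fi w

end HD

/-- The form `gamma = a l - E E`. -/
def gam {n : ℕ} (mu : Tri K (Vec K n)) (E : Vec K n) (l : Frm K n) : Frm K n :=
  mu E E E • l - mu E E

/-- The data of a step from `D` down to `D'`. -/
structure HS (hf : HF K) {n : ℕ} (D : HD K (n + 1)) (D' : HD K n) where
  i : Vec K n →ₗ[K] Vec K (n + 1)
  E : Vec K (n + 1)
  l : Frm K (n + 1)
  k : K
  m : K
  δ : K
  iA : ∀ x, VA hf (i x) ↔ VA hf x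
  inj : Function.Injective i
  lE : l E = 1
  li : ∀ x, l (i x) = 0
  rng : ∀ x, l x = 0 → ∃ x', x = i x'
  exc : ∀ x y, l x = 0 → l y = 0 → D.mu E x y = 0
  mu_eq : ∀ x y z, D'.mu x y z = D.mu (i x) (i y) (i z)
  p_eq : ∀ x, D'.p x = D.p (i x) + 3 * gam D.mu E l (i x)
  N_eq : ∀ x, x ∈ D.N ↔ ∃ x' ∈ D'.N, ∃ t : K, x = i x' + t • E
  k_pos : 0 < k
  H_eq : D.H = k • i D'.H - m • E
  c_eq : D.c = i D'.c - δ • E

namespace HS

variable {hf : HF K} {n : ℕ} {D : HD K (n + 1)} {D' : HD K n} (σ : HS hf D D')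

/-- Contraction to a point. -/
def Pt : Prop := (∀ x, σ.l x = 0 → D.mu σ.E σ.E x = 0) ∧ Fi (D.c3 - D'.c3)

/-- Blow-down to a curve. -/
def Cv : Prop := σ.δ = 1 ∧ VA hf σ.E ∧ FA hf σ.l ∧ D.p σ.E = D.mu σ.E σ.E σ.E ∧
  0 < gam D.mu σ.E σ.l (σ.i D'.H) ∧ Fi (D.mu σ.E σ.E σ.E + gam D.mu σ.E σ.l (σ.i D'.c))

/-- The coordinates of the lower datum are adapted to the family `b`. -/
def Fr (b : Set (Vec K (n + 1))) : Prop :=
  (∀ j, σ.i (Pi.single j 1) ∈ b) ∧ ∀ v ∈ Submodule.span ℚ b, ∃ v', VS v' ∧ v = σ.i v'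

end HS

/-- Towers over `K`. -/
inductive HT (hf : HF K) : ∀ n, HD K n → Prop
  | base {n : ℕ} {D : HD K n} : D.KB hf → D.Ho hf → HT hf n D
  | step {n : ℕ} {D : HD K (n + 1)} {D' : HD K n} (σ : HS hf D D') :
      HT hf n D' → D.Ho hf → σ.Pt ∨ σ.Cv → HT hf (n + 1) D

/-- The induction hypothesis. -/
def IH (hf : HF K) (n : ℕ) : Prop := ∀ D : HD K n, HT hf n D → D.Claim

section cx
variable {n : ℕ}

/-- The context of a blow-down to a curve, without standardness. -/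
structure Cw (hf : HF K) (D : HD K n) (E : Vec K n) (l : Frm K n) : Prop where
  ho : D.Ho hf
  EA : VA hf E
  lA : FA hf l
  lE : l E = 1
  exc : ∀ x y, l x = 0 → l y = 0 → D.mu E x y = 0
  EN : E ∈ D.N
  nd : ∀ x, l x = 0 → (∀ y z, l y = 0 → l z = 0 → D.mu x y z = 0) → x = 0
  hN : ∃ h ∈ D.N, l h = 0 ∧ D.mu E E h ≠ 0

/-- The context of a blow-down to a curve, with a standard cubic form. -/
structure Cx (hf : HF K) (D : HD K n) (E : Vec K n) (l : Frm K n) : Prop extends Cw hf D E l where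
  ts : TS D.mu

def al (d : Derivation ℚ K K) (E : Vec K n) (l : Frm K n) : K := l (dv d E)

def yy (d : Derivation ℚ K K) (E : Vec K n) (l : Frm K n) : Vec K n := dv d E - al d E l • E

def nu (d : Derivation ℚ K K) (E : Vec K n) (l : Frm K n) : Frm K n := - df d l - al d E l • l

/-- The connection on the kernel of `l`. -/
def nab (d : Derivation ℚ K K) (E : Vec K n) (l : Frm K n) (x : Vec K n) : Vec K n :=
  dv d x - l (dv d x) • E

def kap (d2 d1 : Derivation ℚ K K) (E : Vec K n) (l : Frm K n) : Frm K n :=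
  df d2 (nu d1 E l) + (2 * al d2 E l) • nu d1 E l

/-- A family that spans the kernel of `l` over `A` and on which `mu` is standard. -/
structure Fam (hf : HF K) (mu : Tri K (Vec K n)) (l : Frm K n) (b : Set (Vec K n)) : Prop where
  mem : ∀ v ∈ b, l v = 0 ∧ VA hf v
  span : ∀ x, l x = 0 → VA hf x → x ∈ Submodule.span (AR hf) b
  std : ∀ x ∈ b, ∀ y ∈ b, ∀ z ∈ b, Std (mu x y z)

/-- A form with standard values on the family. -/
def BF (b : Set (Vec K n)) (l : Frm K n) : Prop := ∀ v ∈ b, Std (l v)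

/-- A rational combination of the family. -/
def BV (b : Set (Vec K n)) (v : Vec K n) : Prop := v ∈ Submodule.span ℚ b

def O1 (D : HD K n) (E : Vec K n) (l p0 : Frm K n) (b : Set (Vec K n)) : Prop :=
  Std (D.mu E E E) ∧ BF b (gam D.mu E l) ∧ BF b p0 ∧ (∀ lam, FS lam → lam E = 0 → BF b lam) ∧
    ∀ v, VS v → l v = 0 → BV b v

def O2 (D : HD K n) (E : Vec K n) (l p0 : Frm K n) (b : Set (Vec K n)) : Prop :=
  Std (D.mu E E E) ∧ ∃ f chi e, ∃ s : K, D.SSp f chi e ∧ l f = 0 ∧ chi E = 0 ∧ p0 f = 0 ∧ BV b f ∧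
    BF b chi ∧ gam D.mu E l = s • chi ∧ ¬ Fi s ∧ BF b (p0 + (3 : K) • gam D.mu E l - (2 * s) • chi)

def O3 (hf : HF K) (D : HD K n) (E : Vec K n) (l p0 : Frm K n) (b : Set (Vec K n)) : Prop :=
  ¬ Fi (D.mu E E E) ∧ ∃ f chi e, ∃ (u : Vec K n) (b0 q t2 : K), D.SSp f chi e ∧ l f = 0 ∧
    chi E = 0 ∧ gam D.mu E l f = 0 ∧ p0 f = 0 ∧ BV b f ∧ BF b chi ∧ u ∈ D.N ∧ l u = 0 ∧ VA hf u ∧
    chi u = 0 ∧ gam D.mu E l u = -b0 ∧ Std b0 ∧ b0 ≠ 0 ∧ Std q ∧ q ≠ 0 ∧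
    (∀ x y, l x = 0 → chi x = 0 → l y = 0 → b0 * D.mu u x y = -q * gam D.mu E l x * chi y) ∧
    ¬ Fi t2 ∧ 0 < t2 * q ∧ BF b (p0 + (3 : K) • gam D.mu E l - t2 • chi)

def O4 (D : HD K n) (E : Vec K n) (l p0 : Frm K n) (b : Set (Vec K n)) : Prop :=
  ¬ Fi (D.mu E E E) ∧ ∃ (f z : Vec K n) (chi : Frm K n) (e t2 : K), f ∈ D.N ∧ z ∈ D.N ∧ l f = 0 ∧
    l z = 0 ∧ BV b f ∧ BV b z ∧ f ≠ 0 ∧ BF b chi ∧ Std e ∧
    (∀ x y, l x = 0 → l y = 0 → D.mu f x y = e * chi x * chi y) ∧ chi f = 0 ∧ chi z = 1 ∧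
    0 < e * gam D.mu E l f ∧ p0 f + 3 * gam D.mu E l f = - gam D.mu E l f ∧
    (∀ x, l x = 0 → chi x = 0 → D.mu x z z = 0 →
      gam D.mu E l x = 0 ∧ ∀ y, l y = 0 → D.mu z x y = 0) ∧
    ¬ Fi t2 ∧ BF b (p0 + (3 : K) • gam D.mu E l - t2 • chi)

/-- The conclusion of the step lemma. -/
def Out (hf : HF K) (D : HD K n) (E : Vec K n) (l p0 : Frm K n) : Prop :=
  ∃ b, Fam hf D.mu l b ∧ (O1 D E l p0 b ∨ O2 D E l p0 b ∨ O3 hf D E l p0 b ∨ O4 D E l p0 b)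

/-- A pair that is special on the kernel of `l` and standard for the family `b`. -/
structure Low (D : HD K n) (l P : Frm K n) (b : Set (Vec K n)) (f : Vec K n) (chi : Frm K n)
    (e t : K) : Prop where
  mem : f ∈ D.N
  lf : l f = 0
  ne : f ≠ 0
  bv : BV b f
  bf : BF b chi
  se : Std e
  eq : ∀ x y, l x = 0 → l y = 0 → D.mu f x y = e * chi x * chi y
  z : chi f = 0
  bp : BF b (P - t • chi)

/-- The common kernel of `l` and `gamma`. -/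
def RA (D : HD K n) (E : Vec K n) (l : Frm K n) : Submodule K (Vec K n) :=
  LinearMap.ker l ⊓ LinearMap.ker (gam D.mu E l)

/-- The common kernel of `l`, `gamma` and a third form. -/
def RB (D : HD K n) (E : Vec K n) (l lam : Frm K n) : Submodule K (Vec K n) :=
  LinearMap.ker l ⊓ LinearMap.ker (gam D.mu E l) ⊓ LinearMap.ker lam

/-- The structure in case A (section 5 of the plan), for a vector `y`. -/
structure CA (D : HD K n) (E : Vec K n) (l : Frm K n) (y : Vec K n) : Prop where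
  a0 : D.mu E E E ≠ 0
  ns : ¬ VS E
  sR : SSub (RA D E l)
  ly : l y = 0
  yN : y ∈ D.N
  Em : E ∈ ann D.mu (RA D E l)
  ym : y ∈ ann D.mu (RA D E l)
  sp : ∀ x ∈ ann D.mu (RA D E l), ∃ i j : K, x = i • E + j • y
  yq : ∃ c0 : K, c0 ≠ 0 ∧ ∀ x x', D.mu y x x' =
    - gam D.mu E l y * l x * l x' + c0 * gam D.mu E l x * gam D.mu E l x'

/-- The structure in case B (ii) (section 6 of the plan), for vectors `y, w` and a form `nu`. -/
structure CB (D : HD K n) (E : Vec K n) (l : Frm K n) (y w : Vec K n) (nu : Frm K n) : Prop where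
  a0 : D.mu E E E ≠ 0
  ns : ¬ VS E
  dE : ∃ (d : Derivation ℚ K K) (al : K), dv d E = al • E + y
  nuE : nu E = 0
  ind : ∃ x, l x = 0 ∧ gam D.mu E l x = 0 ∧ nu x ≠ 0
  ly : l y = 0
  lw : l w = 0
  gy : gam D.mu E l y ≠ 0
  sR : SSub (RB D E l nu)
  Em : E ∈ ann D.mu (RB D E l nu)
  ym : y ∈ ann D.mu (RB D E l nu)
  wm : w ∈ ann D.mu (RB D E l nu)
  ON : ann D.mu (RB D E l nu) ≤ D.N
  sp : ∀ x ∈ ann D.mu (RB D E l nu), ∃ i j k : K, x = i • E + j • y + k • w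
  yq : ∀ x x', l x = 0 → l x' = 0 →
    D.mu y x x' = gam D.mu E l x * nu x' + nu x * gam D.mu E l x'
  wq : ∃ k1 k2 : K, ∀ x x', l x = 0 → l x' = 0 → D.mu w x x' =
    -2 * D.mu E E E * nu x * nu x' + k1 * gam D.mu E l x * gam D.mu E l x' +
      k2 * (gam D.mu E l x * nu x' + nu x * gam D.mu E l x')

/-- The structure in case (ii-B) after the special pair is found. -/
structure CC (D : HD K n) (E : Vec K n) (l : Frm K n) (y f : Vec K n) (chi nu : Frm K n) (e : K) :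
    Prop where
  a0 : D.mu E E E ≠ 0
  ns : ¬ VS E
  dE : ∃ (d : Derivation ℚ K K) (al : K), dv d E = al • E + y
  ssp : D.SSp f chi e
  ind : ∃ x, l x = 0 ∧ gam D.mu E l x = 0 ∧ nu x ≠ 0
  nuR : ∀ x ∈ RB D E l chi, nu x = 0
  ly : l y = 0
  gy : gam D.mu E l y ≠ 0
  cE : chi E = 0
  cy : chi y = 0
  sR : SSub (RB D E l chi)
  fR : f ∈ RB D E l chi
  Em : E ∈ ann D.mu (RB D E l chi)
  ym : y ∈ ann D.mu (RB D E l chi)
  ON : ann D.mu (RB D E l chi) ≤ D.N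
  sp : ∀ x ∈ ann D.mu (RB D E l chi), ∃ i j k : K, x = i • E + j • y + k • f
  yq : ∀ x x', l x = 0 → l x' = 0 →
    D.mu y x x' = gam D.mu E l x * nu x' + nu x * gam D.mu E l x'

/-- The normal form in case (ii-B). -/
structure CD (hf : HF K) (D : HD K n) (E : Vec K n) (l : Frm K n) (f w Y z : Vec K n)
    (chi : Frm K n) (e j k : K) : Prop where
  ns : ¬ VS E
  ssp : D.SSp f chi e
  sR : SSub (RB D E l chi)
  fR : f ∈ RB D E l chi
  sw : VS w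
  sY : VS Y
  sz : VS z
  wm : w ∈ ann D.mu (RB D E l chi)
  Ym : Y ∈ ann D.mu (RB D E l chi)
  YN : Y ∈ D.N
  lw : l w = 1
  lY : l Y = 0
  cw : chi w = 0
  cY : chi Y = 0
  cz : chi z = 1
  jA : j ∈ AR hf
  kA : k ∈ AR hf
  Eeq : E = w + j • Y + k • f
  YYY : D.mu Y Y Y = 0
  wYY : D.mu w Y Y = 0
  wYz : D.mu w Y z = 0
  b0 : D.mu w w Y ≠ 0
  q0 : D.mu Y Y z ≠ 0

end cx

/-- A ternary cubic with an adapted frame (case (ii-A)). -/
structure TF (hf : HF K) where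
  mu : Tri K (Vec K 3)
  p : Frm K 3
  E : Vec K 3
  Y : Vec K 3
  Z : Vec K 3
  sym : Sym3 mu
  ts : TS mu
  ps : FS p
  EA : VA hf E
  YA : VA hf Y
  ZA : VA hf Z
  det : det3 E Y Z = 1
  EYY : mu E Y Y = 0
  EYZ : mu E Y Z = 0
  EZZ : mu E Z Z = 0
  EEZ : mu E E Z = 0
  pE : p E = mu E E E
  a0 : mu E E E ≠ 0
  b0 : mu E E Y ≠ 0
  C0 : mu Z Z Z ≠ 0
  h0 : mu Y Y Z * mu Z Z Z - mu Y Z Z ^ 2 ≠ 0
  ns : ¬ VS E

namespace TF

variable {hf : HF K} (X : TF hf)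

def a : K := X.mu X.E X.E X.E
def c0 : K := X.mu X.Y X.Y X.Y
def c1 : K := X.mu X.Y X.Y X.Z
def c2 : K := X.mu X.Y X.Z X.Z
def C : K := X.mu X.Z X.Z X.Z
def Hh : K := X.c1 * X.C - X.c2 ^ 2
def G : K := X.c0 * X.C ^ 2 - 3 * X.c1 * X.c2 * X.C + 2 * X.c2 ^ 3
def Dd : K := X.c0 ^ 2 * X.C ^ 2 - 6 * X.c0 * X.c1 * X.c2 * X.C + 4 * X.c0 * X.c2 ^ 3 +
  4 * X.c1 ^ 3 * X.C - 3 * X.c1 ^ 2 * X.c2 ^ 2
def Tt : K := X.a ^ 2 * X.Dd + 4 * X.G
def Yh : Vec K 3 := X.Y - (X.c2 / X.C) • X.Z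
/-- The form `l`. -/
def l (x : Vec K 3) : K := det3 x X.Y X.Z

/-- The normalisation `b = 1`. -/
def Nm : Prop := X.mu X.E X.E X.Y = 1 ∧ Std X.Hh

/-- The flow equations in the frame `E, Yh, Z`. -/
def Flow (d : Derivation ℚ K K) (al s : K) : Prop :=
  dv d X.E = al • X.E + s • X.Yh ∧
  dv d X.Yh = (-s * (X.G / X.C ^ 2) / 2) • X.E + (-2 * al + s * X.a * (X.G / X.C ^ 2) / 2) • X.Yh +
    (-2 * s * X.a * (X.Hh / X.C) ^ 2 / X.C) • X.Z ∧
  dv d X.Z = (-s * (X.Hh / X.C)) • X.E + (s * X.a * (X.Hh / X.C)) • X.Yh +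
    (al - s * X.a * (X.G / X.C ^ 2) / 2) • X.Z ∧
  d X.a = 3 * al * X.a + 3 * s ∧
  d X.C = 3 * (al - s * X.a * (X.G / X.C ^ 2) / 2) * X.C ∧
  d X.G = -(3 / 2) * s * X.a * X.Dd ∧
  d X.Dd = -6 * al * X.Dd ∧
  s * (X.p X.Yh - 3) = 2 * al * X.a

/-- A frame `E, f, z` with a standard singular point `f` of the cubic. -/
def Sing (f z : Vec K 3) : Prop :=
  VS f ∧ VA hf z ∧ X.l f = 0 ∧ X.l z = 0 ∧ det3 X.E f z = 1 ∧ (∀ x, X.mu f f x = 0) ∧
    X.mu X.E X.E f ≠ 0 ∧ X.mu f z z ≠ 0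

/-- The conclusion in case (ii-A). -/
def Fin4 (f z : Vec K 3) : Prop :=
  X.Sing f z ∧ X.mu z z z = 0 ∧ Std (X.mu X.E X.E f) ∧ Std (X.mu f z z) ∧
    X.mu f z z * X.mu X.E X.E f < 0 ∧ X.p f = 4 * X.mu X.E X.E f ∧ X.p z = X.mu X.E X.E z ∧
    ¬ Fi (X.mu X.E X.E z) ∧ ¬ Fi X.a

end TF

/-! ### Hermite reduction over the integers -/

/-- `M` has level `N`. -/
def Level {r : ℕ} (M : Matrix (Fin r) (Fin r) ℤ) (N : ℕ) : Prop :=
  M.IsSymm ∧ ∃ X : Matrix (Fin r) (Fin r) ℤ, M * X = (N : ℤ) • (1 : Matrix (Fin r) (Fin r) ℤ)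

def PP (r : ℕ) : Prop :=
  ∀ N : ℕ, 0 < N → ∃ C : ℕ, 0 < C ∧ ∀ M : Matrix (Fin r) (Fin r) ℤ, Level M N →
    ∃ b : Fin r → Fin r → ℤ, (∀ j k, |b j ⬝ᵥ M.mulVec (b k)| ≤ C) ∧
      ∀ x : Fin r → ℤ, ∃ t : Fin r → ℤ, (C : ℤ) • x = ∑ j, t j • b j

def QQ (r : ℕ) : Prop :=
  ∀ N S : ℕ, 0 < N → ∃ C : ℕ, 0 < C ∧ ∀ M : Matrix (Fin (r + 1)) (Fin (r + 1)) ℤ, Level M N →
    ∀ v : Fin (r + 1) → ℤ, v ⬝ᵥ M.mulVec v ≠ 0 → |v ⬝ᵥ M.mulVec v| ≤ S →
    ∃ b : Fin r → Fin (r + 1) → ℤ, (∀ j, b j ⬝ᵥ M.mulVec v = 0) ∧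
      (∀ j k, |b j ⬝ᵥ M.mulVec (b k)| ≤ C) ∧
      ∀ x : Fin (r + 1) → ℤ, x ⬝ᵥ M.mulVec v = 0 → ∃ t : Fin r → ℤ, (C : ℤ) • x = ∑ j, t j • b j

end Pool.Agent.P.MP_33ab4b_ag.B
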