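import Pool.Agent.P.MP_33ab4b_ag.B.Basic

/-! Statements: standard subspaces, frames, the step lemma. -/

set_option autoImplicit false

namespace Pool.Agent.P.MP_33ab4b_ag.B

open Pool.Agent.P.MP_33ab4b_ag.T hiding tri

-- deps:
def S_SCOMP : Prop :=
  ∀ (K : Type) [Field K] [LinearOrder K] [IsStrictOrderedRing K] (hf : HF K) (n : ℕ)
    (U W : Submodule K (Vec K n)), SSub U → SSub W → U ≤ W →
    ∃ (r : ℕ) (w : Fin r → Vec K n) (β : Fin r → Frm K n),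
      (∀ j, VS (w j) ∧ w j ∈ W ∧ FS (β j) ∧ ∀ u ∈ U, β j u = 0) ∧
      (∀ j k, β j (w k) = if j = k then 1 else 0) ∧ ∀ x ∈ W, x - ∑ j, β j x • w j ∈ U

-- deps: SCOMP
def S_SPANA : Prop :=
  ∀ (K : Type) [Field K] [LinearOrder K] [IsStrictOrderedRing K] (hf : HF K) (n : ℕ),
    (∀ W : Submodule K (Vec K n), SSub W → ∀ x ∈ W, VA hf x →
      x ∈ Submodule.span (AR hf) {v | VS v ∧ v ∈ W}) ∧
    ∀ (mu : Tri K (Vec K n)) (l : Frm K n), TS mu → SSub (LinearMap.ker l) →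
      Fam hf mu l {v | VS v ∧ l v = 0}

-- deps:
def S_FO : Prop :=
  ∀ (K : Type) [Field K] [LinearOrder K] [IsStrictOrderedRing K] (hf : HF K) (n : ℕ)
    (D : HD K n) (E : Vec K n) (l : Frm K n), Cx hf D E l →
    ∀ d : Derivation ℚ K K,
      (∀ x x', l x = 0 → l x' = 0 →
        D.mu (yy d E l) x x' = gam D.mu E l x * nu d E l x' + nu d E l x * gam D.mu E l x') ∧
      df d (gam D.mu E l) = (2 * al d E l) • gam D.mu E l - D.mu E E E • nu d E l -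
        gam D.mu E l (yy d E l) • l ∧
      d (D.mu E E E) = 3 * al d E l * D.mu E E E - 3 * gam D.mu E l (yy d E l)

-- deps: FO
def S_SO : Prop :=
  ∀ (K : Type) [Field K] [LinearOrder K] [IsStrictOrderedRing K] (hf : HF K) (n : ℕ)
    (D : HD K n) (E : Vec K n) (l : Frm K n), Cx hf D E l →
    (∀ (d : Derivation ℚ K K) (x y z : Vec K n), l x = 0 → l y = 0 → l z = 0 → d (D.mu x y z) =
      D.mu (nab d E l x) y z + D.mu x (nab d E l y) z + D.mu x y (nab d E l z)) ∧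
    ∀ (d1 d2 : Derivation ℚ K K) (x x' : Vec K n), l x = 0 → l x' = 0 →
      D.mu (nab d2 E l (yy d1 E l)) x x' =
        gam D.mu E l x * kap d2 d1 E l x' + kap d2 d1 E l x * gam D.mu E l x' -
          D.mu E E E * (nu d1 E l x * nu d2 E l x' + nu d2 E l x * nu d1 E l x')

-- deps: FO SO
def S_YN : Prop :=
  ∀ (K : Type) [Field K] [LinearOrder K] [IsStrictOrderedRing K] (hf : HF K) (n : ℕ)
    (D : HD K n) (E : Vec K n) (l : Frm K n), Cx hf D E l → D.mu E E E ≠ 0 →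
    ∀ d : Derivation ℚ K K, (∀ t, D.T t → nu d E l t = 0) ∧ yy d E l ∈ D.N

-- deps:
def S_PT : Prop :=
  ∀ (K : Type) [Field K] [LinearOrder K] [IsStrictOrderedRing K] (hf : HF K) (n : ℕ)
    (mu : Tri K (Vec K n)) (E : Vec K n) (l : Frm K n) (a : K), Sym3 mu → TS mu →
    (∀ x, (∀ y z, mu x y z = 0) → x = 0) → l E = 1 → (∀ x y, mu E x y = a * l x * l y) →
    SSub (LinearMap.ker l) ∧ (VA hf E → FA hf l → VS E ∧ FS l)

-- deps: FO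
def S_A0A : Prop :=
  ∀ (K : Type) [Field K] [LinearOrder K] [IsStrictOrderedRing K] (hf : HF K) (n : ℕ)
    (D : HD K n) (E : Vec K n) (l : Frm K n), Cx hf D E l → D.mu E E E = 0 →
    ∃ (phi : Frm K n) (s : K) (z0 : Vec K n), FS phi ∧ VS z0 ∧ phi z0 = 1 ∧ s ∈ AR hf ∧ s ≠ 0 ∧ gam D.mu E l = s • phi ∧
      ∀ x ∈ W0 E, phi x = 0 ∧
        ∀ y z, D.mu x y z = phi y * nfm D.mu phi z0 x z + nfm D.mu phi z0 x y * phi z

-- deps: SCOMP
def S_A0C : Prop :=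
  ∀ (K : Type) [Field K] [LinearOrder K] [IsStrictOrderedRing K] (hf : HF K) (n : ℕ)
    (D : HD K n) (E : Vec K n) (l : Frm K n), Cx hf D E l → D.mu E E E = 0 →
    ∀ (phi : Frm K n) (s : K) (z0 : Vec K n), (FS phi ∧ VS z0 ∧ phi z0 = 1 ∧ s ∈ AR hf ∧ s ≠ 0 ∧ gam D.mu E l = s • phi ∧
      ∀ x ∈ W0 E, phi x = 0 ∧
        ∀ y z, D.mu x y z = phi y * nfm D.mu phi z0 x z + nfm D.mu phi z0 x y * phi z) →
    Std s ∧ ∃ (r : ℕ) (w : Fin r → Vec K n) (v : Vec K r) (u : Vec K n),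
      (∀ j, VS (w j) ∧ w j ∈ W0 E) ∧ (Matrix.of fun j k => D.mu (w j) (w k) z0).det ≠ 0 ∧
      VA hf v ∧ VA hf u ∧ u ∈ W0 E ∧ (∀ x ∈ W0 E, D.mu u x z0 = 0) ∧ E = ∑ j, v j • w j + u

-- deps:
def S_EICH : Prop :=
  ∀ (K : Type) [Field K] [LinearOrder K] [IsStrictOrderedRing K] (n : ℕ)
    (mu : Tri K (Vec K n)) (phi n1 n2 : Frm K n) (E1 u : Vec K n) (s : K), Sym3 mu → s ≠ 0 →
    (∀ y z, mu E1 y z = phi y * n1 z + n1 y * phi z) → (∀ y z, mu u y z = phi y * n2 z + n2 y * phi z) →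
    phi E1 = 0 → phi u = 0 → n1 E1 = -s → n1 u = 0 → n2 E1 = 0 → n2 u = 0 →
    ∃ g : Vec K n ≃ₗ[K] Vec K n,
      (∀ x, g x = x + (-1 / s) • (n1 x • u - n2 x • E1) + (1 / (2 * s) * n2 x) • u) ∧
      (∀ x, g.symm x = x + (1 / s) • (n1 x • u - n2 x • E1) + (1 / (2 * s) * n2 x) • u) ∧
      ∀ x y z, mu (g x) (g y) (g z) = mu x y z

-- deps: SPANA
def S_A0D : Prop :=
  ∀ (K : Type) [Field K] [LinearOrder K] [IsStrictOrderedRing K] (h2 : HF2 K) (n : ℕ)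
    (mu : Tri K (Vec K n)) (phi : Frm K n) (z0 : Vec K n) (r : ℕ) (w : Fin r → Vec K n) (v : Vec K r),
    Sym3 mu → TS mu → FS phi → VS z0 → phi z0 = 1 →
    (∀ j, VS (w j) ∧ phi (w j) = 0 ∧
      ∀ y z, mu (w j) y z = phi y * nfm mu phi z0 (w j) z + nfm mu phi z0 (w j) y * phi z) →
    (Matrix.of fun j k => mu (w j) (w k) z0).det ≠ 0 → VA h2.toHF v →
    Std (mu (∑ j, v j • w j) (∑ j, v j • w j) z0) → mu (∑ j, v j • w j) (∑ j, v j • w j) z0 ≠ 0 →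
    ∃ b, Fam h2.toHF mu (nfm mu phi z0 (∑ j, v j • w j)) b ∧
      (∀ x ∈ b, VS x ∨ x ∈ Submodule.span K (Set.range w)) ∧
      ∀ x, VS x → (∀ j, nfm mu phi z0 (w j) x = 0) → x ∈ b

-- deps: A0A A0C EICH A0D
def S_A0 : Prop :=
  ∀ (K : Type) [Field K] [LinearOrder K] [IsStrictOrderedRing K] (h2 : HF2 K) (n : ℕ)
    (D : HD K n) (E : Vec K n) (l p0 : Frm K n), Cx h2.toHF D E l → FS p0 → p0 E = D.mu E E E → D.mu E E E = 0 →
    ∃ b, Fam h2.toHF D.mu l b ∧ O1 D E l p0 b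

-- deps: SPANA
def S_ESTD : Prop :=
  ∀ (K : Type) [Field K] [LinearOrder K] [IsStrictOrderedRing K] (hf : HF K) (n : ℕ)
    (D : HD K n) (E : Vec K n) (l p0 : Frm K n), Cx hf D E l → FS p0 → p0 E = D.mu E E E → VS E → FS l →
    ∃ b, Fam hf D.mu l b ∧ O1 D E l p0 b ∧ ∀ lam, FS lam → BF b lam

-- deps: FO
def S_Y0 : Prop :=
  ∀ (K : Type) [Field K] [LinearOrder K] [IsStrictOrderedRing K] (hf : HF K) (n : ℕ)
    (D : HD K n) (E : Vec K n) (l : Frm K n), Cx hf D E l → (∀ d : Derivation ℚ K K, yy d E l = 0) → VS E ∧ FS l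

-- deps: FO YN
def S_CA1 : Prop :=
  ∀ (K : Type) [Field K] [LinearOrder K] [IsStrictOrderedRing K] (hf : HF K) (n : ℕ)
    (D : HD K n) (E : Vec K n) (l : Frm K n), Cx hf D E l → D.mu E E E ≠ 0 →
    (∀ d : Derivation ℚ K K, ∃ c : K, nu d E l = c • gam D.mu E l) →
    ∀ d : Derivation ℚ K K, yy d E l ≠ 0 → CA D E l (yy d E l)

-- deps:
def S_BIN1 : Prop :=
  ∀ (K : Type) [Field K] [LinearOrder K] [IsStrictOrderedRing K] (hf : HF K)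
    (mu : Tri K (Vec K 2)) (p : Frm K 2) (E Y : Vec K 2), Sym3 mu → TS mu → FS p → VA hf E → VA hf Y →
    E 0 * Y 1 - E 1 * Y 0 = 1 → mu E Y Y = 0 → p E = mu E E E → mu E E E ≠ 0 → mu E E Y ≠ 0 →
    mu Y Y Y ≠ 0 → VS E

-- deps: SCOMP BIN1
def S_CA2 : Prop :=
  ∀ (K : Type) [Field K] [LinearOrder K] [IsStrictOrderedRing K] (hf : HF K) (n : ℕ)
    (D : HD K n) (E : Vec K n) (l p0 : Frm K n), Cx hf D E l → FS p0 → p0 E = D.mu E E E →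
    ∀ y, CA D E l y → gam D.mu E l y ≠ 0 → False

-- deps: SCOMP SPANA
def S_CA3 : Prop :=
  ∀ (K : Type) [Field K] [LinearOrder K] [IsStrictOrderedRing K] (hf : HF K) (n : ℕ)
    (D : HD K n) (E : Vec K n) (l p0 : Frm K n), Cx hf D E l → FS p0 → p0 E = D.mu E E E →
    ∀ y, CA D E l y → gam D.mu E l y = 0 → ∃ b, Fam hf D.mu l b ∧ O2 D E l p0 b

-- deps:
def S_LEMI : Prop :=
  ∀ (K : Type) [Field K] [LinearOrder K] [IsStrictOrderedRing K]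
    (M : Type) [AddCommGroup M] [Module K M] (d : Derivation ℚ K K) (N : M →+ M) (m : Tri K M)
    (ga nu : M →ₗ[K] K) (al a : K) (y : M), Sym3 m → (∀ (s : K) x, N (s • x) = s • N x + d s • x) →
    (∀ x y z, d (m x y z) = m (N x) y z + m x (N y) z + m x y (N z)) →
    (∀ x x', m y x x' = ga x * nu x' + nu x * ga x') →
    (∀ x, d (ga x) = ga (N x) + 2 * al * ga x - a * nu x) → a ≠ 0 → (∃ x, ga x = 0 ∧ nu x ≠ 0) →
    (∃ x, ga x ≠ 0) → ga y = 0 →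
    ∃ ka : M →ₗ[K] K, (∀ x, m y y x = 0) ∧ (∀ x, m y (N y) x = 0) ∧ (∀ x, m (N y) (N y) x = 0) ∧
      (∀ x x', m (N y) x x' = ga x * ka x' + ka x * ga x' - 2 * a * nu x * nu x') ∧
      ∀ t t', ga t = 0 → nu t = 0 → ga t' = 0 → nu t' = 0 →
        m (N (N (N y))) t t' = -6 * a * ka t * ka t'

-- deps: FO SO YN LEMI
def S_CBI : Prop :=
  ∀ (K : Type) [Field K] [LinearOrder K] [IsStrictOrderedRing K] (hf : HF K) (n : ℕ)
    (D : HD K n) (E : Vec K n) (l : Frm K n), Cx hf D E l → D.mu E E E ≠ 0 →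
    ∀ d : Derivation ℚ K K, (∃ x, l x = 0 ∧ gam D.mu E l x = 0 ∧ nu d E l x ≠ 0) →
    gam D.mu E l (yy d E l) = 0 → False

-- deps: FO SO YN
def S_CBS : Prop :=
  ∀ (K : Type) [Field K] [LinearOrder K] [IsStrictOrderedRing K] (hf : HF K) (n : ℕ)
    (D : HD K n) (E : Vec K n) (l : Frm K n), Cx hf D E l → D.mu E E E ≠ 0 →
    ∀ d : Derivation ℚ K K, (∃ x, l x = 0 ∧ gam D.mu E l x = 0 ∧ nu d E l x ≠ 0) →
    gam D.mu E l (yy d E l) ≠ 0 → CB D E l (yy d E l) (nab d E l (yy d E l)) (nu d E l)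

-- deps:
def S_CBB1 : Prop :=
  ∀ (K : Type) [Field K] [LinearOrder K] [IsStrictOrderedRing K] (hf : HF K) (n : ℕ)
    (D : HD K n) (E : Vec K n) (l : Frm K n), Cx hf D E l →
    ∀ y w nu, CB D E l y w nu → (∃ x ∈ ann D.mu (RB D E l nu), x ∈ RB D E l nu ∧ x ≠ 0) →
    ∃ f chi e, CC D E l y f chi nu e

-- deps:
def S_BIN2 : Prop :=
  ∀ (K : Type) [Field K] [LinearOrder K] [IsStrictOrderedRing K] (hf : HF K)
    (mu : Tri K (Vec K 2)) (Q : Vec K 2 →ₗ[K] Vec K 2 →ₗ[K] K) (E Y : Vec K 2) (m : K),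
    Sym3 mu → TS mu → (∀ x y, Q x y = Q y x) → (∀ x y, VS x → VS y → Std (Q x y)) →
    VA hf E → VA hf Y → m ∈ AR hf → E 0 * Y 1 - E 1 * Y 0 = 1 → mu E Y Y = 0 → mu E E E ≠ 0 →
    mu E E Y ≠ 0 → Q E Y = m * mu E E Y →
    (m * mu E E E - Q E E) * mu Y Y Y + Q Y Y * mu E E Y ≠ 0 → VS E ∨ (mu Y Y Y = 0 ∧ VS Y)

-- deps: SCOMP BIN2
def S_CBB2 : Prop :=
  ∀ (K : Type) [Field K] [LinearOrder K] [IsStrictOrderedRing K] (hf : HF K) (n : ℕ)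
    (D : HD K n) (E : Vec K n) (l : Frm K n), Cx hf D E l →
    ∀ y f chi nu e, CC D E l y f chi nu e → ∃ w Y z j k, CD hf D E l f w Y z chi e j k

-- deps: SPANA
def S_CBB3 : Prop :=
  ∀ (K : Type) [Field K] [LinearOrder K] [IsStrictOrderedRing K] (hf : HF K) (n : ℕ)
    (D : HD K n) (E : Vec K n) (l p0 : Frm K n), Cx hf D E l → FS p0 → p0 E = D.mu E E E →
    ∀ f w Y z chi e j k, CD hf D E l f w Y z chi e j k → ∃ b, Fam hf D.mu l b ∧ O3 hf D E l p0 b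

-- deps: SCOMP
def S_CBA1 : Prop :=
  ∀ (K : Type) [Field K] [LinearOrder K] [IsStrictOrderedRing K] (h2 : HF2 K) (n : ℕ)
    (D : HD K n) (E : Vec K n) (l p0 : Frm K n), Cx h2.toHF D E l → FS p0 → p0 E = D.mu E E E →
    ∀ y w nu, CB D E l y w nu → (∀ x ∈ ann D.mu (RB D E l nu), x ∈ RB D E l nu → x = 0) →
    ∃ (X : TF h2.toHF) (j : Vec K 3 →ₗ[K] Vec K n) (r : Vec K n →ₗ[K] Vec K 3),
      (∀ x, VS x → VS (j x)) ∧ (∀ x, VA h2.toHF x → VA h2.toHF (j x)) ∧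
      (∀ x, VA h2.toHF x → VA h2.toHF (r x)) ∧ (∀ x, j x ∈ ann D.mu (RB D E l nu)) ∧
      (∀ x, x - j (r x) ∈ RB D E l nu) ∧ (∀ x y z, X.mu x y z = D.mu (j x) (j y) (j z)) ∧
      (∀ x, X.p x = p0 (j x)) ∧ j X.E = E ∧ ∀ x, l (j x) = X.l x

-- deps:
def S_TN1 : Prop :=
  ∀ (K : Type) [Field K] [LinearOrder K] [IsStrictOrderedRing K] (hf : HF K) (X : TF hf), Std (X.mu X.E X.E X.Y) ∧ Std X.Hh

-- deps:
def S_TFL : Prop :=
  ∀ (K : Type) [Field K] [LinearOrder K] [IsStrictOrderedRing K] (hf : HF K) (X : TF hf), X.Nm →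
    (∀ d : Derivation ℚ K K, ∃ al s : K, X.Flow d al s) ∧
      ∃ (d : Derivation ℚ K K) (al s : K), X.Flow d al s ∧ s ≠ 0

-- deps: TFL
def S_TN2 : Prop :=
  ∀ (K : Type) [Field K] [LinearOrder K] [IsStrictOrderedRing K] (hf : HF K) (X : TF hf), X.Nm → X.Tt ^ 2 + 64 * X.Hh ^ 3 ≠ 0 → False

-- deps: TFL
def S_TN3 : Prop :=
  ∀ (K : Type) [Field K] [LinearOrder K] [IsStrictOrderedRing K] (hf : HF K) (X : TF hf), X.Nm → X.Tt ^ 2 + 64 * X.Hh ^ 3 = 0 → X.Dd ≠ 0 → False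

-- deps:
def S_TN4 : Prop :=
  ∀ (K : Type) [Field K] [LinearOrder K] [IsStrictOrderedRing K] (hf : HF K) (X : TF hf), X.Nm → X.Dd = 0 → ∃ f z, X.Sing f z

-- deps:
def S_TN5 : Prop :=
  ∀ (K : Type) [Field K] [LinearOrder K] [IsStrictOrderedRing K] (hf : HF K) (X : TF hf), ∀ f z, X.Sing f z → ∃ z', X.Fin4 f z'

-- deps: TN1 TN2 TN3 TN4 TN5
def S_TERN : Prop :=
  ∀ (K : Type) [Field K] [LinearOrder K] [IsStrictOrderedRing K] (hf : HF K) (X : TF hf), ∃ f z, X.Fin4 f z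

-- deps: CBA1 TERN SPANA
def S_CBA2 : Prop :=
  ∀ (K : Type) [Field K] [LinearOrder K] [IsStrictOrderedRing K] (h2 : HF2 K) (n : ℕ)
    (D : HD K n) (E : Vec K n) (l p0 : Frm K n), Cx h2.toHF D E l → FS p0 → p0 E = D.mu E E E →
    ∀ y w nu, CB D E l y w nu → (∀ x ∈ ann D.mu (RB D E l nu), x ∈ RB D E l nu → x = 0) →
    ∃ b, Fam h2.toHF D.mu l b ∧ O4 D E l p0 b

-- deps: A0 ESTD Y0 CA1 CA2 CA3 CBI CBS CBB1 CBB2 CBB3 CBA2
def S_STEP : Prop :=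
  ∀ (K : Type) [Field K] [LinearOrder K] [IsStrictOrderedRing K] (h2 : HF2 K) (n : ℕ)
    (D : HD K n) (E : Vec K n) (l p0 : Frm K n), Cx h2.toHF D E l → FS p0 → p0 E = D.mu E E E → Out h2.toHF D E l p0

-- deps: FO
def S_DEATH : Prop :=
  ∀ (K : Type) [Field K] [LinearOrder K] [IsStrictOrderedRing K] (hf : HF K) (n : ℕ)
    (D : HD K n) (E : Vec K n) (l : Frm K n), Cx hf D E l →
    ∀ f chi e, D.SSp f chi e → l f ≠ 0 → VS E ∧ FS l ∧ chi E ≠ 0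

end Pool.Agent.P.MP_33ab4b_ag.B
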