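import Pool.Agent.P.MP_33ab4b_ag.B.IfaceA

/-! Statements: frames, descent, transitions, the main induction. -/

set_option autoImplicit false

namespace Pool.Agent.P.MP_33ab4b_ag.B

open Pool.Agent.P.MP_33ab4b_ag.T hiding tri

-- deps:
def S_FRAME : Prop :=
  ∀ (K : Type) [Field K] [LinearOrder K] [IsStrictOrderedRing K] (hf : HF K) (n : ℕ)
    (D : HD K (n + 1)) (D' : HD K n) (σ : HS hf D D'), D'.Ho hf → ∀ b, Fam hf D.mu σ.l b →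
    ∃ g : AIso hf n, (∀ j, σ.i (g.g (Pi.single j 1)) ∈ b) ∧
      ∀ v ∈ Submodule.span ℚ b, ∃ v', VS v' ∧ v = σ.i (g.g v')

-- deps:
def S_INV : Prop :=
  ∀ (K : Type) [Field K] [LinearOrder K] [IsStrictOrderedRing K] (hf : HF K) (n : ℕ)
    (D : HD K n), HT hf n D → ∀ g : AIso hf n, HT hf n (D.comap g.g)

-- deps: FRAME INV
def S_REFR : Prop :=
  ∀ (K : Type) [Field K] [LinearOrder K] [IsStrictOrderedRing K] (hf : HF K) (n : ℕ)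
    (D : HD K (n + 1)) (D' : HD K n) (σ : HS hf D D'), HT hf n D' → ∀ b, Fam hf D.mu σ.l b →
    ∃ (D'' : HD K n) (σ' : HS hf D D''), HT hf n D'' ∧ σ'.E = σ.E ∧ σ'.l = σ.l ∧
      (σ.Pt → σ'.Pt) ∧ (σ.Cv → σ'.Cv) ∧ σ'.Fr b

-- deps:
def S_DN : Prop :=
  ∀ (K : Type) [Field K] [LinearOrder K] [IsStrictOrderedRing K] (hf : HF K) (n : ℕ)
    (D : HD K (n + 1)) (D' : HD K n) (σ : HS hf D D'), ∀ b, Fam hf D.mu σ.l b → σ.Fr b →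
    (BF b (D.p + (3 : K) • gam D.mu σ.E σ.l) → D'.S0) ∧
    ∀ f chi e t, Low D σ.l (D.p + (3 : K) • gam D.mu σ.E σ.l) b f chi e t →
      ((D.p + (3 : K) • gam D.mu σ.E σ.l) f = 0 → chi (σ.i D'.c) = 0 → D'.SA) ∧
      ((D.p + (3 : K) • gam D.mu σ.E σ.l) f = 0 → chi (σ.i D'.c) ≠ 0 → ¬ Fi t →
        t * chi (σ.i D'.H) < 0 → D'.SC) ∧
      ∀ z, e * (D.p + (3 : K) • gam D.mu σ.E σ.l) f < 0 → ¬ Fi t → z ∈ D.N → σ.l z = 0 → BV b z →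
        chi z = 1 →
        (∀ x, σ.l x = 0 → chi x = 0 → D.mu x z z = 0 → ∀ y, σ.l y = 0 → D.mu z x y = 0) →
        (chi (σ.i D'.c) = 0 → ¬ Fi (D.mu (σ.i D'.c) z z)) → D'.SP

-- deps:
def S_UDB : Prop :=
  ∀ (K : Type) [Field K] [LinearOrder K] [IsStrictOrderedRing K] (hf : HF K) (n : ℕ)
    (D : HD K n), D.Ho hf → D.Adm → D.UD hf

-- deps:
def S_UDP : Prop :=
  ∀ (K : Type) [Field K] [LinearOrder K] [IsStrictOrderedRing K] (hf : HF K) (n : ℕ)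
    (D : HD K (n + 1)) (D' : HD K n) (σ : HS hf D D'), D.Ho hf → D'.Ho hf → σ.Pt → D'.UD hf → D.UD hf

-- deps:
def S_UDC : Prop :=
  ∀ (K : Type) [Field K] [LinearOrder K] [IsStrictOrderedRing K] (hf : HF K) (n : ℕ)
    (D : HD K (n + 1)) (D' : HD K n) (σ : HS hf D D'), D.Ho hf → D'.Ho hf → σ.Cv → D'.UD hf → D.UD hf

-- deps: UDB UDP UDC
def S_UD : Prop :=
  ∀ (K : Type) [Field K] [LinearOrder K] [IsStrictOrderedRing K] (hf : HF K) (n : ℕ)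
    (D : HD K n), HT hf n D → D.UD hf

-- deps: UD
def S_AF3 : Prop :=
  ∀ (K : Type) [Field K] [LinearOrder K] [IsStrictOrderedRing K] (hf : HF K) (n : ℕ)
    (D : HD K (n + 1)) (D' : HD K n) (σ : HS hf D D'), HT hf n D' → D.Ho hf → σ.Cv →
    ¬ Fi (D.mu σ.E σ.E σ.E) → ∀ f chi e, ∀ (u : Vec K (n + 1)) (b0 q : K), D.Sp f chi e → σ.l f = 0 →
    gam D.mu σ.E σ.l f = 0 → D.p f = 0 → u ∈ D.N → σ.l u = 0 → VA hf u → chi u = 0 →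
    gam D.mu σ.E σ.l u = -b0 → Std b0 → b0 ≠ 0 → Std q → q ≠ 0 →
    (∀ x y, σ.l x = 0 → chi x = 0 → σ.l y = 0 →
      b0 * D.mu u x y = -q * gam D.mu σ.E σ.l x * chi y) →
    chi (σ.i D'.c) ≠ 0 ∧ q * chi (σ.i D'.H) < 0

-- deps:
def S_TB : Prop :=
  ∀ (K : Type) [Field K] [LinearOrder K] [IsStrictOrderedRing K] (hf : HF K) (n : ℕ)
    (D : HD K n), D.KB hf → D.Ho hf → D.Claim

-- deps: PT SPANA REFR DN
def S_TP : Prop :=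
  ∀ (K : Type) [Field K] [LinearOrder K] [IsStrictOrderedRing K] (hf : HF K) (n : ℕ)
    (D : HD K (n + 1)) (D' : HD K n) (σ : HS hf D D'), IH hf n → HT hf n D' → D.Ho hf → σ.Pt → D.Claim

-- deps: STEP REFR DN AF3
def S_TC0 : Prop :=
  ∀ (K : Type) [Field K] [LinearOrder K] [IsStrictOrderedRing K] (h2 : HF2 K) (n : ℕ)
    (D : HD K (n + 1)) (D' : HD K n) (σ : HS h2.toHF D D'), IH h2.toHF n → HT h2.toHF n D' →
    D.Ho h2.toHF → σ.Cv → D.S0 → Fi D.c3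

-- deps: STEP REFR DN AF3 DEATH TC0
def S_TCA : Prop :=
  ∀ (K : Type) [Field K] [LinearOrder K] [IsStrictOrderedRing K] (h2 : HF2 K) (n : ℕ)
    (D : HD K (n + 1)) (D' : HD K n) (σ : HS h2.toHF D D'), IH h2.toHF n → HT h2.toHF n D' →
    D.Ho h2.toHF → σ.Cv → D.SA → Fi D.c3

-- deps: STEP REFR DN AF3 DEATH
def S_TCC : Prop :=
  ∀ (K : Type) [Field K] [LinearOrder K] [IsStrictOrderedRing K] (h2 : HF2 K) (n : ℕ)
    (D : HD K (n + 1)) (D' : HD K n) (σ : HS h2.toHF D D'), IH h2.toHF n → HT h2.toHF n D' →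
    D.Ho h2.toHF → σ.Cv → ¬ D.SC

-- deps: STEP REFR DN DEATH PT ESTD
def S_TCP : Prop :=
  ∀ (K : Type) [Field K] [LinearOrder K] [IsStrictOrderedRing K] (h2 : HF2 K) (n : ℕ)
    (D : HD K (n + 1)) (D' : HD K n) (σ : HS h2.toHF D D'), IH h2.toHF n → HT h2.toHF n D' →
    D.Ho h2.toHF → σ.Cv → ¬ D.SP

-- deps: TB TP TC0 TCA TCC TCP
def S_KM : Prop :=
  ∀ (K : Type) [Field K] [LinearOrder K] [IsStrictOrderedRing K] (h2 : HF2 K) (n : ℕ), IH h2.toHF n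

-- deps:
def S_LAT : Prop :=
  ∀ (K : Type) [Field K] [LinearOrder K] [IsStrictOrderedRing K] (hf : HF K) (n : ℕ)
    (g : AIso hf n), ∃ U V : Matrix (Fin n) (Fin n) K, (∀ i j, U i j ∈ hf.Z ∧ V i j ∈ hf.Z) ∧
      U * V = 1 ∧ ∀ j, VS (g.g.symm fun i => U i j)

-- deps:
def S_HMINK : Prop :=
  ∀ r D : ℕ, 0 < r → ∃ C : ℕ, ∀ M : Matrix (Fin r) (Fin r) ℤ, M.IsSymm → M.det ≠ 0 →
    |M.det| ≤ D → ∃ v : Fin r → ℤ, v ≠ 0 ∧ |v ⬝ᵥ M.mulVec v| ≤ C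

-- deps: HMINK
def S_HVAL : Prop :=
  ∀ r N : ℕ, 0 < r → 0 < N → ∃ C : ℕ, ∀ M : Matrix (Fin r) (Fin r) ℤ, Level M N →
    ∃ v : Fin r → ℤ, v ⬝ᵥ M.mulVec v ≠ 0 ∧ |v ⬝ᵥ M.mulVec v| ≤ C

-- deps:
def S_HQ : Prop :=
  ∀ r : ℕ, PP r → QQ r

-- deps: HVAL
def S_HP : Prop :=
  ∀ r : ℕ, QQ r → PP (r + 1)

end Pool.Agent.P.MP_33ab4b_ag.B
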