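import Pool.Agent.P.MP_33ab4b_ag.B.Stmt

/-! The numerical data of a conic bundle over a smooth surface. -/

set_option autoImplicit false

namespace Pool.Agent.P.MP_33ab4b_ag.B

/-- `phi` is the degree on the fibre, its kernel is the cohomology of the base surface with the
intersection form `c x y / 2`, `kap` is the first Chern class of the base and `Del` the class of
the discriminant curve. -/
structure Conic (G : ℕ) {n : ℕ} (D : Datum n) (phi kap Del : Fin n → ℚ) : Prop where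
  phi_int : Integral phi
  phi_c : phi ⬝ᵥ D.c = 2
  vanish : ∀ x y z, phi ⬝ᵥ x = 0 → phi ⬝ᵥ y = 0 → phi ⬝ᵥ z = 0 → D.m x y z = 0
  nondeg : ∀ x, phi ⬝ᵥ x = 0 → (∀ y, phi ⬝ᵥ y = 0 → D.m D.c x y = 0) → x = 0
  phi_kap : phi ⬝ᵥ kap = 0
  phi_Del : phi ⬝ᵥ Del = 0
  cc_eq : ∀ x, phi ⬝ᵥ x = 0 → 2 * D.m D.c D.c x = 4 * D.m D.c kap x - D.m D.c Del x
  p_eq : ∀ x, phi ⬝ᵥ x = 0 → 2 * (D.p ⬝ᵥ x) = -3 * D.m D.c Del x
  kap_le : |D.m D.c kap kap| ≤ G
  Del_le : |D.m D.c Del Del - D.m D.c kap Del| ≤ G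
  chi_le : |D.c3 - D.p ⬝ᵥ D.c| ≤ G

end Pool.Agent.P.MP_33ab4b_ag.B
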