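import Pool.Agent.P.MP_33ab4b_ag.B.IfaceU
import Pool.Agent.P.MP_33ab4b_ag.B.StmtC

/-! Statements: conic bundles, and examples. -/

set_option autoImplicit false

namespace Pool.Agent.P.MP_33ab4b_ag.B

open Pool.Agent.P.MP_33ab4b_ag.T hiding tri
open Pool.Agent.P.MP_33ab4b_ag.T.Hq
open Filter

/-- Projective three-space. -/
def exP3 : Datum 1 := ⟨fun _ _ _ => 1, ![4], ![4], ![1], ⊤⟩

/-- The blow-up of projective three-space along a line, in the basis `H0, E`; its cubic form is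
`x ^ 3 - 3 x y ^ 2 - 2 y ^ 3 = (x + y) ^ 2 (x - 2 y)`, of discriminant zero. -/
def exBl : Datum 2 :=
  ⟨![![![1, 0], ![0, -1]], ![![0, -1], ![-1, -2]]], ![1, -2], ![4, -1], ![2, -1], ⊤⟩

-- deps:
def S_KBD : Prop :=
  ∀ G M : ℕ, Kfin (fun _ D => D.Hodge G ∧ |D.c3| ≤ M)

-- deps: KBD
def S_EX : Prop :=
  exP3.Hodge 2 ∧ exP3.Adm 2 ∧ exBl.Hodge 2 ∧ Step 2 exBl exP3 !![1; 0] ![0, 1] 2 1 1 ∧
    (∀ x : Fin 2 → ℚ, exBl.m x x x = (x 0 + x 1) ^ 2 * (x 0 - 2 * x 1)) ∧ exBl.c3 = 54 ∧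
    Kfin (fun n D => D.Hodge 2 ∧ |D.c3| ≤ 64 ∧ n = 1) ∧
    Tower 2 (fun n D => D.Hodge 2 ∧ |D.c3| ≤ 64 ∧ n = 1) 2 exBl

-- deps:
def S_CKH : Prop :=
  ∀ (K : Type) [Field K] [LinearOrder K] [IsStrictOrderedRing K] (hf : HF K) (n : ℕ)
    (mu : Tri K (Vec K n)) (p phi : Frm K n) (c kap Del : Vec K n), Sym3 mu → TS mu → FS p →
    FA hf phi → VA hf c → phi c = 2 → (∀ x y z, phi x = 0 → phi y = 0 → phi z = 0 → mu x y z = 0) →
    (∀ x, phi x = 0 → (∀ y, phi y = 0 → mu c x y = 0) → x = 0) → phi kap = 0 → phi Del = 0 →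
    (∀ x, phi x = 0 → 2 * mu c c x = 4 * mu c kap x - mu c Del x) →
    (∀ x, phi x = 0 → 2 * p x = -3 * mu c Del x) → Fi (mu c kap kap) →
    Fi (mu c Del Del - mu c kap Del) → Fi (mu c c c)

-- deps: CKH ULH
def S_CK : Prop :=
  ∀ G : ℕ, Kfin (fun _ D => D.Hodge G ∧ ∃ phi kap Del, Conic G D phi kap Del)

-- deps:
def S_CADM : Prop :=
  ∀ (G n : ℕ) (D : Datum n) (phi kap Del : Fin n → ℚ), D.Hodge G → Conic G D phi kap Del →
    D.Adm (8 * G)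

-- deps:
def S_MONO : Prop :=
  ∀ (G G' : ℕ) (B B' : ∀ n, Datum n → Prop), G ≤ G' → (∀ n D, B n D → D.Hodge G → B' n D) →
    ∀ n D, Tower G B n D → Tower G' B' n D

-- deps: MAIN CK CADM MONO
def S_CMAIN : Prop :=
  ∀ G : ℕ, Kfin (Tower G fun _ D => ∃ phi kap Del, Conic G D phi kap Del)

end Pool.Agent.P.MP_33ab4b_ag.B
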