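import Pool.Agent.P.MP_33ab4b_ag.B.Basic
import Pool.Agent.P.MP_33ab4b_ag.T.TCORE

/-! Ultraproducts of data. -/

set_option autoImplicit false

namespace Pool.Agent.P.MP_33ab4b_ag.B

open Pool.Agent.P.MP_33ab4b_ag.T hiding tri
open Pool.Agent.P.MP_33ab4b_ag.T.Hq
open Filter

/-- The ultrafilter as a filter. -/
noncomputable abbrev UF : Filter ℕ := (hyperfilter ℕ : Filter ℕ)

/-- The trilinear form with a sequence of integer coefficients. -/
noncomputable def ulMu {n : ℕ} (mu : ℕ → Fin n → Fin n → Fin n → ℤ) : Tri QU (Vec QU n) :=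
  ∑ i, ∑ j, ∑ k, (hz fun r => mu r i j k) • (LinearMap.proj i : Vec QU n →ₗ[QU] QU).smulRight
    ((LinearMap.proj j : Vec QU n →ₗ[QU] QU).smulRight (LinearMap.proj k))

theorem ulMu_apply {n : ℕ} (mu : ℕ → Fin n → Fin n → Fin n → ℤ) (x y z : Vec QU n) :
    ulMu mu x y z = ∑ i, ∑ j, ∑ k, (hz fun r => mu r i j k) * x i * y j * z k := by
  simp [ulMu, LinearMap.sum_apply, mul_assoc]

theorem ulMu_hw {n : ℕ} (mu : ℕ → Fin n → Fin n → Fin n → ℤ) (x y z : ℕ → Fin n → ℚ) :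
    ulMu mu (hw x) (hw y) (hw z) = hq fun r => tri (mu r) (x r) (y r) (z r) := by
  have : (fun r => tri (mu r) (x r) (y r) (z r)) = ∑ i, ∑ j, ∑ k, (fun r => (mu r i j k : ℚ)) *
      (fun r => x r i) * (fun r => y r j) * fun r => z r k := by
    funext k; simp [Finset.sum_apply, tri]
  rw [this, ulMu_apply]
  simp only [map_sum, map_mul, hz_def, hw]

theorem fmK_hw' {n : ℕ} (p x : ℕ → Fin n → ℚ) : fmK (hw p) (hw x) = hq fun r => p r ⬝ᵥ x r := by
  rw [fmK_apply, hq_sum]; rfl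

theorem hw_eq {n : ℕ} {x y : ℕ → Fin n → ℚ} : hw x = hw y ↔ ∀ᶠ r in UF, x r = y r := by
  rw [funext_iff]
  simp only [hw, hq_eq, funext_iff, eventually_all]

theorem hw_add {n : ℕ} (x y : ℕ → Fin n → ℚ) : hw (fun r => x r + y r) = hw x + hw y :=
  funext fun i => map_add hq (fun r => x r i) fun r => y r i

theorem hw_sub {n : ℕ} (x y : ℕ → Fin n → ℚ) : hw (fun r => x r - y r) = hw x - hw y :=
  funext fun i => map_sub hq (fun r => x r i) fun r => y r i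

theorem hw_smul {n : ℕ} (s : ℕ → ℚ) (x : ℕ → Fin n → ℚ) :
    hw (fun r => s r • x r) = hq s • hw x :=
  funext fun i => map_mul hq s fun r => x r i

theorem hw_zero {n : ℕ} : hw (fun _ => (0 : Fin n → ℚ)) = 0 := funext fun _ => map_zero hq

/-- Every form is the germ of a sequence of rational forms. -/
theorem frm_surj {n : ℕ} (l : Frm QU n) : ∃ p : ℕ → Fin n → ℚ, l = fmK (hw p) := by
  obtain ⟨p, hp⟩ := hw_surj fun i => l (Pi.single i 1)
  exact ⟨p, LinearMap.ext fun x => by rw [fmK_apply, ← hp]; exact fm_eq l x⟩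

/-- The ultraproduct of a sequence of subspaces. -/
noncomputable def ulN {n : ℕ} (N : ℕ → Submodule ℚ (Fin n → ℚ)) : Submodule QU (Vec QU n) where
  carrier := {x | ∃ y, x = hw y ∧ ∀ᶠ r in UF, y r ∈ N r}
  zero_mem' := ⟨fun _ => 0, hw_zero.symm, .of_forall fun r => (N r).zero_mem⟩
  add_mem' := by
    rintro _ _ ⟨x, rfl, hx⟩ ⟨y, rfl, hy⟩
    exact ⟨_, (hw_add x y).symm, (hx.and hy).mono fun r h => (N r).add_mem h.1 h.2⟩
  smul_mem' := by
    rintro s _ ⟨x, rfl, hx⟩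
    obtain ⟨s, rfl⟩ := hq_surj s
    exact ⟨_, (hw_smul s x).symm, hx.mono fun r h => (N r).smul_mem _ h⟩

theorem mem_ulN {n : ℕ} {N : ℕ → Submodule ℚ (Fin n → ℚ)} {x : ℕ → Fin n → ℚ} :
    hw x ∈ ulN N ↔ ∀ᶠ r in UF, x r ∈ N r :=
  ⟨fun ⟨_, e, h⟩ => ((hw_eq.1 e).and h).mono fun _ h => h.1 ▸ h.2, fun h => ⟨x, rfl, h⟩⟩

/-- The ultraproduct of a sequence of data. -/
noncomputable def ul {n : ℕ} (D : ℕ → Datum n) : HD QU n where
  mu := ulMu fun r => (D r).mu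
  p := fmK (hw fun r => (D r).p)
  c := hw fun r => (D r).c
  H := hw fun r => (D r).H
  N := ulN fun r => (D r).N

theorem ul_mu {n : ℕ} (D : ℕ → Datum n) (x y z : ℕ → Fin n → ℚ) :
    (ul D).mu (hw x) (hw y) (hw z) = hq fun r => (D r).m (x r) (y r) (z r) := ulMu_hw _ x y z

theorem ul_p {n : ℕ} (D : ℕ → Datum n) (x : ℕ → Fin n → ℚ) :
    (ul D).p (hw x) = hq fun r => (D r).p ⬝ᵥ x r := fmK_hw' _ x

theorem ul_c3 {n : ℕ} (D : ℕ → Datum n) : (ul D).c3 = hq fun r => (D r).c3 := ul_mu D _ _ _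

theorem ul_T {n : ℕ} (D : ℕ → Datum n) (t : ℕ → Fin n → ℚ) :
    (ul D).T (hw t) ↔ ∀ᶠ r in UF, (D r).T (t r) := by
  constructor
  · intro h
    by_contra c
    have c' := Ultrafilter.eventually_not.2 c
    have : ∀ r, ∃ x ∈ (D r).N, ∃ y ∈ (D r).N, ¬ (D r).T (t r) → (D r).m (t r) x y ≠ 0 := fun r => by
      by_cases e : (D r).T (t r)
      · exact ⟨0, (D r).N.zero_mem, 0, (D r).N.zero_mem, fun e' => absurd e e'⟩
      · have e' := e
        simp only [Datum.T, not_forall] at e'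
        obtain ⟨x, hx, y, hy, e'⟩ := e'
        exact ⟨x, hx, y, hy, fun _ => e'⟩
    choose x hx y hy e using this
    have := h (hw x) (mem_ulN.2 (.of_forall hx)) (hw y) (mem_ulN.2 (.of_forall hy))
    rw [ul_mu, ← map_zero hq, hq_eq] at this
    obtain ⟨r, a, b⟩ := (this.and c').exists
    exact e r b a
  · rintro h _ ⟨x, rfl, hx⟩ _ ⟨y, rfl, hy⟩
    rw [ul_mu, ← map_zero hq, hq_eq]
    exact (h.and (hx.and hy)).mono fun r e => e.1 _ e.2.1 _ e.2.2

theorem fi_hq {a : ℕ → ℚ} {G : ℕ} (h : ∀ᶠ r in UF, |a r| ≤ G) : Fi (hq a) := by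
  have e : ((G : ℚ) : QU) = G := by simp
  refine Fi.of_le_of_le (Std.nat G).fi.neg (Std.nat G).fi ?_ ?_
  · rw [← e, ← hq_const, ← map_neg]; exact hq_le.2 (h.mono fun r h => (abs_le.1 h).1)
  · rw [← e, ← hq_const]; exact hq_le.2 (h.mono fun r h => (abs_le.1 h).2)

theorem Z_hq {a : ℕ → ℚ} : hq a ∈ Hq.hf.Z ↔ ∀ᶠ r in UF, ∃ z : ℤ, a r = z := by
  constructor
  · rintro ⟨z, e⟩
    exact (hq_eq.1 e).mono fun r h => ⟨z r, h.symm⟩
  · intro h
    refine ⟨fun r => ⌊a r⌋, hq_eq.2 (h.mono ?_)⟩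
    rintro r ⟨z, e⟩
    change ((⌊a r⌋ : ℤ) : ℚ) = a r
    rw [e, Int.floor_intCast]

/-- A vector is over `A` if and only if a fixed multiple is almost always integral. -/
theorem VA_hw {n : ℕ} {x : ℕ → Fin n → ℚ} :
    VA Hq.hf (hw x) ↔ ∃ m : ℕ, 0 < m ∧ ∀ᶠ r in UF, Integral ((m : ℚ) • x r) := by
  have e : ∀ (m : ℕ) i, (m : QU) * hw x i = hq fun r => (m : ℚ) * x r i := fun m i => by
    rw [← Rat.cast_natCast, ← hq_const]; exact (map_mul hq _ _).symm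
  constructor
  · intro h
    choose m m0 hm using h
    refine ⟨∏ i, m i, Finset.prod_pos fun i _ => m0 i, eventually_all.2 fun i => ?_⟩
    obtain ⟨c, hc⟩ := Finset.dvd_prod_of_mem m (Finset.mem_univ i)
    have := hm i
    rw [e, Z_hq] at this
    refine this.mono ?_
    rintro r ⟨z, hz⟩
    exact ⟨c * z, by rw [hc, Pi.smul_apply, smul_eq_mul]; push_cast; rw [← hz]; ring⟩
  · rintro ⟨m, m0, h⟩ i
    exact ⟨m, m0, by rw [e, Z_hq]; exact h.mono fun r h => h i⟩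

end Pool.Agent.P.MP_33ab4b_ag.B
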