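import Pool.Agent.P.MP_33ab4b_ag.B.IfaceB
import Pool.Agent.P.MP_33ab4b_ag.B.Ult

/-! Statements: the ultrapower reduction. -/

set_option autoImplicit false

namespace Pool.Agent.P.MP_33ab4b_ag.B

open Pool.Agent.P.MP_33ab4b_ag.T hiding tri
open Pool.Agent.P.MP_33ab4b_ag.T.Hq
open Filter

-- deps: HQ HP
def S_HFQ2 : Prop :=
  ∃ h2 : HF2 QU, h2.toHF = Hq.hf

-- deps:
def S_ULH : Prop :=
  ∀ (G n : ℕ) (D : ℕ → Datum n), (∀ᶠ r in UF, (D r).Hodge G) → (ul D).Ho Hq.hf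

-- deps:
def S_ULS : Prop :=
  ∀ (G n : ℕ) (D : ℕ → Datum (n + 1)) (D' : ℕ → Datum n) (i : ℕ → Matrix (Fin (n + 1)) (Fin n) ℤ)
    (E : ℕ → Fin (n + 1) → ℚ) (k m δ : ℕ → ℚ),
    (∀ᶠ r in UF, Step G (D r) (D' r) (i r) (E r) (k r) (m r) (δ r)) →
    (∀ᶠ r in UF, (D r).Hodge G) → ∃ σ : HS Hq.hf (ul D) (ul D'), σ.Pt ∨ σ.Cv

-- deps:
def S_ULA : Prop :=
  ∀ (G n : ℕ) (D : ℕ → Datum n), (∀ᶠ r in UF, (D r).Adm G) → (ul D).Adm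

-- deps: LAT
def S_ULK : Prop :=
  ∀ (B : ∀ n, Datum n → Prop), Kfin B → ∀ (n : ℕ) (D : ℕ → Datum n), (∀ᶠ r in UF, B n (D r)) →
    ∀ g : AIso Hq.hf n, TS ((ul D).comap g.g).mu → FS ((ul D).comap g.g).p → Fi (ul D).c3

-- deps: ULH ULS ULA ULK
def S_ULT : Prop :=
  ∀ (G : ℕ) (B : ∀ n, Datum n → Prop), Kfin B → (∀ n D, B n D → D.Adm G) →
    ∀ (n : ℕ) (D : ℕ → Datum n), (∀ᶠ r in UF, Tower G B n (D r)) → HT Hq.hf n (ul D)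

-- deps: HFQ2 KM INV ULT
def S_MAIN : Prop :=
  ∀ (G : ℕ) (B : ∀ n, Datum n → Prop), Kfin B → (∀ n D, B n D → D.Adm G) → Kfin (Tower G B)

end Pool.Agent.P.MP_33ab4b_ag.B
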