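import Pool.Agent.P.MP_33ab4b_ag.B.IfaceA

section

/-! Step CBB3. -/

set_option autoImplicit false

namespace Pool.Agent.P.MP_33ab4b_ag.B

open Pool.Agent.P.MP_33ab4b_ag.T hiding tri

namespace CBB3x

variable {K : Type} [Field K] [LinearOrder K] [IsStrictOrderedRing K]

theorem one_le {m : K} (h : ¬ Fi m) : 1 ≤ |m| := by
  by_contra c
  exact h ⟨1, by simpa using (not_le.1 c).le⟩

theorem lin {m c g : K} (h : ¬ Fi m) (hc : Std c) (hg : Fi g) (e : c * m = g) : c = 0 := by
  by_contra c0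
  exact h (fi_of_std_mul hc c0 (hg.of_eq e))

theorem pos {m c g : K} (h : ¬ Fi m) (hc : Std c) (c0 : 0 < c) (hg : Fi g) :
    0 < c * m ^ 2 + g * m := by
  by_contra hn
  have h1 := one_le h
  have h2 : c * |m| * |m| ≤ |g| * |m| := by
    have : -(g * m) ≤ |g| * |m| := by rw [← abs_mul]; exact neg_le_abs _
    have e : c * |m| * |m| = c * m ^ 2 := by rw [mul_assoc, ← sq, sq_abs]
    rw [e]; linarith [not_lt.1 hn]
  have h3 : c * |m| ≤ |g| := le_of_mul_le_mul_right h2 (by linarith)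
  refine h (fi_of_std_mul hc c0.ne' (hg.of_abs_le ?_))
  rwa [abs_mul, abs_of_pos c0]

end CBB3x

open CBB3x in
theorem p_CBB3 (hSPANA : S_SPANA) :
    S_CBB3 := by
  intro K _ _ _ hf n D E l p0 X sp pE f w Y z chi e j k C
  have hs := X.ho.sym
  have ts := X.ts
  obtain ⟨e0, -⟩ := X.ho.sp_H C.ssp.toSp
  obtain ⟨lf, gf, cf⟩ := mem_RB.1 C.fR
  have fq := C.ssp.eq
  have cE : chi E = 0 := by rw [C.Eeq]; simp [C.cw, C.cY, cf]
  set b := D.mu w w Y with hb
  set q := D.mu Y Y z with hq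
  set a0 := D.mu w w w with ha0
  set u0 := D.mu w w z with hu0
  set v0 := D.mu w z z with hv0
  set v1 := D.mu Y z z with hv1
  set m := l z with hm
  have sb : Std b := ts _ _ _ C.sw C.sw C.sY
  have sq' : Std q := ts _ _ _ C.sY C.sY C.sz
  have sa0 : Std a0 := ts _ _ _ C.sw C.sw C.sw
  have su0 : Std u0 := ts _ _ _ C.sw C.sw C.sz
  have sv0 : Std v0 := ts _ _ _ C.sw C.sz C.sz
  have sv1 : Std v1 := ts _ _ _ C.sY C.sz C.sz
  have se := C.ssp.se
  have b0 : b ≠ 0 := C.b0
  have q0 : q ≠ 0 := C.q0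
  have mA : m ∈ AR hf := X.lA _ C.sz.va
  -- products with `E`
  have hE : ∀ x y, D.mu E x y = D.mu w x y + j * D.mu Y x y + k * (e * chi x * chi y) := by
    intro x y
    conv_lhs => rw [C.Eeq]
    simp [fq]
  have hE2 : ∀ x y, chi x = 0 → D.mu x y E = D.mu w x y + j * D.mu Y x y := by
    intro x y h
    rw [← symrot hs E x y, hE, h]; ring
  have wwE : D.mu w w E = a0 + j * b := by rw [hE2 _ _ C.cw, symrot hs Y w w]
  have wYE : D.mu w Y E = b := by rw [hE2 _ _ C.cw, hs.1 Y w Y, C.wYY]; ring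
  have YYE : D.mu Y Y E = 0 := by rw [hE2 _ _ C.cY, C.wYY, C.YYY]; ring
  have wzE : D.mu w z E = u0 := by rw [hE2 _ _ C.cw, hs.1 Y w z, C.wYz]; ring
  have YzE : D.mu Y z E = j * q := by rw [hE2 _ _ C.cY, C.wYz]; ring
  have EEY : D.mu E E Y = b := by
    rw [hE, cE, hs.2 w E Y, wYE, hs.2 Y E Y, YYE]; ring
  have EEw : D.mu E E w = a0 + 2 * j * b := by
    rw [hE, cE, hs.2 w E w, wwE, hs.2 Y E w, hs.1 Y w E, wYE]; ring
  have EEz : D.mu E E z = u0 + j * (j * q) := by
    rw [hE, cE, hs.2 w E z, wzE, hs.2 Y E z, YzE]; ring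
  have EEE : D.mu E E E = a0 + 3 * j * b := by
    rw [hE, cE, ← symrot hs E w E, hs.2 E w E, EEw, ← symrot hs E Y E, hs.2 E Y E, EEY]; ring
  have Ezz : D.mu E z z = v0 + j * v1 + k * e := by rw [hE, C.cz]; ring
  have EYz : D.mu E Y z = j * q := by rw [symrot hs E Y z, YzE]
  have lz' : l (z - m • E) = 0 := l_proj X.lE z
  have hj : j * q = m * b := by
    have := X.exc Y _ C.lY lz'
    rw [map_sub, map_smul, EYz, hs.2 E Y E, EEY, smul_eq_mul] at this
    linear_combination this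
  have hk : k * e = -v0 - j * v1 + 2 * m * u0 - m ^ 2 * a0 - j * b * m ^ 2 := by
    have := X.exc _ _ lz' lz'
    simp only [map_sub, map_smul, LinearMap.sub_apply, LinearMap.smul_apply, smul_eq_mul,
      hs.2 E z E, Ezz, EEz, EEE] at this
    linear_combination this + 2 * m * j * hj
  have ej : j = m * b / q := by field_simp; exact hj
  have nm : ¬ Fi m := fun h => by
    have sm := A_std_of_fi mA h
    have sj : Std j := ((sm.mul sb).div sq').of_eq ej
    have sk : Std k := by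
      have : Std (-v0 - j * v1 + 2 * m * u0 - m * m * a0 - j * b * (m * m)) :=
        (((sv0.neg.sub (sj.mul sv1)).add ((std_two.mul sm).mul su0)).sub
          ((sm.mul sm).mul sa0)).sub ((sj.mul sb).mul (sm.mul sm))
      exact (this.div se).of_eq (by field_simp; linear_combination hk)
    exact C.ns (((C.sw.add (C.sY.smul sj)).add (C.ssp.sf.smul sk)).of_eq C.Eeq)
  have m1 := one_le nm
  have m0 : m ≠ 0 := fun h => by rw [h] at m1; simp at m1; linarith
  have s1 := sp _ C.sw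
  have s2 := sp _ C.sY
  have s3 := sp _ C.ssp.sf
  have s4 := sp _ C.sz
  have hp : p0 w + j * p0 Y + k * p0 f = a0 + 3 * j * b := by
    rw [← EEE, ← pE]; conv_rhs => rw [C.Eeq]
    simp
  have pf : p0 f = 0 := by
    have g1 : Fi (-(q * a0 * p0 f) + ((e * b * p0 Y - b * v1 * p0 f + 2 * q * u0 * p0 f -
        3 * e * (b * b)) + (e * q * p0 w - q * v0 * p0 f - e * q * a0) / m) / m) := by
      refine ((sq'.mul sa0).mul s3).neg.fi.add (Fi.div (Fi.add ?_ (Fi.div ?_ m1)) m1)
      · exact (((((se.mul sb).mul s2).sub ((sb.mul sv1).mul s3)).add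
          (((std_two.mul sq').mul su0).mul s3)).sub ((std_three.mul se).mul (sb.mul sb))).fi
      · exact ((((se.mul sq').mul s1).sub ((sq'.mul sv0).mul s3)).sub ((se.mul sq').mul sa0)).fi
    have := lin nm ((sb.mul sb).mul s3) g1 (by
      field_simp
      linear_combination (-(e * q)) * hp + (q * p0 f) * hk +
        (e * p0 Y - 3 * e * b - v1 * p0 f - b * m ^ 2 * p0 f) * hj)
    simpa [b0] using this
  have pY : p0 Y = 3 * b := by
    have := lin nm (sb.mul (s2.sub (std_three.mul sb))) (sq'.mul (sa0.sub s1)).fi (by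
      rw [pf] at hp
      linear_combination q * hp - (p0 Y - 3 * b) * hj)
    rcases mul_eq_zero.1 this with h | h
    · exact absurd h b0
    · linear_combination h
  -- the vector `z2`
  set s := m ^ 2 * b / (2 * q) with hs'
  have es : 2 * s * q = m ^ 2 * b := by rw [hs']; field_simp
  have sA : s ∈ AR hf :=
    A_div ((AR hf).mul_mem ((AR hf).pow_mem mA 2) (A_of_std sb)) (std_two.mul sq')
  set z1 := z - m • E + s • Y with hz1
  have z1A : VA hf z1 := (C.sz.va.sub (X.EA.smul mA)).add (C.sY.va.smul sA)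
  have cz1 : chi z1 = 1 := by simp [hz1, C.cz, cE, C.cY]
  set k2 := -D.mu z1 z1 z1 / (3 * e) with hk2
  have k2A : k2 ∈ AR hf :=
    A_div ((AR hf).neg_mem (X.ho.muA _ _ _ z1A z1A z1A)) (std_three.mul se)
  set z2 := z1 + k2 • f with hz2
  have z2A : VA hf z2 := z1A.add (C.ssp.sf.va.smul k2A)
  have cz2 : chi z2 = 1 := by simp [hz2, cz1, cf]
  have lz2 : l z2 = 0 := by simp [hz2, hz1, X.lE, C.lY, lf, hm]
  have zzz : D.mu z2 z2 z2 = 0 := by
    simp only [hz2, map_add, map_smul, LinearMap.add_apply, LinearMap.smul_apply, smul_eq_mul,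
      hs.1 z1 f, hs.2 z1 z1 f, fq, cz1, cf]
    rw [hk2]; field_simp; ring
  have Yf : ∀ x, D.mu Y x f = 0 := fun x => by rw [← symrot hs f Y x, fq, C.cY]; ring
  have Yf' : ∀ x, D.mu Y f x = 0 := fun x => by rw [hs.2, Yf]
  have YYz2 : D.mu Y Y z2 = q := by
    simp only [hz2, hz1, map_add, map_sub, map_smul, smul_eq_mul, Yf, YYE, C.YYY]; ring
  have Yz2 : D.mu Y z2 z2 = v1 := by
    simp only [hz2, hz1, map_add, map_sub, map_smul, LinearMap.add_apply, LinearMap.sub_apply,
      LinearMap.smul_apply, smul_eq_mul, Yf, Yf', YYE, C.YYY, hs.2 Y E z, hs.2 Y E Y, hs.2 Y z Y,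
      YzE, ← symrot hs E Y E, hs.2 E Y E, EEY]
    linear_combination es - 2 * m * hj
  have gY : gam D.mu E l Y = -b := by rw [gam_ker C.lY, EEY]
  have rz : ∀ r ∈ RB D E l chi, ∀ x, D.mu r z2 x = D.mu r z x := fun r hr x => by
    have cr := (mem_RB.1 hr).2.2
    simp only [hz2, hz1, map_add, map_sub, map_smul, LinearMap.add_apply, LinearMap.sub_apply,
      LinearMap.smul_apply, smul_eq_mul, hs.1 r E, hs.1 r Y, hs.1 r f, hE, fq, cr, C.wm r hr x,
      C.Ym r hr x]
    ring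
  let B : Set (Vec K n) := {Y, z2} ∪ {v | VS v ∧ v ∈ RB D E l chi}
  have cases : ∀ v ∈ B, v = Y ∨ v = z2 ∨ (VS v ∧ v ∈ RB D E l chi) := by
    rintro v ((h | h) | h)
    · exact .inl h
    · exact .inr (.inl h)
    · exact .inr (.inr h)
  have dec : ∀ x, l x = 0 →
      x - chi x • z2 + (gam D.mu E l (x - chi x • z2) / b) • Y ∈ RB D E l chi := fun x hx => by
    refine mem_RB.2 ⟨by simp [hx, lz2, C.lY], ?_, by simp [cz2, C.cY]⟩
    rw [map_add, map_smul, gY, smul_eq_mul]; field_simp; ring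
  have stdR : ∀ r, VS r → r ∈ RB D E l chi → ∀ x ∈ B, ∀ y ∈ B, Std (D.mu r x y) := by
    intro r sr hr
    have sh : ∀ x ∈ B, ∃ x', VS x' ∧ ∀ y, D.mu r x y = D.mu r x' y := fun x hx => by
      rcases cases x hx with rfl | rfl | h
      · exact ⟨_, C.sY, fun _ => rfl⟩
      · exact ⟨z, C.sz, rz r hr⟩
      · exact ⟨x, h.1, fun _ => rfl⟩
    intro x hx y hy
    obtain ⟨x', h1, h2⟩ := sh x hx
    obtain ⟨y', h3, h4⟩ := sh y hy
    rw [h2, hs.2, h4]
    exact ts _ _ _ sr h3 h1
  set t2 := p0 z2 + 3 * gam D.mu E l z2 with ht2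
  have et2 : t2 * q = 3 * (b * b) * m ^ 2 + (2 * a0 * q + q * (p0 z - 3 * u0) / m) * m := by
    have h1 : p0 z2 = p0 z - m * (a0 + 3 * j * b) + s * (3 * b) := by
      simp only [hz2, hz1, map_add, map_sub, map_smul, smul_eq_mul, pf, pY, pE, EEE]; ring
    have h2 : gam D.mu E l z2 = (a0 + 3 * j * b) * m - (u0 + j * (j * q)) - s * b := by
      simp only [hz2, hz1, map_add, map_sub, map_smul, smul_eq_mul, gf, gY, X.gE]
      rw [gam_apply, EEE, EEz]; ring
    rw [ht2, h1, h2]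
    field_simp
    linear_combination (3 * m * b - 3 * j * q) * hj
  have fg : Fi (2 * a0 * q + q * (p0 z - 3 * u0) / m) :=
    ((std_two.mul sa0).mul sq').fi.add ((sq'.mul (s4.sub (std_three.mul su0))).fi.div m1)
  have bb : 0 < 3 * (b * b) := by have := mul_self_pos.2 b0; linarith
  have sbb : Std (3 * (b * b)) := std_three.mul (sb.mul sb)
  refine ⟨B, ⟨?_, ?_, ?_⟩, ?_, f, chi, e, Y, b, q, t2, C.ssp, lf, cE, gf, pf,
    BV.of_mem (.inr ⟨C.ssp.sf, C.fR⟩), ?_, C.YN, C.lY, C.sY.va, C.cY, gY, sb, b0, sq', q0, ?_, ?_,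
    ?_, ?_⟩
  · intro v hv
    rcases cases v hv with rfl | rfl | h
    · exact ⟨C.lY, C.sY.va⟩
    · exact ⟨lz2, z2A⟩
    · exact ⟨(mem_RB.1 h.2).1, h.1.va⟩
  · intro x hx xA
    have c1 : chi x ∈ AR hf := C.ssp.sc.fa x xA
    have x1 : VA hf (x - chi x • z2) := xA.sub (z2A.smul c1)
    have c2 : gam D.mu E l (x - chi x • z2) / b ∈ AR hf := A_div (X.gA _ x1) sb
    have h1 := (hSPANA K hf n).1 _ C.sR _ (dec x hx) (x1.add (C.sY.va.smul c2))
    have h2 := Submodule.span_mono (R := AR hf) (Set.subset_union_right (s := {Y, z2})) h1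
    have h3 : z2 ∈ Submodule.span (AR hf) B := Submodule.subset_span (.inl (.inr rfl))
    have h4 : Y ∈ Submodule.span (AR hf) B := Submodule.subset_span (.inl (.inl rfl))
    have := Submodule.sub_mem _ (Submodule.add_mem _ h2 (mem_spanA_smul c1 h3))
      (mem_spanA_smul c2 h4)
    convert this using 1
    abel
  · intro x hx y hy v hv
    rcases cases x hx with hx' | hx' | h
    rotate_left 2
    · exact stdR x h.1 h.2 y hy v hv
    all_goals
      rcases cases y hy with hy' | hy' | h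
      rotate_left 2
      · rw [hs.1]; exact stdR y h.1 h.2 x hx v hv
      all_goals
        rcases cases v hv with hv' | hv' | h
        rotate_left 2
        · rw [sym13 hs]; exact stdR v h.1 h.2 y hy x hx
        all_goals
          rw [hx', hy', hv']
          first
            | (rw [C.YYY]; exact Std.zero)
            | (rw [zzz]; exact Std.zero)
            | (rw [YYz2]; exact sq')
            | (rw [Yz2]; exact sv1)
            | (rw [hs.2 Y z2 Y, YYz2]; exact sq')
            | (rw [sym13 hs z2 Y Y, YYz2]; exact sq')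
            | (rw [hs.1 z2 Y z2, Yz2]; exact sv1)
            | (rw [sym13 hs z2 z2 Y, Yz2]; exact sv1)
  · intro h
    rw [EEE] at h
    have := lin nm sbb ((h.sub sa0.fi).mul sq'.fi) (by linear_combination (-3 * b) * hj)
    exact bb.ne' this
  · intro v hv
    rcases cases v hv with rfl | rfl | h
    · rw [C.cY]; exact Std.zero
    · rw [cz2]; exact Std.one
    · exact C.ssp.sc v h.1
  · intro x y lx cx ly
    have h1 := C.Ym _ (dec x lx) y
    have h2 := C.Ym _ (dec y ly) Y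
    simp only [cx, zero_smul, sub_zero, map_add, map_smul, LinearMap.add_apply,
      LinearMap.smul_apply, smul_eq_mul] at h1
    rw [map_add, map_sub, map_smul, map_smul] at h2
    simp only [LinearMap.add_apply, LinearMap.sub_apply, LinearMap.smul_apply, smul_eq_mul,
      hs.2 Y y Y, hs.2 Y z2 Y, YYz2, C.YYY] at h2
    have h3 : D.mu Y Y y = chi y * q := by linear_combination h2
    rw [h3] at h1
    field_simp at h1
    linear_combination h1
  · intro h
    have := lin nm sbb (((h.mul sq'.fi).div m1).sub fg) (by rw [et2]; field_simp; ring)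
    exact bb.ne' this
  · rw [et2]; exact pos nm sbb bb fg
  · intro v hv
    simp only [LinearMap.sub_apply, LinearMap.add_apply, LinearMap.smul_apply, smul_eq_mul]
    rcases cases v hv with rfl | rfl | h
    · rw [pY, gY, C.cY]; exact Std.zero.of_eq (by ring)
    · rw [cz2]; exact Std.zero.of_eq (by rw [ht2]; ring)
    · obtain ⟨-, h1, h2⟩ := mem_RB.1 h.2
      rw [h1, h2]; exact (sp v h.1).of_eq (by ring)

end Pool.Agent.P.MP_33ab4b_ag.B

end

section

/-! Step TN4. -/

set_option autoImplicit false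

namespace Pool.Agent.P.MP_33ab4b_ag.B

open Pool.Agent.P.MP_33ab4b_ag.T hiding tri

namespace TN4x

variable {K : Type} [Field K] [LinearOrder K] [IsStrictOrderedRing K] {hf : HF K} (X : TF hf)

theorem pair (b1 : X.mu X.E X.E X.Y = 1) (t x y z x' y' z' : K) :
    X.mu (X.C • X.Y + t • X.Z) (x • X.E + y • X.Y + z • X.Z) (x' • X.E + y' • X.Y + z' • X.Z) =
      X.C * x * x' + (X.C * X.c0 + t * X.c1) * y * y' + (X.C * X.c1 + t * X.c2) * (y * z' + z * y') +
        (X.C * X.c2 + t * X.C) * z * z' := by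
  have s := X.sym
  simp only [map_add, map_smul, LinearMap.add_apply, LinearMap.smul_apply, smul_eq_mul,
    symrot s X.Y X.E X.E ▸ sym13 s X.Y X.E X.E, s.1 X.Y X.E, s.1 X.Z X.E, sym13 s X.Y X.Y X.E,
    sym13 s X.Z X.Z X.E, sym13 s X.Z X.Y X.E, sym13 s X.Y X.Z X.E, s.2 X.E X.Y X.E, s.2 X.E X.Z X.E,
    s.2 X.E X.Z X.Y, s.2 X.Y X.Z X.Y, s.1 X.Z X.Y, sym13 s X.Z X.Z X.Y, b1, X.EYY, X.EYZ, X.EZZ,
    X.EEZ, TF.c0, TF.c1, TF.c2, TF.C]
  ring

theorem basis (v : Vec K 3) : ∃ x y z : K, v = x • X.E + y • X.Y + z • X.Z :=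
  ⟨_, _, _, by rw [← cramer X.E X.Y X.Z v, X.det, one_smul]⟩

end TN4x

theorem p_TN4 :
    S_TN4 := by
  intro K _ _ _ hf X ⟨b1, _⟩ hD
  have C0 : X.C ≠ 0 := X.C0
  have H0 : X.Hh ≠ 0 := X.h0
  have e0 : X.G ^ 2 + 4 * X.Hh ^ 3 = X.C ^ 2 * X.Dd := by
    simp only [TF.G, TF.Hh, TF.Dd]; ring
  obtain ⟨h, hG⟩ : ∃ h, X.G = -2 * X.Hh * h := ⟨-X.G / (2 * X.Hh), by field_simp⟩
  have hH : X.Hh = -h ^ 2 := mul_left_cancel₀ (pow_ne_zero 2 H0) (by
    rw [hD, hG] at e0; linear_combination e0 / 4)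
  have h0 : h ≠ 0 := by rintro rfl; exact H0 (by simpa using hH)
  obtain ⟨t, rfl⟩ : ∃ t, h = t + X.c2 := ⟨h - X.c2, by ring⟩
  rw [hH, TF.G] at hG
  rw [TF.Hh] at hH
  have P := TN4x.pair X b1 t
  have q1 : X.C * X.c1 + t * X.c2 = -(t + X.c2) * t := by linear_combination hH
  have q0 : X.C * (X.C * X.c0 + t * X.c1) = (t + X.c2) * t ^ 2 := by
    linear_combination hG + (t + 3 * X.c2) * hH
  rw [q1] at P
  generalize hF : X.C • X.Y + t • X.Z = F at P
  have hF' : F = (0 : K) • X.E + X.C • X.Y + t • X.Z := by rw [← hF, zero_smul, zero_add]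
  have hE : X.E = (1 : K) • X.E + (0 : K) • X.Y + (0 : K) • X.Z := by simp
  have FF : ∀ x, X.mu F F x = 0 := fun x => by
    obtain ⟨a, b, c, rfl⟩ := TN4x.basis X x
    have := P 0 X.C t a b c
    rw [← hF'] at this
    rw [this]
    linear_combination b * q0
  obtain ⟨f, s, sf, hs⟩ := vline hf (x := F) fun d => by
    have k : ∀ x, X.mu F (dv d F) x = 0 := fun x => by
      have := X.ts.der d F F x
      rw [FF, FF, map_zero, X.sym.1 (dv d F)] at this
      linear_combination -this / 2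
    obtain ⟨a, b, c, e⟩ := TN4x.basis X (dv d F)
    have k1 := P a b c 1 0 0
    have k2 := P a b c 0 0 1
    rw [← e, k] at k1 k2
    have a0 : a = 0 := mul_left_cancel₀ C0 (by linear_combination -k1)
    have c1 : c * X.C = b * t := mul_left_cancel₀ h0 (by linear_combination -k2)
    refine ⟨b / X.C, ?_⟩
    rw [e, a0, ← hF, smul_add, smul_smul, smul_smul, zero_smul, zero_add, div_mul_cancel₀ _ C0,
      div_mul_eq_mul_div, ← c1, mul_div_cancel_right₀ _ C0]
  have FE : X.mu F X.E X.E = X.C := by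
    have := P 1 0 0 1 0 0
    rw [← hE] at this
    rw [this]; ring
  have s0 : s ≠ 0 := by
    rintro rfl
    rw [hs, zero_smul] at FE
    exact C0 (by simpa using FE.symm)
  have ef : f = s⁻¹ • F := by rw [hs, inv_smul_smul₀ s0]
  have f0 : f ≠ 0 := by
    rintro rfl
    rw [hs, smul_zero] at FE
    exact C0 (by simpa using FE.symm)
  obtain ⟨m, sm, m1⟩ := sf.exists_form f0
  have m2 : X.C * m X.Y + t * m X.Z = s := by
    have := congrArg m hs
    rwa [← hF, map_add, map_smul, map_smul, map_smul, m1, smul_eq_mul, smul_eq_mul, smul_eq_mul,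
      mul_one] at this
  refine ⟨f, (0 : K) • X.E + (-m X.Z) • X.Y + m X.Y • X.Z, sf,
    ((X.EA.smul (AR hf).zero_mem).add (X.YA.smul ((AR hf).neg_mem (sm.fa _ X.ZA)))).add
      (X.ZA.smul (sm.fa _ X.YA)), ?_, ?_, ?_, fun x => ?_, ?_, ?_⟩
  · rw [ef, ← hF]
    simp only [TF.l, det3, Pi.add_apply, Pi.smul_apply, smul_eq_mul]; ring
  · simp only [TF.l, det3, Pi.add_apply, Pi.smul_apply, smul_eq_mul]; ring
  · have := X.det
    rw [ef, ← hF]
    simp only [det3, Pi.add_apply, Pi.smul_apply, smul_eq_mul] at this ⊢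
    have e1 : s⁻¹ * s = 1 := inv_mul_cancel₀ s0
    linear_combination s⁻¹ * (X.C * m X.Y + t * m X.Z) * this + s⁻¹ * m2 + e1
  · rw [ef]
    simp [FF]
  · rw [sym13 X.sym, ef, map_smul, LinearMap.smul_apply, LinearMap.smul_apply, FE, smul_eq_mul]
    exact mul_ne_zero (inv_ne_zero s0) C0
  · rw [ef, map_smul, LinearMap.smul_apply, LinearMap.smul_apply, P, smul_eq_mul]
    refine mul_ne_zero (inv_ne_zero s0) fun e => mul_ne_zero h0 (pow_ne_zero 2 s0) ?_
    rw [← m2]
    linear_combination X.C * e - m X.Z ^ 2 * q0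

end Pool.Agent.P.MP_33ab4b_ag.B

end

section

/-! Step TERN. -/

set_option autoImplicit false

namespace Pool.Agent.P.MP_33ab4b_ag.B

open Pool.Agent.P.MP_33ab4b_ag.T hiding tri

namespace TERNx

variable {K : Type} [Field K] [LinearOrder K] [IsStrictOrderedRing K] {hf : HF K}

/-- The frame with `Y` divided and `Z` multiplied by the standard number `b = E E Y`. -/
def resc (X : TF hf) (sb : Std (X.mu X.E X.E X.Y)) : TF hf where
  mu := X.mu
  p := X.p
  E := X.E
  Y := (X.mu X.E X.E X.Y)⁻¹ • X.Y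
  Z := X.mu X.E X.E X.Y • X.Z
  sym := X.sym
  ts := X.ts
  ps := X.ps
  EA := X.EA
  YA := X.YA.smul (A_of_std sb.inv)
  ZA := X.ZA.smul (A_of_std sb)
  det := by
    have h := X.det
    have b := X.b0
    simp only [det3, Pi.smul_apply, smul_eq_mul] at h ⊢
    field_simp
    linear_combination h
  EYY := by simp [X.EYY]
  EYZ := by simp [X.EYZ]
  EZZ := by simp [X.EZZ]
  EEZ := by simp [X.EEZ]
  pE := X.pE
  a0 := X.a0
  b0 := by simp [X.b0]
  C0 := by simp [X.C0, X.b0]
  h0 := by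
    have h := X.h0
    have b := X.b0
    simp only [map_smul, LinearMap.smul_apply, smul_eq_mul]
    intro e
    apply mul_ne_zero (pow_ne_zero 2 b) h
    field_simp at e
    linear_combination e
  ns := X.ns

theorem resc_l (X : TF hf) (sb : Std (X.mu X.E X.E X.Y)) (x : Vec K 3) : (resc X sb).l x = X.l x := by
  have b := X.b0
  simp only [TF.l, resc, det3, Pi.smul_apply, smul_eq_mul]
  field_simp

theorem resc_nm (X : TF hf) (sb : Std (X.mu X.E X.E X.Y)) (sh : Std X.Hh) : (resc X sb).Nm := by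
  have b := X.b0
  refine ⟨by simp [resc, b], ((sb.mul sb).mul sh).of_eq ?_⟩
  simp only [TF.Hh, TF.c1, TF.c2, TF.C, resc, map_smul, LinearMap.smul_apply, smul_eq_mul]
  field_simp

theorem resc_fin (X : TF hf) (sb : Std (X.mu X.E X.E X.Y)) {f z : Vec K 3}
    (h : (resc X sb).Fin4 f z) : X.Fin4 f z := by
  obtain ⟨⟨a1, a2, a3, a4, a5⟩, r⟩ := h
  rw [resc_l] at a3 a4
  exact ⟨⟨a1, a2, a3, a4, a5⟩, r⟩

end TERNx

theorem p_TERN (hTN1 : S_TN1) (hTN2 : S_TN2) (hTN3 : S_TN3) (hTN4 : S_TN4) (hTN5 : S_TN5) :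
    S_TERN := by
  intro K _ _ _ hf X
  obtain ⟨sb, sh⟩ := hTN1 K hf X
  have nm := TERNx.resc_nm X sb sh
  have h1 : (TERNx.resc X sb).Tt ^ 2 + 64 * (TERNx.resc X sb).Hh ^ 3 = 0 := by
    by_contra c; exact hTN2 K hf _ nm c
  have h2 : (TERNx.resc X sb).Dd = 0 := by
    by_contra c; exact hTN3 K hf _ nm h1 c
  obtain ⟨f, z, hs⟩ := hTN4 K hf _ nm h2
  obtain ⟨z', hz⟩ := hTN5 K hf _ f z hs
  exact ⟨f, z', TERNx.resc_fin X sb hz⟩

end Pool.Agent.P.MP_33ab4b_ag.B

end

section

/-! Step Y0. -/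

set_option autoImplicit false

namespace Pool.Agent.P.MP_33ab4b_ag.B

open Pool.Agent.P.MP_33ab4b_ag.T hiding tri

theorem p_Y0 (hFO : S_FO) :
    S_Y0 := by
  intro K _ _ _ hf n D E l X hy
  have hE : VS E := by
    obtain ⟨x0, s, h0, e⟩ := vline hf (x := E) fun d => ⟨al d E l, by rw [dv_E d E l, hy, add_zero]⟩
    exact vs_of_line X.EA h0 e X.lA (by rw [X.lE]; exact Std.one) (by rw [X.lE]; exact one_ne_zero)
  refine ⟨hE, FS.of_df hf fun d => ?_⟩
  have ha : al d E l = 0 := by rw [al, hE.dv, map_zero]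
  obtain ⟨h, -, lh, gh⟩ := X.toCw.g_ne
  have F := (hFO K hf n D E l X d).1
  have F' : ∀ x x', l x = 0 → l x' = 0 →
      gam D.mu E l x * nu d E l x' + nu d E l x * gam D.mu E l x' = 0 := fun x x' a b => by
    rw [← F x x' a b, hy]; simp
  have nh : nu d E l h = 0 := by
    have := F' h h lh lh
    have h2 : gam D.mu E l h * (2 * nu d E l h) = 0 := by linear_combination this
    simpa [gh] using h2
  have nx : ∀ x, l x = 0 → nu d E l x = 0 := fun x a => by
    have := F' x h a lh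
    rw [nh, mul_zero, zero_add] at this
    simpa [gh] using this
  have hn : nu d E l = 0 := LinearMap.ext fun x => by
    have := nx (x - l x • E) (by simp [X.lE])
    rw [map_sub, map_smul, nu_E X.lE, smul_zero, sub_zero] at this
    exact this
  rw [df_l d E l, hn, ha]; simp

end Pool.Agent.P.MP_33ab4b_ag.B

end
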