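import Pool.Agent.P.MP_33ab4b_ag.B.IfaceB

section

/-! Step HQ. -/

set_option autoImplicit false

namespace Pool.Agent.P.MP_33ab4b_ag.B

open Pool.Agent.P.MP_33ab4b_ag.T hiding tri

namespace HQx

theorem finrank_ker {r : ℕ} (ψ : (Fin (r + 1) → ℤ) →ₗ[ℤ] ℤ) (v : Fin (r + 1) → ℤ)
    (hv : ψ v ≠ 0) : Module.finrank ℤ (LinearMap.ker ψ) = r := by
  have h1 : Module.finrank ℤ (LinearMap.range ψ) = 1 := by
    apply le_antisymm
    · have := Submodule.finrank_le (LinearMap.range ψ)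
      simpa using this
    · rw [Submodule.one_le_finrank_iff]
      intro h
      have : ψ v ∈ LinearMap.range ψ := ⟨v, rfl⟩
      rw [h] at this
      exact hv (by simpa using this)
  have h2 := (LinearMap.ker ψ).finrank_quotient_add_finrank
  rw [ψ.quotKerEquivRange.finrank_eq, h1] at h2
  simp only [Module.finrank_fintype_fun_eq_card, Fintype.card_fin] at h2
  omega

theorem exists_param {r : ℕ} (ψ : (Fin (r + 1) → ℤ) →ₗ[ℤ] ℤ) (v : Fin (r + 1) → ℤ)
    (hv : ψ v ≠ 0) :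
    ∃ (U : (Fin r → ℤ) →ₗ[ℤ] (Fin (r + 1) → ℤ)) (P : (Fin (r + 1) → ℤ) →ₗ[ℤ] (Fin r → ℤ)),
      (∀ y, ψ (U y) = 0) ∧ (∀ x, ψ x = 0 → ∃ y, U y = x) ∧
      (∀ x, U (P x) = ψ v • x - ψ x • v) ∧ ∀ y, P (U y) = ψ v • y := by
  let e : LinearMap.ker ψ ≃ₗ[ℤ] (Fin r → ℤ) :=
    (Module.finBasisOfFinrankEq ℤ (LinearMap.ker ψ) (finrank_ker ψ v hv)).equivFun
  let π : (Fin (r + 1) → ℤ) →ₗ[ℤ] (Fin (r + 1) → ℤ) :=
    ψ v • LinearMap.id - ψ.smulRight v
  have hπ : ∀ x, π x = ψ v • x - ψ x • v := fun x => rfl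
  have hπk : ∀ x, π x ∈ LinearMap.ker ψ := by
    intro x
    rw [LinearMap.mem_ker, hπ, map_sub, map_smul, map_smul, smul_eq_mul, smul_eq_mul]
    ring
  refine ⟨(LinearMap.ker ψ).subtype ∘ₗ e.symm.toLinearMap,
    e.toLinearMap ∘ₗ π.codRestrict _ hπk, ?_, ?_, ?_, ?_⟩
  · intro y
    exact (e.symm y).2
  · intro x hx
    exact ⟨e ⟨x, hx⟩, by simp⟩
  · intro x
    simp [hπ]
  · intro y
    have h0 : ψ (e.symm y : Fin (r + 1) → ℤ) = 0 := (e.symm y).2
    have : π.codRestrict _ hπk (e.symm y : Fin (r + 1) → ℤ) = ψ v • e.symm y := by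
      apply Subtype.ext
      simp [hπ, h0]
    simp [this]

theorem bil_symm {n : ℕ} (M : Matrix (Fin n) (Fin n) ℤ) (h : M.IsSymm) (x y : Fin n → ℤ) :
    x ⬝ᵥ M.mulVec y = y ⬝ᵥ M.mulVec x := by
  rw [Matrix.dotProduct_mulVec, dotProduct_comm, ← Matrix.mulVec_transpose, h.eq]

theorem lin_eq_sum {r n : ℕ} (U : (Fin r → ℤ) →ₗ[ℤ] (Fin n → ℤ)) (y : Fin r → ℤ) :
    U y = ∑ j, y j • U (Pi.single j 1) := by
  conv_lhs => rw [pi_eq_sum_univ' y]
  rw [map_sum]
  simp only [map_smul]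

theorem gram {r n : ℕ} (M : Matrix (Fin n) (Fin n) ℤ) (U : (Fin r → ℤ) →ₗ[ℤ] (Fin n → ℤ))
    (x y : Fin r → ℤ) :
    x ⬝ᵥ (Matrix.of fun j k => U (Pi.single j 1) ⬝ᵥ M.mulVec (U (Pi.single k 1))).mulVec y
      = U x ⬝ᵥ M.mulVec (U y) := by
  rw [lin_eq_sum U x, lin_eq_sum U y, sum_dotProduct, Matrix.mulVec_sum]
  simp only [dotProduct_sum, smul_dotProduct, Matrix.mulVec_smul, dotProduct_smul, smul_eq_mul]
  simp only [dotProduct, Matrix.mulVec, Matrix.of_apply, Finset.mul_sum]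
  refine Finset.sum_congr rfl fun j _ => Finset.sum_congr rfl fun k _ => ?_
  simp only [Finset.mul_sum, Finset.sum_mul]
  refine Finset.sum_congr rfl fun a _ => Finset.sum_congr rfl fun b _ => ?_
  ring

end HQx

open HQx in
theorem p_HQ :
    S_HQ := by
  intro r hPP N S hN
  obtain ⟨C, hC, hP⟩ := hPP (S.factorial ^ 2 * N) (by positivity)
  refine ⟨C, hC, fun M hM v hv hS => ?_⟩
  obtain ⟨hsym, X, hX⟩ := hM
  let ψ : (Fin (r + 1) → ℤ) →ₗ[ℤ] ℤ :=
    { toFun := fun x => x ⬝ᵥ M.mulVec v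
      map_add' := fun x y => add_dotProduct _ _ _
      map_smul' := fun c x => smul_dotProduct _ _ _ }
  have hψ : ∀ x, ψ x = x ⬝ᵥ M.mulVec v := fun x => rfl
  obtain ⟨U, P, hU0, hUs, hUP, hPU⟩ := exists_param ψ v hv
  set s : ℤ := v ⬝ᵥ M.mulVec v with hs
  have hψv : ψ v = s := rfl
  obtain ⟨d, hd⟩ : s ∣ (S.factorial : ℤ) := by
    rw [← Int.natAbs_dvd, Int.natCast_dvd_natCast]
    apply Nat.dvd_factorial (Int.natAbs_pos.2 hv)
    have : (s.natAbs : ℤ) ≤ S := by rw [Int.natCast_natAbs]; exact hS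
    exact_mod_cast this
  let M' : Matrix (Fin r) (Fin r) ℤ :=
    Matrix.of fun j k => U (Pi.single j 1) ⬝ᵥ M.mulVec (U (Pi.single k 1))
  have hM' : ∀ x y, x ⬝ᵥ M'.mulVec y = U x ⬝ᵥ M.mulVec (U y) := gram M U
  have hlev : Level M' (S.factorial ^ 2 * N) := by
    constructor
    · ext j k
      exact bil_symm M hsym _ _
    · let c : Fin r → Fin (r + 1) → ℤ := fun k i => P (Pi.single i 1) k
      have hc : ∀ k x, x ⬝ᵥ c k = P x k := by
        intro k x
        rw [lin_eq_sum P x]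
        simp [c, dotProduct, Finset.sum_apply]
      refine ⟨Matrix.of fun m k => d ^ 2 * P (X.mulVec (c k)) m, ?_⟩
      ext j k
      have e1 : (M' * Matrix.of fun m k => d ^ 2 * P (X.mulVec (c k)) m) j k
          = d ^ 2 * (Pi.single j 1 ⬝ᵥ M'.mulVec (P (X.mulVec (c k)))) := by
        rw [single_dotProduct, one_mul, Matrix.mul_apply]
        simp only [Matrix.mulVec, dotProduct, Matrix.of_apply, Finset.mul_sum]
        refine Finset.sum_congr rfl fun a _ => ?_
        ring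
      have e2 : M.mulVec (X.mulVec (c k)) = (N : ℤ) • c k := by
        rw [Matrix.mulVec_mulVec, hX, Matrix.smul_mulVec, Matrix.one_mulVec]
      have e3 : U (Pi.single j 1) ⬝ᵥ M.mulVec v = 0 := hU0 _
      rw [e1, hM', hUP, Matrix.mulVec_sub, Matrix.mulVec_smul, Matrix.mulVec_smul, e2,
        dotProduct_sub, dotProduct_smul, dotProduct_smul, dotProduct_smul, e3, hc, hPU, hψv]
      push_cast
      rw [hd]
      by_cases hjk : j = k
      · subst hjk
        simp
        ring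
      · simp [hjk, Ne.symm hjk]
  obtain ⟨b, hb1, hb2⟩ := hP M' hlev
  refine ⟨fun j => U (b j), fun j => hU0 _, fun j k => ?_, fun x hx => ?_⟩
  · rw [← hM']
    exact hb1 j k
  · obtain ⟨y, rfl⟩ := hUs x hx
    obtain ⟨t, ht⟩ := hb2 y
    refine ⟨t, ?_⟩
    rw [← map_smul, ht, map_sum]
    simp only [map_smul]

end Pool.Agent.P.MP_33ab4b_ag.B

end

section

/-! Step UDC. -/

set_option autoImplicit false

namespace Pool.Agent.P.MP_33ab4b_ag.B

open Pool.Agent.P.MP_33ab4b_ag.T hiding tri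

namespace UDCx

variable {K : Type} [Field K] [LinearOrder K] [IsStrictOrderedRing K]

theorem two_fi {q r c : K} (hc : c ≠ 0) (h1 : (q + r) * c ≤ 0) (h2 : 0 ≤ r * c) (f : Fi q) :
    Fi r := by
  refine f.of_abs_le ?_
  rcases lt_or_gt_of_ne hc with c0 | c0
  · have a : 0 ≤ q + r := by
      by_contra b
      exact absurd (mul_pos_of_neg_of_neg (not_le.1 b) c0) (not_lt.2 h1)
    have b : r ≤ 0 := by
      by_contra b
      exact absurd (mul_neg_of_pos_of_neg (not_le.1 b) c0) (not_lt.2 h2)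
    rw [abs_of_nonpos b]
    exact le_trans (by linarith) (le_abs_self q)
  · have a : q + r ≤ 0 := by
      by_contra b
      exact absurd (mul_pos (not_le.1 b) c0) (not_lt.2 h1)
    have b : 0 ≤ r := by
      by_contra b
      exact absurd (mul_neg_of_neg_of_pos (not_le.1 b) c0) (not_lt.2 h2)
    rw [abs_of_nonneg b]
    exact le_trans (by linarith) (neg_le_abs q)

theorem horiz {hf : HF K} {n : ℕ} {D : HD K n} {E : Vec K n} {l : Frm K n} (X : Cw hf D E l)
    {f u : Vec K n} {chi : Frm K n} {e : K} (s : D.Sp f chi e) (lf : l f ≠ 0) (cu : chi u = 0)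
    (hk : ∀ x y, chi x = 0 → chi y = 0 → D.mu u x y = 0) : ∃ t : K, u = t • f := by
  have key : ∀ x, l x = 0 → - l f * gam D.mu E l x = e * chi E * chi x := fun x hx => by
    have a := X.q f x
    rw [X.ho.sym.1, s.eq, hx] at a
    linear_combination -a
  have n0 : chi E ≠ 0 := fun c => by
    obtain ⟨h, -, b, g⟩ := X.g_ne
    have a := key h b
    rw [c] at a
    exact mul_ne_zero (neg_ne_zero.2 lf) g (by simpa using a)
  refine ⟨l u / l f, sub_eq_zero.1 (X.ho.nd fun y z => ?_)⟩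
  set r := u - (l u / l f) • f with hr
  have lr : l r = 0 := by simp [hr, lf]
  have cr : chi r = 0 := by simp [hr, cu, s.z]
  have gr : gam D.mu E l r = 0 := by
    have a := key r lr
    rw [cr, mul_zero] at a
    exact (mul_eq_zero.1 a).resolve_left (neg_ne_zero.2 lf)
  have rE : ∀ y, D.mu r E y = 0 := fun y => by rw [X.ho.sym.1, X.q, lr, gr]; simp
  have rE' : ∀ y, D.mu r y E = 0 := fun y => by rw [X.ho.sym.2, rE]
  have r0 : ∀ x y, chi x = 0 → chi y = 0 → D.mu r x y = 0 := fun x y a b => by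
    simp [hr, hk x y a b, s.eq, a]
  have := r0 (y - (chi y / chi E) • E) (z - (chi z / chi E) • E) (by simp [n0]) (by simp [n0])
  simpa [rE, rE'] using this

end UDCx

theorem p_UDC :
    S_UDC := by
  intro K _ _ _ hf n D D' σ h h' c ud f chi e u q w s pf cc uN uA cu hk huu fq huc
  have X := σ.cw h h' c
  by_cases lf : σ.l f = 0
  swap
  · obtain ⟨t, rfl⟩ := UDCx.horiz X s lf cu hk
    have a := huc D.H
    simp only [map_smul, LinearMap.smul_apply, smul_eq_mul, s.eq, cc, mul_zero, zero_mul] at a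
    rw [(mul_eq_zero.1 a.symm).resolve_right (h.sp_H s).2]
    exact Fi.zero
  obtain ⟨cE, gf⟩ := X.vert s lf
  obtain ⟨f', rfl⟩ := σ.rng f lf
  have s' := σ.sp_down s.mem s.ne (fun x y _ _ => s.eq x y) s.z
  obtain ⟨u', hu'⟩ := σ.rng _ (l_proj σ.lE u)
  set m := σ.l u with hm
  have mA : m ∈ AR hf := X.lA u uA
  have c0 : chi (σ.i D'.H) ≠ 0 := (h'.sp_H s').2
  have uE : ∀ x, σ.l x = 0 → D.mu u σ.E x = - m * gam D.mu σ.E σ.l x := fun x hx => by
    rw [h.sym.1, X.q, hx]; ring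
  set t := m * gam D.mu σ.E σ.l (σ.i D'.H) / chi (σ.i D'.H) with ht
  have mg : ∀ x, σ.l x = 0 → m * gam D.mu σ.E σ.l x = t * chi x := fun x hx => by
    have a := uE (x - (chi x / chi (σ.i D'.H)) • σ.i D'.H) (by simp [hx, σ.li])
    rw [hk _ _ cE (by simp [c0])] at a
    simp only [map_sub, map_smul, smul_eq_mul] at a
    rw [ht]
    field_simp
    field_simp at a
    linear_combination a
  have uN' : u' ∈ D'.N := σ.iN.1 (hu' ▸ D.N.sub_mem uN (D.N.smul_mem _ σ.EN))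
  have uA' : VA hf u' := (σ.iA _).1 (hu' ▸ uA.sub (X.EA.smul mA))
  have cu' : (chi ∘ₗ σ.i) u' = 0 := by
    rw [LinearMap.comp_apply, ← hu']; simp [cu, cE]
  have low : ∀ x y, D'.mu u' x y = D.mu u (σ.i x) (σ.i y) := fun x y => by
    rw [σ.mu_eq, ← hu']
    simp [σ.exc _ _ (σ.li x) (σ.li y)]
  have huu' : ∀ x, D'.mu u' u' x = (q + m * t) * (chi ∘ₗ σ.i) x := fun x => by
    rw [low, ← hu', LinearMap.comp_apply]
    simp only [map_sub, map_smul, LinearMap.sub_apply, LinearMap.smul_apply, smul_eq_mul, huu,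
      uE _ (σ.li x)]
    linear_combination m * mg _ (σ.li x)
  have huc' : ∀ x, D'.mu u' D'.c x = (w - t) * (chi ∘ₗ σ.i) x := fun x => by
    rw [low, σ.ic, c.1, LinearMap.comp_apply]
    simp only [one_smul, map_add, LinearMap.add_apply, huc, uE _ (σ.li x)]
    linear_combination -mg _ (σ.li x)
  have neg : (q + m * t) * chi (σ.i D'.H) ≤ 0 := by
    have a := huu' D'.H
    rw [LinearMap.comp_apply] at a
    rw [← a]
    rcases h'.sp_neg s' uN' cu' with b | ⟨b, rfl⟩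
    · rw [sym13 h'.sym]; exact b.le
    · simp [s'.eq, s.z]
  have pos : 0 ≤ m * t * chi (σ.i D'.H) := by
    rw [mul_assoc, ← mg _ (σ.li _), ← mul_assoc]
    exact mul_nonneg (mul_self_nonneg m) c.2.2.2.2.1.le
  have fmt : Fi (m * t) := UDCx.two_fi c0 neg pos fq
  have ft : Fi t := by
    by_cases m0 : m = 0
    · rw [ht, m0]; simpa using Fi.zero
    · exact A_fi_of_mul mA m0 fmt
  have := ud f' _ e u' _ _ s' (by rw [σ.p_eq, pf, gf]; simp)
    (by rw [LinearMap.comp_apply, σ.chi_c cE, cc]) uN' uA' cu'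
    (fun x y a b => by rw [low]; exact hk _ _ a b) huu' (fq.add fmt) huc'
  exact (this.add ft).of_eq (by ring)

end Pool.Agent.P.MP_33ab4b_ag.B

end

section

/-! Step HVAL. -/

set_option autoImplicit false

namespace Pool.Agent.P.MP_33ab4b_ag.B

open Pool.Agent.P.MP_33ab4b_ag.T hiding tri

namespace HVALx

theorem prim {r : ℕ} (v : Fin r → ℤ) (hv : v ≠ 0) :
    ∃ (g : ℤ) (w phi : Fin r → ℤ), g ≠ 0 ∧ v = g • w ∧ w ⬝ᵥ phi = 1 := by
  obtain ⟨g, hg⟩ := (IsPrincipalIdealRing.principal (Ideal.span (Set.range v))).principal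
  have hdv : ∀ i, ∃ c : ℤ, v i = g * c := by
    intro i
    have : v i ∈ Ideal.span (Set.range v) := Ideal.subset_span ⟨i, rfl⟩
    rw [hg] at this
    obtain ⟨c, hc⟩ := Submodule.mem_span_singleton.1 this
    exact ⟨c, by rw [← hc, smul_eq_mul, mul_comm]⟩
  choose w hw using hdv
  have hgm : g ∈ Ideal.span (Set.range v) := by
    rw [hg]; exact Submodule.mem_span_singleton_self g
  obtain ⟨phi, hphi⟩ := Ideal.mem_span_range_iff_exists_fun.1 hgm
  have hg0 : g ≠ 0 := by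
    rintro rfl
    apply hv
    funext i
    simp [hw i]
  refine ⟨g, w, phi, hg0, funext fun i => by simp [hw i], ?_⟩
  apply mul_left_cancel₀ hg0
  rw [mul_one]
  conv_rhs => rw [← hphi]
  simp only [dotProduct, Finset.mul_sum]
  exact Finset.sum_congr rfl fun i _ => by rw [hw i]; ring

theorem sym {r : ℕ} {M : Matrix (Fin r) (Fin r) ℤ} (h : M.IsSymm) (x y : Fin r → ℤ) :
    x ⬝ᵥ M.mulVec y = y ⬝ᵥ M.mulVec x := by
  rw [Matrix.dotProduct_mulVec, ← Matrix.mulVec_transpose, h.eq, dotProduct_comm]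

end HVALx

theorem p_HVAL (hHMINK : S_HMINK) :
    S_HVAL := by
  intro r N hr hN
  obtain ⟨C, hC⟩ := hHMINK r (N ^ r) hr
  refine ⟨C + 2 * N, ?_⟩
  rintro M ⟨hs, X, hX⟩
  have hN' : (0 : ℤ) < N := by exact_mod_cast hN
  have hdet : M.det * X.det = (N : ℤ) ^ r := by
    rw [← Matrix.det_mul, hX, Matrix.det_smul]; simp
  have hpos : (0 : ℤ) < (N : ℤ) ^ r := pow_pos hN' r
  have hd0 : M.det ≠ 0 := by
    intro h; rw [h, zero_mul] at hdet; exact hpos.ne hdet
  have hle : |M.det| ≤ ((N ^ r : ℕ) : ℤ) := by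
    push_cast
    exact Int.le_of_dvd hpos ((abs_dvd _ _).2 ⟨_, hdet.symm⟩)
  obtain ⟨v, hv0, hv⟩ := hC M hs hd0 hle
  by_cases hq : v ⬝ᵥ M.mulVec v = 0
  · obtain ⟨g, w, phi, hg, hw, hphi⟩ := HVALx.prim v hv0
    have hw0 : w ⬝ᵥ M.mulVec w = 0 := by
      rw [hw, Matrix.mulVec_smul, smul_dotProduct, dotProduct_smul, smul_eq_mul, smul_eq_mul] at hq
      rcases mul_eq_zero.1 hq with h | h
      · exact absurd h hg
      · rcases mul_eq_zero.1 h with h | h
        · exact absurd h hg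
        · exact h
    set x := X.mulVec phi with hx
    have hwx : w ⬝ᵥ M.mulVec x = N := by
      rw [hx, Matrix.mulVec_mulVec, hX, Matrix.smul_mulVec, Matrix.one_mulVec, dotProduct_smul,
        hphi]
      simp
    have hxw : x ⬝ᵥ M.mulVec w = N := by rw [HVALx.sym hs, hwx]
    set a := x ⬝ᵥ M.mulVec x with ha
    have key : ∀ t : ℤ, (x + t • w) ⬝ᵥ M.mulVec (x + t • w) = a + 2 * N * t := by
      intro t
      simp only [Matrix.mulVec_add, Matrix.mulVec_smul, add_dotProduct, dotProduct_add,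
        smul_dotProduct, dotProduct_smul, smul_eq_mul, hwx, hxw, hw0, ← ha]
      ring
    have h2 : (0 : ℤ) < 2 * N := by positivity
    have e : a + 2 * N * (-((a - 1) / (2 * N))) = (a - 1) % (2 * N) + 1 := by
      have := Int.emod_add_mul_ediv (a - 1) (2 * N)
      linear_combination -this
    have h3 := Int.emod_nonneg (a - 1) h2.ne'
    have h4 := Int.emod_lt_of_pos (a - 1) h2
    refine ⟨x + (-((a - 1) / (2 * N))) • w, ?_, ?_⟩
    · rw [key, e]; omega
    · rw [key, e, abs_le]; push_cast; constructor <;> omega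
  · refine ⟨v, hq, hv.trans ?_⟩
    push_cast; omega

end Pool.Agent.P.MP_33ab4b_ag.B

end

section

/-! Step REFR. -/

set_option autoImplicit false

namespace Pool.Agent.P.MP_33ab4b_ag.B

open Pool.Agent.P.MP_33ab4b_ag.T hiding tri

namespace REFRx

variable {K : Type} [Field K] [LinearOrder K] [IsStrictOrderedRing K] {hf : HF K} {n : ℕ}
  {D : HD K (n + 1)} {D' : HD K n}

/-- The step after a change of coordinates in the lower datum. -/
def re (σ : HS hf D D') (g : AIso hf n) : HS hf D (D'.comap g.g) where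
  i := σ.i ∘ₗ g.g.toLinearMap
  E := σ.E
  l := σ.l
  k := σ.k
  m := σ.m
  δ := σ.δ
  iA x := (σ.iA _).trans (g.va x)
  inj := σ.inj.comp g.g.injective
  lE := σ.lE
  li _ := σ.li _
  rng x hx := by
    obtain ⟨x', e⟩ := σ.rng x hx
    exact ⟨g.g.symm x', by simpa using e⟩
  exc := σ.exc
  mu_eq _ _ _ := σ.mu_eq _ _ _
  p_eq _ := σ.p_eq _
  N_eq x := (σ.N_eq x).trans ⟨fun ⟨x', h, t, e⟩ =>
    ⟨g.g.symm x', by simpa [HD.comap] using h, t, by simpa using e⟩,
    fun ⟨x', h, t, e⟩ => ⟨g.g x', h, t, e⟩⟩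
  k_pos := σ.k_pos
  H_eq := by simpa [HD.comap] using σ.H_eq
  c_eq := by simpa [HD.comap] using σ.c_eq

theorem re_c (σ : HS hf D D') (g : AIso hf n) : (re σ g).i (D'.comap g.g).c = σ.i D'.c := by
  simp [re, HD.comap]

theorem re_H (σ : HS hf D D') (g : AIso hf n) : (re σ g).i (D'.comap g.g).H = σ.i D'.H := by
  simp [re, HD.comap]

theorem c3 (g : AIso hf n) : (D'.comap g.g).c3 = D'.c3 := by simp [HD.c3, HD.comap]

end REFRx

theorem p_REFR (hFRAME : S_FRAME) (hINV : S_INV) :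
    S_REFR := by
  intro K _ _ _ hf n D D' σ ht b hb
  obtain ⟨g, h1, h2⟩ := hFRAME K hf n D D' σ ht.ho b hb
  refine ⟨_, REFRx.re σ g, hINV K hf n D' ht g, rfl, rfl, fun h => ⟨h.1, ?_⟩, fun h => ?_, h1, h2⟩
  · rw [REFRx.c3]; exact h.2
  · rw [HS.Cv, REFRx.re_c, REFRx.re_H]; exact h

end Pool.Agent.P.MP_33ab4b_ag.B

end

section

/-! Step UDB. -/

set_option autoImplicit false

namespace Pool.Agent.P.MP_33ab4b_ag.B

open Pool.Agent.P.MP_33ab4b_ag.T hiding tri

theorem p_UDB :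
    S_UDB := by
  intro K _ _ _ hf n D ho adm f chi e u q w sp pf cc uN _ cu _ _ _ hw
  have key : D.mu u D.c D.H = 0 := by
    rcases (adm f chi e sp (by rw [pf]; simp)).2.2 with ⟨s, hs⟩ | h
    · rw [ho.sym.1, hs, map_smul, LinearMap.smul_apply, LinearMap.smul_apply, sp.eq, cu]
      simp
    · obtain ⟨s, hs⟩ := h u uN cu
      rw [hs, map_smul, LinearMap.smul_apply, LinearMap.smul_apply, sp.eq, cc]
      simp
  rw [hw] at key
  rw [(mul_eq_zero.1 key).resolve_right (ho.sp_H sp).2]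
  exact Fi.zero

end Pool.Agent.P.MP_33ab4b_ag.B

end

section

/-! Step UD. -/

set_option autoImplicit false

namespace Pool.Agent.P.MP_33ab4b_ag.B

open Pool.Agent.P.MP_33ab4b_ag.T hiding tri

theorem p_UD (hUDB : S_UDB) (hUDP : S_UDP) (hUDC : S_UDC) :
    S_UD := by
  intro K _ _ _ hf n D h
  induction h with
  | base kb ho => exact hUDB K hf _ _ ho kb.2
  | step σ ht ho h ih =>
    rcases h with h | h
    · exact hUDP K hf _ _ _ σ ho ht.ho h ih
    · exact hUDC K hf _ _ _ σ ho ht.ho h ih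

end Pool.Agent.P.MP_33ab4b_ag.B

end
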