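import Mathlib

/-!
Numerical data of projective threefolds (cubic form on the second cohomology lattice, first
Pontryagin class, first Chern class, an ample class, the subspace of algebraic classes), and towers
of divisorial contractions to points and blow-downs to smooth curves.
-/

set_option autoImplicit false

namespace Pool.Agent.P.MP_33ab4b_ag.B

/-- The trilinear form on `ℚ ^ n` with integer coefficients `mu`. -/
def tri {n : ℕ} (mu : Fin n → Fin n → Fin n → ℤ) (x y z : Fin n → ℚ) : ℚ :=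
  ∑ i, ∑ j, ∑ k, (mu i j k : ℚ) * x i * y j * z k

/-- A vector with integer coordinates. -/
def Integral {n : ℕ} (x : Fin n → ℚ) : Prop := ∀ i, ∃ z : ℤ, x i = z

/-- The linear map given by an integer matrix. -/
def app {m n : ℕ} (g : Matrix (Fin m) (Fin n) ℤ) (x : Fin n → ℚ) : Fin m → ℚ :=
  fun i => ∑ j, (g i j : ℚ) * x j

/-- Cubic form `mu`, linear form `p`, classes `c` and `H`, and a subspace `N`. -/
structure Datum (n : ℕ) where
  mu : Fin n → Fin n → Fin n → ℤ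
  p : Fin n → ℚ
  c : Fin n → ℚ
  H : Fin n → ℚ
  N : Submodule ℚ (Fin n → ℚ)

namespace Datum

variable {n : ℕ} (D : Datum n)

/-- The triple product. -/
def m (x y z : Fin n → ℚ) : ℚ := tri D.mu x y z

/-- The Chern number `c ^ 3`. -/
def c3 : ℚ := D.m D.c D.c D.c

/-- The classes that are killed by all products of two elements of `N`. -/
def T (t : Fin n → ℚ) : Prop := ∀ x ∈ D.N, ∀ y ∈ D.N, D.m t x y = 0

/-- The properties coming from Hodge theory, and a bound for the denominator of `c`. -/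
structure Hodge (G : ℕ) : Prop where
  sym12 : ∀ i j k, D.mu i j k = D.mu j i k
  sym23 : ∀ i j k, D.mu i j k = D.mu i k j
  H_mem : D.H ∈ D.N
  c_mem : D.c ∈ D.N
  c_int : ∃ r : ℕ, 0 < r ∧ r ≤ G ∧ Integral ((r : ℚ) • D.c)
  split : ∀ x, ∃ y ∈ D.N, D.T (x - y)
  p_T : ∀ t, D.T t → D.p ⬝ᵥ t = 0
  index : ∀ x ∈ D.N, x ≠ 0 → D.m D.H D.H x = 0 → D.m D.H x x < 0
  lefschetz : ∀ x, (∀ y, D.m D.H x y = 0) → x = 0
  rank : ∀ (w nu : Fin n → ℚ) (e : ℚ),
    (∀ t t', D.T t → D.T t' → D.m w t t' = e * (nu ⬝ᵥ t) * (nu ⬝ᵥ t')) →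
    ∀ t, D.T t → e * (nu ⬝ᵥ t) = 0

/-- The condition on a base: a class `f` whose quadratic form is `e chi ^ 2` with `chi f = 0` and
`e * p f ≤ 0` exists only if `c ^ 3` and `p c` are bounded by `G` and either `c` is a multiple of
`f` or the multiples of `f` are the only elements of `N` killed by `chi`. -/
def Adm (G : ℕ) : Prop :=
  ∀ f ∈ D.N, ∀ (chi : Fin n → ℚ) (e : ℚ), f ≠ 0 →
    (∀ x y, D.m f x y = e * (chi ⬝ᵥ x) * (chi ⬝ᵥ y)) → chi ⬝ᵥ f = 0 → e * (D.p ⬝ᵥ f) ≤ 0 →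
    |D.c3| ≤ G ∧ |D.p ⬝ᵥ D.c| ≤ G ∧
      ((∃ s : ℚ, D.c = s • f) ∨ ∀ x ∈ D.N, chi ⬝ᵥ x = 0 → ∃ s : ℚ, x = s • f)

/-- The cubic and the linear form of `D` are isomorphic over the integers to `mu` and `p`. -/
def Iso (mu : Fin n → Fin n → Fin n → ℤ) (p : Fin n → ℚ) : Prop :=
  ∃ g : Matrix (Fin n) (Fin n) ℤ, IsUnit g ∧
    (∀ x y z, D.m (app g x) (app g y) (app g z) = tri mu x y z) ∧ ∀ x, D.p ⬝ᵥ app g x = p ⬝ᵥ x

end Datum

/-- `D'` is obtained from `D` by contracting the class `E` to a point, or blowing it down to a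
curve; `i` is the pull-back. -/
structure Step (G : ℕ) {n : ℕ} (D : Datum (n + 1)) (D' : Datum n)
    (i : Matrix (Fin (n + 1)) (Fin n) ℤ) (E : Fin (n + 1) → ℚ) (k m δ : ℚ) : Prop where
  sat : ∀ x, Integral (app i x) → Integral x
  span : ∀ x, ∃ (x' : Fin n → ℚ) (t : ℚ), x = app i x' + t • E
  exc : ∀ x y, D.m E (app i x) (app i y) = 0
  mu_eq : ∀ x y z, D'.m x y z = D.m (app i x) (app i y) (app i z)
  p_eq : ∀ x, D'.p ⬝ᵥ x = D.p ⬝ᵥ app i x - 3 * D.m E E (app i x)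
  N_eq : ∀ x, x ∈ D.N ↔ ∃ x' ∈ D'.N, ∃ t : ℚ, x = app i x' + t • E
  k_pos : 0 < k
  H_eq : D.H = k • app i D'.H - m • E
  c_eq : D.c = app i D'.c - δ • E
  kind : ((∀ x, D.m E E (app i x) = 0) ∧ |D.c3 - D'.c3| ≤ G) ∨
    (δ = 1 ∧ Integral E ∧
      (∀ x, Integral x → ∃ (x' : Fin n → ℚ) (t : ℤ), x = app i x' + (t : ℚ) • E) ∧
      D.p ⬝ᵥ E = D.m E E E ∧ D.m E E (app i D'.H) < 0 ∧
      |D.m E E E - D.m E E (app i D'.c)| ≤ G)

/-- The data that are connected to a member of the class `B` by a sequence of steps. -/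
inductive Tower (G : ℕ) (B : ∀ n, Datum n → Prop) : ∀ n, Datum n → Prop
  | base {n : ℕ} {D : Datum n} : B n D → D.Hodge G → Tower G B n D
  | step {n : ℕ} {D : Datum (n + 1)} {D' : Datum n} {i : Matrix (Fin (n + 1)) (Fin n) ℤ}
      {E : Fin (n + 1) → ℚ} {k m δ : ℚ} :
      Tower G B n D' → D.Hodge G → Step G D D' i E k m δ → Tower G B (n + 1) D

/-- In the class `B`, the cubic and the linear form determine `c ^ 3` up to finite ambiguity. -/
def Kfin (B : ∀ n, Datum n → Prop) : Prop :=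
  ∀ (n : ℕ) (mu : Fin n → Fin n → Fin n → ℤ) (p : Fin n → ℚ),
    {q : ℚ | ∃ D : Datum n, B n D ∧ D.Iso mu p ∧ q = D.c3}.Finite

end Pool.Agent.P.MP_33ab4b_ag.B
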